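import Pool.Agent.Lib.MP_cb4a0f_co.Hk.Defs

/-!
# MP_cb4a0f_co: rotated graphs with a bounded number of vertices, statements of the modules
-/

open Classical

namespace RotWqo.Hk

open RotWqo.Bag

universe u v w

/-- (U) Large cuts and many bad half-edges for some cutting: the piece contains all small
pieces. -/
def StUniX : Prop := ∀ k M c D : ℕ, ∃ N : ℕ, ∀ (V V' : Type u) (H H' : Type v) [Nonempty H']
  (G : RotGraph V H) (A : Finset V) (G' : RotGraph V' H') (A' : Finset V') (ι : H' → ℕ)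
  (r : V → V' → Prop) (f : V → V'), A ⊆ G.verts → A' ⊆ G'.verts →
    Set.BijOn f (A : Set V) (A' : Set V') → (∀ v ∈ A, r v (f v)) → A.card ≤ k →
    (dts G A).card ≤ D → cut G A = cut G' A' → cut G' A' ≤ c →
    (∀ S, S.Nonempty → S ⊆ A' → S ≠ A' → N ≤ cut G' S) → Cutting G' A' ι M →
    N ≤ nbad G' A' M ι → ∃ β, PE r G A G' A' β

/-- (M) Many disjoint mixed intervals in one arc: many bad half-edges. -/
def StMix : Prop := ∀ M N : ℕ, ∃ W : ℕ, ∀ (V : Type u) (H : Type v) (G : RotGraph V H)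
  (A : Finset V) (ι : H → ℕ) (x : V) (i : ℕ) (X : ℕ → Finset H), A ⊆ G.verts → x ∈ A →
    Cutting G A ι M →
    (∀ w < W, IsInt G x (X w) ∧ (∀ h ∈ X w, ι h = i) ∧ Mix G ι (X w)) →
    (∀ w w', w < w' → w' < W → Bef G (X w) (X w')) →
    ∃ (G₁ : RotGraph V H) (ι₁ : H → ℕ), Sub1 G₁ G A ∧ Cutting G₁ A ι₁ M ∧ N ≤ nbad G₁ A M ι₁

/-- (P) Many consecutive gadgets in an interval with loops only: many bad half-edges. -/
def StGad : Prop := ∀ N : ℕ, ∃ W q : ℕ, ∀ (V : Type u) (H : Type v) (G : RotGraph V H)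
  (A : Finset V) (x : V) (R : Finset H) (X : ℕ → Finset H), A ⊆ G.verts → x ∈ A →
    IsInt G x R → (∀ h ∈ R, G.base (G.opp h) = x) →
    (∀ w < W, X w ⊆ R ∧ Gad G q (X w)) →
    (∀ w w', w < w' → w' < W → Bef G (X w) (X w')) →
    ∃ (G₁ : RotGraph V H) (ι₁ : H → ℕ), Sub1 G₁ G A ∧ Cutting G₁ A ι₁ 4 ∧ N ≤ nbad G₁ A 4 ι₁

/-- (V) The vortex lemma. -/
def StVortex : Prop := ∀ N q : ℕ, ∃ θ : ℕ, ∀ (V : Type u) (H : Type v) (G : RotGraph V H)
  (A : Finset V) (x : V) (L : Finset H), A ⊆ G.verts → x ∈ A → Poor N 5 G A →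
    IsInt G x L → L.Nonempty → ¬ Tame θ G x L L → Gad G q L

/-- (L) Cutting into tame arcs. -/
def StTame : Prop := ∀ 𝒩 : ℕ → ℕ, ∃ M₀ r θ : ℕ, ∀ (V : Type u) (H : Type v) (G : RotGraph V H)
  (A : Finset V), A ⊆ G.verts → (∀ M ≤ M₀, Poor (𝒩 M) M G A) →
    ∃ ι : H → ℕ, Cutting G A ι r ∧ ∀ x ∈ A, ∀ i, (arc G ι x i).Nonempty →
      Tame θ G x (arc G ι x i) (arc G ι x i)

/-- (S) The structure of poor pieces. -/
def StStruct : Prop := ∀ (k c : ℕ) (𝒩 : ℕ → ℕ), ∃ M₀ s w : ℕ, ∀ (V : Type u) (H : Type v)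
  (G : RotGraph V H) (A : Finset V), A ⊆ G.verts → A.card ≤ k → cut G A ≤ c →
    (∀ M ≤ M₀, Poor (𝒩 M) M G A) →
    ∃ ι : H → ℕ, Cutting G A ι s ∧ (dts G A = ∅ ∨ ∃ t, IsSegCar w G A ι t)

/-- (H) Pieces of the arc version (from `Arc`), with an arbitrary set `X` of units. -/
def StArcX : Prop := ∀ (k n : ℕ) (Q : Type w) (q : Q → Q → Prop) [IsPreorder Q q],
  WellQuasiOrdered q → ∀ (V : ℕ → Type u) (H : ℕ → Type v) [∀ i, Nonempty (V i)]
    [∀ i, Nonempty (H i)] (G : ∀ i, RotGraph (V i) (H i)) (lab : ∀ i, V i → Q)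
    (u : ∀ i, Fin n → V i) (t : ∀ i, Tree (V i ⊕ H i)),
    (∀ i, Function.Injective (u i)) → (∀ i j, u i j ∈ (G i).verts) →
    (∀ i, (t i).leaves.Nodup) → (∀ i, (t i).set ⊆ Arc.units (G i) (u i)) →
    (∀ i v, Sum.inl v ∈ (t i).set → ((G i).rot v).length ≤ k) →
    (∀ i s, IsSub s (t i) → Arc.Cv (G i) (u i) s.set ∧ Arc.ecut (G i) (u i) s.set ≤ k) →
    ∃ m l, m < l ∧ ∃ β f φ M, Arc.PED (fun a b => q (lab m a) (lab l b)) (G m) (u m) (t m).set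
      (G l) (u l) (t l).set β f φ M

/-- (W) Pieces with segment carvings of bounded width. -/
def StSeg : Prop := ∀ (k s w : ℕ) (Q : Type w) (q : Q → Q → Prop) [IsPreorder Q q],
  WellQuasiOrdered q → ∀ (V : ℕ → Type u) (H : ℕ → Type v) [∀ i, Nonempty (V i)]
    [∀ i, Nonempty (H i)] (G : ∀ i, RotGraph (V i) (H i)) (lab : ∀ i, V i → Q)
    (A : ∀ i, Finset (V i)) (ι : ∀ i, H i → ℕ), (∀ i, A i ⊆ (G i).verts) →
    (∀ i, (A i).card ≤ k) → (∀ i, Cutting (G i) (A i) (ι i) s) →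
    (∀ i, dts (G i) (A i) = ∅ ∨ ∃ t, IsSegCar w (G i) (A i) (ι i) t) →
    ∃ m n, m < n ∧ ∃ β, PE (fun a b => q (lab m a) (lab n b)) (G m) (A m) (G n) (A n) β

/-- (A) The leaf theorem: pieces with a bounded number of vertices, any number of loops. -/
def StLeafX : Prop := ∀ (k c : ℕ) (Q : Type w) (q : Q → Q → Prop) [IsPreorder Q q],
  WellQuasiOrdered q → ∀ (V : ℕ → Type u) (H : ℕ → Type v) [∀ i, Nonempty (V i)]
    [∀ i, Nonempty (H i)] (G : ∀ i, RotGraph (V i) (H i)) (lab : ∀ i, V i → Q)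
    (A : ∀ i, Finset (V i)), (∀ i, A i ⊆ (G i).verts) → (∀ i, (A i).card ≤ k) →
    (∀ i, cut (G i) (A i) ≤ c) →
    ∃ m n, m < n ∧ ∃ β, PE (fun a b => q (lab m a) (lab n b)) (G m) (A m) (G n) (A n) β

/-- (Z) The theorem. -/
def StMainX : Prop := ∀ (k : ℕ) (Q : Type w) (q : Q → Q → Prop) [IsPreorder Q q],
  WellQuasiOrdered q → ∀ (V : ℕ → Type u) (H : ℕ → Type v) [∀ i, Nonempty (V i)]
    [∀ i, Nonempty (H i)] (G : ∀ i, RotGraph (V i) (H i)) (lab : ∀ i, V i → Q),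
    (∀ i, (G i).verts = ∅ ∨ ∃ t, IsBagTreeX k (G i) t) →
    ∃ i j, i < j ∧ Imm (fun v w => q (lab i v) (lab j w)) (G i) (G j)

end RotWqo.Hk
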