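import Pool.Agent.Lib.MP_cb4a0f_co.Arc.All
import Pool.Agent.Lib.MP_cb4a0f_co.Hk.Stmts

/-!
# MP_cb4a0f_co: pieces of the arc version, for any set of units

This is `Arc/Linked6.lean` and the core of `Arc/Main22.lean` with the units replaced by the set of
the tree.
-/

open Classical

namespace RotWqo.Hk

universe u v w

namespace ArcX19

open RotWqo.Arc

section Linked

attribute [-instance] instDecidableEqSum

open RotWqo.Arc.Linked6

/-- Linked trees of units (any set of units). -/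
theorem linkedX (hAbs : StAbs.{max u v}) (n k : ℕ) (V : Type u) (H : Type v) (G : RotGraph V H)
    (u : Fin n → V) (t : Tree (V ⊕ H)) (hnd : t.leaves.Nodup) (hset : t.set ⊆ units G u)
    (hnode : ∀ s, IsSub s t → Cv G u s.set ∧ ecut G u s.set ≤ k) :
    ∃ t' : Tree (V ⊕ H), t'.leaves.Nodup ∧ t'.set = t.set ∧
      (∀ s, IsSub s t' → Cv G u s.set ∧ ecut G u s.set ≤ k * 2 ^ n) ∧
      ∀ b a m, IsSub b t' → PathGe (rho k G u) m a b → rho k G u b.set = m →
        rho k G u a.set = m →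
        (∀ i, st G u a.set i = st G u b.set i) ∧ ecut G u a.set = ecut G u b.set ∧
          ∀ X, a.set ⊆ X → X ⊆ b.set → Cv G u X → ecut G u a.set ≤ ecut G u X := by
  have hK : ∀ S, Good k G u S → rho k G u S ≤ k * 2 ^ n + (k * 2 ^ n + 1) * (2 * n) := by
    intro S hS
    unfold rho
    exact Nat.add_le_add hS.ecut_le (Nat.mul_le_mul_left _ (pot_le G u S))
  have hmain : ∀ A B X : Finset (V ⊕ H), Good k G u A → Good k G u B → A.Nonempty → A ⊆ B →
      rho k G u A = rho k G u B → (A ⊆ X ∧ X ⊆ B ∧ Cv G u X) → rho k G u X < rho k G u A →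
      (∀ Y, (A ⊆ Y ∧ Y ⊆ B ∧ Cv G u Y) → rho k G u X ≤ rho k G u Y) →
      Good k G u X ∧
      (∀ S, Good k G u S → A ⊆ S → S ⊆ B → (A ⊆ S ∩ X ∧ S ∩ X ⊆ B ∧ Cv G u (S ∩ X)) ∧
        (A ⊆ S ∪ X ∧ S ∪ X ⊆ B ∧ Cv G u (S ∪ X)) ∧
        rho k G u (S ∩ X) + rho k G u (S ∪ X) ≤ rho k G u S + rho k G u X ∧
        Good k G u (S ∩ X) ∧ Good k G u (S ∪ X)) ∧
      (∀ S, Good k G u S → S ⊆ B → Disjoint S A → (S ∩ X).Nonempty → (S \ X).Nonempty →
        Good k G u (S ∩ X) ∧ Good k G u (S \ X) ∧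
        (((A ⊆ S ∪ X ∧ S ∪ X ⊆ B ∧ Cv G u (S ∪ X)) ∧
          rho k G u (S ∩ X) + rho k G u (S ∪ X) ≤ rho k G u S + rho k G u X) ∨
          rho k G u (S ∩ X) < rho k G u S) ∧
        (((A ⊆ X \ S ∧ X \ S ⊆ B ∧ Cv G u (X \ S)) ∧
          rho k G u (S \ X) + rho k G u (X \ S) ≤ rho k G u S + rho k G u X) ∨
          rho k G u (S \ X) < rho k G u S)) := by
    intro A B X hA hB hAne hAB hdAB hFX hXA hmin
    obtain ⟨hAX, hXB, hcX⟩ := hFX
    have hpAB : pot G u A = pot G u B := pot_eq hA.ecut_le hAB hdAB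
    -- sets between `A` and `B` have the same statuses
    have hpot : ∀ Y, A ⊆ Y → Y ⊆ B → pot G u Y = pot G u A := by
      intro Y h1 h2
      have h3 := pot_mono (G := G) (u := u) h1
      have h4 := pot_mono (G := G) (u := u) h2
      omega
    have hst : ∀ Y, A ⊆ Y → Y ⊆ B → ∀ i, st G u A i = st G u Y i := fun Y h1 h2 i =>
      st_eq_of_pot h1 (hpot Y h1 h2).symm i
    have hspl : ∀ Y, A ⊆ Y → Y ⊆ B → spl G u Y = spl G u A := fun Y h1 h2 =>
      (spl_congr (hst Y h1 h2)).symm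
    have hecX : ecut G u X < ecut G u A := by
      unfold rho at hXA
      rw [hpot X hAX hXB] at hXA
      omega
    have hminE : ∀ Y, A ⊆ Y → Y ⊆ B → Cv G u Y → ecut G u X ≤ ecut G u Y := by
      intro Y h1 h2 h3
      have h4 := hmin Y ⟨h1, h2, h3⟩
      unfold rho at h4
      rw [hpot X hAX hXB, hpot Y h1 h2] at h4
      omega
    have hGX : Good k G u X := good_of_le hA (hXB.trans hB.1) hcX hecX.le
      (hspl X hAX hXB).le
    refine ⟨hGX, ?_, ?_⟩
    · intro S hS hAS hSB
      have hcom : ∀ i, (∀ h ∈ G.rot (u i), Sum.inr h ∉ S) ∨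
          (∀ h ∈ G.rot (u i), Sum.inr h ∉ X) ∨
            ∃ e ∈ G.rot (u i), Sum.inr e ∈ S ∧ Sum.inr e ∈ X := by
        intro i
        by_cases h : ∃ e ∈ G.rot (u i), Sum.inr e ∈ A
        · obtain ⟨e, he, heA⟩ := h
          exact Or.inr (Or.inr ⟨e, he, hAS heA, hAX heA⟩)
        · push Not at h
          left
          intro h1 hh1 hS1
          by_cases h2 : st G u A i = 2
          · exact h h1 hh1 (st_two.1 h2 h1 hh1)
          · have h3 : st G u A i = 0 := by
              by_contra h4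
              have h5 := st_le G u A i
              have h6 : st G u A i = 1 := by omega
              obtain ⟨_, a, ha, haA⟩ := st_one.1 h6
              exact h a ha haA
            rw [hst S hAS hSB i] at h3
            exact (st_zero.1 h3).2 h1 hh1 hS1
      have hFi : A ⊆ S ∩ X ∧ S ∩ X ⊆ B ∧ Cv G u (S ∩ X) :=
        ⟨Finset.subset_inter hAS hAX, Finset.inter_subset_left.trans hSB, Cv.inter hS.2.1 hcX⟩
      have hFu : A ⊆ S ∪ X ∧ S ∪ X ⊆ B ∧ Cv G u (S ∪ X) :=
        ⟨hAS.trans Finset.subset_union_left, Finset.union_subset hSB hXB,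
          Cv.union hS.2.1 hcX hcom⟩
      have hsm := ecut_submod G u S X
      have h1 := hminE _ hFi.1 hFi.2.1 hFi.2.2
      have h2 := hminE _ hFu.1 hFu.2.1 hFu.2.2
      refine ⟨hFi, hFu, ?_, ?_, ?_⟩
      · unfold rho
        rw [hpot _ hFi.1 hFi.2.1, hpot _ hFu.1 hFu.2.1, hpot _ hAS hSB, hpot _ hAX hXB]
        omega
      · refine good_of_le hS (hFi.2.1.trans hB.1) hFi.2.2 (by omega) ?_
        rw [hspl _ hFi.1 hFi.2.1, hspl _ hAS hSB]
      · refine good_of_le hS (hFu.2.1.trans hB.1) hFu.2.2 (by omega) ?_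
        rw [hspl _ hFu.1 hFu.2.1, hspl _ hAS hSB]
    · intro S hS hSB hdis hne1 hne2
      -- every hub met by `S` is split in `A`
      have hmet : ∀ i, ∀ h ∈ G.rot (u i), Sum.inr h ∈ S →
          st G u S i = 1 ∧ st G u A i = 1 := by
        intro i h hh hhS
        have h0 : st G u A i ≠ 2 := fun h2 =>
          Finset.disjoint_left.1 hdis hhS (st_two.1 h2 h hh)
        have h1 : st G u B i ≠ 0 := fun h2 => (st_zero.1 h2).2 h hh (hSB hhS)
        have h2 := hst B hAB (Finset.Subset.refl B) i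
        have h3 := st_le G u A i
        have h4 : st G u A i = 1 := by omega
        have h5 : st G u S i ≠ 0 := fun h2 => (st_zero.1 h2).2 h hh hhS
        have h6 : st G u S i ≠ 2 := by
          intro h7
          have h8 := st_mono (G := G) (u := u) hSB i
          omega
        have h7 := st_le G u S i
        exact ⟨by omega, h4⟩
      have hsub1 : ∀ T, T ⊆ S → ∀ i, st G u T i = 1 → st G u S i = 1 := by
        intro T hT i h
        obtain ⟨_, a, ha, haT⟩ := st_one.1 h
        exact (hmet i a ha (hT haT)).1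
      have hSA : spl G u S ≤ spl G u X := by
        rw [hspl X hAX hXB]
        refine spl_mono fun i h => ?_
        obtain ⟨_, a, ha, haS⟩ := st_one.1 h
        exact (hmet i a ha haS).2
      have hSu := hS.1
      have hcI : Cv G u (S ∩ X) := Cv.inter hS.2.1 hcX
      have hcD : Cv G u (S \ X) := by
        refine Cv.sdiff hS.2.1 hcX fun i => ?_
        by_cases h : ∃ h ∈ G.rot (u i), Sum.inr h ∈ S
        · obtain ⟨h, hh, hhS⟩ := h
          obtain ⟨_, a, ha, haA⟩ := st_one.1 (hmet i h hh hhS).2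
          exact Or.inr ⟨a, ha, hAX haA, fun h => Finset.disjoint_left.1 hdis h haA⟩
        · push Not at h
          exact Or.inl fun h1 hh1 hS1 => absurd hS1 (h h1 hh1)
      have heX : ecut G u X ≤ k * 2 ^ n := hGX.ecut_le
      have hI : Good k G u (S ∩ X) ∧
          (((A ⊆ S ∪ X ∧ S ∪ X ⊆ B ∧ Cv G u (S ∪ X)) ∧
          rho k G u (S ∩ X) + rho k G u (S ∪ X) ≤ rho k G u S + rho k G u X) ∨
          rho k G u (S ∩ X) < rho k G u S) := by
        have hsm := ecut_submod G u S X
        by_cases hall : ∀ i, (∃ h ∈ G.rot (u i), Sum.inr h ∈ S) →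
            ∃ h ∈ G.rot (u i), Sum.inr h ∈ S ∧ Sum.inr h ∈ X
        · have hFu : A ⊆ S ∪ X ∧ S ∪ X ⊆ B ∧ Cv G u (S ∪ X) := by
            refine ⟨hAX.trans Finset.subset_union_right, Finset.union_subset hSB hXB,
              Cv.union hS.2.1 hcX fun i => ?_⟩
            by_cases h : ∃ h ∈ G.rot (u i), Sum.inr h ∈ S
            · exact Or.inr (Or.inr (hall i h))
            · push Not at h
              exact Or.inl h
          have h2 := hminE _ hFu.1 hFu.2.1 hFu.2.2
          refine ⟨good_of_le hS (Finset.inter_subset_left.trans hSu) hcI (by omega)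
            (spl_mono (hsub1 _ Finset.inter_subset_left)), Or.inl ⟨hFu, ?_⟩⟩
          unfold rho
          rw [hpot _ hFu.1 hFu.2.1, hpot _ hAX hXB]
          have h3 := Nat.mul_le_mul_left (k * 2 ^ n + 1)
            (pot_mono (G := G) (u := u) (Finset.inter_subset_left (s₁ := S) (s₂ := X)))
          omega
        · push Not at hall
          obtain ⟨i, ⟨h, hh, hhS⟩, hno⟩ := hall
          have h0 : st G u (S ∩ X) i = 0 := by
            rw [st_zero]
            refine ⟨⟨h, hh, fun h1 => ?_⟩, fun h1 hh1 h2 => ?_⟩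
            · exact hno h hh hhS (Finset.mem_inter.1 h1).2
            · exact hno h1 hh1 (Finset.mem_inter.1 h2).1 (Finset.mem_inter.1 h2).2
          have h1 := (hmet i h hh hhS).1
          refine ⟨good_drop hS hGX (Finset.inter_subset_left.trans hSu) hcI (by omega)
            (spl_lt (hsub1 _ Finset.inter_subset_left) i h0 h1) hSA, Or.inr ?_⟩
          have h2 : pot G u (S ∩ X) + 1 ≤ pot G u S := pot_lt Finset.inter_subset_left i h0 h1
          have h3 := Nat.mul_le_mul_left (k * 2 ^ n + 1) h2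
          rw [mul_add, mul_one] at h3
          unfold rho
          omega
      have hD : Good k G u (S \ X) ∧
          (((A ⊆ X \ S ∧ X \ S ⊆ B ∧ Cv G u (X \ S)) ∧
          rho k G u (S \ X) + rho k G u (X \ S) ≤ rho k G u S + rho k G u X) ∨
          rho k G u (S \ X) < rho k G u S) := by
        have hsm := ecut_posimod G u S X
        by_cases hall : ∀ i, (∃ h ∈ G.rot (u i), Sum.inr h ∈ S) →
            ∃ h ∈ G.rot (u i), Sum.inr h ∈ S ∧ Sum.inr h ∉ X
        · have hFu : A ⊆ X \ S ∧ X \ S ⊆ B ∧ Cv G u (X \ S) := by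
            refine ⟨fun x hx => Finset.mem_sdiff.2 ⟨hAX hx, fun h =>
              Finset.disjoint_left.1 hdis h hx⟩, Finset.sdiff_subset.trans hXB,
              Cv.sdiff hcX hS.2.1 fun i => ?_⟩
            by_cases h : ∃ h ∈ G.rot (u i), Sum.inr h ∈ S
            · exact Or.inr (hall i h)
            · push Not at h
              exact Or.inl fun h1 hh1 _ => h h1 hh1
          have h2 := hminE _ hFu.1 hFu.2.1 hFu.2.2
          refine ⟨good_of_le hS (Finset.sdiff_subset.trans hSu) hcD (by omega)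
            (spl_mono (hsub1 _ Finset.sdiff_subset)), Or.inl ⟨hFu, ?_⟩⟩
          unfold rho
          rw [hpot _ hFu.1 hFu.2.1, hpot _ hAX hXB]
          have h3 := Nat.mul_le_mul_left (k * 2 ^ n + 1)
            (pot_mono (G := G) (u := u) (Finset.sdiff_subset (s := S) (t := X)))
          omega
        · push Not at hall
          obtain ⟨i, ⟨h, hh, hhS⟩, hno⟩ := hall
          have h0 : st G u (S \ X) i = 0 := by
            rw [st_zero]
            refine ⟨⟨h, hh, fun h1 => ?_⟩, fun h1 hh1 h2 => ?_⟩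
            · exact (Finset.mem_sdiff.1 h1).2 (hno h hh hhS)
            · exact (Finset.mem_sdiff.1 h2).2 (hno h1 hh1 (Finset.mem_sdiff.1 h2).1)
          have h1 := (hmet i h hh hhS).1
          refine ⟨good_drop hS hGX (Finset.sdiff_subset.trans hSu) hcD (by omega)
            (spl_lt (hsub1 _ Finset.sdiff_subset) i h0 h1) hSA, Or.inr ?_⟩
          have h2 : pot G u (S \ X) + 1 ≤ pot G u S := pot_lt Finset.sdiff_subset i h0 h1
          have h3 := Nat.mul_le_mul_left (k * 2 ^ n + 1) h2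
          rw [mul_add, mul_one] at h3
          unfold rho
          omega
      exact ⟨hI.1, hD.1, hI.2, hD.2⟩
  have hgood : ∀ s, IsSub s t → Good k G u s.set := by
    intro s hs
    obtain ⟨h1, h2⟩ := hnode s hs
    refine ⟨hs.set_subset.trans hset, h1, ?_⟩
    exact Nat.mul_le_mul h2 (Nat.pow_le_pow_right (by norm_num) (spl_le G u _))
  obtain ⟨t', ht1, ht2, ht3, ht4⟩ := hAbs (V ⊕ H) (rho k G u) (Good k G u)
    (fun A B X => A ⊆ X ∧ X ⊆ B ∧ Cv G u X) _ (fun A B X h => ⟨h.1, h.2.1⟩) hK hmain t hnd hgood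
  refine ⟨t', ht1, ht2, fun s hs => ⟨(ht3 s hs).2.1, (ht3 s hs).ecut_le⟩, ?_⟩
  intro b a m hb hp hbm ham
  have hab := hp.set_subset
  have hasub : IsSub a b := TL.sub_of_path hp
  have hga := ht3 a (IsSub.trans' hasub hb)
  have hgb := ht3 b hb
  have hd : ecut G u a.set + (k * 2 ^ n + 1) * pot G u a.set =
      ecut G u b.set + (k * 2 ^ n + 1) * pot G u b.set := ham.trans hbm.symm
  have hp1 := pot_eq hga.ecut_le hab hd
  have hst := st_eq_of_pot hab hp1
  refine ⟨hst, ?_, ?_⟩
  · rw [hp1] at hd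
    omega
  · intro X h1 h2 h3
    have h4 := ht4 b a m hb hp hbm ham X ⟨h1, h2, h3⟩
    have h5 := pot_mono (G := G) (u := u) h1
    have h6 := pot_mono (G := G) (u := u) h2
    have h7 : pot G u X = pot G u a.set := by omega
    rw [← ham] at h4
    unfold rho at h4
    rw [h7] at h4
    omega

end Linked

/-! ### Leaves -/

open RotWqo.Arc.Main22 (wqo_pi pathGe set_node st_le pot_le st_two vx)

theorem leafU (hLV : StLeafV.{u, v}) (hLH : StLeafH.{u, v}) (k n : ℕ) {Q : Type w}
    (q : Q → Q → Prop) [IsPreorder Q q] (hq : WellQuasiOrdered q) (V : ℕ → Type u)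
    (H : ℕ → Type v) [∀ i, Nonempty (V i)] [∀ i, Nonempty (H i)] (G : ∀ i, RotGraph (V i) (H i))
    (lab : ∀ i, V i → Q) (u : ∀ i, Fin n → V i) (hu : ∀ i, Function.Injective (u i))
    (x : ∀ i, V i ⊕ H i) (hx : ∀ i, x i ∈ units (G i) (u i))
    (hk : ∀ i v, x i = Sum.inl v → ((G i).rot v).length ≤ k) :
    ∃ m l, m < l ∧ (∀ i, st (G m) (u m) {x m} i = st (G l) (u l) {x l} i) ∧
      ∃ β f φ M, PED (fun a b => q (lab m a) (lab l b)) (G m) (u m) {x m} (G l) (u l) {x l}
        β f φ M := by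
  let D := (Fin n → Fin 3) × Finset (Fin n) × Fin (k + 1) × Finset (Fin k × Fin k)
  have hD : WellQuasiOrdered (fun a b : D => a = b) := Finite.wellQuasiOrdered _
  have : IsPreorder (Fin n → Q) (fun a b : Fin n → Q => ∀ i, q (a i) (b i)) :=
    { refl := fun a i => _root_.refl _
      trans := fun a b c h1 h2 i => _root_.trans (h1 i) (h2 i) }
  have hP := (wqo_pi hq n).prod (hq.prod hD)
  obtain ⟨m, l, hml, h1, h2, h3⟩ := hP (fun i => (fun j => lab i (u i j),
    lab i (vx (G i) (x i)),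
    ((fun j => ⟨st (G i) (u i) {x i} j, Nat.lt_succ_of_le (st_le _ _ _ _)⟩,
      Finset.univ.filter (fun j => ∃ h, x i = Sum.inr h ∧ u i j = (G i).base h),
      ⟨min k ((G i).rot (vx (G i) (x i))).length, Nat.lt_succ_of_le (min_le_left _ _)⟩,
      pat k (G i) (vx (G i) (x i))) : D)))
  have h4 : ∀ i, st (G m) (u m) {x m} i = st (G l) (u l) {x l} i := fun i =>
    congrArg (fun p : D => ((p.1 i : Fin 3) : ℕ)) h3
  have h5 : Finset.univ.filter (fun j => ∃ h, x m = Sum.inr h ∧ u m j = (G m).base h) =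
      Finset.univ.filter (fun j => ∃ h, x l = Sum.inr h ∧ u l j = (G l).base h) :=
    congrArg (fun p : D => p.2.1) h3
  have h6 : min k ((G m).rot (vx (G m) (x m))).length =
      min k ((G l).rot (vx (G l) (x l))).length := congrArg (fun p : D => (p.2.2.1 : ℕ)) h3
  have h7 : pat k (G m) (vx (G m) (x m)) = pat k (G l) (vx (G l) (x l)) :=
    congrArg (fun p : D => p.2.2.2) h3
  have h1 : ∀ i, q (lab m (u m i)) (lab l (u l i)) := h1
  have h2 : q (lab m (vx (G m) (x m))) (lab l (vx (G l) (x l))) := h2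
  clear h3
  refine ⟨m, l, hml, h4, ?_⟩
  have hcpl : ∀ i, cpl (G m) (u m) {x m} (u m i) ↔ cpl (G l) (u l) {x l} (u l i) := by
    intro i
    rw [← st_two, ← st_two, h4]
  have hcase : ∀ i, (∃ v, x i = Sum.inl v ∧ v ∈ (G i).verts ∧ ¬ IsHub (u i) v) ∨
      ∃ h j, x i = Sum.inr h ∧ h ∈ (G i).darts ∧ u i j = (G i).base h := by
    intro i
    rcases mem_units.1 (hx i) with ⟨v, h8, h9, h10⟩ | ⟨h, h8, ⟨j, h9⟩, h10⟩
    · exact Or.inl ⟨v, h10, h8, h9⟩
    · exact Or.inr ⟨h, j, h10, h8, h9⟩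
  rcases hcase m with ⟨v, hv1, hv2, hv3⟩ | ⟨h, j, hh1, hh2, hh3⟩
  · rcases hcase l with ⟨v', hv1', hv2', hv3'⟩ | ⟨h', j', hh1', hh2', hh3'⟩
    · rw [hv1, hv1'] at h2 h6 h7 hcpl
      rw [hv1, hv1']
      have h8 := hk m v hv1
      have h9 := hk l v' hv1'
      have h6 : min k ((G m).rot v).length = min k ((G l).rot v').length := h6
      rw [min_eq_right h8, min_eq_right h9] at h6
      exact hLV n k (V m) (V l) (H m) (H l) _ (G m) (u m) (G l) (u l) v v' (hu m) (hu l) hv2 hv2'
        hv3 hv3' h1 h2 hcpl h8 h6 h7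
    · exfalso
      have h8 : j' ∈ Finset.univ.filter (fun j => ∃ h, x l = Sum.inr h ∧ u l j = (G l).base h) :=
        Finset.mem_filter.2 ⟨Finset.mem_univ _, h', hh1', hh3'⟩
      rw [← h5] at h8
      obtain ⟨-, h9, h10, -⟩ := Finset.mem_filter.1 h8
      rw [hv1] at h10
      cases h10
  · have h8 : j ∈ Finset.univ.filter (fun j => ∃ h, x m = Sum.inr h ∧ u m j = (G m).base h) :=
      Finset.mem_filter.2 ⟨Finset.mem_univ _, h, hh1, hh3⟩
    rw [h5] at h8
    obtain ⟨-, h', h10, h11⟩ := Finset.mem_filter.1 h8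
    have h12 : h' ∈ (G l).darts := by
      have h13 := hx l
      rw [h10] at h13
      exact (inr_mem_units.1 h13).1
    rw [hh1, h10] at hcpl
    rw [hh1, h10]
    exact hLH n (V m) (V l) (H m) (H l) _ (G m) (u m) (G l) (u l) j h h' (hu m) (hu l) hh2 h12
      hh3.symm h11.symm h1 hcpl

/-! ### The main argument -/

theorem coreX (hT : StTrans.{u, v}) (hLV : StLeafV.{u, v}) (hLH : StLeafH.{u, v})
    (hGl : StGlue.{u, v, w}) (hLk : StLink.{u, v}) (hAbs : StAbs.{max u v}) (k n : ℕ) {Q : Type w}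
    (q : Q → Q → Prop) [IsPreorder Q q] (hq : WellQuasiOrdered q) (V : ℕ → Type u)
    (H : ℕ → Type v) [∀ i, Nonempty (V i)] [∀ i, Nonempty (H i)] (G : ∀ i, RotGraph (V i) (H i))
    (lab : ∀ i, V i → Q) (u : ∀ i, Fin n → V i) (t : ∀ i, Tree (V i ⊕ H i))
    (hu : ∀ i, Function.Injective (u i)) (ht1 : ∀ i, (t i).leaves.Nodup)
    (ht2 : ∀ i, (t i).set ⊆ units (G i) (u i))
    (hk : ∀ i v, Sum.inl v ∈ (t i).set → ((G i).rot v).length ≤ k)
    (ht3 : ∀ i s, IsSub s (t i) → Cv (G i) (u i) s.set ∧ ecut (G i) (u i) s.set ≤ k) :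
    ∃ m l, m < l ∧ ∃ β f φ M, PED (fun a b => q (lab m a) (lab l b)) (G m) (u m) (t m).set
      (G l) (u l) (t l).set β f φ M := by
  have hT0 : ∀ i, ∃ t' : Tree (V i ⊕ H i), t'.leaves.Nodup ∧ t'.set = (t i).set ∧
      (∀ s, IsSub s t' → Cv (G i) (u i) s.set ∧ ecut (G i) (u i) s.set ≤ k * 2 ^ n) ∧
      ∀ b a m, IsSub b t' → PathGe (rho k (G i) (u i)) m a b → rho k (G i) (u i) b.set = m →
        rho k (G i) (u i) a.set = m →
        (∀ j, st (G i) (u i) a.set j = st (G i) (u i) b.set j) ∧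
        ecut (G i) (u i) a.set = ecut (G i) (u i) b.set ∧
          ∀ X, a.set ⊆ X → X ⊆ b.set → Cv (G i) (u i) X →
            ecut (G i) (u i) a.set ≤ ecut (G i) (u i) X := by
    intro i
    exact linkedX hAbs n k (V i) (H i) (G i) (u i) (t i) (ht1 i) (ht2 i) (ht3 i)
  choose T hT1 hT2 hT3 hT4 using hT0
  have hst : ∀ x : Elt (fun i => V i ⊕ H i) T, x.t.set ⊆ (t x.i).set := fun x =>
    hT2 x.i ▸ x.h.set_subset
  have hsu : ∀ x : Elt (fun i => V i ⊕ H i) T, x.t.set ⊆ units (G x.i) (u x.i) := fun x =>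
    (hst x).trans (ht2 x.i)
  have hTu : ∀ i s, IsSub s (T i) → s.set ⊆ units (G i) (u i) := fun i s hs =>
    (hT2 i ▸ hs.set_subset).trans (ht2 i)
  set le : Elt (fun i => V i ⊕ H i) T → Elt (fun i => V i ⊕ H i) T → Prop := fun x y =>
    (∀ j, st (G x.i) (u x.i) x.t.set j = st (G y.i) (u y.i) y.t.set j) ∧
    ∃ β f φ M, PED (fun v w => q (lab x.i v) (lab y.i w)) (G x.i) (u x.i) x.t.set (G y.i)
      (u y.i) y.t.set β f φ M with hle
  have : IsPreorder (Elt (fun i => V i ⊕ H i) T) le :=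
    { refl := fun x => ⟨fun _ => rfl, id, id, id, _,
        PED.refl (fun v w => q (lab x.i v) (lab x.i w)) (fun v => _root_.refl _) _ _ _⟩
      trans := by
        rintro x y z ⟨h1, β, f, φ, M, h2⟩ ⟨h3, β', f', φ', M', h4⟩
        obtain ⟨P, hP⟩ := hT n (V x.i) (V y.i) (V z.i) (H x.i) (H y.i) (H z.i)
          (fun v w => q (lab x.i v) (lab y.i w)) (fun v w => q (lab y.i v) (lab z.i w))
          (fun v w => q (lab x.i v) (lab z.i w)) (fun a b c h h' => _root_.trans h h')
          (G x.i) (u x.i) x.t.set (G y.i) (u y.i) y.t.set (G z.i) (u z.i) z.t.set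
          β f φ M β' f' φ' M' (hsu x) (hsu y) (hsu z) h2 h4
        exact ⟨fun j => (h1 j).trans (h3 j), _, _, _, P, hP⟩ }
  have main : (Set.univ : Set (Elt (fun i => V i ⊕ H i) T)).PartiallyWellOrderedOn le := by
    refine wqo_of_levels le (fun x => x.t.leaves.length)
      (fun x => rho k (G x.i) (u x.i) x.t.set) (k * 2 ^ n + (k * 2 ^ n + 1) * (2 * n)) Ch
      ?_ ?_ ?_ ?_
    · rintro x y ⟨l, r, hlr, ⟨h, rfl⟩ | ⟨h, rfl⟩⟩
      · have := leaves_pos r
        simp only [hlr, Tree.leaves, List.length_append]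
        omega
      · have := leaves_pos l
        simp only [hlr, Tree.leaves, List.length_append]
        omega
    · intro x
      exact Nat.add_le_add (hT3 x.i x.t x.h).2 (Nat.mul_le_mul_left _ (pot_le _ _ _))
    · intro m x y hx hy hd
      obtain ⟨i, b, a, hb, ha, rfl, rfl, hp⟩ := pathGe (fun i => rho k (G i) (u i)) hd
      obtain ⟨h1, h2, h3⟩ := hT4 i b a m hb hp hx hy
      obtain ⟨β, M, h4⟩ := hLk n (V i) (H i) (fun v w => q (lab i v) (lab i w))
        (fun v => _root_.refl _) (G i) (u i) a.set b.set (hu i) hp.set_subset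
        (hTu i b hb) (hT3 i a ha).1 (hT3 i b hb).1 h1 h2 h3
      exact ⟨h1, β, id, id, M, h4⟩
    · intro X hC
      set C : Set (Elt (fun i => V i ⊕ H i) T) := {y | ∃ x ∈ X, Ch x y} with hCdef
      have h1 : {x | x ∈ X ∧ ∃ v, x.t = .leaf v}.PartiallyWellOrderedOn le := by
        rw [Set.partiallyWellOrderedOn_iff_exists_lt]
        intro f hf
        choose v hv' using fun n => (hf n).2
        obtain ⟨a, b, hab, h2, h3⟩ := leafU hLV hLH k n q hq (fun m => V (f m).i)
          (fun m => H (f m).i) (fun m => G (f m).i) (fun m => lab (f m).i) (fun m => u (f m).i)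
          (fun m => hu _) v (fun m => by
            have h4 := hsu (f m)
            rw [hv' m, TL.set_leaf] at h4
            exact h4 (Finset.mem_singleton_self _)) (fun m y hy => by
            have h4 := hst (f m)
            rw [hv' m, TL.set_leaf] at h4
            refine hk _ _ ?_
            rw [← hy]
            exact h4 (Finset.mem_singleton_self _))
        refine ⟨a, b, hab, ?_⟩
        show (∀ j, st (G (f a).i) (u (f a).i) (f a).t.set j =
          st (G (f b).i) (u (f b).i) (f b).t.set j) ∧ _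
        simp only [hv', TL.set_leaf]
        exact ⟨h2, h3⟩
      have h2 : {x | x ∈ X ∧ ∃ l r, x.t = .node l r}.PartiallyWellOrderedOn le := by
        rw [Set.partiallyWellOrderedOn_iff_exists_lt]
        intro f hf
        choose l r hlr using fun n => (hf n).2
        have hsub : ∀ n, IsSub (.node (l n) (r n)) (T (f n).i) := fun n => hlr n ▸ (f n).h
        have hl : ∀ n, IsSub (l n) (T (f n).i) := fun n =>
          IsSub.trans' (.left _ _ .refl) (hsub n)
        have hr : ∀ n, IsSub (r n) (T (f n).i) := fun n =>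
          IsSub.trans' (.right _ _ .refl) (hsub n)
        have hlC : ∀ n, (⟨(f n).i, l n, hl n⟩ : Elt (fun i => V i ⊕ H i) T) ∈ C := fun n =>
          ⟨f n, (hf n).1, l n, r n, hlr n, Or.inl ⟨hl n, rfl⟩⟩
        have hrC : ∀ n, (⟨(f n).i, r n, hr n⟩ : Elt (fun i => V i ⊕ H i) T) ∈ C := fun n =>
          ⟨f n, (hf n).1, l n, r n, hlr n, Or.inr ⟨hr n, rfl⟩⟩
        obtain ⟨g, hg⟩ := hC.exists_monotone_subseq hlC
        obtain ⟨g', hg'⟩ := hC.exists_monotone_subseq (fun n => hrC (g n))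
        obtain ⟨a, b, hab, h3, h4⟩ := hGl n Q q (fun m => V (f (g (g' m))).i)
          (fun m => H (f (g (g' m))).i) (fun m => G (f (g (g' m))).i)
          (fun m => u (f (g (g' m))).i)
          (fun m => lab (f (g (g' m))).i) (fun m => (l (g (g' m))).set)
          (fun m => (r (g (g' m))).set) (fun m => hu _)
          (fun m => hTu _ _ (hl _)) (fun m => hTu _ _ (hr _))
          (fun m => disjoint_of_nodup ((hsub _).leaves_nodup (hT1 _)))
          (fun m => (hT3 _ _ (hl _)).1) (fun m => (hT3 _ _ (hr _)).1)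
          (fun m => (hg _ _ (g'.monotone (Nat.le_succ m))).2)
          (fun m => (hg' _ _ (Nat.le_succ m)).2)
        refine ⟨g (g' a), g (g' b), g.strictMono (g'.strictMono hab), ?_⟩
        show (∀ j, st (G (f (g (g' a))).i) (u (f (g (g' a))).i) (f (g (g' a))).t.set j =
          st (G (f (g (g' b))).i) (u (f (g (g' b))).i) (f (g (g' b))).t.set j) ∧ _
        simp only [hlr, set_node]
        exact ⟨h3, h4⟩
      refine (h1.union h2).mono fun x hx => ?_
      rcases hxt : x.t with v | ⟨l, r⟩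
      · exact Or.inl ⟨hx, v, hxt⟩
      · exact Or.inr ⟨hx, l, r, hxt⟩
  obtain ⟨m, l, hml, -, β, f, φ, M, hβ⟩ := main.exists_lt
    (f := fun n => (⟨n, T n, .refl⟩ : Elt (fun i => V i ⊕ H i) T)) (fun n => Set.mem_univ _)
  rw [hT2, hT2] at hβ
  exact ⟨m, l, hml, β, f, φ, M, hβ⟩

end ArcX19

/-- (H) Pieces of the arc version, for any set of units. -/
theorem arcx_19 : StArcX.{u, v, w} := by
  intro k n Q q _ hq V H _ _ G lab u t hu _ ht1 ht2 hk ht3
  exact ArcX19.coreX Arc.stTrans_21 Arc.stLeafV_21 Arc.stLeafH_21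
    (Arc.stGlue_21 Arc.stTrans_21 (Arc.Union6.stUnion_6 Arc.stNC_22)) Arc.stLink_94 Arc.stAbs_22
    k n q hq V H G lab u t hu ht1 ht2 hk ht3

end RotWqo.Hk
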