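import Pool.Agent.Lib.MP_cb4a0f_co.Hk.Stmts2
import Pool.Agent.Lib.MP_cb4a0f_co.Bag.Crd8

/-!
# MP_cb4a0f_co, hubs with loops: positions in the exploded graph and runs of parallel strands
-/

open Classical

namespace RotWqo.Hk

open RotWqo.Bag

universe u v

variable {V : Type u} {H : Type v}

/-! ### The exploded graph -/

theorem mem_expl {G : RotGraph V H} {M : ℕ} {ι : H → ℕ} {h : H} :
    h ∈ (expl G M ι).darts ↔ h ∈ G.darts ∧ ¬ AL G ι h := by
  simp [expl]

theorem expl_base (G : RotGraph V H) (M : ℕ) (ι : H → ℕ) (h : H) :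
    (expl G M ι).base h = (G.base h, ι h) := rfl

theorem expl_opp (G : RotGraph V H) (M : ℕ) (ι : H → ℕ) (h : H) :
    (expl G M ι).opp h = G.opp h := rfl

theorem mem_arcs {A : Finset V} {M : ℕ} {x : V} {i : ℕ} : (x, i) ∈ arcs A M ↔ x ∈ A ∧ i < M := by
  simp [arcs]

theorem expl_rot_sorted (G : RotGraph V H) (M : ℕ) (ι : H → ℕ) (p : V × ℕ) :
    ((expl G M ι).rot p).Pairwise (fun a b => pos G a < pos G b) :=
  (rot_sorted G p.1).filter _

theorem pos_expl_aux {G : RotGraph V H} {M : ℕ} {ι : H → ℕ} {a b : H}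
    (ha : a ∈ (expl G M ι).darts) (hb : b ∈ (expl G M ι).darts)
    (hab : (expl G M ι).base a = (expl G M ι).base b)
    (h : pos (expl G M ι) a < pos (expl G M ι) b) : pos G a < pos G b := by
  have h1 := expl_rot_sorted G M ι ((expl G M ι).base b)
  rw [List.pairwise_iff_getElem] at h1
  rw [pos_eq hab, pos_eq (rfl : (expl G M ι).base b = (expl G M ι).base b)] at h
  have ha' : a ∈ (expl G M ι).rot ((expl G M ι).base b) := hab ▸ mem_rot_of ha
  have hb' : b ∈ (expl G M ι).rot ((expl G M ι).base b) := mem_rot_of hb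
  have h2 := h1 _ _ (List.idxOf_lt_length_of_mem ha') (List.idxOf_lt_length_of_mem hb') h
  rwa [List.getElem_idxOf, List.getElem_idxOf] at h2

/-- Positions in the exploded graph are ordered as in the graph. -/
theorem pos_expl_lt {G : RotGraph V H} {M : ℕ} {ι : H → ℕ} {a b : H}
    (ha : a ∈ (expl G M ι).darts) (hb : b ∈ (expl G M ι).darts)
    (hab : (expl G M ι).base a = (expl G M ι).base b) :
    pos (expl G M ι) a < pos (expl G M ι) b ↔ pos G a < pos G b := by
  refine ⟨pos_expl_aux ha hb hab, fun h => ?_⟩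
  by_contra hc
  rcases Nat.lt_or_ge (pos (expl G M ι) b) (pos (expl G M ι) a) with h1 | h1
  · have := pos_expl_aux hb ha hab.symm h1
    omega
  · have : a = b := pos_inj ha hb hab (by omega)
    subst this
    omega

theorem pos_expl_le {G : RotGraph V H} {M : ℕ} {ι : H → ℕ} {a b : H}
    (ha : a ∈ (expl G M ι).darts) (hb : b ∈ (expl G M ι).darts)
    (hab : (expl G M ι).base a = (expl G M ι).base b) :
    pos (expl G M ι) a ≤ pos (expl G M ι) b ↔ pos G a ≤ pos G b := by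
  rw [← not_lt, ← not_lt, pos_expl_lt hb ha hab.symm]

/-! ### Runs -/

/-- Many strands between two arcs, few bad half-edges: `n` of them are consecutive strands in both
arcs, and in increasing or in decreasing order. -/
theorem exists_run {G : RotGraph V H} {A : Finset V} {M N n : ℕ} {ι : H → ℕ} {x y : V} {i j : ℕ}
    (hx : x ∈ A) (hy : y ∈ A) (hi : i < M) (hj : j < M) (hne : (x, i) ≠ (y, j))
    (hbad : nbad G A M ι < N) (hn : 0 < n)
    (hK : N * n ≤ (G.darts.filter (fun h => G.base h = x ∧ ι h = i ∧ G.base (G.opp h) = y ∧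
      ι (G.opp h) = j)).card) :
    ∃ (e : ℕ → H) (s : Bool),
      (∀ k < n, e k ∈ G.darts ∧ G.base (e k) = x ∧ ι (e k) = i ∧ G.base (G.opp (e k)) = y ∧
        ι (G.opp (e k)) = j) ∧
      (∀ k l, k < l → l < n → pos G (e k) < pos G (e l)) ∧
      (∀ k l, k < l → l < n → lt s (pos G (G.opp (e k))) (pos G (G.opp (e l)))) ∧
      (∀ g ∈ G.darts, G.base g = x → ι g = i → ¬ AL G ι g → ∀ k l, k < n → l < n →
        pos G (e k) ≤ pos G g → pos G g ≤ pos G (e l) → ∃ m < n, g = e m) ∧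
      ∀ g ∈ G.darts, G.base g = y → ι g = j → ¬ AL G ι g → ∀ k l, k < n → l < n →
        pos G (G.opp (e k)) ≤ pos G g → pos G g ≤ pos G (G.opp (e l)) →
          ∃ m < n, g = G.opp (e m) := by
  set E := expl G M ι with hE
  set B := arcs A M with hB
  set S := G.darts.filter (fun h => G.base h = x ∧ ι h = i ∧ G.base (G.opp h) = y ∧
      ι (G.opp h) = j) with hS
  have hSE : ∀ h ∈ S, h ∈ E.darts ∧ E.base h = (x, i) ∧ E.base (E.opp h) = (y, j) := by
    intro h hh
    rw [hS, Finset.mem_filter] at hh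
    obtain ⟨h1, h2, h3, h4, h5⟩ := hh
    refine ⟨mem_expl.2 ⟨h1, fun h6 => hne ?_⟩, ?_, ?_⟩
    · rw [← h2, ← h3, ← h4, ← h5, h6.1, h6.2]
    · rw [hE, expl_base, h2, h3]
    · rw [hE, expl_base, expl_opp, h4, h5]
  have hxB : (x, i) ∈ B := mem_arcs.2 ⟨hx, hi⟩
  have hyB : (y, j) ∈ B := mem_arcs.2 ⟨hy, hj⟩
  obtain ⟨c, -, hc⟩ := Finset.exists_le_card_fiber_of_mul_le_card_of_maps_to
    (s := S) (t := Finset.range N) (f := Crd8.cl E B) (n := n)
    (by
      intro h hh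
      rw [Finset.mem_range]
      exact lt_of_le_of_lt (Crd8.cl_le le_rfl h) hbad)
    ⟨0, Finset.mem_range.2 (by omega)⟩ (by rwa [Finset.card_range])
  have hsz : n ≤ Crd8.sz E B (x, i) c := by
    refine hc.trans ?_
    have := Finset.card_le_card_of_injOn (s := S.filter (fun h => Crd8.cl E B h = c))
      (t := Finset.range (Crd8.sz E B (x, i) c)) (Crd8.off E B) (by
        intro h hh
        rw [Finset.mem_coe, Finset.mem_filter] at hh
        obtain ⟨h1, h2, h3⟩ := hSE h hh.1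
        have := Crd8.off_lt (A := B) h1
        rw [h2, hh.2] at this
        exact Finset.mem_coe.2 (Finset.mem_range.2 this)) (by
        intro h hh h' hh' ho
        rw [Finset.mem_coe, Finset.mem_filter] at hh hh'
        obtain ⟨h1, h2, h3⟩ := hSE h hh.1
        obtain ⟨h1', h2', h3'⟩ := hSE h' hh'.1
        exact Crd8.off_inj h1 h1' (h2.trans h2'.symm) (hh.2.trans hh'.2.symm) ho)
    rwa [Finset.card_range] at this
  obtain ⟨h0, hh0⟩ : (S.filter (fun h => Crd8.cl E B h = c)).Nonempty := by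
    rw [← Finset.card_pos]
    omega
  rw [Finset.mem_filter] at hh0
  obtain ⟨hh0, hc0⟩ := hh0
  obtain ⟨hd0, hb0, ho0⟩ := hSE h0 hh0
  have hdo0 := E.opp_mem _ hd0
  have hex : ∀ k, ∃ h, k < n → (h ∈ E.darts ∧ E.base h = (x, i) ∧ Crd8.cl E B h = c ∧
      Crd8.off E B h = k) := by
    intro k
    by_cases hk : k < n
    · obtain ⟨h, h1, h2, h3, h4⟩ := Crd8.exists_off (G := E) (A := B) (x, i) (j := c) (o := k)
        (by omega)
      exact ⟨h, fun _ => ⟨h1, h2, h3, h4⟩⟩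
    · exact ⟨h0, fun h => absurd h hk⟩
  choose e he using hex
  have hsame : ∀ k ∈ E.darts, E.base k = (x, i) → Crd8.cl E B k = c →
      E.base (E.opp k) = (y, j) ∧ Crd8.cl E B (E.opp k) = Crd8.cl E B (E.opp h0) := by
    intro k hk hkb hkc
    have := Crd8.same' hd0 hk (hb0 ▸ hxB) (hkb.trans hb0.symm) (hkc.trans hc0.symm)
    exact ⟨this.1.trans ho0, this.2⟩
  set c' := Crd8.cl E B (E.opp h0) with hc'
  have hsame' : ∀ g ∈ E.darts, E.base g = (y, j) → Crd8.cl E B g = c' →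
      E.base (E.opp g) = (x, i) ∧ Crd8.cl E B (E.opp g) = c := by
    intro k hk hkb hkc
    have := Crd8.same' hdo0 hk (ho0 ▸ hyB) (hkb.trans ho0.symm) hkc
    rw [E.opp_opp _ hd0] at this
    exact ⟨this.1.trans hb0, this.2.trans hc0⟩
  have hpe : ∀ k < n, pos E (e k) = Crd8.st E B (x, i) c + k := by
    intro k hk
    obtain ⟨h1, h2, h3, h4⟩ := he k hk
    have := Crd8.pos_eq_off (A := B) h1
    rwa [h2, h3, h4] at this
  have hpo : ∀ k < n, E.opp (e k) ∈ E.darts ∧ E.base (E.opp (e k)) = (y, j) ∧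
      Crd8.cl E B (E.opp (e k)) = c' ∧
      pos E (E.opp (e k)) = Crd8.st E B (y, j) c' + Crd8.off E B (E.opp (e k)) := by
    intro k hk
    obtain ⟨h1, h2, h3, h4⟩ := he k hk
    obtain ⟨h5, h6⟩ := hsame _ h1 h2 h3
    have h7 := Crd8.pos_eq_off (A := B) (E.opp_mem _ h1)
    rw [h5, h6] at h7
    exact ⟨E.opp_mem _ h1, h5, h6, h7⟩
  have hG : ∀ k < n, e k ∈ G.darts ∧ G.base (e k) = x ∧ ι (e k) = i ∧
      G.base (G.opp (e k)) = y ∧ ι (G.opp (e k)) = j := by
    intro k hk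
    obtain ⟨h1, h2, h3, h4⟩ := he k hk
    obtain ⟨h5, h6, h7, h8⟩ := hpo k hk
    rw [hE, expl_base, Prod.mk.injEq] at h2
    rw [hE, expl_base, expl_opp, Prod.mk.injEq] at h6
    exact ⟨(mem_expl.1 h1).1, h2.1, h2.2, h6.1, h6.2⟩
  have hmem1 : ∀ g ∈ G.darts, G.base g = x → ι g = i → ¬ AL G ι g →
      g ∈ E.darts ∧ E.base g = (x, i) := by
    intro g hg h1 h2 h3
    exact ⟨mem_expl.2 ⟨hg, h3⟩, by rw [hE, expl_base, h1, h2]⟩
  have hmem2 : ∀ g ∈ G.darts, G.base g = y → ι g = j → ¬ AL G ι g →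
      g ∈ E.darts ∧ E.base g = (y, j) := by
    intro g hg h1 h2 h3
    exact ⟨mem_expl.2 ⟨hg, h3⟩, by rw [hE, expl_base, h1, h2]⟩
  have hord : ∀ k l, k < l → l < n → pos G (e k) < pos G (e l) := by
    intro k l hkl hl
    obtain ⟨h1, h2, h3, h4⟩ := he k (by omega)
    obtain ⟨h1', h2', h3', h4'⟩ := he l hl
    have h5 := hpe k (by omega)
    have h6 := hpe l hl
    have h7 : pos E (e k) < pos E (e l) := by omega
    exact (pos_expl_lt h1 h1' (h2.trans h2'.symm)).1 h7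
  have hfirst : ∀ g ∈ G.darts, G.base g = x → ι g = i → ¬ AL G ι g → ∀ k l, k < n → l < n →
        pos G (e k) ≤ pos G g → pos G g ≤ pos G (e l) → ∃ m < n, g = e m := by
    intro g hg h1 h2 h3 k l hk hl hkg hgl
    obtain ⟨h4, h5⟩ := hmem1 g hg h1 h2 h3
    obtain ⟨a1, a2, a3, a4⟩ := he k hk
    obtain ⟨b1, b2, b3, b4⟩ := he l hl
    have h6 : pos E (e k) ≤ pos E g := (pos_expl_le a1 h4 (a2.trans h5.symm)).2 hkg
    have h7 : pos E g ≤ pos E (e l) := (pos_expl_le h4 b1 (h5.trans b2.symm)).2 hgl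
    have h8 := Crd8.cl_mono (A := B) (a2.trans h5.symm) h6
    have h9 := Crd8.cl_mono (A := B) (h5.trans b2.symm) h7
    have h10 : Crd8.cl E B g = c := by omega
    have h11 := Crd8.pos_eq_off (A := B) h4
    rw [h5, h10] at h11
    have h12 := hpe l hl
    have h13 : Crd8.off E B g < n := by omega
    obtain ⟨c1, c2, c3, c4⟩ := he _ h13
    exact ⟨_, h13, Crd8.off_inj h4 c1 (h5.trans c2.symm) (h10.trans c3.symm) c4.symm⟩
  have hsecond : ∀ g ∈ G.darts, G.base g = y → ι g = j → ¬ AL G ι g → ∀ k l, k < n → l < n →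
      pos G (G.opp (e k)) ≤ pos G g → pos G g ≤ pos G (G.opp (e l)) →
        g ∈ E.darts ∧ E.base g = (y, j) ∧ Crd8.cl E B g = c' ∧
        pos E g = Crd8.st E B (y, j) c' + Crd8.off E B g ∧
        Crd8.off E B (E.opp (e k)) ≤ Crd8.off E B g ∧
        Crd8.off E B g ≤ Crd8.off E B (E.opp (e l)) := by
    intro g hg h1 h2 h3 k l hk hl hkg hgl
    obtain ⟨h4, h5⟩ := hmem2 g hg h1 h2 h3
    obtain ⟨a1, a2, a3, a4⟩ := hpo k hk
    obtain ⟨b1, b2, b3, b4⟩ := hpo l hl
    have h6 : pos E (E.opp (e k)) ≤ pos E g := (pos_expl_le a1 h4 (a2.trans h5.symm)).2 hkg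
    have h7 : pos E g ≤ pos E (E.opp (e l)) := (pos_expl_le h4 b1 (h5.trans b2.symm)).2 hgl
    have h8 := Crd8.cl_mono (A := B) (a2.trans h5.symm) h6
    have h9 := Crd8.cl_mono (A := B) (h5.trans b2.symm) h7
    have h10 : Crd8.cl E B g = c' := by omega
    have h11 := Crd8.pos_eq_off (A := B) h4
    rw [h5, h10] at h11
    exact ⟨h4, h5, h10, h11, by omega, by omega⟩
  have hdir := Crd8.dir hd0 (hb0 ▸ hxB) (ho0 ▸ hyB)
  rw [hb0, hc0] at hdir
  rcases hdir with hdir | hdir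
  · refine ⟨e, true, hG, hord, ?_, hfirst, ?_⟩
    · intro k l hkl hl
      obtain ⟨a1, a2, a3, a4⟩ := he k (by omega)
      obtain ⟨b1, b2, b3, b4⟩ := he l hl
      obtain ⟨c1, c2, c3, c4⟩ := hpo k (by omega)
      obtain ⟨d1, d2, d3, d4⟩ := hpo l hl
      have h1 := hdir _ a1 a2 a3
      have h2 := hdir _ b1 b2 b3
      have h3 : pos E (E.opp (e k)) < pos E (E.opp (e l)) := by omega
      simp only [lt, if_true]
      exact (pos_expl_lt c1 d1 (c2.trans d2.symm)).1 h3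
    · intro g hg h1 h2 h3 k l hk hl hkg hgl
      obtain ⟨g1, g2, g3, g4, g5, g6⟩ := hsecond g hg h1 h2 h3 k l hk hl hkg hgl
      obtain ⟨f1, f2⟩ := hsame' g g1 g2 g3
      have f3 := E.opp_mem _ g1
      have f4 := hdir _ f3 f1 f2
      rw [E.opp_opp _ g1] at f4
      obtain ⟨b1, b2, b3, b4⟩ := he l hl
      have f5 := hdir _ b1 b2 b3
      have f6 : Crd8.off E B (E.opp g) < n := by omega
      obtain ⟨c1, c2, c3, c4⟩ := he _ f6
      have f7 := Crd8.off_inj f3 c1 (f1.trans c2.symm) (f2.trans c3.symm) c4.symm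
      refine ⟨_, f6, ?_⟩
      rw [← f7]
      exact (G.opp_opp _ hg).symm
  · refine ⟨e, false, hG, hord, ?_, hfirst, ?_⟩
    · intro k l hkl hl
      obtain ⟨a1, a2, a3, a4⟩ := he k (by omega)
      obtain ⟨b1, b2, b3, b4⟩ := he l hl
      obtain ⟨c1, c2, c3, c4⟩ := hpo k (by omega)
      obtain ⟨d1, d2, d3, d4⟩ := hpo l hl
      have h1 := hdir _ a1 a2 a3
      have h2 := hdir _ b1 b2 b3
      have h3 : pos E (E.opp (e l)) < pos E (E.opp (e k)) := by omega
      simp only [lt, Bool.false_eq_true, if_false]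
      exact (pos_expl_lt d1 c1 (d2.trans c2.symm)).1 h3
    · intro g hg h1 h2 h3 k l hk hl hkg hgl
      obtain ⟨g1, g2, g3, g4, g5, g6⟩ := hsecond g hg h1 h2 h3 k l hk hl hkg hgl
      obtain ⟨f1, f2⟩ := hsame' g g1 g2 g3
      have f3 := E.opp_mem _ g1
      have f4 := hdir _ f3 f1 f2
      rw [E.opp_opp _ g1] at f4
      obtain ⟨b1, b2, b3, b4⟩ := he k hk
      have f5 := hdir _ b1 b2 b3
      have f8 := Crd8.off_lt (A := B) f3
      rw [f1, f2] at f8
      have f6 : Crd8.off E B (E.opp g) < n := by omega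
      obtain ⟨c1, c2, c3, c4⟩ := he _ f6
      have f7 := Crd8.off_inj f3 c1 (f1.trans c2.symm) (f2.trans c3.symm) c4.symm
      refine ⟨_, f6, ?_⟩
      rw [← f7]
      exact (G.opp_opp _ hg).symm

end RotWqo.Hk
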