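import Pool.Agent.Lib.MP_cb4a0f_co.Hk.Con27
import Pool.Agent.Lib.MP_cb4a0f_co.Hk.Run9

/-!
# MP_cb4a0f_co, Hk: the core of row P

`core_56`: in an interval of loops at `x` there are strands `e 0 < e 1 < ... < e (r - 1)`, and after
them a set `F` of kept half-edges, from which runs through the noncrossing matching `M` lead to the
strands. If there are `N` half-edges in `F` such that the next one in `F` leads to a strand which is
not a neighbour, then there is a contained piece with a cutting into `4` arcs and `N` bad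
half-edges.
-/

open Classical

namespace RotWqo.Hk

open RotWqo.Bag

universe u v

variable {V : Type u} {H : Type v}

/-- Positions in a graph whose lists are sublists of those of `G`. -/
theorem pos_sub_aux {V' : Type*} {E : RotGraph V' H} {G : RotGraph V H} {a b : H}
    (hs : (E.rot (E.base b)).Pairwise (fun a b => pos G a < pos G b))
    (ha : a ∈ E.darts) (hb : b ∈ E.darts) (hab : E.base a = E.base b)
    (h : pos E a < pos E b) : pos G a < pos G b := by
  rw [List.pairwise_iff_getElem] at hs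
  rw [pos_eq hab, pos_eq (rfl : E.base b = E.base b)] at h
  have ha' : a ∈ E.rot (E.base b) := hab ▸ mem_rot_of ha
  have hb' : b ∈ E.rot (E.base b) := mem_rot_of hb
  have h2 := hs _ _ (List.idxOf_lt_length_of_mem ha') (List.idxOf_lt_length_of_mem hb') h
  rwa [List.getElem_idxOf, List.getElem_idxOf] at h2

theorem pos_sub_lt {V' : Type*} {E : RotGraph V' H} {G : RotGraph V H} {a b : H}
    (hs : (E.rot (E.base b)).Pairwise (fun a b => pos G a < pos G b))
    (ha : a ∈ E.darts) (hb : b ∈ E.darts) (hab : E.base a = E.base b) :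
    pos E a < pos E b ↔ pos G a < pos G b := by
  refine ⟨pos_sub_aux hs ha hb hab, fun h => ?_⟩
  by_contra hc
  rcases Nat.lt_or_ge (pos E b) (pos E a) with h1 | h1
  · have := pos_sub_aux (hab.symm ▸ hs) hb ha hab.symm h1
    omega
  · have : a = b := pos_inj ha hb hab (by omega)
    subst this
    omega

/-- The next half-edge. -/
theorem pos_next {E : RotGraph V H} {a b : H} (hb : b ∈ E.darts) (h : pos E a < pos E b)
    (hn : ∀ c ∈ E.darts, E.base c = E.base b → ¬ (pos E a < pos E c ∧ pos E c < pos E b)) :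
    pos E b = pos E a + 1 := by
  by_contra hne
  have hlt : pos E a + 1 < pos E b := by omega
  have hlen : pos E b < (E.rot (E.base b)).length :=
    List.idxOf_lt_length_of_mem (mem_rot_of hb)
  have h1 : pos E a + 1 < (E.rot (E.base b)).length := by omega
  have h2 := (E.mem_rot (E.base b) _).1 (List.getElem_mem h1)
  have h3 : pos E (E.rot (E.base b))[pos E a + 1] = pos E a + 1 := by
    rw [pos_eq h2.2]
    exact (E.nodup _).idxOf_getElem _ h1
  exact hn _ h2.1 h2.2 ⟨by omega, by omega⟩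

theorem mem_bad56 {E : RotGraph V H} {A : Finset V} {a b : H} (ha : a ∈ E.darts)
    (hA : E.base a ∈ A) (hb : b ∈ E.darts) (hab : E.base b = E.base a)
    (hp : pos E b = pos E a + 1) (hn : ¬ Par E A a b) : a ∈ Bad E A :=
  Finset.mem_filter.2 ⟨ha, hA, b, hb, hab, hp, hn⟩

/-- The core of (P). -/
theorem core_56 (G : RotGraph V H) (A : Finset V) (x : V) (R : Finset H) (r N : ℕ) (e : ℕ → H)
    (F B : Finset H) (st : H → ℕ) (M : H → H → Prop) (hA : A ⊆ G.verts) (hx : x ∈ A)
    (hR : IsInt G x R) (hl : ∀ h ∈ R, G.base (G.opp h) = x)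
    (he : ∀ s < r, e s ∈ R)
    (hes : ∀ s s', s < s' → s' < r → pos G (e s) < pos G (e s'))
    (hF : F ⊆ R) (heF : ∀ s < r, ∀ a ∈ F, pos G (e s) < pos G a)
    (hst : ∀ a ∈ F, st a < r) (hinj : ∀ a ∈ F, ∀ a' ∈ F, st a = st a' → a = a')
    (hsur : ∀ s < r, ∃ a ∈ F, st a = s)
    (hMs : ∀ a b, M a b → M b a) (hMf : ∀ a b c, M a b → M a c → b = c)
    (hMR : ∀ a b, M a b → a ∈ R ∧ a ∉ F ∧ a ≠ b ∧ ∀ s < r, a ≠ e s)
    (hin : ∀ a b, M a b → pos G a < pos G b → ∀ c, (c ∈ F ∨ (∃ s < r, c = e s) ∨ ∃ d, M c d) →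
      pos G a < pos G c → pos G c < pos G b → ∃ d, M c d ∧ pos G a < pos G d ∧ pos G d < pos G b)
    (hrun : ∀ a ∈ F, ∃ y, Run G.opp M a y ∧ G.opp y = e (st a))
    (hB : B ⊆ F) (hN : N ≤ B.card)
    (hbad : ∀ a ∈ B, ∃ a' ∈ F, pos G a < pos G a' ∧
      (∀ c ∈ F, ¬ (pos G a < pos G c ∧ pos G c < pos G a')) ∧ st a' ≠ st a + 1 ∧
      st a ≠ st a' + 1) :
    ∃ (G₁ : RotGraph V H) (ι₁ : H → ℕ), Sub1 G₁ G A ∧ Cutting G₁ A ι₁ 4 ∧
      N ≤ nbad G₁ A 4 ι₁ := by
  rcases Nat.eq_zero_or_pos r with hr0 | hr0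
  · have hN0 : N = 0 := by
      have hB0 : B = ∅ := Finset.eq_empty_of_forall_notMem fun a ha => by
        have := hst a (hB ha)
        omega
      rw [hB0] at hN
      simpa using hN
    refine ⟨G, fun _ => 0, ⟨⟨id, PE.refl _ (fun _ => rfl) G A⟩, hA, fun S _ => rfl⟩,
      ⟨fun _ _ _ _ _ _ => le_rfl, fun _ _ => by norm_num⟩, by omega⟩
  have hFe : ∀ s < r, e s ∉ F := fun s hs h => lt_irrefl _ (heF s hs _ h)
  have hei : ∀ s < r, ∀ s' < r, e s = e s' → s = s' := by
    intro s hs s' hs' h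
    rcases lt_trichotomy s s' with h1 | h1 | h1
    · exact absurd (hes s s' h1 hs') (by rw [h]; exact lt_irrefl _)
    · exact h1
    · exact absurd (hes s' s h1 hs) (by rw [h]; exact lt_irrefl _)
  -- the inverse of `st`
  have hg : ∀ s, ∃ a, s < r → a ∈ F ∧ st a = s := by
    intro s
    by_cases hs : s < r
    · obtain ⟨a, h1, h2⟩ := hsur s hs
      exact ⟨a, fun _ => ⟨h1, h2⟩⟩
    · exact ⟨e 0, fun h => absurd h hs⟩
  choose g hg using hg
  set K : Finset H := G.darts.filter (fun h => ¬ (G.base h = x ∧ G.base (G.opp h) = x) ∨ h ∈ F ∨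
    ∃ s < r, h = e s) with hKdef
  have hmK : ∀ h, h ∈ K ↔ h ∈ G.darts ∧ (¬ (G.base h = x ∧ G.base (G.opp h) = x) ∨ h ∈ F ∨
      ∃ s < r, h = e s) := fun h => by rw [hKdef, Finset.mem_filter]
  have hRd : ∀ h ∈ R, h ∈ G.darts ∧ G.base h = x := hR.1
  have hKF : ∀ h ∈ F, h ∈ K := fun h hh => (hmK h).2 ⟨(hRd h (hF hh)).1, Or.inr (Or.inl hh)⟩
  have hKe : ∀ s < r, e s ∈ K := fun s hs =>
    (hmK _).2 ⟨(hRd _ (he s hs)).1, Or.inr (Or.inr ⟨s, hs, rfl⟩)⟩
  have hK : K ⊆ G.darts := Finset.filter_subset _ _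
  set o : H → H := fun h => if h ∈ F then e (st h) else
    if hh : ∃ s < r, h = e s then g hh.choose else G.opp h with hodef
  have oF : ∀ a ∈ F, o a = e (st a) := fun a ha => by simp only [hodef, if_pos ha]
  have oe : ∀ s < r, o (e s) = g s := by
    intro s hs
    have hh : ∃ s' < r, e s = e s' := ⟨s, hs, rfl⟩
    simp only [hodef, if_neg (hFe s hs), dif_pos hh]
    rw [← hei s hs _ hh.choose_spec.1 hh.choose_spec.2]
  have oo : ∀ h, h ∉ F → (¬ ∃ s < r, h = e s) → o h = G.opp h := fun h h1 h2 => by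
    simp only [hodef, if_neg h1, dif_neg h2]
  have hgs : ∀ a ∈ F, g (st a) = a := fun a ha =>
    hinj _ (hg _ (hst a ha)).1 a ha (hg _ (hst a ha)).2
  -- classification
  have hKc : ∀ h ∈ K, (h ∈ F) ∨ (∃ s < r, h = e s) ∨
      (h ∉ F ∧ (¬ ∃ s < r, h = e s) ∧ ¬ (G.base h = x ∧ G.base (G.opp h) = x)) := by
    intro h hh
    by_cases h1 : h ∈ F
    · exact Or.inl h1
    by_cases h2 : ∃ s < r, h = e s
    · exact Or.inr (Or.inl h2)
    · refine Or.inr (Or.inr ⟨h1, h2, ?_⟩)
      rcases ((hmK h).1 hh).2 with h3 | h3 | h3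
      · exact h3
      · exact absurd h3 h1
      · exact absurd h3 h2
  have hnl : ∀ h ∈ K, ¬ (G.base h = x ∧ G.base (G.opp h) = x) → G.opp h ∈ K ∧ G.opp h ∉ F ∧
      (¬ ∃ s < r, G.opp h = e s) := by
    intro h hh hn
    have h0 := hK hh
    have h1 : ¬ (G.base (G.opp h) = x ∧ G.base (G.opp (G.opp h)) = x) := by
      rw [G.opp_opp h h0]
      tauto
    have h2 : ∀ h' ∈ R, G.base h' = x ∧ G.base (G.opp h') = x := fun h' hh' =>
      ⟨(hRd h' hh').2, hl h' hh'⟩
    refine ⟨(hmK _).2 ⟨G.opp_mem h h0, Or.inl h1⟩, fun h3 => h1 (h2 _ (hF h3)), ?_⟩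
    rintro ⟨s, hs, h3⟩
    exact h1 (h3 ▸ h2 _ (he s hs))
  have ho : ∀ h ∈ K, o h ∈ K ∧ o (o h) = h ∧ o h ≠ h := by
    intro h hh
    rcases hKc h hh with h1 | ⟨s, hs, rfl⟩ | ⟨h1, h2, h3⟩
    · rw [oF h h1, oe _ (hst h h1)]
      refine ⟨hKe _ (hst h h1), hgs h h1, ?_⟩
      intro h2
      exact hFe _ (hst h h1) (by rw [h2]; exact h1)
    · have h4 := hg s hs
      rw [oe s hs, oF _ h4.1, h4.2]
      refine ⟨hKF _ h4.1, rfl, fun h5 => hFe s hs (h5 ▸ h4.1)⟩
    · obtain ⟨h4, h5, h6⟩ := hnl h hh h3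
      rw [oo h h1 h2, oo _ h5 h6]
      exact ⟨h4, G.opp_opp h (hK hh), G.opp_ne h (hK hh)⟩
  have hMd : ∀ a b, M a b → a ∈ G.darts ∧ G.base a = x ∧ a ∉ K := by
    intro a b hab
    obtain ⟨h1, h2, -, h3⟩ := hMR a b hab
    refine ⟨(hRd a h1).1, (hRd a h1).2, fun h4 => ?_⟩
    rcases hKc a h4 with h5 | ⟨s, hs, h5⟩ | ⟨-, -, h5⟩
    · exact h2 h5
    · exact h3 s hs h5
    · exact h5 ⟨(hRd a h1).2, hl a h1⟩
  -- elements of `K` in `R`
  have hKR : ∀ h ∈ K, h ∈ R → h ∈ F ∨ ∃ s < r, h = e s := by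
    intro h hh hhR
    rcases hKc h hh with h1 | h1 | ⟨-, -, h1⟩
    · exact Or.inl h1
    · exact Or.inr h1
    · exact absurd ⟨(hRd h hhR).2, hl h hhR⟩ h1
  have hnc : NC M ((G.rot x).filter (fun a => decide (a ∈ K ∨ ∃ b, M a b))) := by
    refine nc_of_inside (pos G) hMs hMf _ _ rfl ((rot_sorted G x).filter _) ?_ ?_ ?_
    · intro a _ b hab
      obtain ⟨h1, h2, -⟩ := hMd b a (hMs a b hab)
      rw [List.mem_filter, G.mem_rot]
      exact ⟨⟨h1, h2⟩, by simpa using Or.inr ⟨a, hMs a b hab⟩⟩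
    · intro a _ haa
      exact (hMR a a haa).2.2.1 rfl
    · intro a _ b hab c hc h1 h2
      rw [List.mem_filter, G.mem_rot, decide_eq_true_eq] at hc
      have hcR : c ∈ R := hR.2 a (hMR a b hab).1 b (hMR b a (hMs a b hab)).1 c hc.1.1 hc.1.2
        h1.le h2.le
      refine hin a b hab (h1.trans h2) c ?_ h1 h2
      rcases hc.2 with h3 | h3
      · rcases hKR c h3 hcR with h4 | h4
        · exact Or.inl h4
        · exact Or.inr (Or.inl h4)
      · exact Or.inr (Or.inr h3)
  have hb : ∀ h ∈ K, G.base h ≠ x → G.base (o h) = G.base (G.opp h) := by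
    intro h hh hne
    rcases hKc h hh with h1 | ⟨s, hs, rfl⟩ | ⟨h1, h2, h3⟩
    · exact absurd (hRd h (hF h1)).2 hne
    · exact absurd (hRd _ (he s hs)).2 hne
    · rw [oo h h1 h2]
  have hout : ∀ h ∈ G.darts, G.base h ≠ x → h ∈ K := fun h h1 h2 =>
    (hmK h).2 ⟨h1, Or.inl fun h3 => h2 h3.1⟩
  have hr : ∀ h ∈ K, (∃ y, Run G.opp M h y ∧ G.opp y = o h) ∨
      ∃ y, Run G.opp M (o h) y ∧ G.opp y = h := by
    intro h hh
    rcases hKc h hh with h1 | ⟨s, hs, rfl⟩ | ⟨h1, h2, h3⟩
    · left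
      rw [oF h h1]
      exact hrun h h1
    · right
      rw [oe s hs]
      have h4 := hrun (g s) (hg s hs).1
      rwa [(hg s hs).2] at h4
    · left
      exact ⟨h, Run.refl _, (oo h h1 h2).symm⟩
  have hsub := sub1_conG hA hx hK ho hout hMs hMf hMd hnc hb hr
  set G₁ := conG G K o hK ho with hG₁
  -- the cutting
  set ι₁ : H → ℕ := fun h => if G.base h ≠ x ∨ pos G h < pos G (e 0) then 0 else
    if h ∉ R then 3 else if ∃ s < r, pos G h ≤ pos G (e s) then 1 else 2 with hι
  have hrot1 : ∀ v, (G₁.rot v).Pairwise (fun a b => pos G a < pos G b) := fun v =>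
    (rot_sorted G v).filter _
  have hpos1 : ∀ a ∈ K, ∀ b ∈ K, G.base a = G.base b → pos G₁ a ≤ pos G₁ b →
      pos G a ≤ pos G b := by
    intro a ha b hb' hab h1
    by_contra h2
    have h3 := (pos_sub_lt (E := G₁) (G := G) (hrot1 _) hb' ha hab.symm).2 (by omega)
    omega
  refine ⟨G₁, ι₁, hsub, ⟨?_, ?_⟩, ?_⟩
  · intro a ha b hb' hab h1
    have haK : a ∈ K := (Finset.mem_filter.1 ha).1
    have hbK : b ∈ K := (Finset.mem_filter.1 hb').1
    have hab' : G.base a = G.base b := hab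
    have h2 := hpos1 a haK b hbK hab' h1
    simp only [hι]
    by_cases h3 : G.base a ≠ x ∨ pos G a < pos G (e 0)
    · rw [if_pos h3]
      exact Nat.zero_le _
    · have h3' := h3
      push Not at h3'
      have h4 : ¬ (G.base b ≠ x ∨ pos G b < pos G (e 0)) := by
        push Not
        exact ⟨hab' ▸ h3'.1, h3'.2.trans h2⟩
      rw [if_neg h3, if_neg h4]
      by_cases h5 : a ∈ R
      · rw [if_neg (not_not.2 h5)]
        by_cases h6 : b ∈ R
        · rw [if_neg (not_not.2 h6)]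
          by_cases h7 : ∃ s < r, pos G b ≤ pos G (e s)
          · obtain ⟨s, hs, h8⟩ := h7
            rw [if_pos ⟨s, hs, h2.trans h8⟩, if_pos ⟨s, hs, h8⟩]
          · rw [if_neg h7]
            split_ifs <;> omega
        · rw [if_pos h6]
          split_ifs <;> omega
      · rw [if_pos h5]
        by_cases h6 : b ∈ R
        · exfalso
          -- `a` would be in `R`
          exact h5 (hR.2 _ (he 0 hr0) b h6 a (hK haK) h3'.1 h3'.2 h2)
        · rw [if_pos h6]
  · intro a _
    simp only [hι]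
    split_ifs <;> omega
  · -- the exploded graph
    set E := expl G₁ 4 ι₁ with hE
    have he0 : ∀ s < r, pos G (e 0) ≤ pos G (e s) := by
      intro s hs
      rcases Nat.eq_zero_or_pos s with h | h
      · rw [h]
      · exact (hes 0 s h hs).le
    have hιe : ∀ s < r, ι₁ (e s) = 1 := by
      intro s hs
      have h1 : ¬ (G.base (e s) ≠ x ∨ pos G (e s) < pos G (e 0)) := by
        push Not
        exact ⟨(hRd _ (he s hs)).2, he0 s hs⟩
      simp only [hι]
      rw [if_neg h1, if_neg (not_not.2 (he s hs)), if_pos ⟨s, hs, le_rfl⟩]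
    have hιF : ∀ a ∈ F, ι₁ a = 2 := by
      intro a ha
      have h1 : ¬ (G.base a ≠ x ∨ pos G a < pos G (e 0)) := by
        push Not
        exact ⟨(hRd _ (hF ha)).2, (heF 0 hr0 a ha).le⟩
      have h2 : ¬ ∃ s < r, pos G a ≤ pos G (e s) := by
        rintro ⟨s, hs, h3⟩
        have := heF s hs a ha
        omega
      simp only [hι]
      rw [if_neg h1, if_neg (not_not.2 (hF ha)), if_neg h2]
    have hιinv : ∀ h ∈ K, G.base h = x → (ι₁ h = 1 → ∃ s < r, h = e s) ∧
        (ι₁ h = 2 → h ∈ F) := by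
      intro h hh hx'
      simp only [hι]
      constructor
      · intro h1
        split_ifs at h1 with h2 h3 h4
        · rcases hKR h hh h3 with h5 | h5
          · obtain ⟨s, hs, h6⟩ := h4
            have := heF s hs h h5
            omega
          · exact h5
        all_goals omega
      · intro h1
        split_ifs at h1 with h2 h3 h4
        · omega
        · rcases hKR h hh h3 with h5 | ⟨s, hs, h5⟩
          · exact h5
          · exact absurd ⟨s, hs, by rw [h5]⟩ h4
        all_goals omega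
    have hEd : ∀ h ∈ K, ¬ AL G₁ ι₁ h → h ∈ E.darts := fun h h1 h2 => mem_expl.2 ⟨h1, h2⟩
    have hALF : ∀ a ∈ F, ¬ AL G₁ ι₁ a := by
      rintro a ha ⟨-, h1⟩
      have h2 : ι₁ (o a) = ι₁ a := h1
      rw [oF a ha, hιF a ha, hιe _ (hst a ha)] at h2
      omega
    have hALe : ∀ s < r, ¬ AL G₁ ι₁ (e s) := by
      rintro s hs ⟨-, h1⟩
      have h2 : ι₁ (o (e s)) = ι₁ (e s) := h1
      rw [oe s hs, hιF _ (hg s hs).1, hιe _ hs] at h2
      omega
    have hErot : ∀ p, (E.rot p).Pairwise (fun a b => pos G a < pos G b) := fun p =>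
      (hrot1 p.1).filter _
    -- positions of the strands
    have hE1 : E.rot (x, 1) = (List.range r).map e := by
      have h1 : E.rot (x, 1) = (G.rot x).filter (fun h => decide (h ∈ K ∧ ¬ AL G₁ ι₁ h ∧
          ι₁ h = 1)) := by
        change ((G.rot x).filter (fun a => decide (a ∈ K))).filter
          (fun h => decide (¬ AL G₁ ι₁ h ∧ ι₁ h = 1)) = _
        rw [List.filter_filter]
        refine List.filter_congr fun a _ => ?_
        by_cases h2 : a ∈ K <;> by_cases h3 : ¬ AL G₁ ι₁ a ∧ ι₁ a = 1 <;> simp [h2, h3]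
      rw [h1]
      refine filter_rot_eq G x _ ?_ _ ?_
      · rw [List.pairwise_map]
        refine List.pairwise_lt_range.imp_of_mem ?_
        intro s s' _ hs' hlt
        exact hes s s' hlt (List.mem_range.1 hs')
      · intro h
        rw [List.mem_map]
        constructor
        · rintro ⟨s, hs, rfl⟩
          have hs' := List.mem_range.1 hs
          exact ⟨(G.mem_rot _ _).2 (hRd _ (he s hs')), hKe s hs', hALe s hs', hιe s hs'⟩
        · rintro ⟨h2, h3, h4, h5⟩
          obtain ⟨s, hs, h6⟩ := (hιinv h h3 ((G.mem_rot _ _).1 h2).2).1 h5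
          exact ⟨s, List.mem_range.2 hs, h6.symm⟩
    have hpe : ∀ s < r, pos E (e s) = s := by
      intro s hs
      have h1 : E.base (e s) = (x, 1) := by
        rw [hE, expl_base, hιe s hs]
        exact congrArg (fun v => (v, 1)) (hRd _ (he s hs)).2
      rw [pos_eq h1, hE1]
      have h2 : ((List.range r).map e).Nodup := by
        rw [← hE1]
        exact E.nodup _
      have h3 : s < ((List.range r).map e).length := by simpa using hs
      have h4 := h2.idxOf_getElem s h3
      simpa using h4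
    have hba : ∀ a ∈ F, E.base a = (x, 2) := by
      intro a ha
      rw [hE, expl_base, hιF a ha]
      exact congrArg (fun v => (v, 2)) (hRd _ (hF ha)).2
    have hda : ∀ a ∈ F, a ∈ E.darts := fun a ha => hEd a (hKF a ha) (hALF a ha)
    have hpF : ∀ b ∈ F, pos E (E.opp b) = st b := by
      intro b hb
      have h1 : E.opp b = e (st b) := oF b hb
      rw [h1, hpe _ (hst b hb)]
    have hfin : B ⊆ Bad E (arcs A 4) := by
      intro a ha
      have haF := hB ha
      obtain ⟨a', ha', hlt, hno, hne1, hne2⟩ := hbad a ha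
      have hx2 : E.base a ∈ arcs A 4 := by
        rw [hba a haF]
        exact mem_arcs.2 ⟨hx, by norm_num⟩
      have hnx : pos E a' = pos E a + 1 := by
        refine pos_next (hda a' ha') ?_ ?_
        · exact (pos_sub_lt (hErot _) (hda a haF) (hda a' ha')
            ((hba a haF).trans (hba a' ha').symm)).2 hlt
        · rintro c hc hcb ⟨h1, h2⟩
          rw [hba a' ha'] at hcb
          have hcb1 : G.base c = x := congrArg Prod.fst hcb
          have hcb2 : ι₁ c = 2 := congrArg Prod.snd hcb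
          have hcK : c ∈ K := (mem_expl.1 hc).1
          have hcF := (hιinv c hcK hcb1).2 hcb2
          refine hno c hcF ⟨?_, ?_⟩
          · exact (pos_sub_lt (hErot _) (hda a haF) hc ((hba a haF).trans hcb.symm)).1 h1
          · exact (pos_sub_lt (hErot _) hc (hda a' ha') (hcb.trans (hba a' ha').symm)).1 h2
      have hnp : ¬ Par E (arcs A 4) a a' := by
        rintro ⟨-, -, -, -, -, h1⟩
        rw [hpF a haF, hpF a' ha'] at h1
        omega
      exact mem_bad56 (hda a haF) hx2 (hda a' ha') ((hba a' ha').trans (hba a haF).symm) hnx hnp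
    exact hN.trans (Finset.card_le_card hfin)

end RotWqo.Hk
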