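import Pool.Agent.Lib.MP_cb4a0f_co.Hk.GadR67

/-!
# MP_cb4a0f_co: gadgets of kind L
-/

open Classical

namespace RotWqo.Hk

open RotWqo.Bag

universe u v

namespace GadL67

/-- the numbers of half-edges kept below level `j` -/
def SL (J r j : ℕ) : ℕ := if j ≤ J then 2 * (j - 1) else r

/-- left ends -/
def aL {H : Type*} (p : ℕ → H) (b : ℕ → ℕ → H) (j s : ℕ) : H :=
  if j = 0 then b 0 s else if s = 2 * (j - 1) then p j else b j (s - 2 * (j - 1) - 1)

/-- right ends -/
def cL {H : Type*} (r : ℕ) (o : H → H) (p : ℕ → H) (b : ℕ → ℕ → H) (j s : ℕ) : H :=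
  if j = 0 then o (b 0 (r - 1 - s)) else if s = 2 * (j - 1) then o (p j) else o (b j (r - 1 - s))

/-- the crossings in the gadget -/
def tL (r j s : ℕ) : ℕ :=
  if j = 0 then r - 1 - s else if s = 2 * (j - 1) then s else 2 * (j - 1) + r - s

theorem lev_L {V : Type u} {H : Type v} {G : RotGraph V H} {x : V} {R : Finset H}
    {X : ℕ → Finset H} {p : ℕ → H} {b : ℕ → ℕ → H} {J r : ℕ} (hJ : 1 ≤ J) (hr : 2 * J + 2 ≤ r)
    (hR : IsInt G x R) (hg : ∀ w < J + 1, X w ⊆ R ∧ GadL G r (X w) (p w) (b w))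
    (hB : ∀ w w', w < w' → w' < J + 1 → Bef G (X w) (X w')) :
    Lev G R J r (SL J r) (aL p b) (cL r G.opp p b) (tL r) := by
  have hS : ∀ j ≤ J, SL J r j = 2 * (j - 1) := fun j hj => by rw [SL, if_pos hj]
  have hRd : ∀ h ∈ R, h ∈ G.darts := fun h hh => (hR.1 h hh).1
  have ha : ∀ j ≤ J, ∀ s, SL J r j ≤ s → s < r → aL p b j s ∈ X j := by
    intro j hj s hs hsr
    rw [hS j hj] at hs
    have h1 := (hg j (by omega)).2
    rw [aL]
    split_ifs with h2 h3
    · subst h2
      exact (h1.mem s hsr).1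
    · exact h1.pm.1
    · exact (h1.mem _ (by omega)).1
  have hc : ∀ j ≤ J, ∀ s, SL J r j ≤ s → s < r → cL r G.opp p b j s ∈ X j := by
    intro j hj s hs hsr
    rw [hS j hj] at hs
    have h1 := (hg j (by omega)).2
    rw [cL]
    split_ifs with h2 h3
    · subst h2
      exact (h1.mem _ (by omega)).2
    · exact h1.pm.2
    · exact (h1.mem _ (by omega)).2
  refine ⟨?_, ?_, ?_, ?_, ?_, ?_, ?_, ?_, ?_, ?_⟩
  · rw [hS 0 (by omega)]
  · intro j hj
    rw [hS j hj, SL]
    split_ifs <;> omega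
  · rw [SL, if_neg (by omega)]
  · intro j hj s hs hsr
    exact ⟨(hg j (by omega)).1 (ha j hj s hs hsr), (hg j (by omega)).1 (hc j hj s hs hsr)⟩
  · intro j hj s hs hsr
    rw [hS j hj] at hs ⊢
    simp only [tL]
    split_ifs <;> omega
  · intro j hj s hs hsr
    rw [hS j hj] at hs
    have h1 := (hg j (by omega)).2
    have h2 : ∀ h ∈ X j, G.opp (G.opp h) = h := fun h hh =>
      G.opp_opp h (hRd _ ((hg j (by omega)).1 hh))
    rw [cL, aL, tL]
    by_cases h3 : j = 0
    · subst h3
      rw [if_pos rfl, if_pos rfl, if_pos rfl]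
      exact h2 _ (h1.mem _ (by omega)).1
    · rw [if_neg h3, if_neg h3, if_neg h3]
      by_cases h4 : s = 2 * (j - 1)
      · rw [if_pos h4, if_pos h4, if_pos h4, h2 _ h1.pm.1]
      · rw [if_neg h4, if_neg h4, if_neg (by omega), h2 _ (h1.mem _ (by omega)).1]
        congr 1
        omega
  · intro j hj s t hs hst ht
    rw [hS j hj] at hs
    have h1 := (hg j (by omega)).2
    rw [aL, aL]
    by_cases h3 : j = 0
    · subst h3
      rw [if_pos rfl, if_pos rfl]
      exact h1.bb s t hst ht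
    · rw [if_neg h3, if_neg h3, if_neg (by omega : ¬ t = 2 * (j - 1))]
      by_cases h4 : s = 2 * (j - 1)
      · rw [if_pos h4]
        exact (h1.pb _ (by omega)).1
      · rw [if_neg h4]
        exact h1.bb _ _ (by omega) (by omega)
  · intro j hj s t hs hst ht
    rw [hS j hj] at hs
    have h1 := (hg j (by omega)).2
    rw [cL, cL]
    by_cases h3 : j = 0
    · subst h3
      rw [if_pos rfl, if_pos rfl]
      exact h1.cc _ _ (by omega) (by omega)
    · rw [if_neg h3, if_neg h3, if_neg (by omega : ¬ t = 2 * (j - 1))]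
      by_cases h4 : s = 2 * (j - 1)
      · rw [if_pos h4]
        exact (h1.pb _ (by omega)).2.2
      · rw [if_neg h4]
        exact h1.cc _ _ (by omega) (by omega)
  · intro j hj s t hs hsr ht htr
    rw [hS j hj] at hs ht
    have h1 := (hg j (by omega)).2
    have h5 : ∀ i < r, ∀ k < r, pos G (b j i) < pos G (G.opp (b j k)) := fun i hi k hk =>
      (h1.pb i hi).2.1.trans (h1.pb k hk).2.2
    have h6 : pos G (p j) < pos G (G.opp (p j)) :=
      (h1.pb 0 (by omega)).1.trans (h1.pb 0 (by omega)).2.1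
    rw [aL, cL]
    by_cases h3 : j = 0
    · subst h3
      rw [if_pos rfl, if_pos rfl]
      exact h5 _ (by omega) _ (by omega)
    · rw [if_neg h3, if_neg h3]
      by_cases h4 : s = 2 * (j - 1)
      · rw [if_pos h4]
        by_cases h7 : t = 2 * (j - 1)
        · rw [if_pos h7]
          exact h6
        · rw [if_neg h7]
          exact h6.trans (h1.pb _ (by omega)).2.2
      · rw [if_neg h4]
        by_cases h7 : t = 2 * (j - 1)
        · rw [if_pos h7]
          exact (h1.pb _ (by omega)).2.1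
        · rw [if_neg h7]
          exact h5 _ (by omega) _ (by omega)
  · intro i j hij hj s t hs hsr ht htr
    exact hB i j hij (by omega) _ (hc i (by omega) s hs hsr) _ (ha j hj t ht htr)

theorem pr_L {J r : ℕ} (hr : 2 * J + 2 ≤ r) (j : ℕ) (hj : j + 1 ≤ J) : ∀ s, 2 * j ≤ s → s < r →
    pr r (SL J r) (tL r) (j + 1) s = if s = 2 * j then j else r - s + j := by
  induction j with
  | zero =>
    intro s _ hs
    rw [pr, SL, if_pos hj, if_neg (by omega), pr, tL, if_pos rfl, tL, if_neg (by omega)]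
    split_ifs <;> omega
  | succ j ih =>
    intro s hs hs2
    rw [pr, SL, if_pos hj, if_neg (by omega), tL, if_neg (by omega)]
    by_cases h1 : s = 2 * (j + 1)
    · rw [if_pos (by omega), if_pos h1]
      have h2 : r - 1 + 2 * (j + 1 + 1 - 1) - s = r - 1 := by omega
      rw [h2, ih (by omega) _ (by omega) (by omega), if_neg (by omega)]
      omega
    · rw [if_neg (by omega), if_neg h1]
      have h2 : r - 1 + 2 * (j + 1 + 1 - 1) - (2 * (j + 1 + 1 - 1) + r - s) = s - 1 := by omega
      rw [h2, ih (by omega) _ (by omega) (by omega), if_neg (by omega)]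
      omega

end GadL67

open GadL67

/-- (P2) Many gadgets of kind L. -/
theorem gadL_67 (hNet : StNet.{u, v}) : StGadL.{u, v} := by
  intro N
  refine ⟨N + 2, 2 * (N + 1) + 4, fun V H G A x R X p b hA hx hR hl hg hB => ?_⟩
  have hL := lev_L (J := N + 1) (r := 2 * (N + 1) + 4) (by omega) (by omega) hR hg hB
  refine hNet V H G A x R (N + 1) (2 * (N + 1) + 4) N _ _ _ _ (Finset.range N) hA hx hR hl hL
    (by rw [Finset.card_range]) ?_
  have h1 : ∀ s ≤ N, pr (2 * (N + 1) + 4) (SL (N + 1) (2 * (N + 1) + 4)) (tL (2 * (N + 1) + 4))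
      (N + 1) s = if s = 2 * (s / 2) then s / 2 else 2 * (N + 1) + 4 - s + s / 2 := by
    intro s hs
    rw [pr_stable' (i := s / 2 + 1) (j := N + 1) (J := N + 1) (by omega) le_rfl,
      pr_L (by omega) (s / 2) (by omega) s (by omega) (by omega)]
    intro l h2 h3
    rw [SL, if_pos h3]
    omega
  intro s hs
  rw [Finset.mem_range] at hs
  rw [h1 s (by omega), h1 (s + 1) (by omega)]
  refine ⟨by omega, ?_, ?_⟩ <;> split_ifs <;> omega

end RotWqo.Hk
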