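import Pool.Agent.Lib.MP_cb4a0f_co.Hk.GadR67

/-!
# MP_cb4a0f_co: gadgets of kind T
-/

open Classical

namespace RotWqo.Hk

open RotWqo.Bag

universe u v

namespace GadT67

/-- the numbers of half-edges kept below level `j` -/
def STw (J r j : ℕ) : ℕ := if j ≤ J then j else r

theorem lev_T {V : Type u} {H : Type v} {G : RotGraph V H} {x : V} {R : Finset H}
    {X : ℕ → Finset H} {b : ℕ → ℕ → H} {J r : ℕ} (hr : J ≤ r)
    (hR : IsInt G x R) (hg : ∀ w < J + 1, X w ⊆ R ∧ GadT G r (X w) (b w))
    (hB : ∀ w w', w < w' → w' < J + 1 → Bef G (X w) (X w')) :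
    Lev G R J r (STw J r) (fun j s => b j (s - j)) (fun j s => G.opp (b j (s - j)))
      (fun _ s => s) := by
  have hS : ∀ j ≤ J, STw J r j = j := fun j hj => by rw [STw, if_pos hj]
  refine ⟨?_, ?_, ?_, ?_, ?_, ?_, ?_, ?_, ?_, ?_⟩
  · rw [hS 0 (by omega)]
  · intro j hj
    rw [hS j hj, STw]
    split_ifs <;> omega
  · rw [STw, if_neg (by omega)]
  · intro j hj s hs hsr
    have h1 := (hg j (by omega)).2.mem (s - j) (by omega)
    exact ⟨(hg j (by omega)).1 h1.1, (hg j (by omega)).1 h1.2⟩
  · intro j _ s hs hsr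
    exact ⟨hs, hsr, rfl⟩
  · intro j hj s hs hsr
    exact G.opp_opp _ (hR.1 _ ((hg j (by omega)).1 ((hg j (by omega)).2.mem (s - j) (by omega)).1)).1
  · intro j hj s t hs hst ht
    rw [hS j hj] at hs
    exact (hg j (by omega)).2.bb _ _ (by omega) (by omega)
  · intro j hj s t hs hst ht
    rw [hS j hj] at hs
    exact (hg j (by omega)).2.cc _ _ (by omega) (by omega)
  · intro j hj s t hs hsr ht htr
    exact (hg j (by omega)).2.bc _ (by omega) _ (by omega)
  · intro i j hij hj s t hs hsr ht htr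
    exact hB i j hij (by omega) _ ((hg i (by omega)).2.mem _ (by omega)).2 _
      ((hg j (by omega)).2.mem _ (by omega)).1

theorem pr_T {J r : ℕ} (j : ℕ) (hj : j ≤ J) : ∀ s, j ≤ s → s < r →
    pr r (STw J r) (fun _ s => s) j s = if Even j then s - j / 2 else r - 1 - s + (j + 1) / 2 := by
  induction j with
  | zero =>
    intro s _ _
    simp [pr]
  | succ j ih =>
    intro s hs hsr
    rw [pr, STw, if_pos hj, if_neg (by omega), ih (by omega) _ (by omega) (by omega)]
    by_cases he : Even j
    · obtain ⟨m, rfl⟩ := he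
      have h1 : ¬ Even (m + m + 1) := by
        rw [Nat.not_even_iff_odd]
        exact ⟨m, by omega⟩
      rw [if_pos ⟨m, rfl⟩, if_neg h1]
      omega
    · have h1 : Even (j + 1) := by
        rw [Nat.even_add_one]
        exact he
      rw [if_neg he, if_pos h1]
      rw [Nat.not_even_iff_odd] at he
      obtain ⟨m, rfl⟩ := he
      omega

end GadT67

open GadT67

/-- (P1) Many gadgets of kind T. -/
theorem gadT_67 (hNet : StNet.{u, v}) : StGadT.{u, v} := by
  intro N
  refine ⟨N + 1, N + 4, fun V H G A x R X b hA hx hR hl hg hB => ?_⟩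
  have hL := lev_T (J := N) (r := N + 4) (by omega) hR hg hB
  refine hNet V H G A x R N (N + 4) N _ _ _ _ (Finset.range N) hA hx hR hl hL
    (by rw [Finset.card_range]) ?_
  have h1 : ∀ s ≤ N, pr (N + 4) (STw N (N + 4)) (fun _ s => s) N s =
      if Even s then s - s / 2 else N + 4 - 1 - s + (s + 1) / 2 := by
    intro s hs
    rw [pr_stable' (i := s) (j := N) (J := N) hs le_rfl, pr_T s hs s le_rfl (by omega)]
    intro l h2 h3
    rw [STw, if_pos h3]
    omega
  intro s hs
  rw [Finset.mem_range] at hs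
  rw [h1 s (by omega), h1 (s + 1) (by omega)]
  by_cases he : Even s
  · obtain ⟨m, rfl⟩ := he
    have h2 : ¬ Even (m + m + 1) := by
      rw [Nat.not_even_iff_odd]
      exact ⟨m, by omega⟩
    have h3 : Even (m + m) := ⟨m, rfl⟩
    rw [if_pos h3, if_neg h2]
    refine ⟨by omega, by omega, by omega⟩
  · have h2 : Even (s + 1) := by
      rw [Nat.even_add_one]
      exact he
    rw [if_neg he, if_pos h2]
    rw [Nat.not_even_iff_odd] at he
    obtain ⟨m, rfl⟩ := he
    refine ⟨by omega, by omega, by omega⟩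

end RotWqo.Hk
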