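import Pool.Agent.Lib.MP_cb4a0f_co.Hk.Net67
import Pool.Agent.Lib.MP_cb4a0f_co.Hk.GadT67
import Pool.Agent.Lib.MP_cb4a0f_co.Hk.GadL67

/-!
# MP_cb4a0f_co: row P from the core
-/

namespace RotWqo.Hk

universe u v

/-- (P) from the core. -/
theorem gad_67 (hC : StCore.{u, v}) : StGad.{u, v} :=
  stGad_of (gadT_67 (net_67 hC)) (gadL_67 (net_67 hC)) (gadR_67 (net_67 hC))

end RotWqo.Hk
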