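import Pool.Agent.Lib.MP_cb4a0f_co.Hk.Stmts
import Pool.Agent.Lib.MP_cb4a0f_co.Bag.Main11

/-!
# MP_cb4a0f_co: rotated graphs with trees of bags of bounded width and any number of loops, from the
leaf theorem
-/

open Classical

namespace RotWqo.Hk

open RotWqo.Bag

universe u v w

/-- Linked trees of bags, any number of loops. -/
theorem linkedX (k : ℕ) (V : Type u) (H : Type v) (G : RotGraph V H)
    (t : Tree (Finset V)) (ht : IsBagTreeX k G t) : ∃ t', IsBagTreeX k G t' ∧ LinkedB G t' := by
  have hQ : ∀ S T : Finset V, S ⊆ T → S.Nonempty → T.card ≤ k → S.card ≤ k :=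
    fun S T h _ hT => (Finset.card_le_card h).trans hT
  obtain ⟨t', h1, h2, h3, h4⟩ := exists_linkedB (cut G) (cut_submod _) (cut_posimod _) hQ k t
    (TLB.ok_iff.mpr ⟨ht.pw, fun B hB => ⟨ht.ne B hB, ht.card B hB⟩⟩) ht.cuts
  obtain ⟨h5, h6⟩ := TLB.ok_iff.mp h1
  exact ⟨t', ⟨h5, fun B hB => (h6 B hB).1, fun B hB => (h6 B hB).2, h2.trans ht.verts, h3⟩, h4⟩

/-- (Z) The theorem. -/
theorem stMainX_11 (hL : StLeafX.{u, v, w}) : StMainX.{u, v, w} := by
  intro k Q q _ hq V H _ _ G lab hG
  by_cases hne : ∃ i, (G i).verts = ∅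
  · obtain ⟨i, hi⟩ := hne
    refine ⟨i, i + 1, Nat.lt_succ_self i, imm_of_PE _ _ _ (fun _ => Classical.arbitrary _) ?_⟩
    rw [hi]
    exact PE.empty _ _ _
  push Not at hne
  -- linked trees of bags
  have hT : ∀ i, ∃ t, IsBagTreeX k (G i) t ∧ LinkedB (G i) t := by
    intro i
    obtain ⟨t, ht⟩ := (hG i).resolve_left (hne i).ne_empty
    exact linkedX k (V i) (H i) (G i) t ht
  choose T hT1 hT4 using hT
  have hok : ∀ i, TLB.Ok (fun _ => True) (T i) := fun i =>
    TLB.ok_iff.mpr ⟨(hT1 i).pw, fun B hB => ⟨(hT1 i).ne B hB, trivial⟩⟩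
  set le : Bag.Elt V T → Bag.Elt V T → Prop := fun x y =>
    ∃ β, PE (fun v w => q (lab x.i v) (lab y.i w)) (G x.i) (bset x.t) (G y.i) (bset y.t) β
    with hle
  have : IsPreorder (Bag.Elt V T) le :=
    { refl := fun x => ⟨id, PE.refl (fun v w => q (lab x.i v) (lab x.i w))
        (fun v => _root_.refl _) _ _⟩
      trans := fun x y z ⟨β, h⟩ ⟨β', h'⟩ => ⟨β' ∘ β,
        PE.trans (r₁ := fun v w => q (lab x.i v) (lab y.i w))
          (r₂ := fun v w => q (lab y.i v) (lab z.i w))
          (r := fun v w => q (lab x.i v) (lab z.i w))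
          (fun u v w h h' => _root_.trans h h') h h'⟩ }
  have main : (Set.univ : Set (Bag.Elt V T)).PartiallyWellOrderedOn le := by
    refine wqo_of_levels le (fun x => x.t.leaves.length) (Bag.val G) k Bag.Ch ?_ ?_ ?_ ?_
    · rintro x y ⟨l, r, hlr, ⟨h, rfl⟩ | ⟨h, rfl⟩⟩
      · have := leaves_pos r
        simp only [hlr, Tree.leaves, List.length_append]
        omega
      · have := leaves_pos l
        simp only [hlr, Tree.leaves, List.length_append]
        omega
    · intro x
      exact (hT1 x.i).cuts x.t x.h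
    · intro m x y hx hy hd
      obtain ⟨i, b, a, hb, ha, rfl, rfl, hp⟩ := Bag.Desc.pathGe G hd
      exact exists_link (fun v w => q (lab i v) (lab i w)) (fun v => _root_.refl _) (G i)
        (bset a) (bset b) (pathGe_bset hp)
        ((hT1 i).verts ▸ TLB.sub_bset hb) m hy hx (hT4 i b a m hb hp hx hy)
    · intro X hC
      set C : Set (Bag.Elt V T) := {y | ∃ x ∈ X, Bag.Ch x y} with hCdef
      have h1 : {x | x ∈ X ∧ ∃ v, x.t = .leaf v}.PartiallyWellOrderedOn le := by
        rw [Set.partiallyWellOrderedOn_iff_exists_lt]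
        intro f hf
        choose B hB using fun n => (hf n).2
        have hmem : ∀ n, B n ∈ (T (f n).i).leaves := by
          intro n
          have h := (f n).h
          rw [hB n] at h
          clear_value le
          generalize T (f n).i = t at h
          induction h with
          | refl => simp [Tree.leaves]
          | left l r _ ih => exact List.mem_append_left _ ih
          | right l r _ ih => exact List.mem_append_right _ ih
        obtain ⟨m, n, hmn, β, hβ⟩ := hL k k Q q hq (fun n => V (f n).i) (fun n => H (f n).i)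
          (fun n => G (f n).i) (fun n => lab (f n).i) B
          (fun n => by
            rw [← (hT1 (f n).i).verts]
            intro v hv
            exact TLB.mem_bset.mpr ⟨B n, hmem n, hv⟩)
          (fun n => (hT1 (f n).i).card _ (hmem n))
          (fun n => by
            have h := (hT1 (f n).i).cuts _ (f n).h
            rwa [hB n, TLB.bset_leaf] at h)
        refine ⟨m, n, hmn, β, ?_⟩
        simpa only [hB, TLB.bset_leaf] using hβ
      have h2 : {x | x ∈ X ∧ ∃ l r, x.t = .node l r}.PartiallyWellOrderedOn le := by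
        rw [Set.partiallyWellOrderedOn_iff_exists_lt]
        intro f hf
        choose l r hlr using fun n => (hf n).2
        have hsub : ∀ n, IsSub (.node (l n) (r n)) (T (f n).i) := fun n => hlr n ▸ (f n).h
        have hl : ∀ n, IsSub (l n) (T (f n).i) := fun n =>
          IsSub.trans' (.left _ _ .refl) (hsub n)
        have hr : ∀ n, IsSub (r n) (T (f n).i) := fun n =>
          IsSub.trans' (.right _ _ .refl) (hsub n)
        have hlC : ∀ n, (⟨(f n).i, l n, hl n⟩ : Bag.Elt V T) ∈ C := fun n =>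
          ⟨f n, (hf n).1, l n, r n, hlr n, Or.inl ⟨hl n, rfl⟩⟩
        have hrC : ∀ n, (⟨(f n).i, r n, hr n⟩ : Bag.Elt V T) ∈ C := fun n =>
          ⟨f n, (hf n).1, l n, r n, hlr n, Or.inr ⟨hr n, rfl⟩⟩
        obtain ⟨g, hg⟩ := hC.exists_monotone_subseq hlC
        obtain ⟨g', hg'⟩ := hC.exists_monotone_subseq (fun n => hrC (g n))
        obtain ⟨m, n, hmn, β, hβ⟩ := exists_PE_glue q (fun n => V (f (g (g' n))).i)
          (fun n => H (f (g (g' n))).i) (fun n => G (f (g (g' n))).i)
          (fun n => lab (f (g (g' n))).i) (fun n => bset (l (g (g' n))))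
          (fun n => bset (r (g (g' n))))
          (fun n => ((hok _).sub (hsub _)).2.2)
          (fun n => hg _ _ (g'.monotone (Nat.le_succ n)))
          (fun n => hg' _ _ (Nat.le_succ n))
        refine ⟨g (g' m), g (g' n), g.strictMono (g'.strictMono hmn), β, ?_⟩
        simpa only [hlr, TLB.bset_node] using hβ
      refine (h1.union h2).mono fun x hx => ?_
      rcases ht : x.t with v | ⟨l, r⟩
      · exact Or.inl ⟨hx, v, ht⟩
      · exact Or.inr ⟨hx, l, r, ht⟩
  obtain ⟨m, n, hmn, β, hβ⟩ := main.exists_lt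
    (f := fun n => (⟨n, T n, .refl⟩ : Bag.Elt V T)) (fun n => Set.mem_univ _)
  refine ⟨m, n, hmn, imm_of_PE _ _ _ β ?_⟩
  have hβ' : PE (fun v w => q (lab m v) (lab n w)) (G m) (bset (T m)) (G n) (bset (T n)) β := hβ
  rwa [(hT1 m).verts, (hT1 n).verts] at hβ'

end RotWqo.Hk
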