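import Pool.Agent.Lib.MP_cb4a0f_co.Hk.MixB94

/-!
# MP_cb4a0f_co: rotated graphs with a bounded number of vertices: many mixed intervals
-/

open Classical

namespace RotWqo.Hk

open RotWqo.Bag

universe u v

variable {V : Type u} {H : Type v}

/-- A strand of the arc number `i` at `x`. -/
def Std94 (G : RotGraph V H) (ι : H → ℕ) (x : V) (i : ℕ) (h : H) : Prop :=
  h ∈ G.darts ∧ G.base h = x ∧ ι h = i ∧ ¬ AL G ι h

/-- A half-edge of an arc loop of the arc number `i` at `x`. -/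
def Lp94 (G : RotGraph V H) (ι : H → ℕ) (x : V) (i : ℕ) (h : H) : Prop :=
  h ∈ G.darts ∧ G.base h = x ∧ ι h = i ∧ AL G ι h

/-- A window: the strand `f`, half-edges `a`, `b` of arc loops, strands `e₁`, `e`. -/
structure Win94 (G : RotGraph V H) (ι : H → ℕ) (x : V) (i : ℕ) (f a b e e₁ : H) : Prop where
  f_mem : Std94 G ι x i f
  e_mem : Std94 G ι x i e
  e₁_mem : Std94 G ι x i e₁
  a_mem : Lp94 G ι x i a
  b_mem : Lp94 G ι x i b
  fa : pos G f < pos G a
  boa : pos G b < pos G (G.opp a)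
  obe₁ : pos G (G.opp b) < pos G e₁
  alt : (b = a ∧ e₁ = e) ∨ (pos G a < pos G b ∧ pos G (G.opp a) < pos G (G.opp b) ∧
    pos G e₁ < pos G e)
  no1 : ∀ c, Std94 G ι x i c → pos G f < pos G c → ¬ pos G c < pos G a
  no2 : ∀ c, Std94 G ι x i c → pos G (G.opp a) < pos G c → pos G c < pos G e → c = e₁
  two : ∃ s, Std94 G ι x i s ∧ pos G f < pos G s ∧ pos G s < pos G e

section

variable {G : RotGraph V H} {ι : H → ℕ} {x : V} {i : ℕ}

/-- The strands of the arc as a finite set. -/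
noncomputable def StdF94 (G : RotGraph V H) (ι : H → ℕ) (x : V) (i : ℕ) : Finset H :=
  G.darts.filter (fun h => Std94 G ι x i h)

theorem mem_StdF94 {h : H} : h ∈ StdF94 G ι x i ↔ Std94 G ι x i h := by
  rw [StdF94, Finset.mem_filter]
  exact ⟨fun h => h.2, fun h => ⟨h.1, h⟩⟩

theorem Lp94.opp {h : H} (hh : Lp94 G ι x i h) : Lp94 G ι x i (G.opp h) := by
  obtain ⟨h1, h2, h3, h4⟩ := hh
  exact ⟨G.opp_mem h h1, h4.1.trans h2, h4.2.trans h3, (al_opp h1).2 h4⟩

theorem win_of_loop94 {a s s0 s2 : H} (ha : Lp94 G ι x i a) (hs : Std94 G ι x i s)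
    (hs0 : Std94 G ι x i s0) (hs2 : Std94 G ι x i s2) (h0 : pos G s0 < pos G a)
    (h1 : pos G a < pos G s) (h2 : pos G s < pos G (G.opp a))
    (h3 : pos G (G.opp a) < pos G s2) :
    ∃ f a b e e₁, Win94 G ι x i f a b e e₁ ∧ pos G s0 ≤ pos G f ∧ pos G e ≤ pos G s2 := by
  obtain ⟨f, hf, hf1, hf2, hf3⟩ := exists_prev94 (StdF94 G ι x i) (pos G) (pos G a)
    (mem_StdF94.2 hs0) h0
  obtain ⟨e, he, he1, he2, he3⟩ := exists_next94 (StdF94 G ι x i) (pos G) (pos G (G.opp a))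
    (mem_StdF94.2 hs2) h3
  refine ⟨f, a, a, e, e, ⟨mem_StdF94.1 hf, mem_StdF94.1 he, mem_StdF94.1 he, ha, ha, hf1,
    by omega, he1, Or.inl ⟨rfl, rfl⟩, ?_, ?_, s, hs, by omega, by omega⟩, hf2, he2⟩
  · intro c hc hc1 hc2
    exact hf3 c (mem_StdF94.2 hc) hc2 hc1
  · intro c hc hc1 hc2
    exact absurd hc2 (he3 c (mem_StdF94.2 hc) hc1)

theorem exists_win94 {X0 X1 X2 X3 : Finset H} {s0 s2 s3 : H}
    (hX1 : ∀ h ∈ X1, h ∈ G.darts ∧ G.base h = x ∧ ι h = i) (hm : Mix G ι X1)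
    (h01 : Bef G X0 X1) (h12 : Bef G X1 X2) (h23 : Bef G X2 X3)
    (hs0 : Std94 G ι x i s0) (hs0' : s0 ∈ X0) (hs2 : Std94 G ι x i s2) (hs2' : s2 ∈ X2)
    (hs3 : Std94 G ι x i s3) (hs3' : s3 ∈ X3) :
    ∃ f a b e e₁, Win94 G ι x i f a b e e₁ ∧ pos G s0 ≤ pos G f ∧ pos G e ≤ pos G s3 := by
  have hle : pos G s2 < pos G s3 := h23 s2 hs2' s3 hs3'
  rcases hm with ⟨a, s, ha, ha', hs, hal, hsn, h1, h2⟩ |
    ⟨a, b, s, ha, ha', hb, hb', hs, hal, hbl, hsn, h1, h2, h3⟩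
  · obtain ⟨ha1, ha2, ha3⟩ := hX1 a ha
    obtain ⟨hs1, hs2a, hs3a⟩ := hX1 s hs
    obtain ⟨f, a, b, e, e₁, hw, h4, h5⟩ := win_of_loop94 (s0 := s0) (s2 := s2)
      ⟨ha1, ha2, ha3, hal⟩ ⟨hs1, hs2a, hs3a, hsn⟩ hs0 hs2 (h01 s0 hs0' a ha) h1 h2
      (h12 _ ha' s2 hs2')
    exact ⟨f, a, b, e, e₁, hw, h4, by omega⟩
  · obtain ⟨ha1, ha2, ha3⟩ := hX1 a ha
    obtain ⟨hb1, hb2, hb3⟩ := hX1 b hb
    have hla : Lp94 G ι x i a := ⟨ha1, ha2, ha3, hal⟩
    have hlb : Lp94 G ι x i b := ⟨hb1, hb2, hb3, hbl⟩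
    by_cases hex : ∃ c, Std94 G ι x i c ∧ pos G a < pos G c ∧ pos G c < pos G (G.opp b)
    · obtain ⟨c, hc, hc1, hc2⟩ := hex
      have hca : pos G c ≠ pos G (G.opp a) := by
        intro h4
        have h5 : c = G.opp a := pos_inj hc.1 hla.opp.1 (hc.2.1.trans hla.opp.2.1.symm) h4
        exact hc.2.2.2 (h5 ▸ hla.opp.2.2.2)
      rcases Nat.lt_or_gt_of_ne hca with h4 | h4
      · obtain ⟨f, a, b, e, e₁, hw, h5, h6⟩ := win_of_loop94 (s0 := s0) (s2 := s2) hla hc hs0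
          hs2 (h01 s0 hs0' a ha) hc1 h4 (h12 _ ha' s2 hs2')
        exact ⟨f, a, b, e, e₁, hw, h5, by omega⟩
      · obtain ⟨f, a, b, e, e₁, hw, h5, h6⟩ := win_of_loop94 (s0 := s0) (s2 := s2) hlb hc hs0
          hs2 (h01 s0 hs0' b hb) (by omega) hc2 (h12 _ hb' s2 hs2')
        exact ⟨f, a, b, e, e₁, hw, h5, by omega⟩
    · push Not at hex
      obtain ⟨f, hf, hf1, hf2, hf3⟩ := exists_prev94 (StdF94 G ι x i) (pos G) (pos G a)
        (mem_StdF94.2 hs0) (h01 s0 hs0' a ha)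
      obtain ⟨e₁, he, he1, he2, he3⟩ := exists_next94 (StdF94 G ι x i) (pos G)
        (pos G (G.opp b)) (mem_StdF94.2 hs2) (h12 _ hb' s2 hs2')
      obtain ⟨e, hg, hg1, hg2, hg3⟩ := exists_next94 (StdF94 G ι x i) (pos G)
        (pos G e₁) (mem_StdF94.2 hs3) (by omega)
      refine ⟨f, a, b, e, e₁, ⟨mem_StdF94.1 hf, mem_StdF94.1 hg, mem_StdF94.1 he, hla, hlb,
        hf1, h2, he1, Or.inr ⟨h1, h3, hg1⟩, ?_, ?_, e₁, mem_StdF94.1 he, by omega, hg1⟩,
        hf2, hg2⟩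
      · intro c hc hc1 hc2
        exact hf3 c (mem_StdF94.2 hc) hc2 hc1
      · intro c hc hc1 hc2
        have h4 := hex c hc (by omega)
        have h5 : pos G c ≠ pos G (G.opp b) := by
          intro h5
          have h6 : c = G.opp b := pos_inj hc.1 hlb.opp.1 (hc.2.1.trans hlb.opp.2.1.symm) h5
          exact hc.2.2.2 (h6 ▸ hlb.opp.2.2.2)
        have h6 := he3 c (mem_StdF94.2 hc) (by omega)
        have h7 : ¬ pos G e₁ < pos G c := fun h8 => hg3 c (mem_StdF94.2 hc) h8 hc2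
        exact pos_inj hc.1 (mem_StdF94.1 he).1 (hc.2.1.trans (mem_StdF94.1 he).2.1.symm)
          (by omega)

theorem Win94.ord {f a b e e₁ : H} (h : Win94 G ι x i f a b e e₁) :
    pos G a ≤ pos G b ∧ pos G (G.opp a) ≤ pos G (G.opp b) ∧ pos G e₁ ≤ pos G e := by
  rcases h.alt with ⟨rfl, rfl⟩ | ⟨h1, h2, h3⟩
  · exact ⟨le_rfl, le_rfl, le_rfl⟩
  · exact ⟨h1.le, h2.le, h3.le⟩

end

/-- The exchange data from a sequence of windows. -/
theorem swp94 {G : RotGraph V H} {ι : H → ℕ} {x : V} {i : ℕ} {J : ℕ} {f a b e e₁ : ℕ → H}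
    (hw : ∀ j < J, Win94 G ι x i (f j) (a j) (b j) (e j) (e₁ j))
    (hj : ∀ j j', j < j' → j' < J → pos G (e j) < pos G (f j')) :
    ∃ (T : Finset H) (ε : H → H), Swp G ι x i T ε ∧ (∀ j < J, a j ∈ T ∧ ε (a j) = e j) ∧
      (∀ c ∈ T, ∃ j < J, (c = a j ∧ ε c = e j) ∨ (c = b j ∧ ε c = e₁ j)) := by
  -- everything of the window `j` is between `f j` and `e j`
  have hlt : ∀ {p q : H}, p ∈ G.darts → q ∈ G.darts → G.base p = x → G.base q = x →
      pos G p = pos G q → p = q := fun hp hq hp1 hq1 h => pos_inj hp hq (hp1.trans hq1.symm) h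
  have hsame : ∀ j < J, ∀ j' < J, ∀ p q : H, p = q → pos G (f j) < pos G p →
      pos G p ≤ pos G (e j) → pos G (f j') < pos G q → pos G q ≤ pos G (e j') → j = j' := by
    intro j hjJ j' hj' p q hpq h1 h2 h3 h4
    subst hpq
    rcases lt_trichotomy j j' with h | h | h
    · have := hj j j' h hj'
      omega
    · exact h
    · have := hj j' j h hjJ
      omega
  have hra : ∀ j < J, pos G (f j) < pos G (a j) ∧ pos G (a j) ≤ pos G (e j) := by
    intro j hjJ
    have h1 := hw j hjJ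
    have h2 := h1.ord
    have h3 := h1.fa
    have h4 := h1.boa
    have h5 := h1.obe₁
    omega
  have hrb : ∀ j < J, pos G (f j) < pos G (b j) ∧ pos G (b j) ≤ pos G (e j) := by
    intro j hjJ
    have h1 := hw j hjJ
    have h2 := h1.ord
    have h3 := h1.fa
    have h4 := h1.boa
    have h5 := h1.obe₁
    omega
  set T : Finset H := (Finset.range J).image a ∪ (Finset.range J).image b with hT
  have hTm : ∀ c, c ∈ T ↔ (∃ j < J, a j = c) ∨ ∃ j < J, b j = c := by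
    intro c
    rw [hT, Finset.mem_union, Finset.mem_image, Finset.mem_image]
    simp only [Finset.mem_range]
  set ε : H → H := fun h => if h' : ∃ j, j < J ∧ a j = h then e h'.choose else
    if h'' : ∃ j, j < J ∧ b j = h then e₁ h''.choose else h with hε
  have hεa : ∀ j < J, ε (a j) = e j := by
    intro j hjJ
    have h1 : ∃ k, k < J ∧ a k = a j := ⟨j, hjJ, rfl⟩
    have h2 : ε (a j) = e h1.choose := dif_pos h1
    rw [h2]
    have h3 := h1.choose_spec
    rw [hsame _ h3.1 j hjJ _ _ h3.2 (hra _ h3.1).1 (hra _ h3.1).2 (hra _ hjJ).1 (hra _ hjJ).2]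
  have hεb : ∀ j < J, ε (b j) = e₁ j := by
    intro j hjJ
    rcases (hw j hjJ).alt with ⟨h1, h2⟩ | ⟨h1, h2, h3⟩
    · rw [h1, h2]
      exact hεa j hjJ
    · have h4 : ¬ ∃ k, k < J ∧ a k = b j := by
        rintro ⟨k, hk, h5⟩
        have h6 := hsame k hk j hjJ _ _ h5 (hra _ hk).1 (hra _ hk).2 (hrb _ hjJ).1 (hrb _ hjJ).2
        subst h6
        rw [h5] at h1
        exact lt_irrefl _ h1
      have h5 : ∃ k, k < J ∧ b k = b j := ⟨j, hjJ, rfl⟩
      have h6 : ε (b j) = e₁ h5.choose := by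
        rw [hε]
        simp only [dif_neg h4, dif_pos h5]
      rw [h6]
      have h7 := h5.choose_spec
      rw [hsame _ h7.1 j hjJ _ _ h7.2 (hrb _ h7.1).1 (hrb _ h7.1).2 (hrb _ hjJ).1 (hrb _ hjJ).2]
  have hall : ∀ c ∈ T, ∃ j < J, (c = a j ∧ ε c = e j) ∨ (c = b j ∧ ε c = e₁ j) := by
    intro c hc
    rcases (hTm c).1 hc with ⟨j, hjJ, rfl⟩ | ⟨j, hjJ, rfl⟩
    · exact ⟨j, hjJ, Or.inl ⟨rfl, hεa j hjJ⟩⟩
    · exact ⟨j, hjJ, Or.inr ⟨rfl, hεb j hjJ⟩⟩
  -- the properties of an element of `T`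
  have hprop : ∀ c ∈ T, ∃ j < J, ((c = a j ∧ ε c = e j) ∨ (c = b j ∧ ε c = e₁ j)) ∧
      Lp94 G ι x i c ∧ Std94 G ι x i (ε c) ∧ pos G (f j) < pos G c ∧
      pos G c < pos G (G.opp (a j)) ∧ pos G (G.opp (a j)) ≤ pos G (G.opp c) ∧
      pos G (G.opp c) < pos G (ε c) ∧ pos G (ε c) ≤ pos G (e j) := by
    intro c hc
    obtain ⟨j, hjJ, h⟩ := hall c hc
    have h1 := hw j hjJ
    have h2 := h1.ord
    have h3 := h1.fa
    have h4 := h1.boa
    have h5 := h1.obe₁
    refine ⟨j, hjJ, h, ?_⟩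
    rcases h with ⟨h6, h7⟩ | ⟨h6, h7⟩
    · rw [h7, h6]
      exact ⟨h1.a_mem, h1.e_mem, by omega, by omega, le_rfl, by omega, le_rfl⟩
    · rw [h7, h6]
      exact ⟨h1.b_mem, h1.e₁_mem, by omega, by omega, h2.2.1, by omega, h2.2.2⟩
  refine ⟨T, ε, ?_, fun j hjJ => ⟨(hTm _).2 (Or.inl ⟨j, hjJ, rfl⟩), hεa j hjJ⟩, hall⟩
  constructor
  · intro c hc
    obtain ⟨j, hjJ, -, h1, -⟩ := hprop c hc
    exact h1
  · intro c hc hc'
    obtain ⟨j, hjJ, -, h1, h2, h3, h4, h5, h6, h7⟩ := hprop c hc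
    obtain ⟨k, hkJ, -, g1, g2, g3, g4, g5, g6, g7⟩ := hprop _ hc'
    have hjk : j = k := hsame j hjJ k hkJ _ _ rfl (by omega) (by omega) g3
      (by rw [G.opp_opp c h1.1] at g5; omega)
    subst hjk
    omega
  · intro c hc
    obtain ⟨j, hjJ, -, -, h1, -⟩ := hprop c hc
    exact h1
  · intro c hc d hd hcd
    obtain ⟨j, hjJ, h0, h1, h2, h3, h4, h5, h6, h7⟩ := hprop c hc
    obtain ⟨k, hkJ, g0, g1, g2, g3, g4, g5, g6, g7⟩ := hprop d hd
    have hjk : j = k := hsame j hjJ k hkJ _ _ hcd (by omega) (by omega) (by omega) (by omega)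
    subst hjk
    rcases h0 with ⟨h8, h9⟩ | ⟨h8, h9⟩ <;> rcases g0 with ⟨g8, g9⟩ | ⟨g8, g9⟩
    · rw [h8, g8]
    · rcases (hw j hjJ).alt with ⟨h10, h11⟩ | ⟨h10, h11, h12⟩
      · rw [h8, g8, h10]
      · rw [h9, g9] at hcd
        rw [hcd] at h12
        exact absurd h12 (lt_irrefl _)
    · rcases (hw j hjJ).alt with ⟨h10, h11⟩ | ⟨h10, h11, h12⟩
      · rw [h8, g8, h10]
      · rw [h9, g9] at hcd
        rw [hcd] at h12
        exact absurd h12 (lt_irrefl _)
    · rw [h8, g8]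
  · intro c hc
    obtain ⟨j, hjJ, h0, h1, h2, h3, h4, h5, h6, h7⟩ := hprop c hc
    exact h6
  · intro c hc d hd hcd1 hcd2
    obtain ⟨j, hjJ, h0, h1, h2, h3, h4, h5, h6, h7⟩ := hprop c hc
    obtain ⟨k, hkJ, g0, g1, g2, g3, g4, g5, g6, g7⟩ := hprop d hd
    have hjk : j = k := hsame j hjJ k hkJ d d rfl (by omega) (by omega) (by omega) (by omega)
    subst hjk
    omega
  · intro c hc d hd hdx hdi hdA hcd1 hcd2
    obtain ⟨j, hjJ, h0, h1, h2, h3, h4, h5, h6, h7⟩ := hprop c hc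
    have h8 := (hw j hjJ).no2 d ⟨hd, hdx, hdi, hdA⟩ (by omega) (by omega)
    exact ⟨b j, (hTm _).2 (Or.inr ⟨j, hjJ, rfl⟩), by rw [hεb j hjJ, h8]⟩
  · intro c hc d hd g hg hcd1 hcd2
    obtain ⟨j, hjJ, h0, h1, h2, h3, h4, h5, h6, h7⟩ := hprop c hc
    obtain ⟨k, hkJ, g0, g1, g2, g3, g4, g5, g6, g7⟩ := hprop d hd
    have hgr : pos G (f k) < pos G g ∧ pos G g ≤ pos G (e k) := by
      rcases hg with rfl | rfl <;> omega
    have hjk : j = k := hsame j hjJ k hkJ g g rfl (by omega) (by omega) hgr.1 hgr.2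
    subst hjk
    have hord := (hw j hjJ).ord
    have hboa := (hw j hjJ).boa
    have hobe := (hw j hjJ).obe₁
    rcases (hw j hjJ).alt with ⟨h10, h11⟩ | ⟨h10, h11, h12⟩
    · -- one pair
      have hcd : c = d := by
        rcases h0 with ⟨h8, -⟩ | ⟨h8, -⟩ <;> rcases g0 with ⟨g8, -⟩ | ⟨g8, -⟩ <;>
          rw [h8, g8] <;> simp [h10]
      subst hcd
      rcases hg with rfl | rfl <;> omega
    · rcases h0 with ⟨h8, h9⟩ | ⟨h8, h9⟩ <;> rcases g0 with ⟨g8, g9⟩ | ⟨g8, g9⟩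
      · subst h8
        subst g8
        rcases hg with rfl | rfl <;> omega
      · subst h8
        subst g8
        rw [h9, g9]
        exact ⟨h11, h12⟩
      · subst h8
        subst g8
        rw [h9] at hcd2
        rcases hg with rfl | rfl
        · omega
        · rw [g9] at hcd2
          omega
      · subst h8
        subst g8
        rcases hg with rfl | rfl <;> omega

/-- (M) Many disjoint mixed intervals in one arc give many bad half-edges. -/
theorem mix_94 : StMix.{u, v} := by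
  intro M N
  refine ⟨8 * N + 8, fun V H G A ι x i X hA hx hC hX hB => ?_⟩
  by_cases hN : N ≤ nbad G A M ι
  · exact ⟨G, ι, ⟨⟨id, PE.refl _ (fun _ => rfl) G A⟩, hA, fun S _ => rfl⟩, hC, hN⟩
  -- a strand in every window
  have hst : ∀ w < 8 * N + 8, ∃ s ∈ X w, Std94 G ι x i s := by
    intro w hw
    obtain ⟨h1, h2, h3⟩ := hX w hw
    have h4 : ∀ s ∈ X w, ¬ AL G ι s → Std94 G ι x i s := fun s hs hn =>
      ⟨(h1.1 s hs).1, (h1.1 s hs).2, h2 s hs, hn⟩
    rcases h3 with ⟨a, s, ha, ha', hs, hal, hsn, -⟩ |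
      ⟨a, b, s, ha, ha', hb, hb', hs, hal, hbl, hsn, -⟩
    · exact ⟨s, hs, h4 s hs hsn⟩
    · exact ⟨s, hs, h4 s hs hsn⟩
  have hJ : ∀ j, ∃ f a b e e₁ : H, j < 2 * N →
      (Win94 G ι x i f a b e e₁ ∧
      (∃ s ∈ X (4 * j), Std94 G ι x i s ∧ pos G s ≤ pos G f) ∧
      ∃ s ∈ X (4 * j + 3), Std94 G ι x i s ∧ pos G e ≤ pos G s) := by
    intro j
    by_cases hj : j < 2 * N
    · obtain ⟨s0, hs0, hs0'⟩ := hst (4 * j) (by omega)
      obtain ⟨s2, hs2, hs2'⟩ := hst (4 * j + 2) (by omega)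
      obtain ⟨s3, hs3, hs3'⟩ := hst (4 * j + 3) (by omega)
      obtain ⟨g1, g2, g3⟩ := hX (4 * j + 1) (by omega)
      obtain ⟨f, a, b, e, e₁, h1, h2, h3⟩ := exists_win94 (x := x) (i := i)
        (fun h hh => ⟨(g1.1 h hh).1, (g1.1 h hh).2, g2 h hh⟩) g3
        (hB (4 * j) (4 * j + 1) (by omega) (by omega))
        (hB (4 * j + 1) (4 * j + 2) (by omega) (by omega))
        (hB (4 * j + 2) (4 * j + 3) (by omega) (by omega)) hs0' hs0 hs2' hs2 hs3' hs3
      exact ⟨f, a, b, e, e₁, fun _ => ⟨h1, ⟨s0, hs0, hs0', h2⟩, s3, hs3, hs3', h3⟩⟩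
    · obtain ⟨s0, hs0, hs0'⟩ := hst 0 (by omega)
      exact ⟨s0, s0, s0, s0, s0, fun h => absurd h hj⟩
  choose f a b e e₁ hJ using hJ
  have hw : ∀ j < 2 * N, Win94 G ι x i (f j) (a j) (b j) (e j) (e₁ j) := fun j hj => (hJ j hj).1
  have hjj : ∀ j j', j < j' → j' < 2 * N → pos G (e j) < pos G (f j') := by
    intro j j' h1 h2
    obtain ⟨s, hs, -, h3⟩ := (hJ j (by omega)).2.2
    obtain ⟨s', hs', -, h4⟩ := (hJ j' h2).2.1
    have h5 := hB (4 * j + 3) (4 * j') (by omega) (by omega) s hs s' hs'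
    omega
  obtain ⟨T, ε, hS, hTa, hTall⟩ := swp94 hw hjj
  obtain ⟨G₁, k1, k2, k3, k4, k5, k6⟩ := hS.graph hA hx hC
  have hNew : New94 G A ι T ε G₁ := ⟨k1, k2, k3, k4, k5⟩
  refine ⟨G₁, ι, hNew.sub1 hS hA k6, hNew.cutting hC, ?_⟩
  -- positions in the exploded graph
  have hpE : ∀ p q : H, Std94 G ι x i p → Std94 G ι x i q →
      (pos (expl G M ι) p < pos (expl G M ι) q ↔ pos G p < pos G q) := by
    intro p q hp hq
    refine pos_lt_iff94 (G := G) (v := x) (v₁ := (x, i))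
      (p := fun h => decide (¬ AL G ι h ∧ ι h = i)) rfl
      (Finset.mem_filter.2 ⟨hp.1, hp.2.2.2⟩) (Finset.mem_filter.2 ⟨hq.1, hq.2.2.2⟩) ?_ ?_
    · change (G.base p, ι p) = (x, i)
      rw [hp.2.1, hp.2.2.1]
    · change (G.base q, ι q) = (x, i)
      rw [hq.2.1, hq.2.2.1]
  have hstdE : ∀ g, g ∈ (expl G M ι).darts → (expl G M ι).base g = (x, i) →
      Std94 G ι x i g := by
    intro g hg hg1
    obtain ⟨h1, h2⟩ := Finset.mem_filter.1 hg
    exact ⟨h1, (Prod.ext_iff.1 hg1).1, (Prod.ext_iff.1 hg1).2, h2⟩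
  -- every window gives a bad half-edge of `G₁` or one of `G`
  have hdich : ∀ j < 2 * N, f j ∈ Bad (expl G₁ M ι) (arcs A M) ∨
      ∃ g ∈ Bad (expl G M ι) (arcs A M), Std94 G ι x i g ∧ pos G (f j) ≤ pos G g ∧
        pos G g < pos G (e j) := by
    intro j hj
    have hwj := hw j hj
    by_cases hex : ∃ g ∈ Bad (expl G M ι) (arcs A M), Std94 G ι x i g ∧
        pos G (f j) ≤ pos G g ∧ pos G g < pos G (e j)
    · exact Or.inr hex
    left
    obtain ⟨s, hs, hs1, hs2⟩ := hwj.two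
    have hi : i < M := by
      rw [← hwj.f_mem.2.2.1]
      exact hC.lt _ (Finset.mem_filter.2 ⟨hwj.f_mem.1, hwj.f_mem.2.1 ▸ hx⟩)
    have h1 := (hpE _ _ hwj.f_mem hs).2 hs1
    have h2 := (hpE _ _ hs hwj.e_mem).2 hs2
    have hea := (hTa j hj).2
    refine hNew.bad hS hx hi (l := pos (expl G M ι) (e j) - pos (expl G M ι) (f j))
      (hTa j hj).1 hwj.f_mem.1 hwj.f_mem.2.1 hwj.f_mem.2.2.1 hwj.f_mem.2.2.2 ?_ hwj.fa ?_ ?_ ?_ ?_
    · -- `f j` is not matched
      intro c hc h3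
      obtain ⟨k, hk, h4⟩ := hTall c hc
      have hwk := hw k hk
      have h5 : pos G (f k) < pos G (f j) ∧ pos G (f j) ≤ pos G (e k) := by
        have h6 := hwk.ord
        have h7 := hwk.fa
        have h8 := hwk.boa
        have h9 := hwk.obe₁
        rw [← h3]
        rcases h4 with ⟨-, h4⟩ | ⟨-, h4⟩ <;> rw [h4] <;> omega
      rcases lt_trichotomy k j with h | h | h
      · have := hjj k j h hj
        omega
      · subst h
        omega
      · have := hjj j k h hk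
        have h6 : pos G (f j) < pos G (e j) := by omega
        omega
    · -- nothing between `f j` and `a j`
      intro c hc hcx hci h3 h4
      rw [hS.mem_K, mem_D094] at hc
      rcases hS.cases c with ⟨h5, h6⟩ | ⟨c', hc', h5, h6⟩ | ⟨h5, h6, h7⟩
      · obtain ⟨k, hk, h7⟩ := hTall c h5
        have hwk := hw k hk
        have h8 := hwk.ord
        have h9 := hwk.fa
        have h10 := hwk.boa
        have h11 := hwk.obe₁
        have g8 := hwj.ord
        have g9 := hwj.fa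
        have g10 := hwj.boa
        have g11 := hwj.obe₁
        have h12 : pos G (a k) ≤ pos G c ∧ pos G c < pos G (e k) := by
          rcases h7 with ⟨h7, -⟩ | ⟨h7, -⟩ <;> rw [h7] <;> omega
        rcases lt_trichotomy k j with h | h | h
        · have := hjj k j h hj
          omega
        · subst h
          omega
        · have := hjj j k h hk
          omega
      · rw [h6] at hc
        rcases hc.2 with h7 | h7
        · exact h7 ((hS.T_mem c' hc').2.1 ▸ hx)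
        · exact h7 (hS.T_mem c' hc').2.2.2
      · rw [h7] at hc
        rcases hc.2 with h8 | h8
        · exact h8 (hcx ▸ hx)
        · exact hwj.no1 c ⟨hc.1, hcx, hci, h8⟩ h3 h4
    · omega
    · rw [hea]
      omega
    · intro g hg hg1 hg2 hg3 hg4
      rw [hea] at hg3
      have hgs := hstdE g hg hg1
      refine hex ⟨g, hg4, hgs, ?_, (hpE _ _ hgs hwj.e_mem).1 hg3⟩
      by_contra h3
      have := (hpE _ _ hgs hwj.f_mem).2 (not_le.1 h3)
      omega
  -- counting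
  set Gd := (Finset.range (2 * N)).filter (fun j => f j ∈ Bad (expl G₁ M ι) (arcs A M)) with hGd
  set Bd := (Finset.range (2 * N)).filter (fun j => ¬ f j ∈ Bad (expl G₁ M ι) (arcs A M))
    with hBd
  have hcard : Gd.card + Bd.card = 2 * N := by
    have := Finset.card_filter_add_card_filter_not (s := Finset.range (2 * N))
      (fun j => f j ∈ Bad (expl G₁ M ι) (arcs A M))
    rw [Finset.card_range] at this
    exact this
  have h1 : Bd.card ≤ nbad G A M ι := by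
    have hch : ∀ j, ∃ g, j ∈ Bd → (g ∈ Bad (expl G M ι) (arcs A M) ∧ Std94 G ι x i g ∧
        pos G (f j) ≤ pos G g ∧ pos G g < pos G (e j)) := by
      intro j
      by_cases hj : j ∈ Bd
      · rw [hBd, Finset.mem_filter, Finset.mem_range] at hj
        rcases hdich j hj.1 with h2 | ⟨g, h2, h3⟩
        · exact absurd h2 hj.2
        · exact ⟨g, fun _ => ⟨h2, h3⟩⟩
      · exact ⟨f j, fun h => absurd h hj⟩
    choose g hg using hch
    refine Finset.card_le_card_of_injOn g (fun j hj => (hg j hj).1) ?_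
    intro j hj k hk hjk
    have h2 := (hg j hj).2.2
    have h3 := (hg k hk).2.2
    have hj' := (Finset.mem_range.1 (Finset.mem_filter.1 hj).1)
    have hk' := (Finset.mem_range.1 (Finset.mem_filter.1 hk).1)
    rw [hjk] at h2
    rcases lt_trichotomy j k with h | h | h
    · have := hjj j k h hk'
      omega
    · exact h
    · have := hjj k j h hj'
      omega
  have h2 : Gd.card ≤ nbad G₁ A M ι := by
    refine Finset.card_le_card_of_injOn f (fun j hj => (Finset.mem_filter.1 hj).2) ?_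
    intro j hj k hk hjk
    have hj' := (Finset.mem_range.1 (Finset.mem_filter.1 hj).1)
    have hk' := (Finset.mem_range.1 (Finset.mem_filter.1 hk).1)
    have h3 := hw j hj'
    have h4 := hw k hk'
    have hfe : ∀ l < 2 * N, pos G (f l) < pos G (e l) := by
      intro l hl
      obtain ⟨s, -, h5, h6⟩ := (hw l hl).two
      omega
    have h5 := hfe j hj'
    have h6 := hfe k hk'
    rcases lt_trichotomy j k with h | h | h
    · have := hjj j k h hk'
      rw [hjk] at h5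
      omega
    · exact h
    · have := hjj k j h hj'
      rw [← hjk] at h6
      omega
  omega

end RotWqo.Hk
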