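import Mathlib

/-!
# MP_cb4a0f_co: greedy cutting of the positions (general lemma, for `StRef` and `StTame`)

`Bd lo hi` says that the positions `lo, ..., hi` contain something bad. `gr Bd p = (g, s)`: `g` is the
number of the greedy interval which contains `p`, `s` is its first position.
-/

open Classical

namespace RotWqo.Hk

/-- the greedy cutting: number and first position of the interval of `p` -/
noncomputable def gr (Bd : ℕ → ℕ → Prop) : ℕ → ℕ × ℕ
  | 0 => (0, 0)
  | p + 1 => if Bd (gr Bd p).2 (p + 1) then ((gr Bd p).1 + 1, p + 1) else gr Bd p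

theorem gr_succ_pos {Bd : ℕ → ℕ → Prop} {p : ℕ} (h : Bd (gr Bd p).2 (p + 1)) :
    gr Bd (p + 1) = ((gr Bd p).1 + 1, p + 1) := by
  simp [gr, h]

theorem gr_succ_neg {Bd : ℕ → ℕ → Prop} {p : ℕ} (h : ¬ Bd (gr Bd p).2 (p + 1)) :
    gr Bd (p + 1) = gr Bd p := by
  simp [gr, h]

theorem gr_mono (Bd : ℕ → ℕ → Prop) : Monotone fun p => (gr Bd p).1 := by
  refine monotone_nat_of_le_succ fun p => ?_
  by_cases h : Bd (gr Bd p).2 (p + 1)
  · rw [gr_succ_pos h]
    exact Nat.le_succ _
  · rw [gr_succ_neg h]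

theorem gr_start_le (Bd : ℕ → ℕ → Prop) (p : ℕ) : (gr Bd p).2 ≤ p := by
  induction p with
  | zero => simp [gr]
  | succ p ih =>
    by_cases h : Bd (gr Bd p).2 (p + 1)
    · rw [gr_succ_pos h]
    · rw [gr_succ_neg h]
      exact ih.trans (Nat.le_succ p)

theorem gr_eq_of_le {Bd : ℕ → ℕ → Prop} {p q : ℕ} (hpq : p ≤ q) (h : (gr Bd p).1 = (gr Bd q).1) :
    gr Bd p = gr Bd q := by
  induction q, hpq using Nat.le_induction with
  | base => rfl
  | succ q hpq ih =>
    by_cases h1 : Bd (gr Bd q).2 (q + 1)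
    · exfalso
      rw [gr_succ_pos h1] at h
      have h2 : (gr Bd p).1 ≤ (gr Bd q).1 := gr_mono Bd hpq
      simp only at h
      omega
    · rw [gr_succ_neg h1] at h ⊢
      exact ih h

/-- positions with the same number have the same first position -/
theorem gr_start_eq {Bd : ℕ → ℕ → Prop} {p q : ℕ} (h : (gr Bd p).1 = (gr Bd q).1) :
    (gr Bd p).2 = (gr Bd q).2 := by
  rcases le_total p q with h1 | h1
  · rw [gr_eq_of_le h1 h]
  · rw [gr_eq_of_le h1 h.symm]

/-- the interval from the first position up to `p` is good -/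
theorem gr_good {Bd : ℕ → ℕ → Prop} (h0 : ∀ p, ¬ Bd p p) (p : ℕ) : ¬ Bd (gr Bd p).2 p := by
  cases p with
  | zero =>
    have : (gr Bd 0).2 = 0 := by simp [gr]
    rw [this]
    exact h0 0
  | succ p =>
    by_cases h : Bd (gr Bd p).2 (p + 1)
    · rw [gr_succ_pos h]
      exact h0 _
    · rw [gr_succ_neg h]
      exact h

/-- the first position of the interval of `p` has the number of `p` -/
theorem gr_start_num (Bd : ℕ → ℕ → Prop) (p : ℕ) : gr Bd (gr Bd p).2 = gr Bd p := by
  induction p with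
  | zero => simp [gr]
  | succ p ih =>
    by_cases h : Bd (gr Bd p).2 (p + 1)
    · have h1 := gr_succ_pos h
      rw [h1]
      exact h1
    · rw [gr_succ_neg h]
      exact ih

/-- every number below that of `p` ends at some position `u < p`, and the interval together with
the next position is bad -/
theorem gr_end {Bd : ℕ → ℕ → Prop} {p j : ℕ} (hj : j < (gr Bd p).1) :
    ∃ u, u < p ∧ (gr Bd u).1 = j ∧ (gr Bd (u + 1)).1 = j + 1 ∧ Bd (gr Bd u).2 (u + 1) := by
  induction p with
  | zero => simp [gr] at hj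
  | succ p ih =>
    by_cases h : Bd (gr Bd p).2 (p + 1)
    · by_cases h1 : j < (gr Bd p).1
      · obtain ⟨u, h2, h3⟩ := ih h1
        exact ⟨u, h2.trans (Nat.lt_succ_self p), h3⟩
      · have h4 := gr_succ_pos h
        have h5 : (gr Bd p).1 = j := by
          rw [h4] at hj
          simp only at hj
          omega
        exact ⟨p, Nat.lt_succ_self p, h5, by rw [h4, h5], h⟩
    · rw [gr_succ_neg h] at hj
      obtain ⟨u, h2, h3⟩ := ih hj
      exact ⟨u, h2.trans (Nat.lt_succ_self p), h3⟩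

/-- Many disjoint bad intervals: if the number of `p` is at least `2 W`, then there are `W` bad
intervals `lo w, ..., hi w`, each strictly before the next one, all up to `p`. -/
theorem gr_many {Bd : ℕ → ℕ → Prop} {p W : ℕ} (hp : 2 * W ≤ (gr Bd p).1) :
    ∃ lo hi : ℕ → ℕ, (∀ w < W, Bd (lo w) (hi w) ∧ lo w ≤ hi w ∧ hi w ≤ p) ∧
      ∀ w w', w < w' → w' < W → hi w < lo w' := by
  have h1 : ∀ w, ∃ u, w < W → u < p ∧ (gr Bd u).1 = 2 * w ∧ (gr Bd (u + 1)).1 = 2 * w + 1 ∧
      Bd (gr Bd u).2 (u + 1) := by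
    intro w
    by_cases hw : w < W
    · obtain ⟨u, hu⟩ := gr_end (Bd := Bd) (p := p) (j := 2 * w) (by omega)
      exact ⟨u, fun _ => hu⟩
    · exact ⟨0, fun h => absurd h hw⟩
  choose u hu using h1
  refine ⟨fun w => (gr Bd (u w)).2, fun w => u w + 1, fun w hw => ?_, fun w w' hww hw' => ?_⟩
  · obtain ⟨h2, h3, h4, h5⟩ := hu w hw
    exact ⟨h5, (gr_start_le Bd _).trans (Nat.le_succ _), h2⟩
  · obtain ⟨h2, h3, h4, h5⟩ := hu w (hww.trans hw')
    obtain ⟨h2', h3', h4', h5'⟩ := hu w' hw'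
    by_contra hc
    rw [not_lt] at hc
    have h6 : (gr Bd (gr Bd (u w')).2).1 ≤ (gr Bd (u w + 1)).1 := gr_mono Bd hc
    rw [gr_start_num, h3', h4] at h6
    omega

end RotWqo.Hk
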