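import Pool.Agent.Lib.MP_cb4a0f_co.Hk.Stmts2
import Pool.Agent.Lib.MP_cb4a0f_co.Hk.Greedy57

/-!
# MP_cb4a0f_co: (S1), refinement of a cutting so that no arc loop is around a strand
-/

open Classical

namespace RotWqo.Hk

open RotWqo.Bag

universe u v

variable {V : Type u} {H : Type v}

/-- an arc loop of the arc `(x, i)` around a strand, at the positions `lo, ..., hi` -/
def Bd57 (G : RotGraph V H) (ι : H → ℕ) (x : V) (i lo hi : ℕ) : Prop :=
  ∃ a e, a ∈ G.darts ∧ G.base a = x ∧ ι a = i ∧ G.base (G.opp a) = x ∧ ι (G.opp a) = i ∧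
    e ∈ G.darts ∧ G.base e = x ∧ ι e = i ∧ ¬ AL G ι e ∧ lo ≤ pos G a ∧ pos G a < pos G e ∧
    pos G e < pos G (G.opp a) ∧ pos G (G.opp a) ≤ hi

theorem Bd57_self (G : RotGraph V H) (ι : H → ℕ) (x : V) (i p : ℕ) : ¬ Bd57 G ι x i p p := by
  rintro ⟨a, e, -, -, -, -, -, -, -, -, -, h1, h2, h3, h4⟩
  omega

theorem mem_dts57 {G : RotGraph V H} {A : Finset V} {a : H} :
    a ∈ dts G A ↔ a ∈ G.darts ∧ G.base a ∈ A := by
  unfold dts
  rw [Finset.mem_filter]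

theorem ref_57 (hM : StMix.{u, v}) : StRef.{u, v} := by
  intro r N
  obtain ⟨W, hW⟩ := hM r N
  refine ⟨r * (2 * W + 1), fun V H G A ι₁ hA hC hP => ?_⟩
  -- the number of greedy intervals in an arc is bounded
  have key : ∀ x ∈ A, ∀ i p, ¬ 2 * W ≤ (gr (Bd57 G ι₁ x i) p).1 := by
    intro x hx i p hp
    obtain ⟨lo, hi, h1, h2⟩ := gr_many hp
    let X : ℕ → Finset H := fun w => G.darts.filter (fun h => G.base h = x ∧ ι₁ h = i ∧
      lo w ≤ pos G h ∧ pos G h ≤ hi w)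
    have hX : ∀ w h, h ∈ X w ↔ h ∈ G.darts ∧ G.base h = x ∧ ι₁ h = i ∧ lo w ≤ pos G h ∧
        pos G h ≤ hi w := fun w h => by
      simp only [X, Finset.mem_filter]
    obtain ⟨G₁, ι₂, h3, h4, h5⟩ := hW V H G A ι₁ x i X hA hx hC (by
      intro w hw
      refine ⟨⟨fun h hh => ?_, fun a ha c hc b hb hbx hab hbc => ?_⟩, fun h hh => ?_, ?_⟩
      · rw [hX] at hh
        exact ⟨hh.1, hh.2.1⟩
      · rw [hX] at ha hc ⊢
        obtain ⟨a1, a2, a3, a4, a5⟩ := ha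
        obtain ⟨c1, c2, c3, c4, c5⟩ := hc
        refine ⟨hb, hbx, ?_, by omega, by omega⟩
        have e1 := hC.mono a (mem_dts57.2 ⟨a1, a2 ▸ hx⟩) b (mem_dts57.2 ⟨hb, hbx ▸ hx⟩)
          (a2.trans hbx.symm) hab
        have e2 := hC.mono b (mem_dts57.2 ⟨hb, hbx ▸ hx⟩) c (mem_dts57.2 ⟨c1, c2 ▸ hx⟩)
          (hbx.trans c2.symm) hbc
        omega
      · rw [hX] at hh
        exact hh.2.2.1
      · obtain ⟨a, e, a1, a2, a3, a4, a5, e1, e2, e3, e4, p1, p2, p3, p4⟩ := (h1 w hw).1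
        refine Or.inl ⟨a, e, (hX w _).2 ⟨a1, a2, a3, p1, by omega⟩,
          (hX w _).2 ⟨G.opp_mem a a1, a4, a5, by omega, p4⟩,
          (hX w _).2 ⟨e1, e2, e3, by omega, by omega⟩, ⟨a4.trans a2.symm, a5.trans a3.symm⟩,
          e4, p2, p3⟩) (by
      intro w w' hww hw' a ha b hb
      rw [hX] at ha hb
      have := h2 w w' hww hw'
      omega)
    exact absurd (hP G₁ h3 ι₂ h4) (not_lt.2 h5)
  have hlt : ∀ a ∈ dts G A, (gr (Bd57 G ι₁ (G.base a) (ι₁ a)) (pos G a)).1 < 2 * W + 1 := by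
    intro a ha
    have := key (G.base a) (mem_dts57.1 ha).2 (ι₁ a) (pos G a)
    omega
  let ι₂ : H → ℕ := fun a => ι₁ a * (2 * W + 1) + (gr (Bd57 G ι₁ (G.base a) (ι₁ a)) (pos G a)).1
  have hι : ∀ a, ι₂ a = ι₁ a * (2 * W + 1) +
    (gr (Bd57 G ι₁ (G.base a) (ι₁ a)) (pos G a)).1 := fun a => rfl
  have hdiv : ∀ a ∈ dts G A, ι₂ a / (2 * W + 1) = ι₁ a := by
    intro a ha
    rw [hι, Nat.add_comm, Nat.add_mul_div_right _ _ (Nat.succ_pos _), Nat.div_eq_of_lt (hlt a ha),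
      Nat.zero_add]
  have hone : ∀ a ∈ dts G A, ∀ b ∈ dts G A, ι₂ a = ι₂ b → ι₁ a = ι₁ b := by
    intro a ha b hb hab
    rw [← hdiv a ha, ← hdiv b hb, hab]
  refine ⟨ι₂, ⟨fun a ha b hb hab hpos => ?_, fun a ha => ?_⟩,
    fun a ha b hb _ hab => hone a ha b hb hab, ?_⟩
  · have h1 := hC.mono a ha b hb hab hpos
    rcases h1.lt_or_eq with h2 | h2
    · have h3 := hlt a ha
      calc ι₂ a ≤ ι₁ a * (2 * W + 1) + (2 * W + 1) := by
            rw [hι]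
            omega
        _ = (ι₁ a + 1) * (2 * W + 1) := by ring
        _ ≤ ι₁ b * (2 * W + 1) := Nat.mul_le_mul_right _ h2
        _ ≤ ι₂ b := by
            rw [hι]
            exact Nat.le_add_right _ _
    · rw [hι, hι, ← h2, ← hab]
      exact Nat.add_le_add_left (gr_mono _ hpos) _
  · have h1 := hlt a ha
    have h2 := hC.lt a ha
    calc ι₂ a < ι₁ a * (2 * W + 1) + (2 * W + 1) := by
          rw [hι]
          omega
      _ = (ι₁ a + 1) * (2 * W + 1) := by ring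
      _ ≤ r * (2 * W + 1) := Nat.mul_le_mul_right _ h2
  · rintro a ha e he hbe hie ⟨hal1, hal2⟩ hne ⟨hp1, hp2⟩
    have ha' := mem_dts57.1 ha
    have he' := mem_dts57.1 he
    have ho : G.opp a ∈ dts G A := mem_dts57.2 ⟨G.opp_mem a ha'.1, by
      rw [hal1]
      exact ha'.2⟩
    have h1 : ι₁ e = ι₁ a := hone e he a ha hie
    have h2 : ι₁ (G.opp a) = ι₁ a := hone _ ho a ha hal2
    have h3 : (gr (Bd57 G ι₁ (G.base a) (ι₁ a)) (pos G (G.opp a))).1 =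
        (gr (Bd57 G ι₁ (G.base a) (ι₁ a)) (pos G a)).1 := by
      have h4 := hal2
      rw [hι, hι, h2, hal1] at h4
      exact Nat.add_left_cancel h4
    have h5 := gr_start_eq h3
    refine gr_good (Bd57_self G ι₁ (G.base a) (ι₁ a)) (pos G (G.opp a)) ?_
    refine ⟨a, e, ha'.1, rfl, rfl, hal1, h2, he'.1, hbe, h1, hne, ?_, hp1, hp2, le_rfl⟩
    rw [h5]
    exact gr_start_le _ _

end RotWqo.Hk
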