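import Pool.Agent.Lib.MP_cb4a0f_co.Hk.Stmts
import Pool.Agent.Lib.MP_cb4a0f_co.Arc.NC22
import Pool.Agent.Lib.MP_cb4a0f_co.Arc.Union6

/-!
# MP_cb4a0f_co: pieces with segment carvings of bounded width (seat 21)

The arcs become hubs, each with a dummy half-edge in front of it; therefore no hub is ever complete
and the words at the hubs are linear.
-/

open Classical

namespace RotWqo.Hk

open RotWqo.Bag

universe u v w

namespace Seg21

/-! ### lists -/

theorem filter_succ {α : Type*} (ι : α → ℕ) (s : ℕ) : ∀ l : List α,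
    l.Pairwise (fun a b => ι a ≤ ι b) → l.filter (fun a => decide (ι a < s + 1)) =
      l.filter (fun a => decide (ι a < s)) ++ l.filter (fun a => decide (ι a = s))
  | [], _ => rfl
  | a :: l, h => by
    rw [List.pairwise_cons] at h
    have ih := filter_succ ι s l h.2
    rcases lt_trichotomy (ι a) s with h1 | h1 | h1
    · rw [List.filter_cons_of_pos (by simpa using (by omega : ι a < s + 1)),
        List.filter_cons_of_pos (by simpa using h1), List.filter_cons_of_neg (by simpa using h1.ne),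
        ih, List.cons_append]
    · have h2 : l.filter (fun a => decide (ι a < s)) = [] := by
        rw [List.filter_eq_nil_iff]
        intro b hb
        have := h.1 b hb
        simp only [decide_eq_true_eq]
        omega
      rw [List.filter_cons_of_pos (by simpa using (by omega : ι a < s + 1)),
        List.filter_cons_of_neg (by simpa using (by omega : ¬ ι a < s)),
        List.filter_cons_of_pos (by simpa using h1), ih, h2, List.nil_append, List.nil_append]
    · have h2 : (a :: l).filter (fun a => decide (ι a < s)) = [] := by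
        rw [List.filter_eq_nil_iff]
        intro b hb
        simp only [decide_eq_true_eq]
        rcases List.mem_cons.1 hb with rfl | hb
        · omega
        · have := h.1 b hb
          omega
      have h3 : (a :: l).filter (fun a => decide (ι a = s)) = [] := by
        rw [List.filter_eq_nil_iff]
        intro b hb
        simp only [decide_eq_true_eq]
        rcases List.mem_cons.1 hb with rfl | hb
        · omega
        · have := h.1 b hb
          omega
      have h4 : (a :: l).filter (fun a => decide (ι a < s + 1)) = [] := by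
        rw [List.filter_eq_nil_iff]
        intro b hb
        simp only [decide_eq_true_eq]
        rcases List.mem_cons.1 hb with rfl | hb
        · omega
        · have := h.1 b hb
          omega
      rw [h2, h3, h4, List.nil_append]

theorem idx_lt {α : Type*} {l : List α} (hl : l.Nodup) (p : α → Bool) {a b : α}
    (ha : a ∈ l.filter p) (hb : b ∈ l.filter p)
    (h : (l.filter p).idxOf a < (l.filter p).idxOf b) : l.idxOf a < l.idxOf b := by
  have h1 : l.Pairwise (fun a b => l.idxOf a < l.idxOf b) := by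
    rw [List.pairwise_iff_getElem]
    intro i j hi hj hij
    rw [hl.idxOf_getElem, hl.idxOf_getElem]
    exact hij
  have h2 : (l.filter p).Pairwise (fun a b => l.idxOf a < l.idxOf b) :=
    h1.sublist List.filter_sublist
  rw [List.pairwise_iff_getElem] at h2
  have h3 := h2 _ _ (List.idxOf_lt_length_of_mem ha) (List.idxOf_lt_length_of_mem hb) h
  rwa [List.getElem_idxOf, List.getElem_idxOf] at h3

theorem idx_cons_map {α β : Type*} (f : α → β) (hf : Function.Injective f) (z : β)
    (hz : ∀ a, z ≠ f a) {L : List α} (hL : L.Nodup) {a : α} (ha : a ∈ L) :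
    (z :: L.map f).idxOf (f a) = L.idxOf a + 1 := by
  rw [List.idxOf_cons_ne _ (hz a)]
  have hlt := List.idxOf_lt_length_of_mem ha
  have h2 : (L.map f)[L.idxOf a]'(by rw [List.length_map]; exact hlt) = f a := by
    rw [List.getElem_map, List.getElem_idxOf]
  have h3 := (hL.map hf).idxOf_getElem (L.idxOf a) (by rw [List.length_map]; exact hlt)
  rw [h2] at h3
  rw [h3]

theorem idx_head {β : Type*} (z : β) (L : List β) : (z :: L).idxOf z = 0 :=
  List.idxOf_cons_self

theorem rot_pairwise {V H : Type*} {G : RotGraph V H} {A : Finset V} {ι : H → ℕ} {M : ℕ}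
    (hι : Cutting G A ι M) {x : V} (hx : x ∈ A) :
    (G.rot x).Pairwise (fun a b => ι a ≤ ι b) := by
  rw [List.pairwise_iff_getElem]
  intro i j hi hj hij
  have h1 := (G.mem_rot x _).1 (List.getElem_mem hi)
  have h2 := (G.mem_rot x _).1 (List.getElem_mem hj)
  refine hι.mono _ (Finset.mem_filter.2 ⟨h1.1, by rw [h1.2]; exact hx⟩) _
    (Finset.mem_filter.2 ⟨h2.1, by rw [h2.2]; exact hx⟩) (h1.2.trans h2.2.symm) ?_
  unfold pos
  rw [h1.2, h2.2, (G.nodup x).idxOf_getElem, (G.nodup x).idxOf_getElem]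
  exact hij.le

/-! ### trees -/

/-- renaming the leaves -/
def tmap {α β : Type*} (f : α → β) : Tree α → Tree β
  | .leaf a => .leaf (f a)
  | .node l r => .node (tmap f l) (tmap f r)

theorem tmap_leaves {α β : Type*} (f : α → β) : ∀ t : Tree α,
    (tmap f t).leaves = t.leaves.map f
  | .leaf a => rfl
  | .node l r => by
    rw [tmap, Tree.leaves, Tree.leaves, tmap_leaves f l, tmap_leaves f r, List.map_append]

theorem tmap_set {α β : Type*} (f : α → β) (t : Tree α) : (tmap f t).set = t.set.image f := by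
  ext b
  unfold Tree.set
  rw [List.mem_toFinset, tmap_leaves, List.mem_map, Finset.mem_image]
  simp

theorem mem_tmap {α β : Type*} {f : α → β} {t : Tree α} {x : β} :
    x ∈ (tmap f t).set ↔ ∃ a ∈ t.set, f a = x := by
  rw [tmap_set, Finset.mem_image]

theorem mem_leaf {α : Type*} {a x : α} : x ∈ (Tree.leaf a).set ↔ x = a := by
  unfold Tree.set Tree.leaves
  rw [List.mem_toFinset, List.mem_singleton]

theorem isSub_tmap {α β : Type*} (f : α → β) {s' : Tree β} : ∀ {t : Tree α},
    IsSub s' (tmap f t) → ∃ s, IsSub s t ∧ s' = tmap f s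
  | .leaf a, h => by
    cases h
    exact ⟨_, IsSub.refl, rfl⟩
  | .node l r, h => by
    cases h with
    | refl => exact ⟨_, IsSub.refl, rfl⟩
    | left _ _ h1 =>
      obtain ⟨s, h2, h3⟩ := isSub_tmap f h1
      exact ⟨s, IsSub.left _ _ h2, h3⟩
    | right _ _ h1 =>
      obtain ⟨s, h2, h3⟩ := isSub_tmap f h1
      exact ⟨s, IsSub.right _ _ h2, h3⟩

theorem isSub_set {α : Type*} {s : Tree α} : ∀ {t : Tree α}, IsSub s t → s.set ⊆ t.set
  | .leaf a, h => by
    cases h
    exact fun _ h => h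
  | .node l r, h => by
    have h0 : ∀ x, x ∈ (Tree.node l r).set ↔ x ∈ l.set ∨ x ∈ r.set := by
      intro x
      unfold Tree.set
      rw [List.mem_toFinset, List.mem_toFinset, List.mem_toFinset, Tree.leaves, List.mem_append]
    cases h with
    | refl => exact fun _ h => h
    | left _ _ h1 => exact fun x hx => (h0 x).2 (Or.inl (isSub_set h1 hx))
    | right _ _ h1 => exact fun x hx => (h0 x).2 (Or.inr (isSub_set h1 hx))

/-! ### the graph -/

section graph

variable {V : Type u} {H : Type v} {n : ℕ}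

/-- the end of a half-edge of the new graph -/
noncomputable def xb (G : RotGraph V H) (ι : H → ℕ) (p : Fin n → V × ℕ) :
    H ⊕ (Fin n × Bool) → Option (V × ℕ) :=
  Sum.elim (fun h => if ∃ j, p j = (G.base h, ι h) then some (G.base h, ι h) else none)
    (fun d => if d.2 then some (p d.1) else none)

/-- the list of a vertex of the new graph -/
noncomputable def xr (G : RotGraph V H) (ι : H → ℕ) (p : Fin n → V × ℕ) :
    Option (V × ℕ) → List (H ⊕ (Fin n × Bool))
  | none => ((G.darts.disjSum Finset.univ).filter (fun a => xb G ι p a = none)).toList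
  | some q => ((Finset.univ.filter (fun j => p j = q)).toList.map
      (fun j => (Sum.inr (j, true) : H ⊕ (Fin n × Bool)))) ++
      ((G.rot q.1).filter (fun h => decide (ι h = q.2 ∧ ∃ j, p j = q))).map Sum.inl

theorem xb_inl {G : RotGraph V H} {ι : H → ℕ} {p : Fin n → V × ℕ} {h : H} {q : V × ℕ} :
    xb G ι p (Sum.inl h) = some q ↔ (G.base h, ι h) = q ∧ ∃ j, p j = q := by
  unfold xb
  rw [Sum.elim_inl]
  split_ifs with h1
  · rw [Option.some.injEq]
    constructor
    · intro h2
      exact ⟨h2, h2 ▸ h1⟩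
    · intro h2
      exact h2.1
  · simp only [false_iff]
    rintro ⟨h2, h3⟩
    exact h1 (h2 ▸ h3)

/-- the arcs as vertices, with a dummy half-edge in front of each -/
noncomputable def xg (G : RotGraph V H) (ι : H → ℕ) (p : Fin n → V × ℕ) :
    RotGraph (Option (V × ℕ)) (H ⊕ (Fin n × Bool)) where
  verts := insert none (Finset.univ.image (fun j => some (p j)))
  darts := G.darts.disjSum Finset.univ
  base := xb G ι p
  opp := Sum.elim (fun h => Sum.inl (G.opp h)) (fun d => Sum.inr (d.1, !d.2))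
  rot := xr G ι p
  base_mem a _ := by
    rcases hb : xb G ι p a with _ | q
    · exact Finset.mem_insert_self _ _
    · refine Finset.mem_insert_of_mem (Finset.mem_image.2 ?_)
      rcases a with h | d
      · obtain ⟨-, j, hj⟩ := xb_inl.1 hb
        exact ⟨j, Finset.mem_univ _, by rw [hj]⟩
      · unfold xb at hb
        rw [Sum.elim_inr] at hb
        split_ifs at hb
        exact ⟨d.1, Finset.mem_univ _, hb⟩
  opp_mem a ha := by
    rcases a with h | d
    · rw [Sum.elim_inl, Finset.inl_mem_disjSum]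
      rw [Finset.inl_mem_disjSum] at ha
      exact G.opp_mem h ha
    · rw [Sum.elim_inr, Finset.inr_mem_disjSum]
      exact Finset.mem_univ _
  opp_opp a ha := by
    rcases a with h | d
    · rw [Finset.inl_mem_disjSum] at ha
      simp [G.opp_opp h ha]
    · simp
  opp_ne a ha := by
    rcases a with h | d
    · rw [Finset.inl_mem_disjSum] at ha
      simp [G.opp_ne h ha]
    · rcases d with ⟨j, b⟩
      simp
  nodup v := by
    rcases v with _ | q
    · exact Finset.nodup_toList _
    · unfold xr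
      refine List.Nodup.append ?_ ?_ ?_
      · refine (Finset.nodup_toList _).map fun a b hab => ?_
        simpa using hab
      · exact ((G.nodup q.1).filter _).map Sum.inl_injective
      · intro a ha hb
        obtain ⟨j, -, rfl⟩ := List.mem_map.1 ha
        obtain ⟨h, -, h2⟩ := List.mem_map.1 hb
        cases h2
  mem_rot v a := by
    rcases v with _ | q
    · unfold xr
      rw [Finset.mem_toList, Finset.mem_filter]
    · unfold xr
      rw [List.mem_append, List.mem_map, List.mem_map]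
      rcases a with h | d
      · rw [Finset.inl_mem_disjSum, xb_inl]
        constructor
        · rintro (⟨j, -, h1⟩ | ⟨g, h1, h2⟩)
          · cases h1
          · cases h2
            rw [List.mem_filter, G.mem_rot] at h1
            have h3 := of_decide_eq_true h1.2
            exact ⟨h1.1.1, Prod.ext h1.1.2 h3.1, h3.2⟩
        · rintro ⟨h1, h2, h3⟩
          subst h2
          refine Or.inr ⟨h, ?_, rfl⟩
          rw [List.mem_filter, G.mem_rot]
          exact ⟨⟨h1, rfl⟩, by simpa using h3⟩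
      · constructor
        · rintro (⟨j, h1, h2⟩ | ⟨g, h1, h2⟩)
          · cases h2
            rw [Finset.mem_toList, Finset.mem_filter] at h1
            refine ⟨Finset.inr_mem_disjSum.2 (Finset.mem_univ _), ?_⟩
            unfold xb
            rw [Sum.elim_inr, if_pos rfl, h1.2]
          · cases h2
        · rintro ⟨-, h2⟩
          unfold xb at h2
          rw [Sum.elim_inr] at h2
          split_ifs at h2 with h3
          refine Or.inl ⟨d.1, ?_, ?_⟩
          · rw [Finset.mem_toList, Finset.mem_filter]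
            exact ⟨Finset.mem_univ _, Option.some.inj h2⟩
          · rcases d with ⟨j, b⟩
            simp only at h3
            rw [h3]

/-- the hubs of the new graph -/
def hb (p : Fin n → V × ℕ) (j : Fin n) : Option (V × ℕ) := some (p j)

/-- the half-edges as units -/
def e1 (V : Type u) (H : Type v) (n : ℕ) (h : H) : Option (V × ℕ) ⊕ (H ⊕ (Fin n × Bool)) :=
  Sum.inr (Sum.inl h)

theorem e1_inj : Function.Injective (e1 V H n) := by
  intro a b h
  unfold e1 at h
  simpa using h

/-- a set of half-edges as a set of units -/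
def im (V : Type u) {H : Type v} (n : ℕ) (Y : Finset H) :
    Finset (Option (V × ℕ) ⊕ (H ⊕ (Fin n × Bool))) := Y.map ⟨e1 V H n, e1_inj⟩

theorem mem_im {Y : Finset H} {x : Option (V × ℕ) ⊕ (H ⊕ (Fin n × Bool))} :
    x ∈ im V n Y ↔ ∃ h ∈ Y, e1 V H n h = x := by
  unfold im
  rw [Finset.mem_map]
  rfl

theorem tmap_im (t : Tree H) : (tmap (e1 V H n) t).set = im V n t.set := by
  ext x
  rw [mem_tmap, mem_im]

/-- the numbering of the arcs fits -/
structure Num (G : RotGraph V H) (A : Finset V) (ι : H → ℕ) (p : Fin n → V × ℕ) : Prop where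
  inj : Function.Injective p
  mem : ∀ j, (p j).1 ∈ A
  cov : ∀ h ∈ dts G A, ∃ j, p j = (G.base h, ι h)

variable {G : RotGraph V H} {A : Finset V} {ι : H → ℕ} {p : Fin n → V × ℕ}

theorem hb_inj (hp : Num G A ι p) : Function.Injective (hb p) := fun _ _ h =>
  hp.inj (Option.some.inj h)

theorem isHub_iff {v : Option (V × ℕ)} : Arc.IsHub (hb p) v ↔ ∃ j, v = some (p j) := by
  unfold Arc.IsHub hb
  constructor
  · rintro ⟨j, h⟩
    exact ⟨j, h.symm⟩
  · rintro ⟨j, h⟩
    exact ⟨j, h.symm⟩

theorem base_inl (hp : Num G A ι p) {h : H} (hh : h ∈ dts G A) :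
    (xg G ι p).base (Sum.inl h) = some (G.base h, ι h) :=
  xb_inl.2 ⟨rfl, hp.cov h hh⟩

theorem inn_inl (hp : Num G A ι p) {Y : Finset H} (hY : Y ⊆ dts G A) {h : H} :
    Arc.inn (xg G ι p) (hb p) (im V n Y) (Sum.inl h) ↔ h ∈ Y := by
  unfold Arc.inn
  constructor
  · rintro (⟨-, h1⟩ | ⟨-, h1⟩)
    · obtain ⟨g, h2, h3⟩ := mem_im.1 h1
      unfold e1 at h3
      cases h3
      exact h2
    · obtain ⟨g, h2, h3⟩ := mem_im.1 h1
      unfold e1 at h3
      cases h3
  · intro h1
    refine Or.inl ⟨?_, mem_im.2 ⟨h, h1, rfl⟩⟩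
    rw [base_inl hp (hY h1)]
    obtain ⟨j, hj⟩ := hp.cov h (hY h1)
    exact isHub_iff.2 ⟨j, by rw [hj]⟩

theorem inn_inr {Y : Finset H} {d : Fin n × Bool} :
    ¬ Arc.inn (xg G ι p) (hb p) (im V n Y) (Sum.inr d) := by
  unfold Arc.inn
  rintro (⟨-, h1⟩ | ⟨-, h1⟩)
  · obtain ⟨g, h2, h3⟩ := mem_im.1 h1
    unfold e1 at h3
    cases h3
  · obtain ⟨g, h2, h3⟩ := mem_im.1 h1
    unfold e1 at h3
    cases h3

theorem rot_hub (hp : Num G A ι p) (j : Fin n) : (xg G ι p).rot (some (p j)) =
    Sum.inr (j, true) :: ((G.rot (p j).1).filter (fun h => decide (ι h = (p j).2))).map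
      Sum.inl := by
  show xr G ι p (some (p j)) = _
  simp only [xr]
  have h1 : (Finset.univ.filter (fun i => p i = p j)) = {j} := by
    ext i
    rw [Finset.mem_filter, Finset.mem_singleton]
    exact ⟨fun h => hp.inj h.2, fun h => ⟨Finset.mem_univ _, by rw [h]⟩⟩
  rw [h1, Finset.toList_singleton, List.map_singleton, List.singleton_append]
  congr 2
  refine List.filter_congr fun h _ => ?_
  rw [decide_eq_decide]
  exact ⟨fun h => h.1, fun h => ⟨h, j, rfl⟩⟩

theorem lst_hub (hp : Num G A ι p) (j : Fin n) :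
    Arc.lst (xg G ι p) (hb p) (im V n (dts G A)) (some (p j)) =
      ((G.rot (p j).1).filter (fun h => decide (ι h = (p j).2))).map Sum.inl := by
  unfold Arc.lst
  rw [rot_hub hp, List.filter_cons_of_neg (by simpa using inn_inr), List.filter_eq_self]
  intro a ha
  obtain ⟨h, h1, rfl⟩ := List.mem_map.1 ha
  rw [decide_eq_true_eq, inn_inl hp (Finset.Subset.refl _)]
  rw [List.mem_filter, G.mem_rot] at h1
  exact Finset.mem_filter.2 ⟨h1.1.1, h1.1.2 ▸ hp.mem j⟩

theorem not_cpl (hp : Num G A ι p) (j : Fin n) (Y : Finset H) :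
    ¬ Arc.cpl (xg G ι p) (hb p) (im V n Y) (some (p j)) := by
  intro h
  refine inn_inr (h (Sum.inr (j, true)) ?_)
  rw [rot_hub hp]
  exact List.mem_cons_self

theorem bdx_eq (hp : Num G A ι p) : Arc.bdx (xg G ι p) (hb p) (im V n (dts G A)) =
    (bd G A).image Sum.inl := by
  ext a
  rw [Arc.mem_bdx, Finset.mem_image]
  constructor
  · rintro ⟨h1, h2, h3⟩
    rcases a with h | d
    · rw [inn_inl hp (Finset.Subset.refl _)] at h2
      have h4 : ¬ Arc.inn (xg G ι p) (hb p) (im V n (dts G A)) (Sum.inl (G.opp h)) := h3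
      rw [inn_inl hp (Finset.Subset.refl _)] at h4
      unfold dts at h2 h4
      rw [Finset.mem_filter] at h2 h4
      refine ⟨h, ?_, rfl⟩
      unfold bd
      rw [Finset.mem_filter]
      exact ⟨h2.1, h2.2, fun h5 => h4 ⟨G.opp_mem h h2.1, h5⟩⟩
    · exact absurd h2 inn_inr
  · rintro ⟨h, h1, rfl⟩
    unfold bd at h1
    rw [Finset.mem_filter] at h1
    refine ⟨Finset.inl_mem_disjSum.2 h1.1, ?_, ?_⟩
    · rw [inn_inl hp (Finset.Subset.refl _)]
      exact Finset.mem_filter.2 ⟨h1.1, h1.2.1⟩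
    · show ¬ Arc.inn (xg G ι p) (hb p) (im V n (dts G A)) (Sum.inl (G.opp h))
      rw [inn_inl hp (Finset.Subset.refl _)]
      intro h2
      exact h1.2.2 (Finset.mem_filter.1 h2).2

theorem ecut_le (hp : Num G A ι p) {Y : Finset H} (hY : Y ⊆ dts G A) :
    Arc.ecut (xg G ι p) (hb p) (im V n Y) ≤
      (Y.filter (fun h => G.opp h ∉ Y)).card := by
  unfold Arc.ecut
  have h1 : Arc.bdx (xg G ι p) (hb p) (im V n Y) ⊆
      (Y.filter (fun h => G.opp h ∉ Y)).image Sum.inl := by
    intro a ha
    rw [Arc.mem_bdx] at ha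
    obtain ⟨h1, h2, h3⟩ := ha
    rcases a with h | d
    · rw [inn_inl hp hY] at h2
      have h4 : ¬ Arc.inn (xg G ι p) (hb p) (im V n Y) (Sum.inl (G.opp h)) := h3
      rw [inn_inl hp hY] at h4
      exact Finset.mem_image.2 ⟨h, Finset.mem_filter.2 ⟨h2, h4⟩, rfl⟩
    · exact absurd h2 inn_inr
  exact (Finset.card_le_card h1).trans Finset.card_image_le

theorem cv (hp : Num G A ι p) {Y : Finset H}
    (hY : ∀ a ∈ Y, ∀ c ∈ Y, ∀ b ∈ dts G A, G.base a = G.base b → G.base c = G.base b →
      ι a = ι b → ι c = ι b → pos G a ≤ pos G b → pos G b ≤ pos G c → b ∈ Y) :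
    Arc.Cv (xg G ι p) (hb p) (im V n Y) := by
  intro j a ha b hb c hc hab hbc haY hcY
  have hmem : ∀ z : H ⊕ (Fin n × Bool), Sum.inr z ∈ im V n Y →
      ∃ h ∈ Y, z = Sum.inl h := by
    intro z hz
    obtain ⟨g, h2, h3⟩ := mem_im.1 hz
    unfold e1 at h3
    exact ⟨g, h2, (Sum.inr.inj h3).symm⟩
  obtain ⟨a, haY', rfl⟩ := hmem a haY
  obtain ⟨c, hcY', rfl⟩ := hmem c hcY
  have er : (xg G ι p).rot (Seg21.hb p j) = _ := rot_hub hp j
  set L := (G.rot (p j).1).filter (fun h => decide (ι h = (p j).2)) with hL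
  rw [er] at ha hb hc hab hbc
  have hLm : ∀ h, h ∈ L → h ∈ G.darts ∧ G.base h = (p j).1 ∧ ι h = (p j).2 := by
    intro h hh
    rw [hL, List.mem_filter, G.mem_rot] at hh
    exact ⟨hh.1.1, hh.1.2, of_decide_eq_true hh.2⟩
  have hinl : ∀ h : H, (Sum.inl h : H ⊕ (Fin n × Bool)) ∈
      Sum.inr (j, true) :: L.map Sum.inl → h ∈ L := by
    intro h hh
    rcases List.mem_cons.1 hh with h1 | h1
    · cases h1
    · obtain ⟨g, h2, h3⟩ := List.mem_map.1 h1
      cases h3
      exact h2
  have hidx := fun (h : H) (hh : h ∈ L) => idx_cons_map (Sum.inl : H → H ⊕ (Fin n × Bool))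
    Sum.inl_injective (Sum.inr (j, true)) (by simp) ((G.nodup _).filter _) hh
  have haL := hinl a ha
  have hcL := hinl c hc
  rcases b with b | d
  · have hbL := hinl b hb
    rw [hidx a haL, hidx b hbL] at hab
    rw [hidx c hcL, hidx b hbL] at hbc
    obtain ⟨a1, a2, a3⟩ := hLm a haL
    obtain ⟨b1, b2, b3⟩ := hLm b hbL
    obtain ⟨c1, c2, c3⟩ := hLm c hcL
    have h1 := idx_lt (G.nodup _) _ haL hbL (by omega)
    have h2 := idx_lt (G.nodup _) _ hbL hcL (by omega)
    refine mem_im.2 ⟨b, ?_, rfl⟩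
    refine hY a haY' c hcY' b (Finset.mem_filter.2 ⟨b1, b2 ▸ hp.mem j⟩) (a2.trans b2.symm)
      (c2.trans b2.symm) (a3.trans b3.symm) (c3.trans b3.symm) ?_ ?_
    · unfold pos
      rw [a2, b2]
      exact h1.le
    · unfold pos
      rw [c2, b2]
      exact h2.le
  · exfalso
    rcases List.mem_cons.1 hb with h1 | h1
    · cases h1
      rw [idx_head] at hab
      exact absurd hab (Nat.not_lt_zero _)
    · obtain ⟨g, h2, h3⟩ := List.mem_map.1 h1
      cases h3

end graph

/-! ### from the new graphs back -/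

section back

variable {V V' : Type u} {H H' : Type v} {n : ℕ} {G : RotGraph V H} {A : Finset V} {ι : H → ℕ}
  {p : Fin n → V × ℕ} {G' : RotGraph V' H'} {A' : Finset V'} {ι' : H' → ℕ} {p' : Fin n → V' × ℕ}

/-- the half-edge of the old graph -/
noncomputable def pr (H : Type v) [Nonempty H] (n : ℕ) : H ⊕ (Fin n × Bool) → H :=
  Sum.elim id (fun _ => Classical.arbitrary H)

theorem mem_cases (hp : Num G A ι p) {a : H ⊕ (Fin n × Bool)}
    (h : Arc.inn (xg G ι p) (hb p) (im V n (dts G A)) a) : ∃ h ∈ dts G A, a = Sum.inl h := by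
  rcases a with h1 | d
  · exact ⟨h1, (inn_inl hp (Finset.Subset.refl _)).1 h, rfl⟩
  · exact absurd h inn_inr

theorem back [Nonempty V'] [Nonempty H'] {S : ℕ} (hS : 0 < S) {k : ℕ} (a : Fin k → V)
    (a' : Fin k → V') (ha : Function.Injective a) (ha' : Function.Injective a')
    (hA : ∀ v, v ∈ A ↔ ∃ j, a j = v) (hA' : ∀ v, v ∈ A' ↔ ∃ j, a' j = v)
    (e : Fin n ≃ Fin k × Fin S) (hp : Num G A ι p) (hp' : Num G' A' ι' p')
    (hpe : ∀ j, p j = (a (e j).1, ((e j).2 : ℕ))) (hpe' : ∀ j, p' j = (a' (e j).1, ((e j).2 : ℕ)))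
    (hι : Cutting G A ι S) (hι' : Cutting G' A' ι' S)
    (r : V → V' → Prop) (r' : Option (V × ℕ) → Option (V' × ℕ) → Prop)
    (hr : ∀ x y i i', r' (some (x, i)) (some (y, i')) → r x y)
    {β : H ⊕ (Fin n × Bool) → H' ⊕ (Fin n × Bool)} {f : Option (V × ℕ) → Option (V' × ℕ)}
    {φ : H ⊕ (Fin n × Bool) → H' ⊕ (Fin n × Bool)}
    {M : H' ⊕ (Fin n × Bool) → H' ⊕ (Fin n × Bool) → Prop}
    (hP : Arc.PED r' (xg G ι p) (hb p) (im V n (dts G A)) (xg G' ι' p') (hb p')
      (im V' n (dts G' A')) β f φ M) :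
    ∃ β', PE r G A G' A' β' := by
  set f0 : V → V' := Function.extend a a' (fun _ => Classical.arbitrary V') with hf0
  set φ0 : H → H' := fun h => pr H' n (φ (Sum.inl h)) with hφ0
  set M0 : H' → H' → Prop := fun x y => M (Sum.inl x) (Sum.inl y) with hM0
  have hfa : ∀ j, f0 (a j) = a' j := fun j => ha.extend_apply _ _ _
  have hfj : ∀ j, f (some (p j)) = some (p' j) := fun j => hP.f_hub j
  have hsub := Finset.Subset.refl (dts G A)
  have hφ : ∀ h ∈ dts G A, φ (Sum.inl h) = Sum.inl (φ0 h) ∧ φ0 h ∈ dts G' A' := by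
    intro h hh
    have h1 := hP.φ_mem (Sum.inl h) (Finset.inl_mem_disjSum.2 (Finset.mem_filter.1 hh).1)
      ((inn_inl hp hsub).2 hh)
    obtain ⟨g, h2, h3⟩ := mem_cases hp' h1.2
    have h4 : φ0 h = g := by
      simp only [hφ0]
      rw [h3]
      rfl
    rw [h4]
    exact ⟨h3, h2⟩
  have hM : ∀ x y, M x y → ∃ x0 ∈ dts G' A', x = Sum.inl x0 := by
    intro x y h
    exact mem_cases hp' (hP.M_mem x y h).2
  have hdA : ∀ v (i : ℕ), v ∈ A → i < S → ∃ j, p j = (v, i) ∧ p' j = (f0 v, i) := by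
    intro v i hv hi
    obtain ⟨l, rfl⟩ := (hA v).1 hv
    refine ⟨e.symm (l, ⟨i, hi⟩), ?_, ?_⟩
    · rw [hpe, Equiv.apply_symm_apply]
    · rw [hpe', Equiv.apply_symm_apply, hfa]
  have hdA' : ∀ v (i : ℕ), v ∈ A' → i < S → ∃ j, p' j = (v, i) := by
    intro v i hv hi
    obtain ⟨l, rfl⟩ := (hA' v).1 hv
    refine ⟨e.symm (l, ⟨i, hi⟩), ?_⟩
    rw [hpe', Equiv.apply_symm_apply]
  have hKer : ∀ b : H', Ker G A φ0 b ↔
      Arc.Kx (xg G ι p) (hb p) (im V n (dts G A)) φ (Sum.inl b) := by
    intro b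
    constructor
    · rintro ⟨h, h1, h2, h3⟩
      have hh : h ∈ dts G A := Finset.mem_filter.2 ⟨h1, h2⟩
      exact ⟨Sum.inl h, Finset.inl_mem_disjSum.2 h1, (inn_inl hp hsub).2 hh, by
        rw [(hφ h hh).1, h3]⟩
    · rintro ⟨z, h1, h2, h3⟩
      obtain ⟨h, hh, rfl⟩ := mem_cases hp h2
      rw [(hφ h hh).1] at h3
      exact ⟨h, (Finset.mem_filter.1 hh).1, (Finset.mem_filter.1 hh).2, Sum.inl.inj h3⟩
  have hrun : ∀ x y, Run (xg G' ι' p').opp M (Sum.inl x) y →
      ∃ y0, y = Sum.inl y0 ∧ Run G'.opp M0 x y0 := by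
    intro x y h
    generalize hz : (Sum.inl x : H' ⊕ (Fin n × Bool)) = z at h
    induction h generalizing x with
    | refl z => exact ⟨x, hz.symm, Run.refl x⟩
    | step z z' y h1 _ ih =>
      subst hz
      obtain ⟨z0, -, h3⟩ := hM _ _ (hP.M_symm _ _ h1)
      obtain ⟨y0, h4, h5⟩ := ih z0 h3.symm
      refine ⟨y0, h4, Run.step _ z0 _ ?_ h5⟩
      rw [h3] at h1
      exact h1
  have hbd : ∀ h, h ∈ bd G A ↔ Sum.inl h ∈ Arc.bdx (xg G ι p) (hb p)
      (im V n (dts G A)) := by
    intro h
    rw [bdx_eq hp, Finset.mem_image]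
    constructor
    · exact fun h1 => ⟨h, h1, rfl⟩
    · rintro ⟨g, h1, h2⟩
      cases h2
      exact h1
  have hbd' : ∀ h, h ∈ bd G' A' ↔ Sum.inl h ∈ Arc.bdx (xg G' ι' p') (hb p')
      (im V' n (dts G' A')) := by
    intro h
    rw [bdx_eq hp', Finset.mem_image]
    constructor
    · exact fun h1 => ⟨h, h1, rfl⟩
    · rintro ⟨g, h1, h2⟩
      cases h2
      exact h1
  have hβ : ∀ h ∈ bd G A, β (Sum.inl h) = Sum.inl (pr H' n (β (Sum.inl h))) := by
    intro h hh
    have h1 := hP.β_bij.mapsTo (Finset.mem_coe.2 ((hbd h).1 hh))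
    rw [Finset.mem_coe, bdx_eq hp', Finset.mem_image] at h1
    obtain ⟨g, -, h2⟩ := h1
    rw [← h2]
    rfl
  -- the words at one arc
  have hword : ∀ j, ((G'.rot (p' j).1).filter (fun h => decide (ι' h = (p' j).2))).filter
      (fun b => decide (Ker G A φ0 b)) =
      ((G.rot (p j).1).filter (fun h => decide (ι h = (p j).2))).map φ0 := by
    intro j
    have h1 := hP.rot_eq (some (p j)) (Or.inl (isHub_iff.2 ⟨j, rfl⟩))
    rw [hfj, Arc.Union6.filter_wd, Arc.Union6.map_wd, if_neg (not_cpl hp' j _),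
      if_neg (not_cpl hp j _), List.singleton_append, List.singleton_append] at h1
    have h2 := Arc.Union6.strip h1
    rw [lst_hub hp', lst_hub hp, List.filter_map, List.map_map] at h2
    have h3 : ((G.rot (p j).1).filter (fun h => decide (ι h = (p j).2))).map (φ ∘ Sum.inl) =
        (((G.rot (p j).1).filter (fun h => decide (ι h = (p j).2))).map φ0).map Sum.inl := by
      rw [List.map_map]
      refine List.map_congr_left fun h hh => ?_
      rw [List.mem_filter, G.mem_rot] at hh
      exact (hφ h (Finset.mem_filter.2 ⟨hh.1.1, by rw [hh.1.2]; exact hp.mem j⟩)).1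
    rw [h3] at h2
    have h4 := List.map_injective_iff.2 Sum.inl_injective h2
    rw [← h4]
    refine List.filter_congr fun b _ => ?_
    rw [decide_eq_decide.2 (hKer b)]
    rfl
  have hncl : ∀ j, Arc.NCL M0 (((G'.rot (p' j).1).filter (fun h => decide (ι' h = (p' j).2))).filter
      (fun b => decide (Ker G A φ0 b ∨ ∃ c, M0 b c))) := by
    intro j
    have h1 := hP.nc (some (p' j)) (Or.inl (isHub_iff.2 ⟨j, rfl⟩))
    rw [Arc.Union6.filter_wd, if_neg (not_cpl hp' j _), List.singleton_append] at h1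
    have h2 := Arc.NC22.fromNC h1 _ (List.IsRotated.refl _)
    rw [lst_hub hp', List.filter_map] at h2
    have h3 : ∀ b : H', (Arc.Kx (xg G ι p) (hb p) (im V n (dts G A)) φ (Sum.inl b) ∨
        ∃ c, M (Sum.inl b) c) ↔ (Ker G A φ0 b ∨ ∃ c, M0 b c) := by
      intro b
      rw [hKer]
      refine or_congr Iff.rfl ⟨?_, ?_⟩
      · rintro ⟨c, hc⟩
        obtain ⟨c0, -, h4⟩ := hM _ _ (hP.M_symm _ _ hc)
        exact ⟨c0, by rw [h4] at hc; exact hc⟩
      · rintro ⟨c, hc⟩
        exact ⟨_, hc⟩
    have h5 : ∀ l : List H', Arc.NCL M (l.map Sum.inl) → Arc.NCL M0 l := by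
      intro l hl
      generalize hz : l.map (Sum.inl : H' → H' ⊕ (Fin n × Bool)) = z at hl
      induction hl generalizing l with
      | done z h6 =>
        subst hz
        refine Arc.NCL.done _ fun b hb c hc => ?_
        exact h6 (Sum.inl b) (List.mem_map_of_mem hb) (Sum.inl c) hc
      | pair l₁ b c l₂ hbc _ ih =>
        obtain ⟨m₁, m₂, rfl, h6, h7⟩ := List.map_eq_append_iff.1 hz
        obtain ⟨b0, m₃, rfl, h8, h9⟩ := List.map_eq_cons_iff.1 h7
        obtain ⟨c0, m₄, rfl, h10, h11⟩ := List.map_eq_cons_iff.1 h9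
        subst h8 h10
        refine Arc.NCL.pair _ _ _ _ hbc (ih _ ?_)
        rw [List.map_append, h6, h11]
    have h6 := h5 _ h2
    refine (congrArg (Arc.NCL M0) ?_).mp h6
    refine List.filter_congr fun b _ => ?_
    rw [← decide_eq_decide.2 (h3 b)]
    rfl
  refine ⟨fun h => pr H' n (β (Sum.inl h)), f0, φ0, M0, ?_⟩
  constructor
  · intro v hv
    obtain ⟨j, rfl⟩ := (hA v).1 hv
    rw [hfa]
    exact (hA' _).2 ⟨j, rfl⟩
  · intro v hv
    obtain ⟨j, h1, h2⟩ := hdA v 0 hv hS
    have h3 := hP.f_rel (some (p j)) (Or.inl (isHub_iff.2 ⟨j, rfl⟩))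
    rw [hfj, h1, h2] at h3
    exact hr _ _ _ _ h3
  · intro v hv w hw hvw
    obtain ⟨i, rfl⟩ := (hA v).1 (Finset.mem_coe.1 hv)
    obtain ⟨j, rfl⟩ := (hA w).1 (Finset.mem_coe.1 hw)
    rw [hfa, hfa] at hvw
    rw [ha' hvw]
  · exact fun x y h => hP.M_symm _ _ h
  · exact fun x y z h h' => Sum.inl.inj (hP.M_fun _ _ _ h h')
  · intro x y h
    obtain ⟨x0, h1, h2⟩ := hM _ _ h
    cases h2
    exact (Finset.mem_filter.1 h1).1
  · intro x y h
    obtain ⟨x0, h1, h2⟩ := hM _ _ h
    obtain ⟨y0, h3, h4⟩ := hM _ _ (hP.M_symm _ _ h)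
    cases h2
    cases h4
    have h5 := hP.M_base _ _ h
    rw [base_inl hp' h1, base_inl hp' h3, Option.some.injEq, Prod.mk.injEq] at h5
    exact ⟨(Finset.mem_filter.1 h1).2, h5.1⟩
  · intro x y h h1
    exact hP.M_ker _ _ h ((hKer x).1 h1)
  · intro h h1 h2
    exact (Finset.mem_filter.1 (hφ h (Finset.mem_filter.2 ⟨h1, h2⟩)).2).1
  · intro h h1 h2
    have hh : h ∈ dts G A := Finset.mem_filter.2 ⟨h1, h2⟩
    have h3 := hP.φ_base (Sum.inl h) (Finset.inl_mem_disjSum.2 h1) ((inn_inl hp hsub).2 hh)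
    obtain ⟨h4, h5⟩ := hφ h hh
    obtain ⟨j, hj, hj'⟩ := hdA (G.base h) (ι h) h2 (hι.lt h hh)
    rw [h4, base_inl hp' h5, base_inl hp hh, ← hj, hfj, hj', Option.some.injEq,
      Prod.mk.injEq] at h3
    exact h3.1
  · intro h h1 g g1 h2 g2 hhg
    have hh : h ∈ dts G A := Finset.mem_filter.2 ⟨h1, h2⟩
    have gg : g ∈ dts G A := Finset.mem_filter.2 ⟨g1, g2⟩
    have h3 := hP.φ_inj (Sum.inl h) (Finset.inl_mem_disjSum.2 h1) (Sum.inl g)
      (Finset.inl_mem_disjSum.2 g1) ((inn_inl hp hsub).2 hh) ((inn_inl hp hsub).2 gg)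
      (by rw [(hφ h hh).1, (hφ g gg).1, hhg])
    exact Sum.inl.inj h3
  · intro v hv
    have hv' : f0 v ∈ A' := by
      obtain ⟨j, rfl⟩ := (hA v).1 hv
      rw [hfa]
      exact (hA' _).2 ⟨j, rfl⟩
    have key : ∀ s ≤ S, ((G'.rot (f0 v)).filter (fun h => decide (ι' h < s))).filter
        (fun b => decide (Ker G A φ0 b)) = ((G.rot v).filter (fun h => decide (ι h < s))).map φ0 := by
      intro s
      induction s with
      | zero =>
        intro _
        simp
      | succ s ih =>
        intro hs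
        obtain ⟨j, hj, hj'⟩ := hdA v s hv (by omega)
        have h1 := hword j
        rw [hj, hj'] at h1
        rw [filter_succ ι' s _ (rot_pairwise hι' hv'), filter_succ ι s _ (rot_pairwise hι hv),
          List.filter_append, List.map_append, ih (by omega), h1]
    have h1 := key S le_rfl
    have h2 : (G'.rot (f0 v)).filter (fun h => decide (ι' h < S)) = G'.rot (f0 v) := by
      rw [List.filter_eq_self]
      intro h hh
      rw [G'.mem_rot] at hh
      simpa using hι'.lt h (Finset.mem_filter.2 ⟨hh.1, by rw [hh.2]; exact hv'⟩)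
    have h3 : (G.rot v).filter (fun h => decide (ι h < S)) = G.rot v := by
      rw [List.filter_eq_self]
      intro h hh
      rw [G.mem_rot] at hh
      simpa using hι.lt h (Finset.mem_filter.2 ⟨hh.1, by rw [hh.2]; exact hv⟩)
    rw [h2, h3] at h1
    rw [h1]
  · intro x hx
    have key : ∀ s ≤ S, Arc.NCL M0 (((G'.rot x).filter (fun h => decide (ι' h < s))).filter
        (fun b => decide (Ker G A φ0 b ∨ ∃ c, M0 b c))) := by
      intro s
      induction s with
      | zero =>
        intro _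
        simp only [Nat.not_lt_zero, decide_false, List.filter_false, List.filter_nil]
        exact Arc.NCL.done _ fun b hb => by cases hb
      | succ s ih =>
        intro hs
        obtain ⟨j, hj⟩ := hdA' x s hx (by omega)
        have h1 := hncl j
        rw [hj] at h1
        rw [filter_succ ι' s _ (rot_pairwise hι' hx), List.filter_append]
        exact Arc.NC22.append (ih (by omega)) h1
    have h1 := key S le_rfl
    have h2 : (G'.rot x).filter (fun h => decide (ι' h < S)) = G'.rot x := by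
      rw [List.filter_eq_self]
      intro h hh
      rw [G'.mem_rot] at hh
      simpa using hι'.lt h (Finset.mem_filter.2 ⟨hh.1, by rw [hh.2]; exact hx⟩)
    rw [h2] at h1
    have h3 : ∀ l : List H', Arc.NCL M0 l → NC M0 l := by
      intro l hl
      induction hl with
      | done l hl => exact NC.done _ hl
      | pair l₁ b c l₂ hbc _ ih =>
        refine NC.pair _ b c (l₂ ++ l₁) ?_ hbc (ih.of_isRotated List.isRotated_append)
        exact List.isRotated_append
    exact h3 _ h1
  · intro h h1 h2 h3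
    have hh : h ∈ dts G A := Finset.mem_filter.2 ⟨h1, h2⟩
    have hh' : G.opp h ∈ dts G A := Finset.mem_filter.2 ⟨G.opp_mem h h1, h3⟩
    obtain ⟨y, h4, h5⟩ := hP.run_in (Sum.inl h) (Finset.inl_mem_disjSum.2 h1)
      ((inn_inl hp hsub).2 hh) ((inn_inl hp hsub (h := G.opp h)).2 hh')
    rw [(hφ h hh).1] at h4
    obtain ⟨y0, rfl, h6⟩ := hrun _ _ h4
    refine ⟨y0, h6, ?_⟩
    have h7 : (Sum.inl (G'.opp y0) : H' ⊕ (Fin n × Bool)) = φ (Sum.inl (G.opp h)) := h5
    rw [(hφ _ hh').1] at h7
    exact Sum.inl.inj h7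
  · intro h h1
    have h1' := h1
    unfold bd at h1'
    rw [Finset.mem_filter] at h1'
    have hh : h ∈ dts G A := Finset.mem_filter.2 ⟨h1'.1, h1'.2.1⟩
    have h2 := hP.run_out (Sum.inl h) ((hbd h).1 h1)
    rw [(hφ h hh).1] at h2
    obtain ⟨y0, h3, h4⟩ := hrun _ _ h2
    have h5 : pr H' n (β (Sum.inl h)) = y0 := by
      rw [h3]
      rfl
    rw [h5]
    exact h4
  · refine ⟨?_, ?_, ?_⟩
    · intro h h1
      have h1' := Finset.mem_coe.1 h1
      have h2 := hP.β_bij.mapsTo (Finset.mem_coe.2 ((hbd h).1 h1'))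
      rw [hβ h h1'] at h2
      exact Finset.mem_coe.2 ((hbd' _).2 (Finset.mem_coe.1 h2))
    · intro h h1 g g1 hhg
      have h1' := Finset.mem_coe.1 h1
      have g1' := Finset.mem_coe.1 g1
      refine Sum.inl.inj (hP.β_bij.injOn (Finset.mem_coe.2 ((hbd h).1 h1'))
        (Finset.mem_coe.2 ((hbd g).1 g1')) ?_)
      rw [hβ h h1', hβ g g1']
      exact congrArg Sum.inl hhg
    · intro b hb1
      obtain ⟨z, h1, h2⟩ := hP.β_bij.surjOn (Finset.mem_coe.2 ((hbd' b).1 (Finset.mem_coe.1 hb1)))
      have h3 := h1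
      rw [Finset.mem_coe, bdx_eq hp, Finset.mem_image] at h3
      obtain ⟨h, h4, rfl⟩ := h3
      refine ⟨h, Finset.mem_coe.2 h4, ?_⟩
      beta_reduce
      rw [h2]
      rfl

theorem back0 [Nonempty V'] [Nonempty H'] {k : ℕ} (a : Fin k → V) (a' : Fin k → V')
    (ha : Function.Injective a) (ha' : Function.Injective a')
    (hA : ∀ v, v ∈ A ↔ ∃ j, a j = v) (hA' : ∀ v, v ∈ A' ↔ ∃ j, a' j = v)
    (h0 : dts G A = ∅) (h0' : dts G' A' = ∅) (r : V → V' → Prop) (hr : ∀ j, r (a j) (a' j)) :
    ∃ β', PE r G A G' A' β' := by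
  set f0 : V → V' := Function.extend a a' (fun _ => Classical.arbitrary V') with hf0
  have hfa : ∀ j, f0 (a j) = a' j := fun j => ha.extend_apply _ _ _
  have hn : ∀ h ∈ G.darts, G.base h ∈ A → False := by
    intro h h1 h2
    have : h ∈ dts G A := Finset.mem_filter.2 ⟨h1, h2⟩
    rw [h0] at this
    simp at this
  have hn' : ∀ h ∈ G'.darts, G'.base h ∈ A' → False := by
    intro h h1 h2
    have : h ∈ dts G' A' := Finset.mem_filter.2 ⟨h1, h2⟩
    rw [h0'] at this
    simp at this
  have hb0 : bd G A = ∅ := by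
    unfold bd
    rw [Finset.filter_eq_empty_iff]
    exact fun h h1 h2 => hn h h1 h2.1
  have hb0' : bd G' A' = ∅ := by
    unfold bd
    rw [Finset.filter_eq_empty_iff]
    exact fun h h1 h2 => hn' h h1 h2.1
  have hfA : ∀ v ∈ A, f0 v ∈ A' := by
    intro v hv
    obtain ⟨j, rfl⟩ := (hA v).1 hv
    rw [hfa]
    exact (hA' _).2 ⟨j, rfl⟩
  refine ⟨fun _ => Classical.arbitrary H', f0, fun _ => Classical.arbitrary H',
    fun _ _ => False, ?_⟩
  constructor
  · exact hfA
  · intro v hv
    obtain ⟨j, rfl⟩ := (hA v).1 hv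
    rw [hfa]
    exact hr j
  · intro v hv w hw hvw
    obtain ⟨i, rfl⟩ := (hA v).1 (Finset.mem_coe.1 hv)
    obtain ⟨j, rfl⟩ := (hA w).1 (Finset.mem_coe.1 hw)
    rw [hfa, hfa] at hvw
    rw [ha' hvw]
  · exact fun _ _ h => h
  · exact fun _ _ _ h => h.elim
  · exact fun _ _ h => h.elim
  · exact fun _ _ h => h.elim
  · exact fun _ _ h => h.elim
  · exact fun h h1 h2 => (hn h h1 h2).elim
  · exact fun h h1 h2 => (hn h h1 h2).elim
  · exact fun h h1 _ _ h2 => (hn h h1 h2).elim
  · intro v hv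
    have h1 : G.rot v = [] := by
      rw [List.eq_nil_iff_forall_not_mem]
      intro h hh
      rw [G.mem_rot] at hh
      exact hn h hh.1 (by rw [hh.2]; exact hv)
    have h2 : G'.rot (f0 v) = [] := by
      rw [List.eq_nil_iff_forall_not_mem]
      intro h hh
      rw [G'.mem_rot] at hh
      exact hn' h hh.1 (by rw [hh.2]; exact hfA v hv)
    rw [h1, h2, List.filter_nil, List.map_nil]
  · exact fun x _ => NC.done _ fun _ _ _ h => h
  · exact fun h h1 h2 => (hn h h1 h2).elim
  · intro h h1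
    rw [hb0] at h1
    simp at h1
  · rw [hb0, hb0', Finset.coe_empty, Finset.coe_empty]
    exact ⟨fun _ h => h.elim, fun _ h => h.elim, fun _ h => h.elim⟩

end back

end Seg21

open Seg21 in
/-- (W) -/
theorem stSeg_21 (hX : StArcX.{u, v, w}) : StSeg.{u, v, w} := by
  intro k s w Q q _ hq V H _ _ G lab A ι hA hk hcut ht
  -- a subsequence
  have hwq : WellQuasiOrdered (fun a b : Fin (k + 1) × Bool => a = b) :=
    Finite.wellQuasiOrdered _
  obtain ⟨g, hg⟩ := hwq.exists_monotone_subseq (fun i =>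
    ((⟨(A i).card, Nat.lt_succ_of_le (hk i)⟩ : Fin (k + 1)), decide (dts (G i) (A i) = ∅)))
  have hcard : ∀ i, (A (g i)).card = (A (g 0)).card := by
    intro i
    have h1 := congrArg (fun x => (x.1 : ℕ)) (hg 0 i (Nat.zero_le i))
    exact h1.symm
  have hemp : ∀ i, dts (G (g i)) (A (g i)) = ∅ ↔ dts (G (g 0)) (A (g 0)) = ∅ := by
    intro i
    have h1 := congrArg (fun x => x.2) (hg 0 i (Nat.zero_le i))
    exact (decide_eq_decide.1 h1).symm
  have hcut' : ∀ i, Cutting (G (g i)) (A (g i)) (ι (g i)) (s + 1) := fun i =>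
    ⟨(hcut (g i)).mono, fun a ha => ((hcut (g i)).lt a ha).trans (Nat.lt_succ_self s)⟩
  set k' := (A (g 0)).card with hk'
  -- enumerations
  set a : ∀ i, Fin k' → V (g i) := fun i j =>
    ((Finset.equivFinOfCardEq (hcard i)).symm j : V (g i)) with ha
  have hinj : ∀ i, Function.Injective (a i) := by
    intro i x y hxy
    exact (Finset.equivFinOfCardEq (hcard i)).symm.injective (Subtype.ext hxy)
  have hmemA : ∀ i v, v ∈ A (g i) ↔ ∃ j, a i j = v := by
    intro i v
    constructor
    · intro hv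
      refine ⟨Finset.equivFinOfCardEq (hcard i) ⟨v, hv⟩, ?_⟩
      simp only [ha, Equiv.symm_apply_apply]
    · rintro ⟨j, rfl⟩
      exact ((Finset.equivFinOfCardEq (hcard i)).symm j).2
  set n := k' * (s + 1) with hn
  set e : Fin n ≃ Fin k' × Fin (s + 1) := finProdFinEquiv.symm with he
  set p : ∀ i, Fin n → V (g i) × ℕ := fun i j => (a i (e j).1, ((e j).2 : ℕ)) with hp
  have hnum : ∀ i, Num (G (g i)) (A (g i)) (ι (g i)) (p i) := by
    intro i
    refine ⟨?_, ?_, ?_⟩
    · intro x y hxy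
      simp only [hp, Prod.mk.injEq] at hxy
      exact e.injective (Prod.ext (hinj i hxy.1) (Fin.ext hxy.2))
    · intro j
      exact (hmemA i _).2 ⟨_, rfl⟩
    · intro h hh
      obtain ⟨l, hl⟩ := (hmemA i _).1 (Finset.mem_filter.1 hh).2
      refine ⟨e.symm (l, ⟨ι (g i) h, (hcut' i).lt h hh⟩), ?_⟩
      simp only [hp, Equiv.apply_symm_apply]
      rw [hl]
  set lab' : ∀ i, Option (V (g i) × ℕ) → Q := fun i o =>
    o.elim (lab (g i) (Classical.arbitrary _)) (fun x => lab (g i) x.1) with hlab'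
  by_cases h0 : dts (G (g 0)) (A (g 0)) = ∅
  · have h0' : ∀ i, dts (G (g i)) (A (g i)) = ∅ := fun i => (hemp i).2 h0
    rcases Nat.eq_zero_or_pos k' with hk0 | hk0
    · have hno : ∀ j : Fin k', False := by
        intro j
        have := j.2
        omega
      obtain ⟨β, hβ⟩ := back0 (G := G (g 0)) (A := A (g 0)) (G' := G (g 1)) (A' := A (g 1))
        (a 0) (a 1) (hinj 0) (hinj 1) (hmemA 0) (hmemA 1) (h0' 0) (h0' 1)
        (fun x y => q (lab (g 0) x) (lab (g 1) y)) (fun j => (hno j).elim)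
      exact ⟨g 0, g 1, g.strictMono Nat.zero_lt_one, β, hβ⟩
    · -- one dummy half-edge
      have hn0 : 0 < n := Nat.mul_pos hk0 (Nat.succ_pos s)
      set j0 : Fin n := ⟨0, hn0⟩ with hj0
      obtain ⟨m, l, hml, β, f, φ, M, hP⟩ := hX 1 n Q q hq (fun i => Option (V (g i) × ℕ))
        (fun i => H (g i) ⊕ (Fin n × Bool)) (fun i => xg (G (g i)) (ι (g i)) (p i)) lab'
        (fun i => hb (p i)) (fun i => Tree.leaf (Sum.inr (Sum.inr (j0, true))))
        (fun i => hb_inj (hnum i))
        (fun i j => Finset.mem_insert_of_mem (Finset.mem_image.2 ⟨j, Finset.mem_univ _, rfl⟩))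
        (fun i => List.nodup_singleton _)
        (fun i => by
          intro x hx
          rw [mem_leaf] at hx
          subst hx
          rw [Arc.inr_mem_units]
          refine ⟨Finset.inr_mem_disjSum.2 (Finset.mem_univ _), ?_⟩
          exact isHub_iff.2 ⟨j0, rfl⟩)
        (fun i v hv => by
          rw [mem_leaf] at hv
          cases hv)
        (fun i t hts => by
          cases hts
          have hm : ∀ x, x ∈ (Tree.leaf (Sum.inr (Sum.inr (j0, true)) :
              Option (V (g i) × ℕ) ⊕ (H (g i) ⊕ (Fin n × Bool)))).set ↔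
              x = Sum.inr (Sum.inr (j0, true)) := fun x => mem_leaf
          constructor
          · intro j x _ y _ z _ hxy hyz hx hz
            rw [hm] at hx hz
            cases hx
            cases hz
            omega
          · unfold Arc.ecut
            have h1 : Arc.bdx (xg (G (g i)) (ι (g i)) (p i)) (hb (p i))
                (Tree.leaf (Sum.inr (Sum.inr (j0, true)) :
                  Option (V (g i) × ℕ) ⊕ (H (g i) ⊕ (Fin n × Bool)))).set ⊆
                {Sum.inr (j0, true)} := by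
              intro x hx
              rw [Arc.mem_bdx] at hx
              rw [Finset.mem_singleton]
              rcases hx.2.1 with ⟨-, h2⟩ | ⟨-, h2⟩
              · rw [hm] at h2
                exact Sum.inr.inj h2
              · rw [hm] at h2
                cases h2
            exact (Finset.card_le_card h1).trans (Finset.card_singleton _).le)
      obtain ⟨β', hβ'⟩ := back0 (G := G (g m)) (A := A (g m)) (G' := G (g l)) (A' := A (g l))
        (a m) (a l) (hinj m) (hinj l) (hmemA m) (hmemA l) (h0' m) (h0' l)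
        (fun x y => q (lab (g m) x) (lab (g l) y)) (fun j => by
          have h2 := hP.f_rel (some (p m (e.symm (j, ⟨0, Nat.succ_pos s⟩))))
            (Or.inl (isHub_iff.2 ⟨_, rfl⟩))
          have h3 : f (some (p m (e.symm (j, ⟨0, Nat.succ_pos s⟩)))) =
              some (p l (e.symm (j, ⟨0, Nat.succ_pos s⟩))) := hP.f_hub _
          rw [h3] at h2
          simp only [hlab', hp, Equiv.apply_symm_apply, Option.elim_some] at h2
          exact h2)
      exact ⟨g m, g l, g.strictMono hml, β', hβ'⟩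
  · have h0' : ∀ i, ∃ t, IsSegCar w (G (g i)) (A (g i)) (ι (g i)) t := by
      intro i
      rcases ht (g i) with h1 | h1
      · exact absurd ((hemp i).1 h1) h0
      · exact h1
    choose t ht using h0'
    obtain ⟨m, l, hml, β, f, φ, M, hP⟩ := hX w n Q q hq (fun i => Option (V (g i) × ℕ))
      (fun i => H (g i) ⊕ (Fin n × Bool)) (fun i => xg (G (g i)) (ι (g i)) (p i)) lab'
      (fun i => hb (p i)) (fun i => tmap (e1 (V (g i)) (H (g i)) n) (t i))
      (fun i => hb_inj (hnum i))
      (fun i j => Finset.mem_insert_of_mem (Finset.mem_image.2 ⟨j, Finset.mem_univ _, rfl⟩))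
      (fun i => by
        rw [tmap_leaves]
        exact (ht i).1.map e1_inj)
      (fun i => by
        intro x hx
        rw [mem_tmap, (ht i).2.1] at hx
        obtain ⟨h, hh, rfl⟩ := hx
        unfold e1
        rw [Arc.inr_mem_units]
        refine ⟨Finset.inl_mem_disjSum.2 (Finset.mem_filter.1 hh).1, ?_⟩
        rw [base_inl (hnum i) hh]
        obtain ⟨j, hj⟩ := (hnum i).cov h hh
        exact isHub_iff.2 ⟨j, by rw [hj]⟩)
      (fun i v hv => by
        rw [mem_tmap] at hv
        obtain ⟨h, -, hh⟩ := hv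
        cases hh)
      (fun i t' ht' => by
        obtain ⟨t₀, h1, rfl⟩ := isSub_tmap _ ht'
        obtain ⟨h2, h3⟩ := (ht i).2.2 t₀ h1
        have h4 : t₀.set ⊆ dts (G (g i)) (A (g i)) := by
          have := isSub_set h1
          rwa [(ht i).2.1] at this
        rw [tmap_im]
        exact ⟨cv (hnum i) h2, (ecut_le (hnum i) h4).trans h3⟩)
    rw [tmap_im, tmap_im, (ht m).2.1, (ht l).2.1] at hP
    obtain ⟨β', hβ'⟩ := back (Nat.succ_pos s) (a m) (a l) (hinj m) (hinj l) (hmemA m) (hmemA l) e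
      (hnum m) (hnum l) (fun _ => rfl) (fun _ => rfl) (hcut' m) (hcut' l)
      (fun x y => q (lab (g m) x) (lab (g l) y)) _ (fun _ _ _ _ h => h) hP
    exact ⟨g m, g l, g.strictMono hml, β', hβ'⟩

end RotWqo.Hk
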