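import Pool.Agent.Lib.MP_cb4a0f_co.Hk.Stmts

/-!
# MP_cb4a0f_co: (L) cutting into tame arcs
-/

open Classical

namespace RotWqo.Hk

open RotWqo.Bag

universe u v

namespace Tame50

variable {V : Type u} {H : Type v}

/-- The half-edges at `x` in the positions `a ≤ · < b`. -/
noncomputable def Iv (G : RotGraph V H) (x : V) (a b : ℕ) : Finset H :=
  G.darts.filter (fun h => G.base h = x ∧ a ≤ pos G h ∧ pos G h < b)

theorem mem_Iv {G : RotGraph V H} {x : V} {a b : ℕ} {h : H} :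
    h ∈ Iv G x a b ↔ h ∈ G.darts ∧ G.base h = x ∧ a ≤ pos G h ∧ pos G h < b :=
  Finset.mem_filter

theorem isInt_Iv (G : RotGraph V H) (x : V) (a b : ℕ) : IsInt G x (Iv G x a b) := by
  refine ⟨fun h hh => ?_, fun p hp q hq r hr hx h1 h2 => ?_⟩
  · rw [mem_Iv] at hh
    exact ⟨hh.1, hh.2.1⟩
  · rw [mem_Iv] at hp hq ⊢
    exact ⟨hr, hx, by omega, by omega⟩

theorem Iv_mono {G : RotGraph V H} {x : V} {a b a' b' : ℕ} (h1 : a' ≤ a) (h2 : b ≤ b') :
    Iv G x a b ⊆ Iv G x a' b' := by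
  intro h hh
  rw [mem_Iv] at hh ⊢
  exact ⟨hh.1, hh.2.1, by omega, by omega⟩

theorem pos_lt {G : RotGraph V H} {h : H} (hh : h ∈ G.darts) :
    pos G h < (G.rot (G.base h)).length :=
  List.idxOf_lt_length_of_mem ((G.mem_rot _ _).2 ⟨hh, rfl⟩)

theorem exists_pos {G : RotGraph V H} {x : V} {p : ℕ} (hp : p < (G.rot x).length) :
    ∃ h ∈ G.darts, G.base h = x ∧ pos G h = p := by
  have h1 := (G.mem_rot x ((G.rot x)[p])).1 (List.getElem_mem hp)
  refine ⟨(G.rot x)[p], h1.1, h1.2, ?_⟩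
  unfold pos
  rw [h1.2]
  exact (G.nodup x).idxOf_getElem p hp

theorem pos_inj {G : RotGraph V H} {a b : H} (ha : a ∈ G.darts) (h : G.base a = G.base b)
    (hp : pos G a = pos G b) : a = b := by
  unfold pos at hp
  rw [h] at hp
  exact (List.idxOf_inj ((G.mem_rot _ _).2 ⟨ha, h⟩)).1 hp

theorem tame_single {G : RotGraph V H} {x : V} {θ p : ℕ} (hp : p < (G.rot x).length) :
    Tame θ G x (Iv G x p (p + 1)) (Iv G x p (p + 1)) := by
  obtain ⟨h, hh, hx, hpos⟩ := exists_pos hp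
  have h1 : Iv G x p (p + 1) = {h} := by
    ext g
    rw [mem_Iv, Finset.mem_singleton]
    constructor
    · rintro ⟨h2, h3, h4, h5⟩
      exact pos_inj h2 (h3.trans hx.symm) (by omega)
    · rintro rfl
      exact ⟨hh, hx, by omega, by omega⟩
  have h2 : (Tree.leaf h : Tree H).set = Iv G x p (p + 1) := by
    rw [h1]
    simp [Tree.set, Tree.leaves]
  refine ⟨.leaf h, by simp [Tree.leaves], h2, ?_⟩
  intro s hs
  cases hs
  rw [h2]
  refine ⟨isInt_Iv _ _ _ _, ?_⟩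
  unfold fcut
  rw [Finset.filter_false_of_mem]
  · simp
  · rintro g - ⟨h3, h4⟩
    exact h4 h3

/-- The next point of the greedy cutting. -/
noncomputable def nxt (n : ℕ) (T : ℕ → ℕ → Prop) (s : ℕ) : ℕ :=
  if s < n then Nat.findGreatest (fun b => s < b ∧ T s b) n else n

/-- The greedy cutting. -/
noncomputable def sq (n : ℕ) (T : ℕ → ℕ → Prop) : ℕ → ℕ
  | 0 => 0
  | i + 1 => nxt n T (sq n T i)

section greedy

variable {n : ℕ} {T : ℕ → ℕ → Prop}

theorem nxt_le (s : ℕ) : nxt n T s ≤ n := by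
  unfold nxt
  split_ifs
  · exact Nat.findGreatest_le n
  · exact le_rfl

theorem nxt_spec (hT : ∀ s < n, T s (s + 1)) {s : ℕ} (hs : s < n) :
    s < nxt n T s ∧ T s (nxt n T s) := by
  have h1 := Nat.findGreatest_spec (P := fun b => s < b ∧ T s b) (m := s + 1) (n := n) hs
    ⟨Nat.lt_succ_self s, hT s hs⟩
  unfold nxt
  rw [if_pos hs]
  exact h1

theorem nxt_max (hT : ∀ s < n, T s (s + 1)) {s : ℕ} (hs : s < n) (h : nxt n T s < n) :
    ¬ T s (nxt n T s + 1) := by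
  intro h1
  have h2 := (nxt_spec hT hs).1
  have h3 : nxt n T s = Nat.findGreatest (fun b => s < b ∧ T s b) n := by
    unfold nxt
    rw [if_pos hs]
  have h4 := Nat.findGreatest_is_greatest (P := fun b => s < b ∧ T s b) (n := n)
    (k := nxt n T s + 1) (by rw [← h3]; exact Nat.lt_succ_self _) h
  exact h4 ⟨by omega, h1⟩

theorem sq_le (i : ℕ) : sq n T i ≤ n := by
  cases i with
  | zero => exact Nat.zero_le _
  | succ i => exact nxt_le _

theorem sq_mono (hT : ∀ s < n, T s (s + 1)) : Monotone (sq n T) := by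
  refine monotone_nat_of_le_succ fun i => ?_
  change sq n T i ≤ nxt n T (sq n T i)
  by_cases h : sq n T i < n
  · exact (nxt_spec hT h).1.le
  · unfold nxt
    rw [if_neg h]
    exact sq_le i

end greedy

/-- The cutting of the list at `x`. -/
noncomputable def S (G : RotGraph V H) (θ : ℕ) (x : V) : ℕ → ℕ :=
  sq (G.rot x).length (fun a b => Tame θ G x (Iv G x a b) (Iv G x a b))

theorem S_T (G : RotGraph V H) (θ : ℕ) (x : V) : ∀ s < (G.rot x).length,
    (fun a b => Tame θ G x (Iv G x a b) (Iv G x a b)) s (s + 1) := fun _ hs => tame_single hs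

theorem S_le (G : RotGraph V H) (θ : ℕ) (x : V) (i : ℕ) : S G θ x i ≤ (G.rot x).length := sq_le i

theorem S_zero (G : RotGraph V H) (θ : ℕ) (x : V) : S G θ x 0 = 0 := rfl

theorem S_mono (G : RotGraph V H) (θ : ℕ) (x : V) : Monotone (S G θ x) := sq_mono (S_T G θ x)

theorem S_lt {G : RotGraph V H} {θ : ℕ} {x : V} {i : ℕ} (h : S G θ x i < (G.rot x).length) :
    S G θ x i < S G θ x (i + 1) :=
  (nxt_spec (T := fun a b => Tame θ G x (Iv G x a b) (Iv G x a b)) (S_T G θ x) h).1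

theorem S_tame {G : RotGraph V H} {θ : ℕ} {x : V} {i : ℕ} (h : S G θ x i < (G.rot x).length) :
    Tame θ G x (Iv G x (S G θ x i) (S G θ x (i + 1))) (Iv G x (S G θ x i) (S G θ x (i + 1))) :=
  (nxt_spec (T := fun a b => Tame θ G x (Iv G x a b) (Iv G x a b)) (S_T G θ x) h).2

theorem S_max {G : RotGraph V H} {θ : ℕ} {x : V} {i : ℕ} (h : S G θ x (i + 1) < (G.rot x).length) :
    ¬ Tame θ G x (Iv G x (S G θ x i) (S G θ x (i + 1) + 1))
      (Iv G x (S G θ x i) (S G θ x (i + 1) + 1)) :=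
  nxt_max (T := fun a b => Tame θ G x (Iv G x a b) (Iv G x a b)) (S_T G θ x)
    (lt_of_le_of_lt (S_mono G θ x (Nat.le_succ i)) h) h

theorem gad_mono {G : RotGraph V H} {q q' : ℕ} {X Y : Finset H} (hq : q ≤ q') (hX : X ⊆ Y)
    (h : Gad G q' X) : Gad G q Y := by
  obtain ⟨p, b, s, h1, h2, h3, h4, h5, h6⟩ := h
  refine ⟨p, b, s, hX h1, hX h2, fun i hi => ?_, fun i j hij hj => h4 i j hij (by omega),
    fun i j hij hj => h5 i j hij (by omega), ?_⟩
  · exact ⟨hX (h3 i (by omega)).1, hX (h3 i (by omega)).2⟩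
  · rcases h6 with h6 | h6
    · exact Or.inl fun i hi => h6 i (by omega)
    · exact Or.inr fun i hi => h6 i (by omega)

theorem exists_step {f : ℕ → ℕ} {a b p : ℕ} (h1 : f a ≤ p) (h2 : p < f b) (hab : a ≤ b) :
    ∃ j, a ≤ j ∧ j < b ∧ f j ≤ p ∧ p < f (j + 1) := by
  induction b, hab using Nat.le_induction with
  | base => omega
  | succ b hb ih =>
    by_cases h : p < f b
    · obtain ⟨j, h3, h4, h5⟩ := ih h
      exact ⟨j, h3, by omega, h5⟩
    · exact ⟨b, hb, by omega, by omega, h2⟩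

/-- The greedy cutting as a function on half-edges. -/
noncomputable def io (G : RotGraph V H) (θ : ℕ) (h : H) : ℕ :=
  if hc : ∃ i, pos G h < S G θ (G.base h) (i + 1) then Nat.find hc else 0

theorem io_eq_iff {G : RotGraph V H} {θ : ℕ} {x : V} {h : H} (hx : G.base h = x)
    (hc : ∃ i, pos G h < S G θ x (i + 1)) (i : ℕ) :
    io G θ h = i ↔ S G θ x i ≤ pos G h ∧ pos G h < S G θ x (i + 1) := by
  subst hx
  unfold io
  rw [dif_pos hc, Nat.find_eq_iff]
  constructor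
  · rintro ⟨h1, h2⟩
    refine ⟨?_, h1⟩
    cases i with
    | zero => exact Nat.zero_le _
    | succ j => exact Nat.le_of_not_lt (h2 j (Nat.lt_succ_self j))
  · rintro ⟨h1, h2⟩
    refine ⟨h2, fun j hj h3 => ?_⟩
    have h4 := S_mono G θ (G.base h) (show j + 1 ≤ i from hj)
    omega

end Tame50

open Tame50

/-- (L) Poor pieces are cut into boundedly many tame arcs. -/
theorem tame_50 (hV : StVortex.{u, v}) (hG : StGad.{u, v}) (hM : StMix.{u, v}) :
    StTame.{u, v} := by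
  intro 𝒩
  obtain ⟨W₂, q, hG⟩ := hG (𝒩 4)
  obtain ⟨θ, hV⟩ := hV (𝒩 5) (max q 1)
  obtain ⟨W₁, hM⟩ := hM 1 (𝒩 1)
  refine ⟨5, 2 * (W₁ * W₂) + 1, θ, fun V H G A hA hP => ?_⟩
  have key : ∀ x ∈ A, S G θ x (2 * (W₁ * W₂)) = (G.rot x).length := by
    intro x hx
    by_contra hne
    have hlt : S G θ x (2 * (W₁ * W₂)) < (G.rot x).length := lt_of_le_of_ne (S_le _ _ _ _) hne
    have hmono := S_mono G θ x
    -- the gadgets
    have hgad : ∀ j < W₁ * W₂, Gad G (max q 1) (Iv G x (S G θ x (2 * j)) (S G θ x (2 * j + 2))) := by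
      intro j hj
      have h1 : S G θ x (2 * j + 1) < (G.rot x).length := lt_of_le_of_lt (hmono (by omega)) hlt
      have h0 : S G θ x (2 * j) < (G.rot x).length := lt_of_le_of_lt (hmono (by omega)) hlt
      have h2 : S G θ x (2 * j + 1) < S G θ x (2 * j + 2) := S_lt h1
      have h3 : S G θ x (2 * j) < S G θ x (2 * j + 1) := S_lt h0
      refine gad_mono le_rfl (Iv_mono le_rfl h2) (hV V H G A x _ hA hx (hP 5 le_rfl)
        (isInt_Iv G x _ _) ?_ (S_max h1))
      obtain ⟨g, hg, hgx, hgp⟩ := exists_pos h0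
      exact ⟨g, mem_Iv.2 ⟨hg, hgx, by omega, by omega⟩⟩
    by_cases hcase : ∃ t < W₁, ∀ j, t * W₂ ≤ j → j < (t + 1) * W₂ →
        ∀ h ∈ Iv G x (S G θ x (2 * j)) (S G θ x (2 * j + 2)), G.base (G.opp h) = x
    · obtain ⟨t, ht, h1⟩ := hcase
      have hle : (t + 1) * W₂ ≤ W₁ * W₂ := Nat.mul_le_mul_right _ ht
      have hsucc : (t + 1) * W₂ = t * W₂ + W₂ := by ring
      have hB1 : ∀ h ∈ Iv G x (S G θ x (2 * (t * W₂))) (S G θ x (2 * ((t + 1) * W₂))),
          G.base (G.opp h) = x := by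
        intro h hh
        rw [mem_Iv] at hh
        obtain ⟨j, h5, h6, h7, h8⟩ := exists_step (f := fun j => S G θ x (2 * j)) hh.2.2.1 hh.2.2.2
          (by omega)
        exact h1 j h5 h6 h (mem_Iv.2 ⟨hh.1, hh.2.1, h7, h8⟩)
      have hB2 : ∀ w < W₂,
          Iv G x (S G θ x (2 * (t * W₂ + w))) (S G θ x (2 * (t * W₂ + w) + 2)) ⊆
            Iv G x (S G θ x (2 * (t * W₂))) (S G θ x (2 * ((t + 1) * W₂))) ∧
          Gad G q (Iv G x (S G θ x (2 * (t * W₂ + w))) (S G θ x (2 * (t * W₂ + w) + 2))) := by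
        intro w hw
        exact ⟨Iv_mono (hmono (by omega)) (hmono (by omega)),
          gad_mono (le_max_left _ _) subset_rfl (hgad _ (by omega))⟩
      have hB3 : ∀ w w', w < w' → w' < W₂ →
          Bef G (Iv G x (S G θ x (2 * (t * W₂ + w))) (S G θ x (2 * (t * W₂ + w) + 2)))
            (Iv G x (S G θ x (2 * (t * W₂ + w'))) (S G θ x (2 * (t * W₂ + w') + 2))) := by
        intro w w' h5 h6 a ha b hb
        rw [mem_Iv] at ha hb
        have h7 := hmono (show 2 * (t * W₂ + w) + 2 ≤ 2 * (t * W₂ + w') by omega)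
        omega
      obtain ⟨G₁, ι₁, h2, h3, h4⟩ := hG V H G A x
        (Iv G x (S G θ x (2 * (t * W₂))) (S G θ x (2 * ((t + 1) * W₂))))
        (fun w => Iv G x (S G θ x (2 * (t * W₂ + w))) (S G θ x (2 * (t * W₂ + w) + 2))) hA hx
        (isInt_Iv _ _ _ _) hB1 hB2 hB3
      exact absurd (hP 4 (by norm_num) G₁ h2 ι₁ h3) (not_lt.2 h4)
    · push Not at hcase
      choose! j h1 h2 h3 using hcase
      have hB1 : ∀ w < W₁,
          IsInt G x (Iv G x (S G θ x (2 * j w)) (S G θ x (2 * j w + 2))) ∧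
          (∀ h ∈ Iv G x (S G θ x (2 * j w)) (S G θ x (2 * j w + 2)), (fun _ : H => 0) h = 0) ∧
          Mix G (fun _ => 0) (Iv G x (S G θ x (2 * j w)) (S G θ x (2 * j w + 2))) := by
        intro w hw
        refine ⟨isInt_Iv _ _ _ _, fun _ _ => rfl, Or.inr ?_⟩
        obtain ⟨e, he, hex⟩ := h3 w hw
        have hjw : j w < W₁ * W₂ :=
          lt_of_lt_of_le (h2 w hw) (Nat.mul_le_mul_right _ hw)
        obtain ⟨p, b, s, g1, g2, g3, -, -, g6⟩ := hgad _ hjw
        have g0 : 0 < max q 1 := lt_of_lt_of_le Nat.one_pos (le_max_right _ _)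
        obtain ⟨g3, g3'⟩ := g3 0 g0
        have hal : ∀ a, a ∈ Iv G x (S G θ x (2 * j w)) (S G θ x (2 * j w + 2)) →
            G.opp a ∈ Iv G x (S G θ x (2 * j w)) (S G θ x (2 * j w + 2)) →
            AL G (fun _ => 0) a := fun a ha ha' =>
          ⟨(mem_Iv.1 ha').2.1.trans (mem_Iv.1 ha).2.1.symm, rfl⟩
        have hne : ¬ AL G (fun _ => 0) e := fun h7 => hex (h7.1.trans (mem_Iv.1 he).2.1)
        rcases g6 with g6 | g6
        · obtain ⟨k1, k2, k3⟩ := g6 0 g0
          exact ⟨p, b 0, e, g1, g2, g3, g3', he, hal _ g1 g2, hal _ g3 g3', hne, k1, k2, k3⟩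
        · obtain ⟨k1, k2, k3⟩ := g6 0 g0
          exact ⟨b 0, p, e, g3, g3', g1, g2, he, hal _ g3 g3', hal _ g1 g2, hne, k1, k2, k3⟩
      have hB2 : ∀ w w', w < w' → w' < W₁ →
          Bef G (Iv G x (S G θ x (2 * j w)) (S G θ x (2 * j w + 2)))
            (Iv G x (S G θ x (2 * j w')) (S G θ x (2 * j w' + 2))) := by
        intro w w' h7 h8 a ha b hb
        rw [mem_Iv] at ha hb
        have h9 : j w < (w + 1) * W₂ := h2 w (by omega)
        have h10 : w' * W₂ ≤ j w' := h1 w' h8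
        have h11 : (w + 1) * W₂ ≤ w' * W₂ := Nat.mul_le_mul_right _ h7
        have h12 := hmono (show 2 * j w + 2 ≤ 2 * j w' by omega)
        omega
      obtain ⟨G₁, ι₁, h4, h5, h6⟩ := hM V H G A (fun _ => 0) x 0
        (fun t => Iv G x (S G θ x (2 * j t)) (S G θ x (2 * j t + 2))) hA hx
        ⟨fun _ _ _ _ _ _ => le_rfl, fun _ _ => Nat.one_pos⟩ hB1 hB2
      exact absurd (hP 1 (by norm_num) G₁ h4 ι₁ h5) (not_lt.2 h6)
  have hex : ∀ h ∈ G.darts, G.base h ∈ A → ∃ i, pos G h < S G θ (G.base h) (i + 1) := by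
    intro h hh hb
    refine ⟨2 * (W₁ * W₂), lt_of_lt_of_le (pos_lt hh) ?_⟩
    rw [← key _ hb]
    exact S_mono G θ _ (Nat.le_succ _)
  refine ⟨io G θ, ⟨?_, ?_⟩, ?_⟩
  · intro a ha b hb hab h1
    obtain ⟨ha1, ha2⟩ := Finset.mem_filter.1 ha
    obtain ⟨hb1, hb2⟩ := Finset.mem_filter.1 hb
    have h2 := (io_eq_iff rfl (hex a ha1 ha2) _).1 rfl
    have h3 := (io_eq_iff rfl (hex b hb1 hb2) _).1 rfl
    rw [← hab] at h3
    by_contra h4
    have h5 := S_mono G θ (G.base a) (show io G θ b + 1 ≤ io G θ a by omega)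
    omega
  · intro a ha
    obtain ⟨ha1, ha2⟩ := Finset.mem_filter.1 ha
    have h2 := (io_eq_iff rfl (hex a ha1 ha2) _).1 rfl
    by_contra h4
    have h5 := S_mono G θ (G.base a) (show 2 * (W₁ * W₂) ≤ io G θ a by omega)
    have h6 := pos_lt ha1
    rw [key _ ha2] at h5
    omega
  · intro x hx i hne
    have harc : arc G (io G θ) x i = Iv G x (S G θ x i) (S G θ x (i + 1)) := by
      ext h
      unfold arc
      rw [Finset.mem_filter, mem_Iv]
      constructor
      · rintro ⟨h1, h2, h3⟩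
        have h4 := (io_eq_iff h2 (by subst h2; exact hex h h1 hx) i).1 h3
        exact ⟨h1, h2, h4⟩
      · rintro ⟨h1, h2, h3⟩
        exact ⟨h1, h2, (io_eq_iff h2 (by subst h2; exact hex h h1 hx) i).2 h3⟩
    rw [harc] at hne ⊢
    obtain ⟨g, hg⟩ := hne
    rw [mem_Iv] at hg
    refine S_tame ?_
    have := pos_lt hg.1
    rw [hg.2.1] at this
    omega

end RotWqo.Hk
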