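import Pool.Agent.Lib.MP_cb4a0f_co.Hk.UniA33
import Pool.Agent.Lib.MP_cb4a0f_co.Bag.PatF
import Pool.Agent.Lib.MP_cb4a0f_co.Bag.Arch
import Pool.Agent.Lib.MP_cb4a0f_co.Bag.Comb
import Pool.Agent.Lib.MP_cb4a0f_co.Bag.FlowF

/-!
# MP_cb4a0f_co: universality, with any number of loops
-/

open Classical

namespace RotWqo.Hk.Uni33

open RotWqo.Bag

universe u v w

variable {V H V' H' : Type*}

/-- The embedding from the modules. -/
theorem univX_aux [Nonempty H'] {k c D R L LR : ℕ}
    (hComb : ∀ μ : ℕ → ℕ,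
      (∀ i < R, μ i < R ∧ μ (μ i) = i ∧ μ i ≠ i) → ∃ (rs : List (ℕ × ℕ)) (bot : ℕ → ℕ),
        len rs ≤ LR ∧ R ≤ len rs ∧
        (∀ p < len rs, cap rs p < len rs ∧ cap rs (cap rs p) = p ∧ cap rs p ≠ p) ∧
        (∀ p, R ≤ p → p < len rs → R ≤ bot p ∧ bot p < len rs ∧ bot (bot p) = p ∧ bot p ≠ p) ∧
        (∀ p q, R ≤ p → p < q → q < bot p → bot p < len rs → p < bot q ∧ bot q < bot p) ∧
        ∀ i < R, Wk (cap rs) bot R i (μ i))
    (hLR : LR ≤ L)
    (hFlow : ∀ (G : RotGraph V' H') (A : Finset V') (x : V') (t : V' → ℕ), x ∈ A → A ⊆ G.verts →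
      (∀ X, x ∈ X → X ⊆ A → X ≠ A → cut G A + ∑ a ∈ A.erase x, t a ≤ cut G X) →
      ∃ U T M en, Flow G A x t U T M en)
    (G : RotGraph V H) (A : Finset V) (G' : RotGraph V' H') (A' : Finset V')
    (r : V → V' → Prop) (f : V → V') (hA' : A' ⊆ G'.verts)
    (hf : Set.BijOn f (A : Set V) (A' : Set V')) (hr : ∀ v ∈ A, r v (f v)) (hk : A.card ≤ k)
    (hD : (dts G A).card ≤ D) (hcc : cut G A = cut G' A') (hc : cut G' A' ≤ c)
    (hcut : ∀ S, S.Nonempty → S ⊆ A' → S ≠ A' → c + D ≤ cut G' S)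
    (x : V') (hxA : x ∈ A')
    (hArch : ∀ U : Finset H', (∀ h ∈ U, h ∈ G'.darts ∧ G'.base h ∈ A' ∧
      G'.base (G'.opp h) ≠ G'.base h) → U.card ≤ 2 * k * (c + D) →
      ∃ lo, ∀ rs : List (ℕ × ℕ), 0 < len rs → len rs ≤ L → (∀ p < len rs, cap rs p < len rs) →
        ∃ u, ArchesX G' A' U x lo (len rs) u (cap rs))
    (hR : R = (dts G A).card + cut G A) (hR0 : 0 < R) :
    ∃ β, PE r G A G' A' β := by
  classical
  -- the demands
  set t : V' → ℕ := fun a => ∑ v ∈ A.filter (fun v => f v = a), (G.rot v).length with ht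
  have htf : ∀ v ∈ A, t (f v) = (G.rot v).length := by
    intro v hv
    have h1 : A.filter (fun w => f w = f v) = {v} := by
      ext w
      simp only [Finset.mem_filter, Finset.mem_singleton]
      constructor
      · rintro ⟨h1, h2⟩
        exact hf.injOn (Finset.mem_coe.2 h1) (Finset.mem_coe.2 hv) h2
      · rintro rfl
        exact ⟨hv, rfl⟩
    rw [ht]
    simp only [h1, Finset.sum_singleton]
  have hsum : ∑ a ∈ A', t a = (dts G A).card := by
    rw [card_dts, ht]
    exact Finset.sum_fiberwise_of_maps_to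
      (fun v hv => Finset.mem_coe.1 (hf.mapsTo (Finset.mem_coe.2 hv))) _
  have hsum2 : ∑ a ∈ A'.erase x, t a + t x = (dts G A).card := by
    rw [Finset.sum_erase_add _ _ hxA, hsum]
  set m : ℕ := cut G' A' + ∑ a ∈ A'.erase x, t a with hm
  have hRm : R = m + t x := by omega
  have hmD : m ≤ c + D := by omega
  have hcard : A'.card = A.card := by
    have h1 : A.image f = A' := by
      apply Finset.coe_injective
      rw [Finset.coe_image]
      exact hf.image_eq
    rw [← h1, Finset.card_image_of_injOn hf.injOn]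
  -- the flow
  obtain ⟨U, T, MF, en, fl0⟩ := hFlow (nol G') A' x t hxA hA' (fun X hxX hXA hne => by
    rw [cut_nol, cut_nol]
    exact hmD.trans (hcut X ⟨x, hxX⟩ hXA hne))
  obtain ⟨fl, hUl⟩ := flow_of_nol fl0
  obtain ⟨lo, hlo⟩ := hArch U (fun h hh => ⟨(fl.U_mem h hh).1, (fl.U_mem h hh).2, hUl h hh⟩) (by
    refine fl.U_card.trans ?_
    rw [hcard]
    exact Nat.mul_le_mul (Nat.mul_le_mul_left 2 hk) hmD)
  -- the half-edges of the flow at `x`
  set PL : List H' := (G'.rot x).filter (fun h => h ∈ U ∧ lo ≤ pos G' h) ++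
    (G'.rot x).filter (fun h => h ∈ U ∧ pos G' h < lo) with hPL
  have hPLmem : ∀ h, h ∈ PL ↔ h ∈ U ∧ G'.base h = x := by
    intro h
    rw [hPL, List.mem_append, List.mem_filter, List.mem_filter, decide_eq_true_eq,
      decide_eq_true_eq, G'.mem_rot]
    constructor
    · rintro (⟨⟨-, h2⟩, h3, -⟩ | ⟨⟨-, h2⟩, h3, -⟩)
      · exact ⟨h3, h2⟩
      · exact ⟨h3, h2⟩
    · rintro ⟨h1, h2⟩
      have h3 := (fl.U_mem h h1).1
      rcases lt_or_ge (pos G' h) lo with h4 | h4
      · exact Or.inr ⟨⟨h3, h2⟩, h1, h4⟩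
      · exact Or.inl ⟨⟨h3, h2⟩, h1, h4⟩
  have hPLnd : PL.Nodup := by
    rw [hPL, List.nodup_append]
    refine ⟨(G'.nodup x).filter _, (G'.nodup x).filter _, ?_⟩
    intro a ha b hb hab
    rw [List.mem_filter, decide_eq_true_eq] at ha hb
    rw [hab] at ha
    omega
  have hPLlen : PL.length = m := by
    rw [← List.toFinset_card_of_nodup hPLnd, hm, ← fl.card]
    congr 1
    ext h
    rw [List.mem_toFinset, hPLmem, Finset.mem_filter]
  set P : List H' := PL.reverse with hP
  have hPmem : ∀ h, h ∈ P ↔ h ∈ U ∧ G'.base h = x := fun h => by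
    rw [hP, List.mem_reverse, hPLmem]
  have hPnd : P.Nodup := List.nodup_reverse.2 hPLnd
  have hPlen : P.length = m := by rw [hP, List.length_reverse, hPLlen]
  -- the map to `T`
  set TL : V' → List H' := fun v => (G'.rot v).filter (fun h => h ∈ T) with hTL
  have hTLlen : ∀ v ∈ A, f v ≠ x → (TL (f v)).length = (G.rot v).length := by
    intro v hv hvx
    rw [← htf v hv, ← fl.T_card (f v) (Finset.mem_coe.1 (hf.mapsTo (Finset.mem_coe.2 hv))) hvx,
      hTL]
    simp only
    rw [← List.toFinset_card_of_nodup ((G'.nodup (f v)).filter _)]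
    congr 1
    ext h
    simp only [List.mem_toFinset, List.mem_filter, decide_eq_true_eq, G'.mem_rot,
      Finset.mem_filter]
    constructor
    · rintro ⟨⟨-, h1⟩, h2⟩
      exact ⟨h2, h1⟩
    · rintro ⟨h1, h2⟩
      exact ⟨⟨(fl.U_mem h (fl.T_sub h1)).1, h2⟩, h1⟩
  obtain ⟨d⟩ := ‹Nonempty H'›
  set φ0 : H → H' := fun h => ((TL (f (G.base h)))[(G.rot (G.base h)).idxOf h]?).getD d with hφ0
  have hφ0map : ∀ v ∈ A, f v ≠ x → (G.rot v).map φ0 = TL (f v) := by
    intro v hv hvx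
    rw [← map_idx (G.rot v) (TL (f v)) (G.nodup v) (hTLlen v hv hvx).symm d]
    refine List.map_congr_left fun h hh => ?_
    rw [hφ0]
    simp only
    rw [((G.mem_rot _ _).1 hh).2]
  have hmd : ∀ h, h ∈ dts G A ↔ h ∈ G.darts ∧ G.base h ∈ A := fun h => by simp [dts]
  have hφ0mem : ∀ h ∈ dts G A, f (G.base h) ≠ x → φ0 h ∈ T ∧ G'.base (φ0 h) = f (G.base h) := by
    intro h hh hx
    obtain ⟨h1, h2⟩ := (hmd h).1 hh
    have h3 : φ0 h ∈ TL (f (G.base h)) := by
      rw [← hφ0map _ h2 hx]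
      exact List.mem_map_of_mem (mem_rot_of h1)
    rw [hTL] at h3
    simp only [List.mem_filter, decide_eq_true_eq, G'.mem_rot] at h3
    exact ⟨h3.2, h3.1.2⟩
  have hφ0inj : ∀ h ∈ dts G A, ∀ h' ∈ dts G A, f (G.base h) ≠ x → f (G.base h') ≠ x →
      φ0 h = φ0 h' → h = h' := by
    intro h hh h' hh' hx hx' he
    obtain ⟨h1, h2⟩ := (hmd h).1 hh
    obtain ⟨h1', h2'⟩ := (hmd h').1 hh'
    have hb : G.base h = G.base h' := by
      refine hf.injOn (Finset.mem_coe.2 h2) (Finset.mem_coe.2 h2') ?_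
      rw [← (hφ0mem h hh hx).2, ← (hφ0mem h' hh' hx').2, he]
    have h3 : ((G.rot (G.base h)).map φ0).Nodup := by
      rw [hφ0map _ h2 hx]
      exact (G'.nodup _).filter _
    exact List.inj_on_of_nodup_map h3 (mem_rot_of h1) ((G.mem_rot _ _).2 ⟨h1', hb.symm⟩) he
  -- the chosen starts
  have hpT : ∀ g, ∃ p, g ∈ T → p ∈ U ∧ G'.base p = x ∧ G'.opp (en p) = g := by
    intro g
    by_cases hg : g ∈ T
    · obtain ⟨p, hp⟩ := fl.surj_T g hg
      exact ⟨p, fun _ => hp⟩
    · exact ⟨d, fun h => absurd h hg⟩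
  choose pT hpT using hpT
  have hpB : ∀ b, ∃ p, b ∈ bd G' A' → p ∈ U ∧ G'.base p = x ∧ en p = b := by
    intro b
    by_cases hb : b ∈ bd G' A'
    · obtain ⟨p, hp⟩ := fl.surj_bd b hb
      exact ⟨p, fun _ => hp⟩
    · exact ⟨d, fun h => absurd h hb⟩
  choose pB hpB using hpB
  have : Nonempty H' := ⟨d⟩
  obtain ⟨β, hβ⟩ := exists_bij (bd G A) (bd G' A') hcc
  have hβm : ∀ h ∈ bd G A, β h ∈ bd G' A' := fun h hh =>
    Finset.mem_coe.1 (hβ.mapsTo (Finset.mem_coe.2 hh))
  set sT : H → ℕ := fun h => if f (G.base h) = x then m + (G.rot (G.base h)).idxOf h else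
    P.idxOf (pT (φ0 h)) with hsT
  set sB : H → ℕ := fun h => P.idxOf (pB (β h)) with hsB
  have hsTx : ∀ h, f (G.base h) = x → sT h = m + (G.rot (G.base h)).idxOf h := fun h hx =>
    if_pos hx
  have hsTn : ∀ h, f (G.base h) ≠ x → sT h = P.idxOf (pT (φ0 h)) := fun h hx => if_neg hx
  have hxlt : ∀ h ∈ dts G A, f (G.base h) = x → (G.rot (G.base h)).idxOf h < t x := by
    intro h hh hx
    obtain ⟨h1, h2⟩ := (hmd h).1 hh
    rw [← hx, htf _ h2]
    exact List.idxOf_lt_length_iff.2 (mem_rot_of h1)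
  have hPT : ∀ h ∈ dts G A, f (G.base h) ≠ x → pT (φ0 h) ∈ P ∧
      G'.opp (en (pT (φ0 h))) = φ0 h := by
    intro h hh hx
    obtain ⟨h1, h2, h3⟩ := hpT _ (hφ0mem h hh hx).1
    exact ⟨(hPmem _).2 ⟨h1, h2⟩, h3⟩
  have hPB : ∀ h ∈ bd G A, pB (β h) ∈ P ∧ en (pB (β h)) = β h := by
    intro h hh
    obtain ⟨h1, h2, h3⟩ := hpB _ (hβm h hh)
    exact ⟨(hPmem _).2 ⟨h1, h2⟩, h3⟩
  have hsTm : ∀ h ∈ dts G A, f (G.base h) ≠ x → sT h < m := by
    intro h hh hx
    rw [hsTn h hx, ← hPlen]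
    exact List.idxOf_lt_length_iff.2 (hPT h hh hx).1
  have hsBm : ∀ h ∈ bd G A, sB h < m := by
    intro h hh
    rw [hsB, ← hPlen]
    exact List.idxOf_lt_length_iff.2 (hPB h hh).1
  obtain ⟨μ, hμ, hμT, hμB⟩ := exists_mu G A R hR sT sB
    (by
      intro h hh
      by_cases hx : f (G.base h) = x
      · rw [hsTx h hx]
        have := hxlt h hh hx
        omega
      · have := hsTm h hh hx
        omega)
    (by
      intro h hh
      have := hsBm h hh
      omega)
    (by
      intro h hh h' hh' he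
      obtain ⟨h1, h2⟩ := (hmd h).1 hh
      obtain ⟨h1', h2'⟩ := (hmd h').1 hh'
      by_cases hx : f (G.base h) = x
      · by_cases hx' : f (G.base h') = x
        · have hb : G.base h = G.base h' :=
            hf.injOn (Finset.mem_coe.2 h2) (Finset.mem_coe.2 h2') (hx.trans hx'.symm)
          rw [hsTx h hx, hsTx h' hx', ← hb] at he
          have h3 : (G.rot (G.base h)).idxOf h = (G.rot (G.base h)).idxOf h' := by omega
          exact (List.idxOf_inj (mem_rot_of h1)).1 h3
        · have h3 := hsTm h' hh' hx'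
          rw [← he, hsTx h hx] at h3
          omega
      · by_cases hx' : f (G.base h') = x
        · have h3 := hsTm h hh hx
          rw [he, hsTx h' hx'] at h3
          omega
        · rw [hsTn h hx, hsTn h' hx'] at he
          have h3 := (List.idxOf_inj (hPT h hh hx).1).1 he
          refine hφ0inj h hh h' hh' hx hx' ?_
          rw [← (hPT h hh hx).2, ← (hPT h' hh' hx').2, h3])
    (by
      intro h hh h' hh' he
      have h3 := (List.idxOf_inj (hPB h hh).1).1 he
      refine hβ.injOn (Finset.mem_coe.2 hh) (Finset.mem_coe.2 hh') ?_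
      rw [← (hPB h hh).2, ← (hPB h' hh').2, h3])
    (by
      intro h hh h' hh' he
      by_cases hx : f (G.base h) = x
      · have h3 := hsBm h' hh'
        rw [← he, hsTx h hx] at h3
        omega
      · rw [hsTn h hx] at he
        have h3 := (List.idxOf_inj (hPT h hh hx).1).1 he
        have h4 := (hPT h hh hx).2
        rw [h3, (hPB h' hh').2] at h4
        have h5 := mem_bd.1 (hβm h' hh')
        rw [h4] at h5
        exact h5.2.2 (fl.U_mem _ (fl.T_sub (hφ0mem h hh hx).1)).2)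
  obtain ⟨rs, bot, hrs1, hrs2, hrs3, hrs4, hrs5, hrs6⟩ := hComb μ hμ
  obtain ⟨u, ar⟩ := hlo rs (by omega) (by omega) (fun p hp => (hrs3 p hp).1)
  set φ : H → H' := fun h => if f (G.base h) = x then u (m + (G.rot (G.base h)).idxOf h) else
    φ0 h with hφ
  have S : AsmX G A G' A' f x t U T MF en lo (len rs) m R u (cap rs) bot μ P φ β sT sB := by
    refine ⟨hf, hxA, fl, ar, hRm, hrs2, htf, hrs3, hrs4, hrs5, hrs6, hPlen, ?_, ?_, ?_, hβ, ?_,
      ?_, ?_, hμT, hμB⟩
    · rw [hP, List.reverse_reverse, hPL]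
    · intro v hv hvx
      have hlen : (G.rot v).length = t x := by rw [← htf v hv, hvx]
      refine List.ext_getElem (by simp [hlen]) fun i h1 h2 => ?_
      have h3 : i < (G.rot v).length := by simpa using h1
      have h4 := ((G.mem_rot _ _).1 (List.getElem_mem h3)).2
      simp only [List.getElem_map, List.getElem_range, hφ]
      rw [if_pos (by rw [h4, hvx]), h4, (G.nodup v).idxOf_getElem i h3]
    · intro v hv hvx
      refine Eq.trans ?_ (hφ0map v hv hvx)
      refine List.map_congr_left fun h hh => ?_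
      rw [hφ]
      simp only
      rw [if_neg]
      rw [((G.mem_rot _ _).1 hh).2]
      exact hvx
    · intro h hh hx
      refine ⟨?_, ?_⟩
      · rw [hsTx h hx]
        have := hxlt h hh hx
        omega
      · rw [hsTx h hx, hφ]
        simp only
        rw [if_pos hx]
    · intro h hh hx
      refine ⟨hsTm h hh hx, pT (φ0 h), ?_, ?_⟩
      · rw [hsTn h hx]
        exact List.getElem?_idxOf (hPT h hh hx).1
      · rw [(hPT h hh hx).2, hφ]
        simp only
        rw [if_neg hx]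
    · intro h hh
      exact ⟨hsBm h hh, pB (β h), List.getElem?_idxOf (hPB h hh).1, (hPB h hh).2⟩
  exact ⟨β, S.pe hR0 r hr⟩

/-- Large cuts and many bad half-edges of the exploded graph: the piece contains all small
pieces. -/
theorem stUniX_of (hP : StPat.{u, v}) (hA : StArch.{u, v}) (hC : StComb)
    (hF : StFlow.{u, v}) : StUniX.{u, v} := by
  intro k M c D
  choose LR hLR using hC
  set L : ℕ := (Finset.range (c + D + 1)).sup LR with hL
  obtain ⟨n, hn⟩ := hA L (2 * k * (c + D))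
  obtain ⟨N1, hN1⟩ := hP (k * M) c n
  refine ⟨max N1 (c + D), ?_⟩
  intro V V' H H' _ G A G' A' ι r f _ hA' hf hr hk hD hcc hc hcut hι hbad
  have hcard : A'.card = A.card := by
    have h1 : A.image f = A' := by
      apply Finset.coe_injective
      rw [Finset.coe_image]
      exact hf.image_eq
    rw [← h1, Finset.card_image_of_injOn hf.injOn]
  by_cases hR0 : (dts G A).card + cut G A = 0
  · exact pe_zero G A G' A' r f hf hr (by omega) (by omega)
  · obtain ⟨⟨x, i₀⟩, hx⟩ := hN1 (V' × ℕ) H' (expl G' M ι) (arcs A' M)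
      (by rw [card_arcs, hcard]; exact Nat.mul_le_mul_right M hk)
      ((cut_expl hι).trans hc) (by rw [loops_expl]; exact Nat.zero_le c)
      ((le_max_left _ _).trans hbad)
    have hxA : (x, i₀) ∈ arcs A' M := by
      rcases hx with ⟨y, e, g, s, h⟩ | ⟨y, z, e, g, s, s', h⟩
      · exact h.hx
      · exact h.hx
    refine univX_aux (k := k) (c := c) (D := D) (L := L)
      (R := (dts G A).card + cut G A) (LR := LR ((dts G A).card + cut G A)) (hLR _) ?_
      (fun G A x t => hF V' H' G A x t) G A G' A' r f hA' hf hr hk hD hcc hc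
      (fun S h1 h2 h3 => (le_max_right _ _).trans (hcut S h1 h2 h3)) x (mem_arcs.1 hxA).1
      ?_ rfl (by omega)
    · rw [hL]
      exact Finset.le_sup (f := LR) (Finset.mem_range.2 (by omega))
    · intro U hU hUc
      obtain ⟨lo, hlo⟩ := hn (V' × ℕ) H' (expl G' M ι) (arcs A' M) (x, i₀) U
        (fun h hh => mem_expl.2 ⟨(hU h hh).1, fun h1 => (hU h hh).2.2 h1.1⟩) hUc hx
      obtain ⟨lo', hlo'⟩ := archesX_of hι hU (i₀ := i₀) lo (mem_arcs.1 hxA).1
      refine ⟨lo', fun rs h1 h2 h3 => ?_⟩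
      obtain ⟨u, hu⟩ := hlo rs h1 h2
      exact ⟨u, hlo' _ u _ h1 h3 hu⟩

theorem stUniX_33 : StUniX.{u, v} := stUniX_of stPat stArch stComb stFlow

end RotWqo.Hk.Uni33
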