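import Pool.Agent.Lib.MP_cb4a0f_co.Hk.Run9
import Pool.Agent.Lib.MP_cb4a0f_co.Bag.PatF

/-!
# MP_cb4a0f_co, hubs with loops: the vortex lemma
-/

open Classical

namespace RotWqo.Hk

open RotWqo.Bag

universe u v

variable {V : Type u} {H : Type v}

/-! ### Intervals -/

/-- The half-edges at `x` from `a` to `b`. -/
noncomputable def itv (G : RotGraph V H) (x : V) (a b : H) : Finset H :=
  G.darts.filter (fun h => G.base h = x ∧ pos G a ≤ pos G h ∧ pos G h ≤ pos G b)

theorem mem_itv {G : RotGraph V H} {x : V} {a b h : H} : h ∈ itv G x a b ↔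
    h ∈ G.darts ∧ G.base h = x ∧ pos G a ≤ pos G h ∧ pos G h ≤ pos G b := by
  simp [itv]

theorem isInt_itv (G : RotGraph V H) (x : V) (a b : H) : IsInt G x (itv G x a b) := by
  refine ⟨fun h hh => ?_, fun c hc d hd g hg hgx h1 h2 => ?_⟩
  · rw [mem_itv] at hh
    exact ⟨hh.1, hh.2.1⟩
  · rw [mem_itv] at hc hd ⊢
    exact ⟨hg, hgx, by omega, by omega⟩

theorem Cutting.pos_lt {G : RotGraph V H} {A : Finset V} {ι : H → ℕ} {M : ℕ}
    (hι : Cutting G A ι M) {x : V} (hx : x ∈ A) {a b : H} (ha : a ∈ G.darts) (hb : b ∈ G.darts)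
    (hax : G.base a = x) (hbx : G.base b = x) (h : ι a < ι b) : pos G a < pos G b := by
  by_contra hc
  have h1 := hι.mono b (by simp [dts, hb, hbx, hx]) a (by simp [dts, ha, hax, hx])
    (hbx.trans hax.symm) (not_lt.1 hc)
  omega

theorem Cutting.le {G : RotGraph V H} {A : Finset V} {ι : H → ℕ} {M : ℕ}
    (hι : Cutting G A ι M) {x : V} (hx : x ∈ A) {a b : H} (ha : a ∈ G.darts) (hb : b ∈ G.darts)
    (hax : G.base a = x) (hbx : G.base b = x) (h : pos G a ≤ pos G b) : ι a ≤ ι b :=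
  hι.mono a (by simp [dts, ha, hax, hx]) b (by simp [dts, hb, hbx, hx]) (hax.trans hbx.symm) h

/-! ### The local argument -/

/-- A nested run `e 0, ..., e (n - 1)` between the arcs `i` and `i + 1`, without gadgets: if an edge
crosses `e s`, there is a mixed interval near `e s` or near its other half. -/
theorem vortex_local {G : RotGraph V H} {A : Finset V} {ι : H → ℕ} {M : ℕ} {x : V}
    {L : Finset H} {q n s i : ℕ} {e : ℕ → H} (hx : x ∈ A) (hι : Cutting G A ι M)
    (hL : IsInt G x L)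
    (hP : ∀ h ∈ G.darts, G.base h = x → (ι h = i ∨ ι h = i + 1) → h ∈ L)
    (hq : ¬ Gad G q L) (hq1 : 1 ≤ q)
    (he : ∀ k < n, e k ∈ G.darts ∧ G.base (e k) = x ∧ ι (e k) = i ∧ G.base (G.opp (e k)) = x ∧
      ι (G.opp (e k)) = i + 1)
    (hup : ∀ k l, k < l → l < n → pos G (e k) < pos G (e l))
    (hdn : ∀ k l, k < l → l < n → pos G (G.opp (e l)) < pos G (G.opp (e k)))
    (hc1 : ∀ g ∈ G.darts, G.base g = x → ι g = i → ¬ AL G ι g → ∀ k l, k < n → l < n →
        pos G (e k) ≤ pos G g → pos G g ≤ pos G (e l) → ∃ m < n, g = e m)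
    (hc2 : ∀ g ∈ G.darts, G.base g = x → ι g = i + 1 → ¬ AL G ι g → ∀ k l, k < n → l < n →
        pos G (G.opp (e k)) ≤ pos G g → pos G g ≤ pos G (G.opp (e l)) →
          ∃ m < n, g = G.opp (e m))
    (hs : q ≤ s) (hsn : s + q < n) {g : H} (hg : g ∈ L) (hog : G.opp g ∈ L)
    (hg1 : pos G (e s) ≤ pos G g) (hg2 : pos G g ≤ pos G (G.opp (e s)))
    (hout : ¬ (pos G (e s) ≤ pos G (G.opp g) ∧ pos G (G.opp g) ≤ pos G (G.opp (e s)))) :
    Mix G ι (itv G x (e (s - q)) (e (s + q))) ∨
      Mix G ι (itv G x (G.opp (e (s + q))) (G.opp (e (s - q)))) := by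
  obtain ⟨hgd, hgx⟩ := hL.1 g hg
  obtain ⟨hod, hox⟩ := hL.1 _ hog
  have hoo := G.opp_opp g hgd
  -- monotonicity
  have hup' : ∀ k l, k ≤ l → l < n → pos G (e k) ≤ pos G (e l) := by
    intro k l hkl hl
    rcases Nat.lt_or_eq_of_le hkl with h | h
    · exact (hup k l h hl).le
    · rw [h]
  have hdn' : ∀ k l, k ≤ l → l < n → pos G (G.opp (e l)) ≤ pos G (G.opp (e k)) := by
    intro k l hkl hl
    rcases Nat.lt_or_eq_of_le hkl with h | h
    · exact (hdn k l h hl).le
    · rw [h]
  have heL : ∀ k < n, e k ∈ L ∧ G.opp (e k) ∈ L := by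
    intro k hk
    obtain ⟨h1, h2, h3, h4, h5⟩ := he k hk
    exact ⟨hP _ h1 h2 (Or.inl h3), hP _ (G.opp_mem _ h1) h4 (Or.inr h5)⟩
  have heo : ∀ k < n, G.opp (e k) ∈ G.darts := fun k hk => G.opp_mem _ (he k hk).1
  have hnal : ∀ k < n, ¬ AL G ι (e k) := by
    intro k hk h
    obtain ⟨h1, h2, h3, h4, h5⟩ := he k hk
    have := h.2
    omega
  have hnal' : ∀ k < n, ¬ AL G ι (G.opp (e k)) := by
    intro k hk h
    exact hnal k hk ((al_opp (he k hk).1).1 h)
  -- gadgets
  have gadL : ∀ p : H, p ∈ L → G.opp p ∈ L → ∀ k0, k0 + q ≤ n →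
      (∀ k < q, pos G p < pos G (e (k0 + k)) ∧ pos G (e (k0 + k)) < pos G (G.opp p) ∧
        pos G (G.opp p) < pos G (G.opp (e (k0 + k)))) → False := by
    intro p hp hp' k0 hk0 h
    refine hq ⟨p, fun k => e (k0 + k), false, hp, hp', fun k hk => heL _ (by omega), ?_, ?_,
      Or.inl h⟩
    · intro k l hkl hl
      exact hup _ _ (by omega) (by omega)
    · intro k l hkl hl
      simp only [lt, Bool.false_eq_true, if_false]
      exact hdn _ _ (by omega) (by omega)
  have gadR : ∀ p : H, p ∈ L → G.opp p ∈ L → ∀ k0, k0 + q ≤ n →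
      (∀ k < q, pos G (e (k0 + k)) < pos G p ∧ pos G p < pos G (G.opp (e (k0 + k))) ∧
        pos G (G.opp (e (k0 + k))) < pos G (G.opp p)) → False := by
    intro p hp hp' k0 hk0 h
    refine hq ⟨p, fun k => e (k0 + k), false, hp, hp', fun k hk => heL _ (by omega), ?_, ?_,
      Or.inr h⟩
    · intro k l hkl hl
      exact hup _ _ (by omega) (by omega)
    · intro k l hkl hl
      simp only [lt, Bool.false_eq_true, if_false]
      exact hdn _ _ (by omega) (by omega)
  obtain ⟨es1, es2, es3, es4, es5⟩ := he s (by omega)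
  have hgi : ι g = i ∨ ι g = i + 1 := by
    have h1 := hι.le hx es1 hgd es2 hgx hg1
    have h2 := hι.le hx hgd (heo s (by omega)) hgx es4 hg2
    omega
  have hog' : pos G (G.opp g) < pos G (e s) ∨ pos G (G.opp (e s)) < pos G (G.opp g) := by
    by_contra hc
    exact hout (by constructor <;> omega)
  have hfirst : pos G (e 0) ≤ pos G (e s) := hup' _ _ (by omega) (by omega)
  by_cases hal : AL G ι g
  · -- an arc loop
    rcases hgi with hgi | hgi
    · left
      have hoi : ι (G.opp g) = i := hal.2.trans hgi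
      have h1 : pos G (G.opp g) < pos G (e s) := by
        rcases hog' with h | h
        · exact h
        · have := hι.pos_lt hx hod (heo s (by omega)) hox es4 (by omega)
          omega
      have h2 : pos G (e s) < pos G g := by
        refine lt_of_le_of_ne hg1 fun h => ?_
        have : e s = g := pos_inj es1 hgd (es2.trans hgx.symm) h
        exact hnal s (by omega) (this ▸ hal)
      have h3 : pos G g < pos G (e (s + q)) := by
        by_contra hc
        refine gadL (G.opp g) hog (hoo.symm ▸ hg) s (by omega) fun k hk => ?_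
        rw [hoo]
        have h4 := hup' s (s + k) (by omega) (by omega)
        have h5 := hup (s + k) (s + q) (by omega) (by omega)
        obtain ⟨a1, a2, a3, a4, a5⟩ := he (s + k) (by omega)
        have h6 := hι.pos_lt hx hgd (heo (s + k) (by omega)) hgx a4 (by omega)
        exact ⟨by omega, by omega, h6⟩
      have h4 : pos G (e (s - q)) < pos G (G.opp g) := by
        by_contra hc
        refine gadL (G.opp g) hog (hoo.symm ▸ hg) (s - q + 1) (by omega) fun k hk => ?_
        rw [hoo]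
        have h4 := hup (s - q) (s - q + 1 + k) (by omega) (by omega)
        have h5 := hup' (s - q + 1 + k) s (by omega) (by omega)
        obtain ⟨a1, a2, a3, a4, a5⟩ := he (s - q + 1 + k) (by omega)
        have h6 := hι.pos_lt hx hgd (heo (s - q + 1 + k) (by omega)) hgx a4 (by omega)
        exact ⟨by omega, by omega, h6⟩
      refine Or.inl ⟨G.opp g, e s, ?_, ?_, ?_, (al_opp hgd).2 hal, hnal s (by omega), h1, ?_⟩
      · exact mem_itv.2 ⟨hod, hox, by omega, by omega⟩
      · rw [hoo]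
        exact mem_itv.2 ⟨hgd, hgx, by omega, by omega⟩
      · exact mem_itv.2 ⟨es1, es2, by omega, by omega⟩
      · rw [hoo]
        exact h2
    · right
      have hoi : ι (G.opp g) = i + 1 := hal.2.trans hgi
      have h1 : pos G (G.opp (e s)) < pos G (G.opp g) := by
        rcases hog' with h | h
        · have := hι.pos_lt hx es1 hod es2 hox (by omega)
          omega
        · exact h
      have h2 : pos G g < pos G (G.opp (e s)) := by
        refine lt_of_le_of_ne hg2 fun h => ?_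
        have : g = G.opp (e s) := pos_inj hgd (heo s (by omega)) (hgx.trans es4.symm) h
        exact hnal' s (by omega) (this ▸ hal)
      have h3 : pos G (G.opp (e (s + q))) < pos G g := by
        by_contra hc
        refine gadR g hg hog s (by omega) fun k hk => ?_
        have h4 := hdn' s (s + k) (by omega) (by omega)
        have h5 := hdn (s + k) (s + q) (by omega) (by omega)
        obtain ⟨a1, a2, a3, a4, a5⟩ := he (s + k) (by omega)
        have h6 := hι.pos_lt hx a1 hgd a2 hgx (by omega)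
        exact ⟨h6, by omega, by omega⟩
      have h4 : pos G (G.opp g) < pos G (G.opp (e (s - q))) := by
        by_contra hc
        refine gadR g hg hog (s - q + 1) (by omega) fun k hk => ?_
        have h4 := hdn (s - q) (s - q + 1 + k) (by omega) (by omega)
        have h5 := hdn' (s - q + 1 + k) s (by omega) (by omega)
        obtain ⟨a1, a2, a3, a4, a5⟩ := he (s - q + 1 + k) (by omega)
        have h6 := hι.pos_lt hx a1 hgd a2 hgx (by omega)
        exact ⟨h6, by omega, by omega⟩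
      refine Or.inl ⟨g, G.opp (e s), ?_, ?_, ?_, hal, hnal' s (by omega), h2, h1⟩
      · exact mem_itv.2 ⟨hgd, hgx, by omega, by omega⟩
      · exact mem_itv.2 ⟨hod, hox, by omega, by omega⟩
      · exact mem_itv.2 ⟨heo s (by omega), es4, by omega, by omega⟩
  · -- a strand
    exfalso
    have hoal : ¬ AL G ι (G.opp g) := fun h => hal ((al_opp hgd).1 h)
    have hoi : ι (G.opp g) ≠ ι g := fun h => hal ⟨hox.trans hgx.symm, h⟩
    -- `g` is not one of the `e k`, `opp (e k)`
    have hne1 : ∀ m < n, g ≠ e m := by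
      rintro m hm rfl
      have hsm : s ≤ m := by
        by_contra hc
        have := hup m s (by omega) (by omega)
        omega
      obtain ⟨a1, a2, a3, a4, a5⟩ := he m hm
      have h1 := hdn' s m hsm hm
      have h2 := hι.pos_lt hx es1 (heo m hm) es2 a4 (by omega)
      omega
    have hne2 : ∀ m < n, g ≠ G.opp (e m) := by
      rintro m hm rfl
      obtain ⟨a1, a2, a3, a4, a5⟩ := he m hm
      have hsm : s ≤ m := by
        by_contra hc
        have := hdn m s (by omega) (by omega)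
        omega
      rw [G.opp_opp _ a1] at hog'
      have h1 := hup' s m hsm hm
      have h2 := hι.pos_lt hx a1 (heo s (by omega)) a2 es4 (by omega)
      omega
    have hone1 : ∀ m < n, G.opp g ≠ e m := by
      intro m hm h
      exact hne2 m hm (by rw [← h, hoo])
    have hone2 : ∀ m < n, G.opp g ≠ G.opp (e m) := by
      intro m hm h
      exact hne1 m hm (by rw [← hoo, h, G.opp_opp _ (he m hm).1])
    -- `g` is in the middle
    have hmid : ∀ k < n, pos G (e k) < pos G g ∧ pos G g < pos G (G.opp (e k)) := by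
      intro k hk
      obtain ⟨a1, a2, a3, a4, a5⟩ := he k hk
      rcases hgi with hgi | hgi
      · refine ⟨?_, hι.pos_lt hx hgd (heo k hk) hgx a4 (by omega)⟩
        by_contra hc
        obtain ⟨m, hm, h⟩ := hc1 g hgd hgx hgi hal s k (by omega) hk hg1 (by omega)
        exact hne1 m hm h
      · refine ⟨hι.pos_lt hx a1 hgd a2 hgx (by omega), ?_⟩
        by_contra hc
        obtain ⟨m, hm, h⟩ := hc2 g hgd hgx hgi hal k s hk (by omega) (by omega) hg2
        exact hne2 m hm h
    rcases hog' with h | h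
    · -- the other half is before
      have hbef : ∀ k < n, pos G (G.opp g) < pos G (e k) := by
        intro k hk
        obtain ⟨a1, a2, a3, a4, a5⟩ := he k hk
        have h1 := hι.le hx hod es1 hox es2 h.le
        rcases Nat.lt_or_ge (ι (G.opp g)) i with h2 | h2
        · exact hι.pos_lt hx hod a1 hox a2 (by omega)
        · by_contra hc
          obtain ⟨m, hm, h3⟩ := hc1 _ hod hox (by omega) hoal k s hk (by omega) (by omega) h.le
          exact hone1 m hm h3
      refine gadL (G.opp g) hog (hoo.symm ▸ hg) 0 (by omega) fun k hk => ?_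
      rw [hoo]
      have h1 := hbef (0 + k) (by omega)
      have h2 := hmid (0 + k) (by omega)
      exact ⟨h1, h2.1, h2.2⟩
    · have haft : ∀ k < n, pos G (G.opp (e k)) < pos G (G.opp g) := by
        intro k hk
        obtain ⟨a1, a2, a3, a4, a5⟩ := he k hk
        have h1 := hι.le hx (heo s (by omega)) hod es4 hox h.le
        rcases Nat.lt_or_ge (i + 1) (ι (G.opp g)) with h2 | h2
        · exact hι.pos_lt hx (heo k hk) hod a4 hox (by omega)
        · by_contra hc
          obtain ⟨m, hm, h3⟩ := hc2 _ hod hox (by omega) hoal s k (by omega) hk h.le (by omega)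
          exact hone2 m hm h3
      refine gadR g hg hog 0 (by omega) fun k hk => ?_
      have h1 := haft (0 + k) (by omega)
      have h2 := hmid (0 + k) (by omega)
      exact ⟨h2.1, h2.2, h1⟩

/-- A long nested run without gadgets and without many disjoint mixed intervals: some edge of the
run is not crossed by any edge in `L`. -/
theorem vortex_core {G : RotGraph V H} {A : Finset V} {ι : H → ℕ} {M : ℕ} {x : V}
    {L : Finset H} {q n i W : ℕ} {e : ℕ → H} (hx : x ∈ A) (hι : Cutting G A ι M)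
    (hL : IsInt G x L)
    (hP : ∀ h ∈ G.darts, G.base h = x → (ι h = i ∨ ι h = i + 1) → h ∈ L)
    (hq : ¬ Gad G q L) (hq1 : 1 ≤ q)
    (he : ∀ k < n, e k ∈ G.darts ∧ G.base (e k) = x ∧ ι (e k) = i ∧ G.base (G.opp (e k)) = x ∧
      ι (G.opp (e k)) = i + 1)
    (hup : ∀ k l, k < l → l < n → pos G (e k) < pos G (e l))
    (hdn : ∀ k l, k < l → l < n → pos G (G.opp (e l)) < pos G (G.opp (e k)))
    (hc1 : ∀ g ∈ G.darts, G.base g = x → ι g = i → ¬ AL G ι g → ∀ k l, k < n → l < n →
        pos G (e k) ≤ pos G g → pos G g ≤ pos G (e l) → ∃ m < n, g = e m)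
    (hc2 : ∀ g ∈ G.darts, G.base g = x → ι g = i + 1 → ¬ AL G ι g → ∀ k l, k < n → l < n →
        pos G (G.opp (e k)) ≤ pos G g → pos G g ≤ pos G (G.opp (e l)) →
          ∃ m < n, g = G.opp (e m))
    (hn : (2 * q + 1) * (2 * W) ≤ n)
    (hW : ∀ (j : ℕ) (X : ℕ → Finset H),
      (∀ w < W, IsInt G x (X w) ∧ (∀ h ∈ X w, ι h = j) ∧ Mix G ι (X w)) →
      (∀ w w', w < w' → w' < W → Bef G (X w) (X w')) → False) :
    ∃ s, 1 ≤ s ∧ s < n ∧ ∀ g ∈ L, G.opp g ∈ L → pos G (e s) ≤ pos G g →
      pos G g ≤ pos G (G.opp (e s)) → pos G (e s) ≤ pos G (G.opp g) ∧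
        pos G (G.opp g) ≤ pos G (G.opp (e s)) := by
  by_contra hno
  push Not at hno
  have hup' : ∀ k l, k ≤ l → l < n → pos G (e k) ≤ pos G (e l) := by
    intro k l hkl hl
    rcases Nat.lt_or_eq_of_le hkl with h | h
    · exact (hup k l h hl).le
    · rw [h]
  have hdn' : ∀ k l, k ≤ l → l < n → pos G (G.opp (e l)) ≤ pos G (G.opp (e k)) := by
    intro k l hkl hl
    rcases Nat.lt_or_eq_of_le hkl with h | h
    · exact (hdn k l h hl).le
    · rw [h]
  have hlt : ∀ t < 2 * W, (2 * q + 1) * t + 2 * q < n := by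
    intro t ht
    have h1 : (2 * q + 1) * (t + 1) ≤ (2 * q + 1) * (2 * W) := Nat.mul_le_mul_left _ (by omega)
    rw [Nat.mul_add, Nat.mul_one] at h1
    omega
  have hwin : ∀ t < 2 * W,
      Mix G ι (itv G x (e ((2 * q + 1) * t)) (e ((2 * q + 1) * t + 2 * q))) ∨
      Mix G ι (itv G x (G.opp (e ((2 * q + 1) * t + 2 * q))) (G.opp (e ((2 * q + 1) * t)))) := by
    intro t ht
    have h1 := hlt t ht
    obtain ⟨g, hg, hog, hg1, hg2, hout⟩ := hno ((2 * q + 1) * t + q) (by omega) (by omega)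
    have h2 := vortex_local hx hι hL hP hq hq1 he hup hdn hc1 hc2
      (s := (2 * q + 1) * t + q) (by omega) (by omega) hg hog hg1 hg2
      (fun h => absurd (hout h.1) (not_lt.2 h.2))
    have h3 : (2 * q + 1) * t + q - q = (2 * q + 1) * t := by omega
    have h4 : (2 * q + 1) * t + q + q = (2 * q + 1) * t + 2 * q := by omega
    rwa [h3, h4] at h2
  -- one of the two kinds occurs `W` times
  set T1 := (Finset.range (2 * W)).filter (fun t =>
    Mix G ι (itv G x (e ((2 * q + 1) * t)) (e ((2 * q + 1) * t + 2 * q)))) with hT1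
  set T2 := (Finset.range (2 * W)).filter (fun t =>
    Mix G ι (itv G x (G.opp (e ((2 * q + 1) * t + 2 * q))) (G.opp (e ((2 * q + 1) * t)))))
    with hT2
  have hcov : Finset.range (2 * W) ⊆ T1 ∪ T2 := by
    intro t ht
    rw [Finset.mem_union, hT1, hT2, Finset.mem_filter, Finset.mem_filter]
    rcases hwin t (Finset.mem_range.1 ht) with h | h
    · exact Or.inl ⟨ht, h⟩
    · exact Or.inr ⟨ht, h⟩
  have hcard := (Finset.card_le_card hcov).trans (Finset.card_union_le _ _)
  rw [Finset.card_range] at hcard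
  have hgap : ∀ a b, a < b → (2 * q + 1) * a + 2 * q < (2 * q + 1) * b := by
    intro a b hab
    have h1 : (2 * q + 1) * (a + 1) ≤ (2 * q + 1) * b := Nat.mul_le_mul_left _ (by omega)
    rw [Nat.mul_add, Nat.mul_one] at h1
    omega
  rcases Nat.lt_or_ge T1.card W with h | h
  · obtain ⟨J, hJ1, hJ2⟩ := enumI T2 W (by omega)
    have hJ3 : ∀ w < W, J w < 2 * W := fun w hw =>
      Finset.mem_range.1 (Finset.mem_filter.1 (hJ2 w hw)).1
    refine hW (i + 1) (fun w => itv G x (G.opp (e ((2 * q + 1) * J (W - 1 - w) + 2 * q)))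
      (G.opp (e ((2 * q + 1) * J (W - 1 - w))))) ?_ ?_
    · intro w hw
      have hw' : W - 1 - w < W := by omega
      refine ⟨isInt_itv _ _ _ _, ?_, (Finset.mem_filter.1 (hJ2 _ hw')).2⟩
      intro h hh
      obtain ⟨h1, h2, h3, h4⟩ := mem_itv.1 hh
      have h5 := hlt _ (hJ3 _ hw')
      obtain ⟨a1, a2, a3, a4, a5⟩ := he _ h5
      obtain ⟨b1, b2, b3, b4, b5⟩ := he ((2 * q + 1) * J (W - 1 - w)) (by omega)
      have h6 := hι.le hx (G.opp_mem _ a1) h1 a4 h2 h3
      have h7 := hι.le hx h1 (G.opp_mem _ b1) h2 b4 h4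
      omega
    · intro w w' hww hw' a ha b hb
      obtain ⟨h1, h2, h3, h4⟩ := mem_itv.1 ha
      obtain ⟨h1', h2', h3', h4'⟩ := mem_itv.1 hb
      have h5 := hJ1 (W - 1 - w') (W - 1 - w) (by omega) (by omega)
      have h6 := hgap _ _ h5
      have h7 := hlt _ (hJ3 (W - 1 - w) (by omega))
      have h8 := hdn _ _ h6 (by omega)
      omega
  · obtain ⟨J, hJ1, hJ2⟩ := enumI T1 W h
    have hJ3 : ∀ w < W, J w < 2 * W := fun w hw =>
      Finset.mem_range.1 (Finset.mem_filter.1 (hJ2 w hw)).1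
    refine hW i (fun w => itv G x (e ((2 * q + 1) * J w)) (e ((2 * q + 1) * J w + 2 * q))) ?_ ?_
    · intro w hw
      refine ⟨isInt_itv _ _ _ _, ?_, (Finset.mem_filter.1 (hJ2 _ hw)).2⟩
      intro h hh
      obtain ⟨h1, h2, h3, h4⟩ := mem_itv.1 hh
      have h5 := hlt _ (hJ3 _ hw)
      obtain ⟨a1, a2, a3, a4, a5⟩ := he _ h5
      obtain ⟨b1, b2, b3, b4, b5⟩ := he ((2 * q + 1) * J w) (by omega)
      have h6 := hι.le hx b1 h1 b2 h2 h3
      have h7 := hι.le hx h1 a1 h2 a2 h4
      omega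
    · intro w w' hww hw' a ha b hb
      obtain ⟨h1, h2, h3, h4⟩ := mem_itv.1 ha
      obtain ⟨h1', h2', h3', h4'⟩ := mem_itv.1 hb
      have h6 := hgap _ _ (hJ1 w w' hww hw')
      have h7 := hlt _ (hJ3 w' hw')
      have h8 := hup _ _ h6 (by omega)
      omega

/-! ### Tame sets -/

theorem tame_leaf {θ : ℕ} {G : RotGraph V H} {x : V} {L : Finset H} {h : H}
    (hi : IsInt G x {h}) (hf : fcut G L {h} ≤ θ) : Tame θ G x L {h} := by
  refine ⟨.leaf h, by simp [Tree.leaves], TL.set_leaf h, fun s hs => ?_⟩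
  cases hs
  rw [TL.set_leaf]
  exact ⟨hi, hf⟩

theorem tame_union {θ : ℕ} {G : RotGraph V H} {x : V} {L Z Z₁ Z₂ : Finset H}
    (h1 : Tame θ G x L Z₁) (h2 : Tame θ G x L Z₂) (hd : Disjoint Z₁ Z₂) (hu : Z₁ ∪ Z₂ = Z)
    (hi : IsInt G x Z) (hf : fcut G L Z ≤ θ) : Tame θ G x L Z := by
  obtain ⟨t1, a1, a2, a3⟩ := h1
  obtain ⟨t2, b1, b2, b3⟩ := h2
  refine ⟨.node t1 t2, TL.nodup_node.2 ⟨a1, b1, by rwa [a2, b2]⟩, ?_, fun s hs => ?_⟩
  · rw [TL.set_node, a2, b2, hu]
  · cases hs with
    | refl =>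
      rw [TL.set_node, a2, b2, hu]
      exact ⟨hi, hf⟩
    | left _ _ h => exact a3 s h
    | right _ _ h => exact b3 s h

theorem isInt_singleton {G : RotGraph V H} {x : V} {h : H} (hh : h ∈ G.darts)
    (hx : G.base h = x) : IsInt G x {h} := by
  refine ⟨fun a ha => ?_, fun a ha c hc b hb hbx h1 h2 => ?_⟩
  · rw [Finset.mem_singleton] at ha
    subst ha
    exact ⟨hh, hx⟩
  · rw [Finset.mem_singleton] at ha hc ⊢
    subst ha
    subst hc
    exact pos_inj hb hh (hbx.trans hx.symm) (by omega)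

theorem fcut_closed {G : RotGraph V H} {L Z : Finset H} {Y : H → Prop} (hZ : Z ⊆ L)
    (hLd : ∀ h ∈ L, h ∈ G.darts) (hY : ∀ h ∈ L, G.opp h ∈ L → Y h → Y (G.opp h)) :
    fcut G L (Z.filter Y) ≤ fcut G L Z ∧ fcut G L (Z.filter (fun h => ¬ Y h)) ≤ fcut G L Z := by
  constructor
  · refine Finset.card_le_card fun h hh => ?_
    rw [Finset.mem_filter, Finset.mem_filter] at hh
    obtain ⟨⟨h1, h2⟩, h3, h4⟩ := hh
    refine Finset.mem_filter.2 ⟨h1, h3, fun h5 => h4 ?_⟩
    exact Finset.mem_filter.2 ⟨h5, hY h (hZ h1) h3 h2⟩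
  · refine Finset.card_le_card fun h hh => ?_
    rw [Finset.mem_filter, Finset.mem_filter] at hh
    obtain ⟨⟨h1, h2⟩, h3, h4⟩ := hh
    refine Finset.mem_filter.2 ⟨h1, h3, fun h5 => h4 ?_⟩
    refine Finset.mem_filter.2 ⟨h5, fun h6 => h2 ?_⟩
    have h7 := hY _ h3 (by rw [G.opp_opp _ (hLd h (hZ h1))]; exact hZ h1) h6
    rwa [G.opp_opp _ (hLd h (hZ h1))] at h7

/-! ### The cutting around a subinterval -/

/-- The cutting before `L`, the part of `L` before `Z`, `Z`, the part of `L` after `Z`, after `L`. -/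
noncomputable def cutZ (G : RotGraph V H) (x : V) (L Z : Finset H) (z : H) (h : H) : ℕ :=
  if G.base h ≠ x then 0 else if h ∈ Z then 2 else
    if pos G h < pos G z then (if h ∈ L then 1 else 0) else (if h ∈ L then 3 else 4)

theorem cutZ_cutting {G : RotGraph V H} (A : Finset V) {x : V} {L Z : Finset H} {z : H}
    (hL : IsInt G x L) (hZ : IsInt G x Z) (hZL : Z ⊆ L) (hz : z ∈ Z) :
    Cutting G A (cutZ G x L Z z) 5 := by
  constructor
  · intro a ha b hb hab hp
    have had : a ∈ G.darts := (Finset.mem_filter.1 ha).1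
    have hbd : b ∈ G.darts := (Finset.mem_filter.1 hb).1
    by_cases hax : G.base a = x
    · have hbx : G.base b = x := hab ▸ hax
      have hZa : pos G z ≤ pos G a → b ∈ Z → a ∈ Z := fun h1 h2 =>
        hZ.2 z hz b h2 a had hax h1 hp
      have hZb : a ∈ Z → pos G b ≤ pos G z → b ∈ Z := fun h1 h2 =>
        hZ.2 a h1 z hz b hbd hbx hp h2
      have hLa : pos G z ≤ pos G a → b ∈ L → a ∈ L := fun h1 h2 =>
        hL.2 z (hZL hz) b h2 a had hax h1 hp
      have hLb : a ∈ L → pos G b ≤ pos G z → b ∈ L := fun h1 h2 =>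
        hL.2 a h1 z (hZL hz) b hbd hbx hp h2
      unfold cutZ
      rw [if_neg (not_not.2 hax), if_neg (not_not.2 hbx)]
      split_ifs <;> first
        | omega
        | exact absurd (hZa (by omega) (by assumption)) (by assumption)
        | exact absurd (hZb (by assumption) (by omega)) (by assumption)
        | exact absurd (hLa (by omega) (by assumption)) (by assumption)
        | exact absurd (hLb (by assumption) (by omega)) (by assumption)
    · have hbx : G.base b ≠ x := hab ▸ hax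
      unfold cutZ
      rw [if_pos hax, if_pos hbx]
  · intro a _
    unfold cutZ
    split_ifs <;> omega

theorem cutZ_two {G : RotGraph V H} {x : V} {L Z : Finset H} {z h : H} (hx : G.base h = x) :
    cutZ G x L Z z h = 2 ↔ h ∈ Z := by
  unfold cutZ
  rw [if_neg (not_not.2 hx)]
  split_ifs with h1 <;> simp [h1]

theorem cutZ_mem {G : RotGraph V H} {x : V} {L Z : Finset H} {z h : H} (hx : G.base h = x)
    (hZL : Z ⊆ L) (h1 : 1 ≤ cutZ G x L Z z h) (h3 : cutZ G x L Z z h ≤ 3) : h ∈ L := by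
  unfold cutZ at h1 h3
  rw [if_neg (not_not.2 hx)] at h1 h3
  split_ifs at h1 h3 with h4 h5 h6 h6
  · exact hZL h4
  · exact h6
  · omega
  · exact h6
  · omega

theorem cutZ_out {G : RotGraph V H} {x : V} {L Z : Finset H} {z h : H} (hx : G.base h = x)
    (h1 : h ∈ L) (h2 : h ∉ Z) : cutZ G x L Z z h = 1 ∨ cutZ G x L Z z h = 3 := by
  unfold cutZ
  rw [if_neg (not_not.2 hx), if_neg h2, if_pos h1, if_pos h1]
  split_ifs
  · exact Or.inl rfl
  · exact Or.inr rfl

/-! ### The theorem -/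

theorem stVortex_9 (hM : StMix.{u, v}) : StVortex.{u, v} := by
  intro N q
  obtain ⟨W, hW⟩ := hM 5 N
  obtain ⟨n, hn⟩ : ∃ n, n = (2 * q + 1) * (2 * W) + q + 1 := ⟨_, rfl⟩
  obtain ⟨θ, hθ⟩ : ∃ θ, θ = 2 * (N * n) + 1 := ⟨_, rfl⟩
  refine ⟨θ, fun V H G A x L hA hx hPoor hL hLne hnt => ?_⟩
  by_contra hq
  have hLd : ∀ h ∈ L, h ∈ G.darts := fun h hh => (hL.1 h hh).1
  have hL0 : fcut G L L = 0 := by
    unfold fcut
    rw [Finset.card_eq_zero, Finset.filter_eq_empty_iff]
    rintro h - ⟨h1, h2⟩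
    exact h2 h1
  -- a minimal interval
  obtain ⟨Z, hZm, hZmin⟩ := Finset.exists_min_image (L.powerset.filter (fun Z => Z.Nonempty ∧
    IsInt G x Z ∧ fcut G L Z ≤ θ ∧ ¬ Tame θ G x L Z)) Finset.card
    ⟨L, Finset.mem_filter.2 ⟨Finset.mem_powerset.2 (Finset.Subset.refl _), hLne, hL,
      by omega, hnt⟩⟩
  obtain ⟨hZL, hZne, hZ, hZf, hZt⟩ := Finset.mem_filter.1 hZm
  rw [Finset.mem_powerset] at hZL
  have hsmall : ∀ Z', Z' ⊂ Z → Z'.Nonempty → IsInt G x Z' → fcut G L Z' ≤ θ →
      Tame θ G x L Z' := by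
    intro Z' h1 h2 h3 h4
    by_contra h5
    have h6 := hZmin Z' (Finset.mem_filter.2 ⟨Finset.mem_powerset.2 (h1.subset.trans hZL), h2, h3,
      h4, h5⟩)
    have h7 := Finset.card_lt_card h1
    omega
  have hsplit : ∀ Z₁ Z₂ : Finset H, Z₁.Nonempty → Z₂.Nonempty → Disjoint Z₁ Z₂ → Z₁ ∪ Z₂ = Z →
      IsInt G x Z₁ → IsInt G x Z₂ → fcut G L Z₁ ≤ θ → fcut G L Z₂ ≤ θ → False := by
    intro Z₁ Z₂ h1 h2 h3 h4 h5 h6 h7 h8
    refine hZt (tame_union (hsmall Z₁ ?_ h1 h5 h7) (hsmall Z₂ ?_ h2 h6 h8) h3 h4 hZ hZf)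
    · refine Finset.ssubset_iff_subset_ne.2 ⟨h4 ▸ Finset.subset_union_left, fun h => ?_⟩
      obtain ⟨b, hb⟩ := h2
      have : b ∈ Z₁ := h ▸ h4 ▸ Finset.mem_union_right _ hb
      exact Finset.disjoint_left.1 h3 this hb
    · refine Finset.ssubset_iff_subset_ne.2 ⟨h4 ▸ Finset.subset_union_right, fun h => ?_⟩
      obtain ⟨b, hb⟩ := h1
      have : b ∈ Z₂ := h ▸ h4 ▸ Finset.mem_union_left _ hb
      exact Finset.disjoint_left.1 h3 hb this
  -- its cut is `θ`
  have hZθ : θ ≤ fcut G L Z := by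
    by_contra hlt
    obtain ⟨m, hm, hmax⟩ := Finset.exists_max_image Z (pos G) hZne
    obtain ⟨hmd, hmx⟩ := hZ.1 m hm
    have hf1 : fcut G L {m} ≤ 1 := (Finset.card_filter_le _ _).trans (by simp)
    have hne : (Z.erase m).Nonempty := by
      rw [Finset.nonempty_iff_ne_empty]
      intro h
      have h1 : Z = {m} := by
        ext a
        rw [Finset.mem_singleton]
        refine ⟨fun ha => ?_, fun ha => ha ▸ hm⟩
        by_contra hne
        have h2 : a ∈ Z.erase m := Finset.mem_erase.2 ⟨hne, ha⟩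
        rw [h] at h2
        exact absurd h2 (Finset.notMem_empty _)
      rw [h1] at hZt
      exact hZt (tame_leaf (isInt_singleton hmd hmx) (by omega))
    refine hsplit (Z.erase m) {m} hne ⟨m, Finset.mem_singleton_self m⟩ ?_ ?_ ?_
      (isInt_singleton hmd hmx) ?_ (by omega)
    · rw [Finset.disjoint_singleton_right]
      exact Finset.notMem_erase _ _
    · ext a
      rw [Finset.mem_union, Finset.mem_erase, Finset.mem_singleton]
      constructor
      · rintro (h | h)
        · exact h.2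
        · exact h ▸ hm
      · intro h
        by_cases h1 : a = m
        · exact Or.inr h1
        · exact Or.inl ⟨h1, h⟩
    · refine ⟨fun h hh => hZ.1 h (Finset.mem_erase.1 hh).2, fun a ha c hc b hb hbx h1 h2 => ?_⟩
      rw [Finset.mem_erase] at ha hc ⊢
      refine ⟨fun h3 => ?_, hZ.2 a ha.2 c hc.2 b hb hbx h1 h2⟩
      have h4 := hmax c hc.2
      obtain ⟨hcd, hcx⟩ := hZ.1 c hc.2
      subst h3
      exact hc.1 (pos_inj hcd hmd (hcx.trans hmx.symm) (by omega))
    · have h1 : ((Z.erase m).filter (fun h => G.opp h ∈ L ∧ G.opp h ∉ Z.erase m)) ⊆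
          insert (G.opp m) (Z.filter (fun h => G.opp h ∈ L ∧ G.opp h ∉ Z)) := by
        intro h hh
        obtain ⟨h1, h2, h3⟩ := Finset.mem_filter.1 hh
        rw [Finset.mem_erase] at h1
        rw [Finset.mem_insert]
        by_cases h4 : G.opp h = m
        · left
          rw [← h4, G.opp_opp _ (hZ.1 h h1.2).1]
        · right
          exact Finset.mem_filter.2 ⟨h1.2, h2, fun h5 => h3 (Finset.mem_erase.2 ⟨h4, h5⟩)⟩
      have h2 := (Finset.card_le_card h1).trans (Finset.card_insert_le _ _)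
      unfold fcut at hlt ⊢
      omega
  -- the cutting
  obtain ⟨z, hz⟩ := id hZne
  have hcut := cutZ_cutting A hL hZ hZL hz
  obtain ⟨ι, hι⟩ : ∃ ι, ι = cutZ G x L Z z := ⟨_, rfl⟩
  rw [← hι] at hcut
  have hι2 : ∀ h, G.base h = x → (ι h = 2 ↔ h ∈ Z) := fun h hh => hι ▸ cutZ_two hh
  have hι3 : ∀ h, G.base h = x → 1 ≤ ι h → ι h ≤ 3 → h ∈ L := fun h hh h1 h2 =>
    cutZ_mem hh hZL (hι ▸ h1) (hι ▸ h2)
  have hι1 : ∀ h, G.base h = x → h ∈ L → h ∉ Z → ι h = 1 ∨ ι h = 3 := fun h hh h1 h2 =>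
    hι ▸ cutZ_out hh h1 h2
  have hbad : nbad G A 5 ι < N :=
    hPoor G ⟨⟨id, PE.refl _ (fun _ => rfl) G A⟩, hA, fun S _ => rfl⟩ ι hcut
  have key : ∀ i, (i = 1 ∨ i = 2) → N * n ≤ (G.darts.filter (fun h => G.base h = x ∧ ι h = i ∧
      G.base (G.opp h) = x ∧ ι (G.opp h) = i + 1)).card → False := by
    intro i hi hcd
    obtain ⟨e, s, he, hup, hlt, hc1, hc2⟩ := exists_run (j := i + 1) hx hx (by omega : i < 5)
      (by omega) (by
        intro h
        have := (Prod.mk.injEq _ _ _ _ ▸ h : x = x ∧ i = i + 1).2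
        omega) hbad (by omega : 0 < n) hcd
    have hPL : ∀ h ∈ G.darts, G.base h = x → (ι h = i ∨ ι h = i + 1) → h ∈ L := by
      intro h _ hh h1
      exact hι3 h hh (by omega) (by omega)
    have heL : ∀ k < n, e k ∈ L ∧ G.opp (e k) ∈ L := by
      intro k hk
      obtain ⟨h1, h2, h3, h4, h5⟩ := he k hk
      exact ⟨hPL _ h1 h2 (Or.inl h3), hPL _ (G.opp_mem _ h1) h4 (Or.inr h5)⟩
    have hlr : ∀ k l, k < n → l < n → pos G (e k) < pos G (G.opp (e l)) := by
      intro k l hk hl
      obtain ⟨a1, a2, a3, a4, a5⟩ := he k hk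
      obtain ⟨b1, b2, b3, b4, b5⟩ := he l hl
      exact hcut.pos_lt hx a1 (G.opp_mem _ b1) a2 b4 (by omega)
    cases s with
    | true =>
      refine hq ⟨e 0, fun k => e (k + 1), true, (heL 0 (by omega)).1, (heL 0 (by omega)).2,
        fun k hk => heL _ (by omega), ?_, ?_, Or.inl fun k hk => ⟨?_, ?_, ?_⟩⟩
      · intro k l hkl hl
        exact hup _ _ (by omega) (by omega)
      · intro k l hkl hl
        exact hlt _ _ (by omega) (by omega)
      · exact hup _ _ (by omega) (by omega)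
      · exact hlr _ _ (by omega) (by omega)
      · have := hlt 0 (k + 1) (by omega) (by omega)
        simpa [lt] using this
    | false =>
      have hdn : ∀ k l, k < l → l < n → pos G (G.opp (e l)) < pos G (G.opp (e k)) := by
        intro k l hkl hl
        have := hlt k l hkl hl
        simpa [lt] using this
      rcases Nat.eq_zero_or_pos q with hq0 | hq0
      · subst hq0
        refine hq ⟨e 0, fun _ => e 0, true, (heL 0 (by omega)).1, (heL 0 (by omega)).2, ?_, ?_, ?_,
          Or.inl ?_⟩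
        · intro k hk
          omega
        · intro k l hkl hl
          omega
        · intro k l hkl hl
          omega
        · intro k hk
          omega
      · obtain ⟨t, ht1, htn, hcl⟩ := vortex_core (W := W) hx hcut hL hPL hq hq0 he hup hdn hc1 hc2
          (by omega) (by
            intro j X hX hB
            obtain ⟨G₁, ι₁, h1, h2, h3⟩ := hW V H G A ι x j X hA hx hcut hX hB
            have := hPoor G₁ h1 ι₁ h2
            omega)
        obtain ⟨a1, a2, a3, a4, a5⟩ := he t htn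
        obtain ⟨b1, b2, b3, b4, b5⟩ := he (t - 1) (by omega)
        obtain ⟨Y, hY⟩ : ∃ Y : H → Prop, ∀ h, Y h ↔ pos G (e t) ≤ pos G h ∧
          pos G h ≤ pos G (G.opp (e t)) := ⟨_, fun _ => Iff.rfl⟩
        have hf := fcut_closed (Y := Y) hZL hLd
          (fun h h1 h2 h3 => (hY _).2 (hcl h h1 h2 ((hY _).1 h3).1 ((hY _).1 h3).2))
        have hu := hup (t - 1) t (by omega) htn
        have hd := hdn (t - 1) t (by omega) htn
        have hx1 := hlr t t htn htn
        have hz2 : ∀ h ∈ Z, h ∈ G.darts ∧ G.base h = x ∧ ι h = 2 := fun h hh =>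
          ⟨(hZ.1 h hh).1, (hZ.1 h hh).2, (hι2 h (hZ.1 h hh).2).2 hh⟩
        refine hsplit _ _ ?_ ?_ (Finset.disjoint_filter_filter_not Z Z _)
          (Finset.filter_union_filter_not_eq _ Z) ?_ ?_ (hf.1.trans hZf) (hf.2.trans hZf)
        · rcases hi with rfl | rfl
          · exact ⟨G.opp (e t), Finset.mem_filter.2 ⟨(hι2 _ a4).1 a5,
              (hY _).2 ⟨by omega, le_rfl⟩⟩⟩
          · exact ⟨e t, Finset.mem_filter.2 ⟨(hι2 _ a2).1 a3, (hY _).2 ⟨le_rfl, by omega⟩⟩⟩
        · rcases hi with rfl | rfl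
          · exact ⟨G.opp (e (t - 1)), Finset.mem_filter.2 ⟨(hι2 _ b4).1 b5, by
              rw [hY]
              omega⟩⟩
          · exact ⟨e (t - 1), Finset.mem_filter.2 ⟨(hι2 _ b2).1 b3, by
              rw [hY]
              omega⟩⟩
        · refine ⟨fun h hh => hZ.1 h (Finset.mem_filter.1 hh).1, fun a ha c hc b hb hbx h1 h2 => ?_⟩
          rw [Finset.mem_filter, hY] at ha hc ⊢
          exact ⟨hZ.2 a ha.1 c hc.1 b hb hbx h1 h2, by omega, by omega⟩
        · refine ⟨fun h hh => hZ.1 h (Finset.mem_filter.1 hh).1, fun a ha c hc b hb hbx h1 h2 => ?_⟩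
          rw [Finset.mem_filter, hY] at ha hc ⊢
          refine ⟨hZ.2 a ha.1 c hc.1 b hb hbx h1 h2, fun h3 => ?_⟩
          obtain ⟨c1, c2, c3⟩ := hz2 a ha.1
          obtain ⟨d1, d2, d3⟩ := hz2 c hc.1
          rcases hi with rfl | rfl
          · have h4 := hcut.pos_lt hx a1 c1 a2 c2 (by omega)
            exact ha.2 ⟨by omega, by omega⟩
          · have h4 := hcut.pos_lt hx d1 (G.opp_mem _ a1) d2 a4 (by omega)
            exact hc.2 ⟨by omega, by omega⟩
  -- counting
  set S3 := G.darts.filter (fun h => G.base h = x ∧ ι h = 2 ∧ G.base (G.opp h) = x ∧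
    ι (G.opp h) = 2 + 1) with hS3
  set S1 := G.darts.filter (fun h => G.base h = x ∧ ι h = 2 ∧ G.base (G.opp h) = x ∧
    ι (G.opp h) = 1) with hS1
  set S2 := G.darts.filter (fun h => G.base h = x ∧ ι h = 1 ∧ G.base (G.opp h) = x ∧
    ι (G.opp h) = 1 + 1) with hS2
  have h12 : S1.card ≤ S2.card := by
    refine Finset.card_le_card_of_injOn G.opp ?_ ?_
    · intro h hh
      rw [Finset.mem_coe, hS1, Finset.mem_filter] at hh
      obtain ⟨h1, h2, h3, h4, h5⟩ := hh
      rw [Finset.mem_coe, hS2, Finset.mem_filter, G.opp_opp _ h1]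
      exact ⟨G.opp_mem _ h1, h4, h5, h2, h3⟩
    · intro a ha b hb hab
      rw [Finset.mem_coe, hS1, Finset.mem_filter] at ha hb
      exact opp_inj G ha.1 hb.1 hab
  have h13 : Z.filter (fun h => G.opp h ∈ L ∧ G.opp h ∉ Z) ⊆ S1 ∪ S3 := by
    intro h hh
    obtain ⟨h1, h2, h3⟩ := Finset.mem_filter.1 hh
    obtain ⟨h4, h5⟩ := hZ.1 h h1
    obtain ⟨h6, h7⟩ := hL.1 _ h2
    rw [Finset.mem_union, hS1, hS3, Finset.mem_filter, Finset.mem_filter]
    rcases hι1 _ h7 h2 h3 with h8 | h8
    · exact Or.inl ⟨h4, h5, (hι2 h h5).2 h1, h7, h8⟩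
    · exact Or.inr ⟨h4, h5, (hι2 h h5).2 h1, h7, h8⟩
  have h14 := (Finset.card_le_card h13).trans (Finset.card_union_le _ _)
  change fcut G L Z ≤ _ at h14
  rcases Nat.lt_or_ge S3.card (N * n) with h | h
  · exact key 1 (Or.inl rfl) (by change N * n ≤ S2.card; omega)
  · exact key 2 (Or.inr rfl) h

end RotWqo.Hk
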