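import Pool.Agent.Lib.MP_cb4a0f_co.Hk.Tree6
import Pool.Agent.Lib.MP_cb4a0f_co.Hk.Core56
import Pool.Agent.Lib.MP_cb4a0f_co.Hk.Gad67
import Pool.Agent.Lib.MP_cb4a0f_co.Hk.MixC94
import Pool.Agent.Lib.MP_cb4a0f_co.Hk.Vortex9
import Pool.Agent.Lib.MP_cb4a0f_co.Hk.Tame50
import Pool.Agent.Lib.MP_cb4a0f_co.Hk.Ref57
import Pool.Agent.Lib.MP_cb4a0f_co.Hk.Seg21
import Pool.Agent.Lib.MP_cb4a0f_co.Hk.ArcX19
import Pool.Agent.Lib.MP_cb4a0f_co.Hk.UniC33
import Pool.Agent.Lib.MP_cb4a0f_co.Hk.LeafX5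
import Pool.Agent.Lib.MP_cb4a0f_co.Hk.MainX11

/-!
# MP_cb4a0f_co: trees of bags with any number of edges and loops in the bags, the theorem
-/

namespace RotWqo.Hk

universe u v w

theorem stGad : StGad.{u, v} := gad_67 fun V H G A x R r N e F B st M =>
  core_56 G A x R r N e F B st M

theorem stStruct : StStruct.{u, v} :=
  stStruct_of (tame_50 (stVortex_9 mix_94) stGad mix_94) (ref_57 mix_94) tree_6

theorem stLeafX : StLeafX.{u, v, w} := leafX_5 Uni33.stUniX_33 stStruct (stSeg_21 arcx_19)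

theorem wqo_bagsX : StMainX.{u, v, w} := stMainX_11 stLeafX

end RotWqo.Hk
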