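import Pool.Agent.Lib.MP_cb4a0f_co.Hk.Stmts2

/-!
# MP_cb4a0f_co, Hk: the contraction lemma (row K)

`conG`: the half-edges in `K` are kept, with the involution `o`. `pe_conG`: it embeds in `G` when
every kept edge is realised by a run through the noncrossing matching `M`. `sub1_conG`: the case
of one hub, with the cuts.
-/

open Classical

namespace RotWqo.Hk

open RotWqo.Bag

universe u v w

variable {V H : Type*}

/-- The rotated graph with the half-edges `K` and the involution `o`. -/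
noncomputable def conG (G : RotGraph V H) (K : Finset H) (o : H → H) (hK : K ⊆ G.darts)
    (ho : ∀ h ∈ K, o h ∈ K ∧ o (o h) = h ∧ o h ≠ h) : RotGraph V H where
  verts := G.verts
  darts := K
  base := G.base
  opp := o
  rot v := (G.rot v).filter (fun a => decide (a ∈ K))
  base_mem h hh := G.base_mem h (hK hh)
  opp_mem h hh := (ho h hh).1
  opp_opp h hh := (ho h hh).2.1
  opp_ne h hh := (ho h hh).2.2
  nodup v := (G.nodup v).filter _
  mem_rot v h := by
    rw [List.mem_filter, G.mem_rot]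
    simp only [decide_eq_true_eq]
    constructor
    · rintro ⟨⟨_, h2⟩, h3⟩
      exact ⟨h3, h2⟩
    · rintro ⟨h1, h2⟩
      exact ⟨⟨hK h1, h2⟩, h1⟩

/-- A run ends at its start or at a matched half-edge. -/
theorem run_last {opp : H → H} {M : H → H → Prop} {x y : H} (hr : Run opp M x y) :
    y = x ∨ ∃ w, M w y := by
  induction hr with
  | refl x => exact Or.inl rfl
  | step x z1 y h1 h2 ih =>
    rcases ih with rfl | h
    · exact Or.inr ⟨_, h1⟩
    · exact Or.inr h

section

variable {G : RotGraph V H} {K : Finset H} {o : H → H} {hK : K ⊆ G.darts}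
  {ho : ∀ h ∈ K, o h ∈ K ∧ o (o h) = h ∧ o h ≠ h}

@[simp] theorem conG_verts : (conG G K o hK ho).verts = G.verts := rfl

@[simp] theorem conG_darts : (conG G K o hK ho).darts = K := rfl

@[simp] theorem conG_base : (conG G K o hK ho).base = G.base := rfl

@[simp] theorem conG_opp : (conG G K o hK ho).opp = o := rfl

theorem conG_rot (v : V) :
    (conG G K o hK ho).rot v = (G.rot v).filter (fun a => decide (a ∈ K)) := rfl

end

theorem pe_conG {G : RotGraph V H} {A : Finset V} {K : Finset H} {M : H → H → Prop} {o : H → H}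
    (hK : K ⊆ G.darts) (ho : ∀ h ∈ K, o h ∈ K ∧ o (o h) = h ∧ o h ≠ h)
    (hout : ∀ h ∈ G.darts, G.base h ∉ A → h ∈ K) (hs : ∀ a b, M a b → M b a)
    (hf : ∀ a b c, M a b → M a c → b = c)
    (hM : ∀ a b, M a b → a ∈ G.darts ∧ G.base a ∈ A ∧ G.base b = G.base a ∧ a ∉ K)
    (hnc : ∀ x ∈ A, NC M ((G.rot x).filter (fun a => decide (a ∈ K ∨ ∃ b, M a b))))
    (hoo : ∀ h ∈ K, G.base h ∉ A → G.base (o h) ∉ A → o h = G.opp h)
    (hr : ∀ h ∈ K, G.base h ∈ A → ∃ y, Run G.opp M h y ∧ G.opp y = o h) :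
    PE (fun a b => a = b) (conG G K o hK ho) A G A (fun h => G.opp (o h)) := by
  have hker : ∀ a, Ker (conG G K o hK ho) A id a ↔ a ∈ K ∧ G.base a ∈ A := by
    intro a
    rw [Ker_id]
    rfl
  have hy : ∀ h ∈ K, G.base h ∈ A → G.opp (o h) ∈ G.darts ∧ G.base (G.opp (o h)) ∈ A ∧
      Run G.opp M h (G.opp (o h)) := by
    intro h hh hA
    obtain ⟨y, h1, h2⟩ := hr h hh hA
    have h3 : y ∈ G.darts ∧ G.base y ∈ A := by
      rcases run_last h1 with rfl | ⟨w, h4⟩
      · exact ⟨hK hh, hA⟩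
      · exact ⟨(hM _ _ (hs _ _ h4)).1, (hM _ _ (hs _ _ h4)).2.1⟩
    have h5 : G.opp (o h) = y := by
      rw [← h2, G.opp_opp y h3.1]
    rw [h5]
    exact ⟨h3.1, h3.2, h1⟩
  refine ⟨id, id, M, fun v hv => hv, fun v _ => rfl, fun _ _ _ _ h => h, hs, hf,
    fun a b h => (hM a b h).1, fun a b h => ⟨(hM a b h).2.1, (hM a b h).2.2.1⟩, ?_,
    fun h hh _ => hK hh, fun h _ _ => rfl, fun _ _ _ _ _ _ h => h, ?_, ?_, ?_, ?_, ?_⟩
  · intro a b h1 h2
    rw [hker] at h2
    exact (hM a b h1).2.2.2 h2.1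
  · intro v hv
    rw [List.map_id, id, conG_rot]
    rw [List.filter_congr]
    intro a ha
    have h1 := (G.mem_rot v a).1 ha
    simp only [hker, h1.2, hv, and_true]
  · intro x hx
    have h1 : (G.rot x).filter (fun a => decide (Ker (conG G K o hK ho) A id a ∨ ∃ b, M a b)) =
        (G.rot x).filter (fun a => decide (a ∈ K ∨ ∃ b, M a b)) := by
      refine List.filter_congr fun a ha => ?_
      have h2 := (G.mem_rot x a).1 ha
      simp only [hker, h2.2, hx, and_true]
    rw [h1]
    exact hnc x hx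
  · intro h hh h1 _
    exact hr h hh h1
  · intro h hh
    rw [mem_bd] at hh
    exact (hy h hh.1 hh.2.1).2.2
  · refine ⟨?_, ?_, ?_⟩
    · intro h hh
      rw [Finset.mem_coe, mem_bd] at hh
      obtain ⟨h1, h2, h3⟩ := hh
      simp only [conG_darts, conG_base, conG_opp] at h1 h2 h3
      rw [Finset.mem_coe, mem_bd]
      obtain ⟨h4, h5, -⟩ := hy h h1 h2
      refine ⟨h4, h5, ?_⟩
      change G.base (G.opp (G.opp (o h))) ∉ A
      rw [G.opp_opp _ (hK (ho h h1).1)]
      exact h3
    · intro a ha b hb hab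
      rw [Finset.mem_coe, mem_bd] at ha hb
      have h1 : o a = o b := by
        have h2 := congrArg G.opp hab
        simp only at h2
        rwa [G.opp_opp _ (hK (ho a ha.1).1), G.opp_opp _ (hK (ho b hb.1).1)] at h2
      rw [← (ho a ha.1).2.1, h1, (ho b hb.1).2.1]
    · intro a ha
      rw [Finset.mem_coe, mem_bd] at ha
      obtain ⟨h1, h2, h3⟩ := ha
      have hg : G.opp a ∈ K := hout _ (G.opp_mem a h1) h3
      have h4 := ho _ hg
      refine ⟨o (G.opp a), ?_, ?_⟩
      · rw [Finset.mem_coe, mem_bd]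
        refine ⟨h4.1, ?_, ?_⟩
        · by_contra h5
          have h6 := hoo _ hg h3 h5
          rw [G.opp_opp a h1] at h6
          change G.base (o (G.opp a)) ∉ A at h5
          rw [h6] at h5
          exact h5 h2
        · change G.base (o (o (G.opp a))) ∉ A
          rw [h4.2.1]
          exact h3
      · change G.opp (o (o (G.opp a))) = a
        rw [h4.2.1, G.opp_opp a h1]

theorem con_27 : StCon.{u, v} := by
  intro V H G A K M o _ hK hout hs hf hM hnc ho hoo hr
  exact ⟨conG G K o hK ho, rfl, rfl, rfl, rfl, fun _ => rfl, _,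
    pe_conG hK ho hout hs hf hM hnc hoo hr⟩

/-- Contraction inside one hub keeps the cuts. -/
theorem cut_conG {G : RotGraph V H} {x : V} {K : Finset H} {o : H → H}
    (hK : K ⊆ G.darts) (ho : ∀ h ∈ K, o h ∈ K ∧ o (o h) = h ∧ o h ≠ h)
    (hout : ∀ h ∈ G.darts, G.base h ≠ x → h ∈ K)
    (hb : ∀ h ∈ K, G.base h ≠ x → G.base (o h) = G.base (G.opp h)) (S : Finset V) :
    cut (conG G K o hK ho) S = cut G S := by
  by_cases hx : x ∈ S
  · refine Finset.card_bij' (fun h _ => G.opp (o h)) (fun a _ => o (G.opp a)) ?_ ?_ ?_ ?_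
    · intro h hh
      rw [mem_bd] at hh
      obtain ⟨h1, h2, h3⟩ := hh
      simp only [conG_darts, conG_base, conG_opp] at h1 h2 h3
      have h4 : G.base (o h) ≠ x := fun e => h3 (e ▸ hx)
      have h5 := hb _ (ho h h1).1 h4
      rw [(ho h h1).2.1] at h5
      rw [mem_bd]
      refine ⟨G.opp_mem _ (hK (ho h h1).1), ?_, ?_⟩
      · rw [← h5]
        exact h2
      · rw [G.opp_opp _ (hK (ho h h1).1)]
        exact h3
    · intro a ha
      rw [mem_bd] at ha
      obtain ⟨h1, h2, h3⟩ := ha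
      have h4 : G.base (G.opp a) ≠ x := fun e => h3 (e ▸ hx)
      have hg := hout _ (G.opp_mem a h1) h4
      have h5 := hb _ hg h4
      rw [G.opp_opp a h1] at h5
      rw [mem_bd]
      refine ⟨(ho _ hg).1, ?_, ?_⟩
      · change G.base (o (G.opp a)) ∈ S
        rw [h5]
        exact h2
      · change G.base (o (o (G.opp a))) ∉ S
        rw [(ho _ hg).2.1]
        exact h3
    · intro h hh
      rw [mem_bd] at hh
      have h1 : h ∈ K := hh.1
      change o (G.opp (G.opp (o h))) = h
      rw [G.opp_opp _ (hK (ho h h1).1), (ho h h1).2.1]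
    · intro a ha
      rw [mem_bd] at ha
      obtain ⟨h1, h2, h3⟩ := ha
      have h4 : G.base (G.opp a) ≠ x := fun e => h3 (e ▸ hx)
      have hg := hout _ (G.opp_mem a h1) h4
      change G.opp (o (o (G.opp a))) = a
      rw [(ho _ hg).2.1, G.opp_opp a h1]
  · unfold cut
    congr 1
    ext h
    rw [mem_bd, mem_bd]
    constructor
    · rintro ⟨h1, h2, h3⟩
      simp only [conG_darts, conG_base, conG_opp] at h1 h2 h3
      have h4 : G.base h ≠ x := fun e => hx (e ▸ h2)
      refine ⟨hK h1, h2, ?_⟩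
      rw [← hb h h1 h4]
      exact h3
    · rintro ⟨h1, h2, h3⟩
      have h4 : G.base h ≠ x := fun e => hx (e ▸ h2)
      have h5 := hout h h1 h4
      refine ⟨h5, h2, ?_⟩
      change G.base (o h) ∉ S
      rw [hb h h5 h4]
      exact h3

/-- Contraction inside one hub: all conditions are at `x`, the result is contained in `G`. It is
enough to give the runs for one half of each kept edge (the set `T`). -/
theorem sub1_conG {G : RotGraph V H} {A : Finset V} {x : V} {K : Finset H} {M : H → H → Prop}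
    {o : H → H} (hA : A ⊆ G.verts) (hx : x ∈ A)
    (hK : K ⊆ G.darts) (ho : ∀ h ∈ K, o h ∈ K ∧ o (o h) = h ∧ o h ≠ h)
    (hout : ∀ h ∈ G.darts, G.base h ≠ x → h ∈ K) (hs : ∀ a b, M a b → M b a)
    (hf : ∀ a b c, M a b → M a c → b = c)
    (hM : ∀ a b, M a b → a ∈ G.darts ∧ G.base a = x ∧ a ∉ K)
    (hnc : NC M ((G.rot x).filter (fun a => decide (a ∈ K ∨ ∃ b, M a b))))
    (hb : ∀ h ∈ K, G.base h ≠ x → G.base (o h) = G.base (G.opp h))
    (hr : ∀ h ∈ K, (∃ y, Run G.opp M h y ∧ G.opp y = o h) ∨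
      ∃ y, Run G.opp M (o h) y ∧ G.opp y = h) :
    Sub1 (conG G K o hK ho) G A := by
  have hr' : ∀ h ∈ K, ∃ y, Run G.opp M h y ∧ G.opp y = o h := by
    intro h hh
    rcases hr h hh with h1 | ⟨y, h1, h2⟩
    · exact h1
    · have h3 : y ∈ G.darts := by
        rcases run_last h1 with rfl | ⟨w, h4⟩
        · exact hK (ho h hh).1
        · exact (hM _ _ (hs _ _ h4)).1
      refine ⟨G.opp (o h), ?_, G.opp_opp _ (hK (ho h hh).1)⟩
      have h5 := h1.reverse hs fun a b hab => G.opp_opp a (hM a b hab).1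
      rwa [h2] at h5
  refine ⟨⟨_, pe_conG hK ho (fun h hh hn => hout h hh fun e => hn (e ▸ hx)) hs hf ?_ ?_ ?_
    fun h hh _ => hr' h hh⟩, hA, fun S _ => cut_conG hK ho hout hb S⟩
  · intro a b hab
    obtain ⟨h1, h2, h3⟩ := hM a b hab
    obtain ⟨-, h5, -⟩ := hM b a (hs a b hab)
    refine ⟨h1, ?_, ?_, h3⟩
    · rw [h2]
      exact hx
    · rw [h2, h5]
  · intro z hz
    by_cases hzx : z = x
    · rw [hzx]
      exact hnc
    · refine .done _ fun a ha b hab => hzx ?_
      rw [List.mem_filter, G.mem_rot] at ha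
      rw [← ha.1.2, (hM a b hab).2.1]
  · intro h hh h1 h2
    have h3 : G.base h ≠ x := fun e => h1 (e ▸ hx)
    have h4 := hb h hh h3
    obtain ⟨y, h5, h6⟩ := hr' h hh
    cases h5 with
    | refl => exact h6.symm
    | step _ z _ h7 _ =>
      exfalso
      rw [h4, (hM _ _ h7).2.1] at h2
      exact h2 hx

end RotWqo.Hk
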