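import Pool.Agent.Lib.MP_cb4a0f_co.Bag.Stmts
import Pool.Agent.Lib.MP_cb4a0f_co.Arc.Defs

/-!
# MP_cb4a0f_co: rotated graphs with a bounded number of vertices, definitions of the modules

Everything is about a piece `(G, A)`: `A` is a set of (at most `k`) vertices of `G`, the half-edges
at `A` are `dts G A`, any number of them may belong to loops. The lists `G.rot x` are cut into
arcs by a function `ι` on half-edges which is monotone along the lists.
-/

open Classical

namespace RotWqo.Hk

open RotWqo.Bag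

variable {V H V' H' : Type*}

/-- `ι` cuts the list at each vertex of `A` into at most `M` arcs (consecutive sublists). -/
structure Cutting (G : RotGraph V H) (A : Finset V) (ι : H → ℕ) (M : ℕ) : Prop where
  mono : ∀ a ∈ dts G A, ∀ b ∈ dts G A, G.base a = G.base b → pos G a ≤ pos G b → ι a ≤ ι b
  lt : ∀ a ∈ dts G A, ι a < M

/-- The half-edge `h` belongs to an arc loop: both halves are in the same arc. -/
def AL (G : RotGraph V H) (ι : H → ℕ) (h : H) : Prop :=
  G.base (G.opp h) = G.base h ∧ ι (G.opp h) = ι h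

theorem al_opp {G : RotGraph V H} {ι : H → ℕ} {h : H} (hh : h ∈ G.darts) :
    AL G ι (G.opp h) ↔ AL G ι h := by
  unfold AL
  rw [G.opp_opp h hh]
  constructor <;> rintro ⟨h1, h2⟩ <;> exact ⟨h1.symm, h2.symm⟩

/-- The exploded graph: the arcs are the vertices, the arc loops are deleted. -/
noncomputable def expl (G : RotGraph V H) (M : ℕ) (ι : H → ℕ) : RotGraph (V × ℕ) H where
  verts := G.darts.image (fun h => (G.base h, ι h)) ∪ G.verts ×ˢ Finset.range M
  darts := G.darts.filter (fun h => ¬ AL G ι h)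
  base h := (G.base h, ι h)
  opp := G.opp
  rot p := (G.rot p.1).filter (fun h => decide (¬ AL G ι h ∧ ι h = p.2))
  base_mem h hh := Finset.mem_union_left _
    (Finset.mem_image_of_mem _ (Finset.mem_filter.1 hh).1)
  opp_mem h hh := by
    rw [Finset.mem_filter] at hh ⊢
    exact ⟨G.opp_mem h hh.1, fun h1 => hh.2 ((al_opp hh.1).1 h1)⟩
  opp_opp h hh := G.opp_opp h (Finset.mem_filter.1 hh).1
  opp_ne h hh := G.opp_ne h (Finset.mem_filter.1 hh).1
  nodup p := (G.nodup p.1).filter _
  mem_rot p h := by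
    rw [List.mem_filter, G.mem_rot, Finset.mem_filter]
    simp only [decide_eq_true_eq, Prod.ext_iff]
    tauto

/-- The set of arcs at `A`. -/
noncomputable def arcs (A : Finset V) (M : ℕ) : Finset (V × ℕ) := A ×ˢ Finset.range M

/-- The number of bad half-edges of the exploded graph at `A`. -/
noncomputable def nbad (G : RotGraph V H) (A : Finset V) (M : ℕ) (ι : H → ℕ) : ℕ :=
  (Bad (expl G M ι) (arcs A M)).card

/-- `(G₁, A)` embeds in `(G, A)` with the identity on `A`, and has the same cuts. -/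
structure Sub1 (G₁ G : RotGraph V H) (A : Finset V) : Prop where
  pe : ∃ β, PE (fun a b => a = b) G₁ A G A β
  verts : A ⊆ G₁.verts
  cuts : ∀ S ⊆ A, cut G₁ S = cut G S

/-- Poor pieces: no piece contained in it has a cutting into `M` arcs with `N` bad half-edges. -/
def Poor (N M : ℕ) (G : RotGraph V H) (A : Finset V) : Prop :=
  ∀ G₁ : RotGraph V H, Sub1 G₁ G A → ∀ ι, Cutting G₁ A ι M → nbad G₁ A M ι < N

/-- `X` is a set of consecutive half-edges in the list at `x`. -/
def IsInt (G : RotGraph V H) (x : V) (X : Finset H) : Prop :=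
  (∀ h ∈ X, h ∈ G.darts ∧ G.base h = x) ∧ ∀ a ∈ X, ∀ c ∈ X, ∀ b ∈ G.darts, G.base b = x →
    pos G a ≤ pos G b → pos G b ≤ pos G c → b ∈ X

/-- The number of edges with both halves in `L` and exactly one half in `Z` (for `Z ⊆ L`). -/
noncomputable def fcut (G : RotGraph V H) (L Z : Finset H) : ℕ :=
  (Z.filter (fun h => G.opp h ∈ L ∧ G.opp h ∉ Z)).card

/-- `Z` has a carving into intervals at `x` of width at most `θ` with respect to the edges in
`L`. -/
def Tame (θ : ℕ) (G : RotGraph V H) (x : V) (L Z : Finset H) : Prop :=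
  ∃ t : Tree H, t.leaves.Nodup ∧ t.set = Z ∧ ∀ s, IsSub s t →
    IsInt G x s.set ∧ fcut G L s.set ≤ θ

/-- All half-edges of `X` come before those of `Y` in the list at their end. -/
def Bef (G : RotGraph V H) (X Y : Finset H) : Prop := ∀ a ∈ X, ∀ b ∈ Y, pos G a < pos G b

/-- A gadget in `X`: a loop `p` which crosses `q` loops `b i`, and these are monotone. -/
def Gad (G : RotGraph V H) (q : ℕ) (X : Finset H) : Prop :=
  ∃ (p : H) (b : ℕ → H) (s : Bool), p ∈ X ∧ G.opp p ∈ X ∧ (∀ i < q, b i ∈ X ∧ G.opp (b i) ∈ X) ∧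
    (∀ i j, i < j → j < q → pos G (b i) < pos G (b j)) ∧
    (∀ i j, i < j → j < q → lt s (pos G (G.opp (b i))) (pos G (G.opp (b j)))) ∧
    ((∀ i < q, pos G p < pos G (b i) ∧ pos G (b i) < pos G (G.opp p) ∧
        pos G (G.opp p) < pos G (G.opp (b i))) ∨
      ∀ i < q, pos G (b i) < pos G p ∧ pos G p < pos G (G.opp (b i)) ∧
        pos G (G.opp (b i)) < pos G (G.opp p))

/-- A mixed interval: it contains a half-edge of an edge which is not an arc loop, and an arc loop
around such a half-edge or two crossing arc loops. -/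
def Mix (G : RotGraph V H) (ι : H → ℕ) (X : Finset H) : Prop :=
  (∃ a e, a ∈ X ∧ G.opp a ∈ X ∧ e ∈ X ∧ AL G ι a ∧ ¬ AL G ι e ∧
    pos G a < pos G e ∧ pos G e < pos G (G.opp a)) ∨
  ∃ a b e, a ∈ X ∧ G.opp a ∈ X ∧ b ∈ X ∧ G.opp b ∈ X ∧ e ∈ X ∧ AL G ι a ∧ AL G ι b ∧
    ¬ AL G ι e ∧ pos G a < pos G b ∧ pos G b < pos G (G.opp a) ∧
    pos G (G.opp a) < pos G (G.opp b)

/-- The arc number `i` at `x`. -/
noncomputable def arc (G : RotGraph V H) (ι : H → ℕ) (x : V) (i : ℕ) : Finset H :=
  G.darts.filter (fun h => G.base h = x ∧ ι h = i)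

/-- A segment carving of the piece `(G, A)`: the leaves are the half-edges at `A`, below every node
they are consecutive in each arc, and at most `w` of them have their other half elsewhere. -/
def IsSegCar (w : ℕ) (G : RotGraph V H) (A : Finset V) (ι : H → ℕ) (t : Tree H) : Prop :=
  t.leaves.Nodup ∧ t.set = dts G A ∧ ∀ s, IsSub s t →
    (∀ a ∈ s.set, ∀ c ∈ s.set, ∀ b ∈ dts G A, G.base a = G.base b → G.base c = G.base b →
      ι a = ι b → ι c = ι b → pos G a ≤ pos G b → pos G b ≤ pos G c → b ∈ s.set) ∧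
    (s.set.filter (fun h => G.opp h ∉ s.set)).card ≤ w

/-- A tree of bags without a bound on the number of loops. -/
structure IsBagTreeX (k : ℕ) (G : RotGraph V H) (t : Tree (Finset V)) : Prop where
  pw : t.leaves.Pairwise Disjoint
  ne : ∀ B ∈ t.leaves, B.Nonempty
  card : ∀ B ∈ t.leaves, B.card ≤ k
  verts : bset t = G.verts
  cuts : ∀ s, IsSub s t → cut G (bset s) ≤ k

end RotWqo.Hk
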