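import Pool.Agent.Lib.MP_cb4a0f_co.Hk.All

/-!
# MP_cb4a0f_co: the structure of rotated graphs on k vertices which exclude a small one (helper6)
-/

open Classical

namespace RotWqo.Hk

open RotWqo.Bag

universe u v

theorem cut_verts6 {V H : Type*} (G : RotGraph V H) : cut G G.verts = 0 := by
  have h2 : bd G G.verts = ∅ := by
    refine Finset.eq_empty_of_forall_notMem fun g hg => ?_
    have := mem_bd.1 hg
    exact this.2.2 (G.base_mem _ (G.opp_mem g this.1))
  simp [cut, h2]

/-- Every rotated graph with at most `k` vertices has a small edge cut, or a segment carving of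
bounded width with few bad half-edges, or it contains all small rotated graphs with as many
vertices, with any prescribed bijection of the vertices. -/
theorem excluded_6 (k D : ℕ) : ∃ N s w : ℕ, ∀ (V' : Type u) (H' : Type v)
    (G' : RotGraph V' H'), G'.verts.card ≤ k →
    (∃ S ⊆ G'.verts, S.Nonempty ∧ S ≠ G'.verts ∧ cut G' S < N) ∨
    (∃ ι : H' → ℕ, Cutting G' G'.verts ι s ∧ nbad G' G'.verts s ι < N ∧
      (G'.darts = ∅ ∨ ∃ t, IsSegCar w G' G'.verts ι t)) ∨
    ∀ (V : Type u) (H : Type v) (G : RotGraph V H) (f : V → V'),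
      Set.BijOn f (G.verts : Set V) (G'.verts : Set V') → G.darts.card ≤ D →
      Imm (fun v w => w = f v) G G' := by
  have hU := fun M => Uni33.stUniX_33.{u, v} k M 0 D
  choose 𝒩₀ h𝒩 using hU
  set 𝒩 : ℕ → ℕ := fun M => 𝒩₀ M + 1 with h𝒩d
  obtain ⟨M₀, s, w, hS⟩ := stStruct.{u, v} k 0 𝒩
  set N : ℕ := (Finset.range (max M₀ s + 1)).sup 𝒩 with hN
  have hle : ∀ M ≤ max M₀ s, 𝒩 M ≤ N := fun M hM =>
    Finset.le_sup (f := 𝒩) (Finset.mem_range.2 (Nat.lt_succ_of_le hM))
  refine ⟨N, s, w, fun V' H' G' hk => ?_⟩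
  have hdts : dts G' G'.verts = G'.darts := by
    unfold dts
    exact Finset.filter_true_of_mem fun h hh => G'.base_mem h hh
  by_cases h1 : ∃ S ⊆ G'.verts, S.Nonempty ∧ S ≠ G'.verts ∧ cut G' S < N
  · exact Or.inl h1
  refine Or.inr ?_
  push Not at h1
  by_cases h2 : ∀ (V : Type u) (H : Type v) (G : RotGraph V H) (f : V → V'),
      Set.BijOn f (G.verts : Set V) (G'.verts : Set V') → G.darts.card ≤ D →
      Imm (fun v w => w = f v) G G'
  · exact Or.inr h2
  refine Or.inl ?_
  push Not at h2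
  obtain ⟨V, H, G, f, hf, hD, hni⟩ := h2
  have hcard : G.verts.card = G'.verts.card := by
    have := hf.image_eq
    rw [← Finset.coe_image] at this
    have h3 : G.verts.image f = G'.verts := Finset.coe_injective this
    rw [← h3, Finset.card_image_of_injOn hf.injOn]
  -- every cutting of every contained piece has few bad half-edges
  have hpoor : ∀ M ≤ max M₀ s, Poor (𝒩 M) M G' G'.verts := by
    intro M hM G₁ hG₁ ι hι
    by_contra h3
    push Not at h3
    have hne : (Bad (expl G₁ M ι) (arcs G'.verts M)).Nonempty := by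
      rw [← Finset.card_pos]
      exact lt_of_lt_of_le (Nat.succ_pos _) h3
    have : Nonempty H' := ⟨hne.choose⟩
    obtain ⟨⟨β, hβ⟩, hv, hc⟩ := hG₁
    obtain ⟨γ, hγ⟩ := h𝒩 M V V' H H' G G.verts G₁ G'.verts ι (fun v w => w = f v) f
      (Finset.Subset.refl _) hv hf (fun _ _ => rfl) (hcard.le.trans hk)
      ((Finset.card_le_card (Finset.filter_subset _ _)).trans hD)
      (by rw [hc _ (Finset.Subset.refl _), cut_verts6, cut_verts6])
      (by rw [hc _ (Finset.Subset.refl _), cut_verts6])
      (fun S h4 h5 h6 => by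
        rw [hc _ h5]
        exact (Nat.le_succ _).trans ((hle M hM).trans (h1 S h5 h4 h6))) hι
      ((Nat.le_succ _).trans h3)
    refine hni (imm_of_PE _ _ _ (β ∘ γ) ?_)
    exact PE.trans (r₁ := fun v w => w = f v) (r₂ := fun a b => a = b)
      (r := fun v w => w = f v) (fun _ _ _ h h' => by rw [← h', h]) hγ hβ
  obtain ⟨ι, h4, h5⟩ := hS V' H' G' G'.verts (Finset.Subset.refl _) hk
    (by rw [cut_verts6]) (fun M hM => hpoor M (hM.trans (le_max_left _ _)))
  rw [hdts] at h5
  refine ⟨ι, h4, ?_, h5⟩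
  have h9 : Sub1 G' G' G'.verts :=
    ⟨⟨id, PE.refl _ (fun _ => rfl) G' G'.verts⟩, Finset.Subset.refl _, fun S _ => rfl⟩
  exact (hpoor s (le_max_right _ _) G' h9 ι h4).trans_le (hle s (le_max_right _ _))

end RotWqo.Hk
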