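import Pool.Agent.Lib.MP_cb4a0f_co.Hk.StmtsN67

/-!
# MP_cb4a0f_co: gadgets of kind R
-/

open Classical

namespace RotWqo.Hk

open RotWqo.Bag

universe u v

namespace GadR67

/-- the numbers of half-edges kept below level `j` -/
def SR (J r j : ℕ) : ℕ := if j ≤ J then j - 1 else r

/-- left ends -/
def aR {H : Type*} (r : ℕ) (p : ℕ → H) (b : ℕ → ℕ → H) (j s : ℕ) : H :=
  if j = 0 then b 0 s else if s < r - 1 then b j (s - (j - 1)) else p j

/-- right ends -/
def cR {H : Type*} (r : ℕ) (o : H → H) (p : ℕ → H) (b : ℕ → ℕ → H) (j s : ℕ) : H :=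
  if j = 0 then o (b 0 (r - 1 - s)) else if s < r - 1 then o (b j (r - 2 - s)) else o (p j)

/-- the crossings in the gadget -/
def tR (r j s : ℕ) : ℕ :=
  if j = 0 then r - 1 - s else if s < r - 1 then (j - 1) + (r - 2 - s) else r - 1

theorem lev_R {V : Type u} {H : Type v} {G : RotGraph V H} {x : V} {R : Finset H}
    {X : ℕ → Finset H} {p : ℕ → H} {b : ℕ → ℕ → H} {J r : ℕ} (hJ : 1 ≤ J) (hr : 2 * J + 2 ≤ r)
    (hR : IsInt G x R) (hg : ∀ w < J + 1, X w ⊆ R ∧ GadR G r (X w) (p w) (b w))
    (hB : ∀ w w', w < w' → w' < J + 1 → Bef G (X w) (X w')) :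
    Lev G R J r (SR J r) (aR r p b) (cR r G.opp p b) (tR r) := by
  have hS : ∀ j ≤ J, SR J r j = j - 1 := fun j hj => by rw [SR, if_pos hj]
  have hRd : ∀ h ∈ R, h ∈ G.darts := fun h hh => (hR.1 h hh).1
  have ha : ∀ j ≤ J, ∀ s, SR J r j ≤ s → s < r → aR r p b j s ∈ X j := by
    intro j hj s hs hsr
    rw [hS j hj] at hs
    have h1 := (hg j (by omega)).2
    rw [aR]
    split_ifs with h2 h3
    · subst h2
      exact (h1.mem s hsr).1
    · exact (h1.mem _ (by omega)).1
    · exact h1.pm.1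
  have hc : ∀ j ≤ J, ∀ s, SR J r j ≤ s → s < r → cR r G.opp p b j s ∈ X j := by
    intro j hj s hs hsr
    rw [hS j hj] at hs
    have h1 := (hg j (by omega)).2
    rw [cR]
    split_ifs with h2 h3
    · subst h2
      exact (h1.mem _ (by omega)).2
    · exact (h1.mem _ (by omega)).2
    · exact h1.pm.2
  refine ⟨?_, ?_, ?_, ?_, ?_, ?_, ?_, ?_, ?_, ?_⟩
  · rw [hS 0 (by omega)]
  · intro j hj
    rw [hS j hj, SR]
    split_ifs <;> omega
  · rw [SR, if_neg (by omega)]
  · intro j hj s hs hsr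
    exact ⟨(hg j (by omega)).1 (ha j hj s hs hsr), (hg j (by omega)).1 (hc j hj s hs hsr)⟩
  · intro j hj s hs hsr
    rw [hS j hj] at hs ⊢
    simp only [tR]
    split_ifs <;> omega
  · intro j hj s hs hsr
    rw [hS j hj] at hs
    have h1 := (hg j (by omega)).2
    have h2 : ∀ h ∈ X j, G.opp (G.opp h) = h := fun h hh =>
      G.opp_opp h (hRd _ ((hg j (by omega)).1 hh))
    rw [cR, aR, tR]
    by_cases h3 : j = 0
    · subst h3
      rw [if_pos rfl, if_pos rfl, if_pos rfl]
      exact h2 _ (h1.mem _ (by omega)).1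
    · rw [if_neg h3, if_neg h3, if_neg h3]
      by_cases h4 : s < r - 1
      · rw [if_pos h4, if_pos h4, if_pos (by omega), h2 _ (h1.mem _ (by omega)).1]
        congr 1
        omega
      · rw [if_neg h4, if_neg h4, if_neg (by omega), h2 _ h1.pm.1]
  · intro j hj s t hs hst ht
    rw [hS j hj] at hs
    have h1 := (hg j (by omega)).2
    rw [aR, aR]
    by_cases h3 : j = 0
    · subst h3
      rw [if_pos rfl, if_pos rfl]
      exact h1.bb s t hst ht
    · rw [if_neg h3, if_neg h3, if_pos (by omega)]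
      by_cases h4 : t < r - 1
      · rw [if_pos h4]
        exact h1.bb _ _ (by omega) (by omega)
      · rw [if_neg h4]
        exact (h1.pb _ (by omega)).1
  · intro j hj s t hs hst ht
    rw [hS j hj] at hs
    have h1 := (hg j (by omega)).2
    rw [cR, cR]
    by_cases h3 : j = 0
    · subst h3
      rw [if_pos rfl, if_pos rfl]
      exact h1.cc _ _ (by omega) (by omega)
    · rw [if_neg h3, if_neg h3, if_pos (by omega)]
      by_cases h4 : t < r - 1
      · rw [if_pos h4]
        exact h1.cc _ _ (by omega) (by omega)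
      · rw [if_neg h4]
        exact (h1.pb _ (by omega)).2.2
  · intro j hj s t hs hsr ht htr
    rw [hS j hj] at hs ht
    have h1 := (hg j (by omega)).2
    have h5 : ∀ i < r, ∀ k < r, pos G (b j i) < pos G (G.opp (b j k)) := fun i hi k hk =>
      (h1.pb i hi).1.trans (h1.pb k hk).2.1
    have h6 : pos G (p j) < pos G (G.opp (p j)) :=
      (h1.pb 0 (by omega)).2.1.trans (h1.pb 0 (by omega)).2.2
    rw [aR, cR]
    by_cases h3 : j = 0
    · subst h3
      rw [if_pos rfl, if_pos rfl]
      exact h5 _ (by omega) _ (by omega)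
    · rw [if_neg h3, if_neg h3]
      by_cases h4 : s < r - 1
      · rw [if_pos h4]
        by_cases h7 : t < r - 1
        · rw [if_pos h7]
          exact h5 _ (by omega) _ (by omega)
        · rw [if_neg h7]
          exact (h1.pb _ (by omega)).1.trans h6
      · rw [if_neg h4]
        by_cases h7 : t < r - 1
        · rw [if_pos h7]
          exact (h1.pb _ (by omega)).2.1
        · rw [if_neg h7]
          exact h6
  · intro i j hij hj s t hs hsr ht htr
    exact hB i j hij (by omega) _ (hc i (by omega) s hs hsr) _ (ha j hj t ht htr)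

theorem pr_R {J r : ℕ} (j : ℕ) (hj : j + 1 ≤ J) : ∀ s, j ≤ s → s + j + 2 ≤ r →
    pr r (SR J r) (tR r) (j + 1) s = r - 2 - j - s := by
  induction j with
  | zero =>
    intro s _ hs
    rw [pr, SR, if_pos hj, if_neg (by omega), pr, tR, if_pos rfl, tR, if_neg (by omega),
      if_pos (by omega)]
    omega
  | succ j ih =>
    intro s hs hs2
    rw [pr, SR, if_pos hj, if_neg (by omega), tR, if_neg (by omega), if_pos (by omega)]
    have h1 : r - 1 + (j + 1 + 1 - 1) - (j + 1 + 1 - 1 + (r - 2 - s)) = s + 1 := by omega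
    rw [h1, ih (by omega) (s + 1) (by omega) (by omega)]
    omega

end GadR67

open GadR67

theorem pr_stable' {r : ℕ} {S : ℕ → ℕ} {τ : ℕ → ℕ → ℕ} {i j J s : ℕ} (hij : i ≤ j) (hj : j ≤ J)
    (hs : ∀ l, i < l → l ≤ J → s < S l) : pr r S τ j s = pr r S τ i s := by
  induction j, hij using Nat.le_induction with
  | base => rfl
  | succ j hij ih =>
    rw [pr, if_pos (hs _ (by omega) hj)]
    exact ih (by omega)

/-- (P3) Many gadgets of kind R. -/
theorem gadR_67 (hNet : StNet.{u, v}) : StGadR.{u, v} := by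
  intro N
  refine ⟨N + 2, 2 * (N + 1) + 2, fun V H G A x R X p b hA hx hR hl hg hB => ?_⟩
  have hL := lev_R (J := N + 1) (r := 2 * (N + 1) + 2) (by omega) le_rfl hR hg hB
  refine hNet V H G A x R (N + 1) (2 * (N + 1) + 2) N _ _ _ _ (Finset.range N) hA hx hR hl hL
    (by rw [Finset.card_range]) ?_
  have h1 : ∀ s ≤ N, pr (2 * (N + 1) + 2) (SR (N + 1) (2 * (N + 1) + 2)) (tR (2 * (N + 1) + 2))
      (N + 1) s = 2 * (N + 1) + 2 - 2 - s - s := by
    intro s hs
    rw [pr_stable' (i := s + 1) (j := N + 1) (J := N + 1) (by omega) le_rfl, pr_R s (by omega) s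
      le_rfl (by omega)]
    intro l h2 h3
    rw [SR, if_pos h3]
    omega
  intro s hs
  rw [Finset.mem_range] at hs
  rw [h1 s (by omega), h1 (s + 1) (by omega)]
  refine ⟨by omega, by omega, by omega⟩

end RotWqo.Hk
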