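import Pool.Agent.Lib.MP_cb4a0f_co.Hk.StmtsN67

/-!
# MP_cb4a0f_co: gadgets of the kinds T and L
-/

open Classical

namespace RotWqo.Hk

open RotWqo.Bag

universe u v

namespace GadTL56

theorem pr_stable {r : ℕ} {S : ℕ → ℕ} {τ : ℕ → ℕ → ℕ} {i j J s : ℕ} (hij : i ≤ j) (hj : j ≤ J)
    (hs : ∀ l, i < l → l ≤ J → s < S l) : pr r S τ j s = pr r S τ i s := by
  induction j, hij using Nat.le_induction with
  | base => rfl
  | succ j hij ih =>
    rw [pr, if_pos (hs _ (by omega) hj)]
    exact ih (by omega)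

/-! ### Kind T -/

/-- the numbers of half-edges kept below level `j` -/
def kT (J r j : ℕ) : ℕ := if j ≤ J then j else r

/-- left ends -/
def aT {H : Type*} (b : ℕ → ℕ → H) (j s : ℕ) : H := b j (s - j)

/-- right ends -/
def cT {H : Type*} (o : H → H) (b : ℕ → ℕ → H) (j s : ℕ) : H := o (b j (s - j))

/-- the crossings in the gadget -/
def tT (_ s : ℕ) : ℕ := s

theorem lev_T {V : Type u} {H : Type v} {G : RotGraph V H} {x : V} {R : Finset H}
    {X : ℕ → Finset H} {b : ℕ → ℕ → H} {J r : ℕ} (hr : J ≤ r) (hR : IsInt G x R)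
    (hg : ∀ w < J + 1, X w ⊆ R ∧ GadT G r (X w) (b w))
    (hB : ∀ w w', w < w' → w' < J + 1 → Bef G (X w) (X w')) :
    Lev G R J r (kT J r) (aT b) (cT G.opp b) tT := by
  have hS : ∀ j ≤ J, kT J r j = j := fun j hj => by rw [kT, if_pos hj]
  have hRd : ∀ h ∈ R, h ∈ G.darts := fun h hh => (hR.1 h hh).1
  refine ⟨?_, ?_, ?_, ?_, ?_, ?_, ?_, ?_, ?_, ?_⟩
  · rw [hS 0 (by omega)]
  · intro j hj
    rw [hS j hj, kT]
    split_ifs <;> omega
  · rw [kT, if_neg (by omega)]
  · intro j hj s hs hsr
    have h1 := (hg j (by omega)).2.mem (s - j) (by omega)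
    exact ⟨(hg j (by omega)).1 h1.1, (hg j (by omega)).1 h1.2⟩
  · intro j hj s hs hsr
    exact ⟨hs, hsr, rfl⟩
  · intro j hj s hs hsr
    have h1 := (hg j (by omega)).2.mem (s - j) (by omega)
    exact G.opp_opp _ (hRd _ ((hg j (by omega)).1 h1.1))
  · intro j hj s t hs hst ht
    rw [hS j hj] at hs
    exact (hg j (by omega)).2.bb _ _ (by omega) (by omega)
  · intro j hj s t hs hst ht
    rw [hS j hj] at hs
    exact (hg j (by omega)).2.cc _ _ (by omega) (by omega)
  · intro j hj s t hs hsr ht htr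
    exact (hg j (by omega)).2.bc _ (by omega) _ (by omega)
  · intro i j hij hj s t hs hsr ht htr
    exact hB i j hij (by omega) _ ((hg i (by omega)).2.mem (s - i) (by omega)).2 _
      ((hg j (by omega)).2.mem (t - j) (by omega)).1

theorem pr_T {J r : ℕ} (j : ℕ) (hj : j ≤ J) : ∀ s, j ≤ s → s < r →
    pr r (kT J r) tT j s = if j % 2 = 0 then s - j / 2 else r + j / 2 - s := by
  induction j with
  | zero =>
    intro s _ _
    simp [pr, tT]
  | succ j ih =>
    intro s hs hs2
    rw [pr, kT, if_pos hj, if_neg (by omega), tT, ih (by omega) _ (by omega) (by omega)]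
    split_ifs <;> omega

/-! ### Kind L -/

/-- the numbers of half-edges kept below level `j` -/
def kL (J r j : ℕ) : ℕ := if j ≤ J then 2 * (j - 1) else r

/-- left ends -/
def aL {H : Type*} (p : ℕ → H) (b : ℕ → ℕ → H) (j s : ℕ) : H :=
  if j = 0 then b 0 s else if s = 2 * (j - 1) then p j else b j (s - 2 * (j - 1) - 1)

/-- right ends -/
def cL {H : Type*} (r : ℕ) (o : H → H) (p : ℕ → H) (b : ℕ → ℕ → H) (j s : ℕ) : H :=
  if j = 0 then o (b 0 (r - 1 - s)) else if s = 2 * (j - 1) then o (p j) else o (b j (r - 1 - s))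

/-- the crossings in the gadget -/
def tL (r j s : ℕ) : ℕ :=
  if j = 0 then r - 1 - s else if s = 2 * (j - 1) then s else 2 * (j - 1) + r - s

theorem lev_L {V : Type u} {H : Type v} {G : RotGraph V H} {x : V} {R : Finset H}
    {X : ℕ → Finset H} {p : ℕ → H} {b : ℕ → ℕ → H} {J r : ℕ} (hr : 2 * J + 2 ≤ r)
    (hR : IsInt G x R) (hg : ∀ w < J + 1, X w ⊆ R ∧ GadL G r (X w) (p w) (b w))
    (hB : ∀ w w', w < w' → w' < J + 1 → Bef G (X w) (X w')) :
    Lev G R J r (kL J r) (aL p b) (cL r G.opp p b) (tL r) := by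
  have hS : ∀ j ≤ J, kL J r j = 2 * (j - 1) := fun j hj => by rw [kL, if_pos hj]
  have hRd : ∀ h ∈ R, h ∈ G.darts := fun h hh => (hR.1 h hh).1
  have ha : ∀ j ≤ J, ∀ s, kL J r j ≤ s → s < r → aL p b j s ∈ X j := by
    intro j hj s hs hsr
    rw [hS j hj] at hs
    have h1 := (hg j (by omega)).2
    rw [aL]
    split_ifs with h2 h3
    · subst h2
      exact (h1.mem s hsr).1
    · exact h1.pm.1
    · exact (h1.mem _ (by omega)).1
  have hc : ∀ j ≤ J, ∀ s, kL J r j ≤ s → s < r → cL r G.opp p b j s ∈ X j := by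
    intro j hj s hs hsr
    rw [hS j hj] at hs
    have h1 := (hg j (by omega)).2
    rw [cL]
    split_ifs with h2 h3
    · subst h2
      exact (h1.mem _ (by omega)).2
    · exact h1.pm.2
    · exact (h1.mem _ (by omega)).2
  refine ⟨?_, ?_, ?_, ?_, ?_, ?_, ?_, ?_, ?_, ?_⟩
  · rw [hS 0 (by omega)]
  · intro j hj
    rw [hS j hj, kL]
    split_ifs <;> omega
  · rw [kL, if_neg (by omega)]
  · intro j hj s hs hsr
    exact ⟨(hg j (by omega)).1 (ha j hj s hs hsr), (hg j (by omega)).1 (hc j hj s hs hsr)⟩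
  · intro j hj s hs hsr
    rw [hS j hj] at hs ⊢
    simp only [tL]
    split_ifs <;> omega
  · intro j hj s hs hsr
    rw [hS j hj] at hs
    have h1 := (hg j (by omega)).2
    have h2 : ∀ h ∈ X j, G.opp (G.opp h) = h := fun h hh =>
      G.opp_opp h (hRd _ ((hg j (by omega)).1 hh))
    rw [cL, aL, tL]
    by_cases h3 : j = 0
    · subst h3
      rw [if_pos rfl, if_pos rfl, if_pos rfl]
      exact h2 _ (h1.mem _ (by omega)).1
    · rw [if_neg h3, if_neg h3, if_neg h3]
      by_cases h4 : s = 2 * (j - 1)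
      · rw [if_pos h4, if_pos h4, if_pos h4, h2 _ h1.pm.1]
      · rw [if_neg h4, if_neg h4, if_neg (by omega), h2 _ (h1.mem _ (by omega)).1]
        congr 1
        omega
  · intro j hj s t hs hst ht
    rw [hS j hj] at hs
    have h1 := (hg j (by omega)).2
    rw [aL, aL]
    by_cases h3 : j = 0
    · subst h3
      rw [if_pos rfl, if_pos rfl]
      exact h1.bb s t hst ht
    · rw [if_neg h3, if_neg h3, if_neg (show ¬ t = 2 * (j - 1) by omega)]
      by_cases h4 : s = 2 * (j - 1)
      · rw [if_pos h4]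
        exact (h1.pb _ (by omega)).1
      · rw [if_neg h4]
        exact h1.bb _ _ (by omega) (by omega)
  · intro j hj s t hs hst ht
    rw [hS j hj] at hs
    have h1 := (hg j (by omega)).2
    rw [cL, cL]
    by_cases h3 : j = 0
    · subst h3
      rw [if_pos rfl, if_pos rfl]
      exact h1.cc _ _ (by omega) (by omega)
    · rw [if_neg h3, if_neg h3, if_neg (show ¬ t = 2 * (j - 1) by omega)]
      by_cases h4 : s = 2 * (j - 1)
      · rw [if_pos h4]
        exact (h1.pb _ (by omega)).2.2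
      · rw [if_neg h4]
        exact h1.cc _ _ (by omega) (by omega)
  · intro j hj s t hs hsr ht htr
    rw [hS j hj] at hs ht
    have h1 := (hg j (by omega)).2
    have h5 : ∀ i < r, ∀ k < r, pos G (b j i) < pos G (G.opp (b j k)) := fun i hi k hk =>
      (h1.pb i hi).2.1.trans (h1.pb k hk).2.2
    have h6 : pos G (p j) < pos G (G.opp (p j)) :=
      (h1.pb 0 (by omega)).1.trans (h1.pb 0 (by omega)).2.1
    rw [aL, cL]
    by_cases h3 : j = 0
    · subst h3
      rw [if_pos rfl, if_pos rfl]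
      exact h5 _ (by omega) _ (by omega)
    · rw [if_neg h3, if_neg h3]
      by_cases h4 : s = 2 * (j - 1)
      · rw [if_pos h4]
        by_cases h7 : t = 2 * (j - 1)
        · rw [if_pos h7]
          exact h6
        · rw [if_neg h7]
          exact h6.trans (h1.pb _ (by omega)).2.2
      · rw [if_neg h4]
        by_cases h7 : t = 2 * (j - 1)
        · rw [if_pos h7]
          exact (h1.pb _ (by omega)).2.1
        · rw [if_neg h7]
          exact h5 _ (by omega) _ (by omega)
  · intro i j hij hj s t hs hsr ht htr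
    exact hB i j hij (by omega) _ (hc i (by omega) s hs hsr) _ (ha j hj t ht htr)

theorem pr_L {J r : ℕ} (hr : 2 * J + 2 ≤ r) (j : ℕ) (hj : j + 1 ≤ J) : ∀ s, 2 * j ≤ s → s < r →
    pr r (kL J r) (tL r) (j + 1) s = if s = 2 * j then j else r - s + j := by
  induction j with
  | zero =>
    intro s _ hs
    have h0 : kL J r 1 = 0 := by rw [kL, if_pos (by omega)]
    rw [pr, h0, if_neg (by omega), pr, tL, if_pos rfl, tL, if_neg (by omega)]
    split_ifs <;> omega
  | succ j ih =>
    intro s hs hs2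
    have h0 : kL J r (j + 1 + 1) = 2 * (j + 1) := by
      rw [kL, if_pos (by omega)]
      omega
    rw [pr, h0, if_neg (by omega), tL, if_neg (by omega)]
    by_cases h1 : s = 2 * (j + 1 + 1 - 1)
    · rw [if_pos h1, ih (by omega) _ (by omega) (by omega), if_neg (by omega), if_pos (by omega)]
      omega
    · rw [if_neg h1, ih (by omega) _ (by omega) (by omega), if_neg (by omega), if_neg (by omega)]
      omega

end GadTL56

open GadTL56

/-- (P1) Many gadgets of kind T. -/
theorem gadT_56 (hNet : StNet.{u, v}) : StGadT.{u, v} := by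
  intro N
  refine ⟨N + 1, N + 3, fun V H G A x R X b hA hx hR hl hg hB => ?_⟩
  have hL := lev_T (J := N) (r := N + 3) (by omega) hR hg hB
  refine hNet V H G A x R N (N + 3) N _ _ _ _ (Finset.range N) hA hx hR hl hL
    (by rw [Finset.card_range]) ?_
  have h1 : ∀ s ≤ N, pr (N + 3) (kT N (N + 3)) tT N s =
      if s % 2 = 0 then s - s / 2 else N + 3 + s / 2 - s := by
    intro s hs
    rw [pr_stable (i := s) (j := N) (J := N) hs le_rfl, pr_T s hs s le_rfl (by omega)]
    intro l h2 h3
    rw [kT, if_pos h3]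
    exact h2
  intro s hs
  rw [Finset.mem_range] at hs
  rw [h1 s (by omega), h1 (s + 1) (by omega)]
  refine ⟨by omega, ?_, ?_⟩ <;> split_ifs <;> omega

/-- (P2) Many gadgets of kind L. -/
theorem gadL_56 (hNet : StNet.{u, v}) : StGadL.{u, v} := by
  intro N
  refine ⟨N + 1, 2 * N + 3, fun V H G A x R X p b hA hx hR hl hg hB => ?_⟩
  have hL := lev_L (J := N) (r := 2 * N + 3) (by omega) hR hg hB
  refine hNet V H G A x R N (2 * N + 3) N _ _ _ _ ((Finset.range N).image (fun i => 2 * i)) hA hx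
    hR hl hL ?_ ?_
  · rw [Finset.card_image_of_injective _ (fun a b (h : 2 * a = 2 * b) => by omega), Finset.card_range]
  have h1 : ∀ i < N, ∀ s, 2 * i ≤ s → s < 2 * i + 2 → pr (2 * N + 3) (kL N (2 * N + 3))
      (tL (2 * N + 3)) N s = if s = 2 * i then i else 2 * N + 3 - s + i := by
    intro i hi s hs hs2
    rw [pr_stable (i := i + 1) (j := N) (J := N) (by omega) le_rfl,
      pr_L (by omega) i (by omega) s hs (by omega)]
    intro l h2 h3
    rw [kL, if_pos h3]
    omega
  intro s hs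
  obtain ⟨i, hi, rfl⟩ := Finset.mem_image.1 hs
  rw [Finset.mem_range] at hi
  rw [h1 i hi (2 * i) (by omega) (by omega), h1 i hi (2 * i + 1) (by omega) (by omega),
    if_pos rfl, if_neg (by omega)]
  refine ⟨by omega, by omega, by omega⟩

end RotWqo.Hk
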