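import Pool.Agent.Lib.MP_cb4a0f_co.Hk.StmtsN67
import Pool.Agent.Lib.MP_cb4a0f_co.Link

/-!
# MP_cb4a0f_co: gadgets, the network theorem from the core
-/

open Classical

namespace RotWqo.Hk

open RotWqo.Bag

universe u v

namespace Net67

variable {V : Type u} {H : Type v} {G : RotGraph V H} {R : Finset H} {J r : ℕ} {S : ℕ → ℕ}
  {a c : ℕ → ℕ → H} {τ : ℕ → ℕ → ℕ}

theorem Smono (L : Lev G R J r S a c τ) : ∀ i j, i ≤ j → j ≤ J + 1 → S i ≤ S j := by
  intro i j hij
  induction j, hij using Nat.le_induction with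
  | base => intro _; exact le_rfl
  | succ j hij ih =>
    intro hj
    exact (ih (by omega)).trans (L.Sm j (by omega))

theorem Sle (L : Lev G R J r S a c τ) {j : ℕ} (hj : j ≤ J + 1) : S j ≤ r := by
  have := Smono L j (J + 1) hj le_rfl
  rwa [L.SJ] at this

/-- The level of the kept half-edge number `s`. -/
noncomputable def lev (S : ℕ → ℕ) (s : ℕ) : ℕ := if h : ∃ j, s < S (j + 1) then Nat.find h else 0

theorem lev_spec (L : Lev G R J r S a c τ) {s : ℕ} (hs : s < r) :
    lev S s ≤ J ∧ S (lev S s) ≤ s ∧ s < S (lev S s + 1) := by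
  have h : ∃ j, s < S (j + 1) := ⟨J, by rw [L.SJ]; exact hs⟩
  have h1 : lev S s = Nat.find h := by rw [lev, dif_pos h]
  refine ⟨?_, ?_, ?_⟩
  · rw [h1]
    exact Nat.find_min' h (by rw [L.SJ]; exact hs)
  · by_contra h2
    rw [not_le] at h2
    rcases Nat.eq_zero_or_pos (lev S s) with h3 | h3
    · rw [h3, L.S0] at h2
      omega
    · have h4 : ¬ s < S ((lev S s - 1) + 1) := by
        apply Nat.find_min h
        omega
      rw [Nat.sub_add_cancel h3] at h4
      exact h4 h2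
  · rw [h1]
    exact Nat.find_spec h

/-- The kept half-edges. -/
noncomputable def D (S : ℕ → ℕ) (c : ℕ → ℕ → H) (s : ℕ) : H := c (lev S s) s

/-! ### Order -/

theorem c_lt_c (L : Lev G R J r S a c τ) {i j s t : ℕ} (hij : i < j) (hj : j ≤ J) (hs : S i ≤ s)
    (hsr : s < r) (ht : S j ≤ t) (htr : t < r) : pos G (c i s) < pos G (c j t) :=
  (L.ca i j hij hj s t hs hsr ht htr).trans (L.ac j hj t t ht htr ht htr)

theorem a_lt_c (L : Lev G R J r S a c τ) {i j s t : ℕ} (hij : i ≤ j) (hj : j ≤ J) (hs : S i ≤ s)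
    (hsr : s < r) (ht : S j ≤ t) (htr : t < r) : pos G (a i s) < pos G (c j t) := by
  rcases Nat.lt_or_eq_of_le hij with h | h
  · exact (L.ac i (by omega) s s hs hsr hs hsr).trans (c_lt_c L h hj hs hsr ht htr)
  · subst h
    exact L.ac i hj s t hs hsr ht htr

theorem a_lt_a (L : Lev G R J r S a c τ) {i j s t : ℕ} (hij : i < j) (hj : j ≤ J) (hs : S i ≤ s)
    (hsr : s < r) (ht : S j ≤ t) (htr : t < r) : pos G (a i s) < pos G (a j t) :=
  (L.ac i (by omega) s s hs hsr hs hsr).trans (L.ca i j hij hj s t hs hsr ht htr)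

theorem a_ne_c (L : Lev G R J r S a c τ) {i j s t : ℕ} (hi : i ≤ J) (hj : j ≤ J) (hs : S i ≤ s)
    (hsr : s < r) (ht : S j ≤ t) (htr : t < r) : a i s ≠ c j t := by
  intro h
  rcases le_or_gt i j with hij | hij
  · have := a_lt_c L hij hj hs hsr ht htr
    rw [h] at this
    exact lt_irrefl _ this
  · have := L.ca j i hij hi t s ht htr hs hsr
    rw [h] at this
    exact lt_irrefl _ this

theorem c_inj (L : Lev G R J r S a c τ) {i j s t : ℕ} (hi : i ≤ J) (hj : j ≤ J) (hs : S i ≤ s)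
    (hsr : s < r) (ht : S j ≤ t) (htr : t < r) (h : c i s = c j t) : i = j ∧ s = t := by
  rcases lt_trichotomy i j with hij | hij | hij
  · have := c_lt_c L hij hj hs hsr ht htr
    rw [h] at this
    exact absurd this (lt_irrefl _)
  · subst hij
    refine ⟨rfl, ?_⟩
    rcases lt_trichotomy s t with hst | hst | hst
    · have := L.cc i hi s t hs hst htr
      rw [h] at this
      exact absurd this (lt_irrefl _)
    · exact hst
    · have := L.cc i hi t s ht hst hsr
      rw [h] at this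
      exact absurd this (lt_irrefl _)
  · have := c_lt_c L hij hi ht htr hs hsr
    rw [h] at this
    exact absurd this (lt_irrefl _)

theorem a_inj (L : Lev G R J r S a c τ) {i j s t : ℕ} (hi : i ≤ J) (hj : j ≤ J) (hs : S i ≤ s)
    (hsr : s < r) (ht : S j ≤ t) (htr : t < r) (h : a i s = a j t) : i = j ∧ s = t := by
  rcases lt_trichotomy i j with hij | hij | hij
  · have := a_lt_a L hij hj hs hsr ht htr
    rw [h] at this
    exact absurd this (lt_irrefl _)
  · subst hij
    refine ⟨rfl, ?_⟩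
    rcases lt_trichotomy s t with hst | hst | hst
    · have := L.aa i hi s t hs hst htr
      rw [h] at this
      exact absurd this (lt_irrefl _)
    · exact hst
    · have := L.aa i hi t s ht hst hsr
      rw [h] at this
      exact absurd this (lt_irrefl _)
  · have := a_lt_a L hij hi ht htr hs hsr
    rw [h] at this
    exact absurd this (lt_irrefl _)

theorem D_lt (L : Lev G R J r S a c τ) {s t : ℕ} (hst : s < t) (ht : t < r) :
    pos G (D S c s) < pos G (D S c t) := by
  obtain ⟨h1, h2, h3⟩ := lev_spec L (hst.trans ht)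
  obtain ⟨h4, h5, h6⟩ := lev_spec L ht
  rcases lt_trichotomy (lev S s) (lev S t) with h | h | h
  · exact c_lt_c L h h4 h2 (hst.trans ht) h5 ht
  · rw [D, D, h]
    exact L.cc _ h4 s t (h ▸ h2) hst ht
  · exfalso
    have := Smono L (lev S t + 1) (lev S s) h (by omega)
    omega

theorem D_inj (L : Lev G R J r S a c τ) {s t : ℕ} (hs : s < r) (ht : t < r)
    (h : D S c s = D S c t) : s = t := by
  rcases lt_trichotomy s t with hst | hst | hst
  · have := D_lt L hst ht
    rw [h] at this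
    exact absurd this (lt_irrefl _)
  · exact hst
  · have := D_lt L hst hs
    rw [h] at this
    exact absurd this (lt_irrefl _)

/-- Right ends between a right end and a left end of the next level. -/
theorem bet_c (L : Lev G R J r S a c τ) {j s s' l t : ℕ} (hj : j < J) (hs : S j ≤ s) (hsr : s < r)
    (hs' : S (j + 1) ≤ s') (hsr' : s' < r) (hl : l ≤ J) (ht : S l ≤ t) (htr : t < r)
    (h1 : pos G (c j s) < pos G (c l t)) (h2 : pos G (c l t) < pos G (a (j + 1) s')) :
    l = j ∧ s < t := by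
  rcases lt_trichotomy l j with h | h | h
  · exact absurd (c_lt_c L h hj.le ht htr hs hsr) (by omega)
  · subst h
    refine ⟨rfl, ?_⟩
    by_contra h3
    rcases Nat.lt_or_eq_of_le (not_lt.1 h3) with h4 | h4
    · exact absurd (L.cc l hj.le t s ht h4 hsr) (by omega)
    · subst h4
      omega
  · exact absurd (a_lt_c L (i := j + 1) (j := l) (by omega) hl hs' hsr' ht htr) (by omega)

/-- Left ends between a right end and a left end of the next level. -/
theorem bet_a (L : Lev G R J r S a c τ) {j s s' l t : ℕ} (hj : j < J) (hs : S j ≤ s) (hsr : s < r)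
    (hs' : S (j + 1) ≤ s') (hsr' : s' < r) (hl : l ≤ J) (ht : S l ≤ t) (htr : t < r)
    (h1 : pos G (c j s) < pos G (a l t)) (h2 : pos G (a l t) < pos G (a (j + 1) s')) :
    l = j + 1 ∧ t < s' := by
  rcases lt_trichotomy l (j + 1) with h | h | h
  · exact absurd (a_lt_c L (i := l) (j := j) (by omega) hj.le ht htr hs hsr) (by omega)
  · subst h
    refine ⟨rfl, ?_⟩
    by_contra h3
    rcases Nat.lt_or_eq_of_le (not_lt.1 h3) with h4 | h4
    · exact absurd (L.aa (j + 1) hl s' t hs' h4 htr) (by omega)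
    · subst h4
      omega
  · exact absurd (a_lt_a L h hl hs' hsr' ht htr) (by omega)

/-! ### Strands -/

theorem pr_stable (L : Lev G R J r S a c τ) {i j s : ℕ} (hij : i ≤ j) (hj : j ≤ J)
    (hs : s < S (i + 1)) : pr r S τ j s = pr r S τ i s := by
  induction j, hij using Nat.le_induction with
  | base => rfl
  | succ j hij ih =>
    have h1 := Smono L (i + 1) (j + 1) (by omega) (by omega)
    rw [pr, if_pos (by omega)]
    exact ih (by omega)

/-- The permutation of the places between two levels. -/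
def rho (r : ℕ) (S : ℕ → ℕ) (τ : ℕ → ℕ → ℕ) (j s : ℕ) : ℕ :=
  if s < S j then s else r - 1 + S j - τ j s

theorem pr_succ (j s : ℕ) : pr r S τ (j + 1) s = pr r S τ j (rho r S τ (j + 1) s) := by
  rw [pr, rho]
  split_ifs <;> rfl

theorem rho_lt (L : Lev G R J r S a c τ) {j s : ℕ} (hj : j ≤ J) (hs : s < r) :
    rho r S τ j s < r := by
  rw [rho]
  split_ifs with h
  · exact hs
  · have := L.τm j hj s (not_lt.1 h) hs
    omega

theorem rho_inj (L : Lev G R J r S a c τ) {j s t : ℕ} (hj : j ≤ J) (hs : s < r) (ht : t < r)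
    (h : rho r S τ j s = rho r S τ j t) : s = t := by
  rw [rho, rho] at h
  split_ifs at h with h1 h2 h2
  · exact h
  · have := L.τm j hj t (not_lt.1 h2) ht
    omega
  · have := L.τm j hj s (not_lt.1 h1) hs
    omega
  · have h3 := L.τm j hj t (not_lt.1 h2) ht
    have h4 := L.τm j hj s (not_lt.1 h1) hs
    have h5 : τ j s = τ j t := by omega
    rw [← h3.2.2, ← h4.2.2, h5]

theorem pr_lt (L : Lev G R J r S a c τ) {j : ℕ} (hj : j ≤ J) : ∀ s < r, pr r S τ j s < r := by
  induction j with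
  | zero =>
    intro s hs
    exact (L.τm 0 (by omega) s (by rw [L.S0]; omega) hs).2.1
  | succ j ih =>
    intro s hs
    rw [pr_succ]
    exact ih (by omega) _ (rho_lt L hj hs)

theorem pr_inj (L : Lev G R J r S a c τ) {j : ℕ} (hj : j ≤ J) :
    ∀ s < r, ∀ t < r, pr r S τ j s = pr r S τ j t → s = t := by
  induction j with
  | zero =>
    intro s hs t ht h
    have h1 := L.τm 0 (by omega) s (by rw [L.S0]; omega) hs
    have h2 := L.τm 0 (by omega) t (by rw [L.S0]; omega) ht
    rw [pr, pr] at h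
    rw [← h1.2.2, ← h2.2.2, h]
  | succ j ih =>
    intro s hs t ht h
    rw [pr_succ, pr_succ] at h
    exact rho_inj L hj hs ht (ih (by omega) _ (rho_lt L hj hs) _ (rho_lt L hj ht) h)

theorem pr_surj (L : Lev G R J r S a c τ) {j : ℕ} (hj : j ≤ J) {t : ℕ} (ht : t < r) :
    ∃ s < r, pr r S τ j s = t := by
  have h1 : (Finset.range r).image (pr r S τ j) = Finset.range r := by
    apply Finset.eq_of_subset_of_card_le
    · intro x hx
      obtain ⟨s, hs, rfl⟩ := Finset.mem_image.1 hx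
      exact Finset.mem_range.2 (pr_lt L hj s (Finset.mem_range.1 hs))
    · rw [Finset.card_image_of_injOn]
      intro s hs t ht h
      exact pr_inj L hj s (by simpa using hs) t (by simpa using ht) h
  have h2 : t ∈ (Finset.range r).image (pr r S τ j) := by
    rw [h1]
    exact Finset.mem_range.2 ht
  obtain ⟨s, hs, h3⟩ := Finset.mem_image.1 h2
  exact ⟨s, Finset.mem_range.1 hs, h3⟩

/-! ### The matching -/

/-- The nested matching between consecutive levels. -/
def NM (J r : ℕ) (S : ℕ → ℕ) (a c : ℕ → ℕ → H) (h z : H) : Prop :=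
  ∃ j s, j < J ∧ S (j + 1) ≤ s ∧ s < r ∧ ((h = c j s ∧ z = a (j + 1) (r - 1 + S (j + 1) - s)) ∨
    (z = c j s ∧ h = a (j + 1) (r - 1 + S (j + 1) - s)))

theorem NM_symm {h z : H} (hM : NM J r S a c h z) : NM J r S a c z h := by
  obtain ⟨j, s, h1, h2, h3, h4 | h4⟩ := hM
  · exact ⟨j, s, h1, h2, h3, Or.inr h4⟩
  · exact ⟨j, s, h1, h2, h3, Or.inl h4⟩

theorem NM_fun (L : Lev G R J r S a c τ) {h z z' : H} (hM : NM J r S a c h z)
    (hM' : NM J r S a c h z') : z = z' := by
  obtain ⟨j, s, h1, h2, h3, ⟨h4, h5⟩ | ⟨h4, h5⟩⟩ := hM <;>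
    obtain ⟨j', s', h1', h2', h3', ⟨h4', h5'⟩ | ⟨h4', h5'⟩⟩ := hM'
  · have hS := L.Sm j h1.le
    have hS' := L.Sm j' h1'.le
    obtain ⟨rfl, rfl⟩ := c_inj L h1.le h1'.le (hS.trans h2) h3 (hS'.trans h2') h3' (h4 ▸ h4')
    rw [h5, h5']
  · have hS := L.Sm j h1.le
    exact absurd (h5'.symm.trans h4) (a_ne_c L (by omega) h1.le (by omega) (by omega)
      (hS.trans h2) h3)
  · have hS' := L.Sm j' h1'.le
    exact absurd (h5.symm.trans h4') (a_ne_c L (by omega) h1'.le (by omega) (by omega)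
      (hS'.trans h2') h3')
  · obtain ⟨h6, h7⟩ := a_inj L (i := j + 1) (j := j' + 1) (by omega) (by omega) (by omega)
      (by omega) (by omega) (by omega) (h5 ▸ h5')
    have h8 : j = j' := by omega
    subst h8
    have h9 : s = s' := by omega
    subst h9
    rw [h4, h4']

theorem NM_mem (L : Lev G R J r S a c τ) {h z : H} (hM : NM J r S a c h z) : h ∈ R := by
  obtain ⟨j, s, h1, h2, h3, ⟨rfl, h5⟩ | ⟨h5, rfl⟩⟩ := hM
  · exact (L.mem j h1.le s ((L.Sm j h1.le).trans h2) h3).2
  · exact (L.mem (j + 1) (by omega) _ (by omega) (by omega)).1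

theorem NM_ne (L : Lev G R J r S a c τ) {h z : H} (hM : NM J r S a c h z) : h ≠ z := by
  obtain ⟨j, s, h1, h2, h3, ⟨rfl, rfl⟩ | ⟨rfl, rfl⟩⟩ := hM
  · exact (a_ne_c L (by omega) h1.le (by omega) (by omega) ((L.Sm j h1.le).trans h2) h3).symm
  · exact a_ne_c L (by omega) h1.le (by omega) (by omega) ((L.Sm j h1.le).trans h2) h3

theorem NM_D (L : Lev G R J r S a c τ) {h z : H} (hM : NM J r S a c h z) {t : ℕ} (ht : t < r) :
    h ≠ D S c t := by
  obtain ⟨h6, h7, h8⟩ := lev_spec L ht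
  obtain ⟨j, s, h1, h2, h3, ⟨rfl, rfl⟩ | ⟨rfl, rfl⟩⟩ := hM
  · intro h
    obtain ⟨h4, h5⟩ := c_inj L h1.le h6 ((L.Sm j h1.le).trans h2) h3 h7 ht h
    rw [← h4, ← h5] at h8
    omega
  · exact a_ne_c L (by omega) h6 (by omega) (by omega) h7 ht

theorem NM_e (L : Lev G R J r S a c τ) {h z : H} (hM : NM J r S a c h z) {t : ℕ} (ht : t < r) :
    h ≠ a 0 t := by
  have h0 := L.S0
  obtain ⟨j, s, h1, h2, h3, ⟨rfl, rfl⟩ | ⟨rfl, rfl⟩⟩ := hM
  · exact (a_ne_c L (by omega) h1.le (by omega) ht ((L.Sm j h1.le).trans h2) h3).symm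
  · intro h
    have := (a_inj L (i := j + 1) (j := 0) (by omega) (by omega) (by omega) (by omega) (by omega)
      ht h).1
    omega

theorem NM_inside (L : Lev G R J r S a c τ) {p q : H} (hM : NM J r S a c p q)
    (hpq : pos G p < pos G q) {d : H}
    (hd : (∃ t < r, d = D S c t) ∨ (∃ t < r, d = a 0 t) ∨ ∃ z, NM J r S a c d z)
    (h1 : pos G p < pos G d) (h2 : pos G d < pos G q) :
    ∃ z, NM J r S a c d z ∧ pos G p < pos G z ∧ pos G z < pos G q := by
  have h0 := L.S0
  obtain ⟨j, s, hj, hs, hsr, ⟨rfl, rfl⟩ | ⟨rfl, rfl⟩⟩ := hM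
  · have hS := (L.Sm j hj.le).trans hs
    rcases hd with ⟨t, ht, rfl⟩ | ⟨t, ht, rfl⟩ | ⟨z, l, t, hl, ht, htr, ⟨rfl, rfl⟩ | ⟨rfl, rfl⟩⟩
    · obtain ⟨h6, h7, h8⟩ := lev_spec L ht
      obtain ⟨h9, h10⟩ := bet_c L hj hS hsr (by omega) (by omega) h6 h7 ht h1 h2
      rw [h9] at h8
      omega
    · have := (bet_a L hj hS hsr (by omega) (by omega) (l := 0) (t := t) (by omega) (by omega) ht
        h1 h2).1
      omega
    · obtain ⟨rfl, h10⟩ := bet_c L hj hS hsr (by omega) (by omega) hl.le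
        ((L.Sm l hl.le).trans ht) htr h1 h2
      refine ⟨_, ⟨l, t, hl, ht, htr, Or.inl ⟨rfl, rfl⟩⟩, ?_, ?_⟩
      · exact L.ca l (l + 1) (by omega) (by omega) s _ hS hsr (by omega) (by omega)
      · exact L.aa (l + 1) (by omega) _ _ (by omega) (by omega) (by omega)
    · obtain ⟨h9, h10⟩ := bet_a L hj hS hsr (by omega) (by omega) (l := l + 1) (by omega)
        (by omega) (by omega) h1 h2
      have h11 : l = j := by omega
      subst h11
      refine ⟨_, ⟨l, t, hl, ht, htr, Or.inr ⟨rfl, rfl⟩⟩, ?_, ?_⟩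
      · exact L.cc l hl.le s t hS (by omega) htr
      · exact L.ca l (l + 1) (by omega) (by omega) t _ ((L.Sm l hl.le).trans ht) htr (by omega)
          (by omega)
  · exact absurd (L.ca j (j + 1) (by omega) (by omega) s (r - 1 + S (j + 1) - s)
      ((L.Sm j hj.le).trans hs) hsr (by omega) (by omega)) (by omega)

/-! ### Runs -/

theorem opp_a (L : Lev G R J r S a c τ) (hRd : ∀ h ∈ R, h ∈ G.darts) {j s : ℕ} (hj : j ≤ J)
    (hs : S j ≤ s) (hsr : s < r) : G.opp (a j (τ j s)) = c j s := by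
  rw [← L.opp j hj s hs hsr]
  exact G.opp_opp _ (hRd _ (L.mem j hj s hs hsr).2)

theorem run_lev (L : Lev G R J r S a c τ) (hRd : ∀ h ∈ R, h ∈ G.darts) {j : ℕ} (hj : j ≤ J) :
    ∀ s, S j ≤ s → s < r → Run G.opp (NM J r S a c) (a 0 (pr r S τ j s)) (a j (τ j s)) := by
  induction j with
  | zero =>
    intro s _ _
    exact Run.refl _
  | succ j ih =>
    intro s hs hsr
    have h1 := L.τm (j + 1) hj s hs hsr
    rw [pr, if_neg (by omega)]
    set s' := r - 1 + S (j + 1) - τ (j + 1) s with hs'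
    have h2 : S (j + 1) ≤ s' := by omega
    have h3 : s' < r := by omega
    have h4 := (L.Sm j (by omega)).trans h2
    refine (ih (by omega) s' h4 h3).snoc ?_
    rw [opp_a L hRd (by omega) h4 h3]
    refine ⟨j, s', by omega, h2, h3, Or.inl ⟨rfl, ?_⟩⟩
    congr 1
    omega

theorem run_D (L : Lev G R J r S a c τ) (hRd : ∀ h ∈ R, h ∈ G.darts) {s : ℕ} (hs : s < r) :
    ∃ y, Run G.opp (NM J r S a c) (D S c s) y ∧ G.opp y = a 0 (pr r S τ J s) := by
  obtain ⟨h1, h2, h3⟩ := lev_spec L hs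
  have h4 := run_lev L hRd h1 s h2 hs
  have h5 := h4.reverse (fun _ _ => NM_symm) (fun x y h => G.opp_opp x (hRd _ (NM_mem L h)))
  rw [opp_a L hRd h1 h2 hs] at h5
  refine ⟨_, h5, ?_⟩
  rw [pr_stable L h1 le_rfl h3]
  refine G.opp_opp _ (hRd _ (L.mem 0 (by omega) _ ?_ ?_).1)
  · rw [L.S0]
    omega
  · exact pr_lt L h1 s hs

end Net67

open Net67

/-- The network theorem from the core. -/
theorem net_67 (hC : StCore.{u, v}) : StNet.{u, v} := by
  intro V H G A x R J r N S a c τ Bs hA hx hR hl L hN hB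
  have hRd : ∀ h ∈ R, h ∈ G.darts := fun h hh => (hR.1 h hh).1
  have h0 := L.S0
  have hst : ∀ h, ∃ m, ∀ s < r, D S c s = h → m = pr r S τ J s := by
    intro h
    by_cases hh : ∃ s < r, D S c s = h
    · obtain ⟨s, hs, rfl⟩ := hh
      exact ⟨_, fun t ht h => by rw [D_inj L ht hs h]⟩
    · exact ⟨0, fun s hs h => absurd ⟨s, hs, h⟩ hh⟩
  choose st hst using hst
  have hD : ∀ s < r, st (D S c s) = pr r S τ J s := fun s hs => hst _ s hs rfl
  have hDR : ∀ s < r, D S c s ∈ R := fun s hs => by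
    obtain ⟨h1, h2, _⟩ := lev_spec L hs
    exact (L.mem _ h1 s h2 hs).2
  have hF : ∀ h, h ∈ (Finset.range r).image (D S c) ↔ ∃ s < r, D S c s = h := by
    intro h
    simp only [Finset.mem_image, Finset.mem_range]
  refine hC V H G A x R r N (a 0) ((Finset.range r).image (D S c)) (Bs.image (D S c)) st
    (NM J r S a c) hA hx hR hl (fun s hs => (L.mem 0 (by omega) s (by omega) hs).1)
    (fun s t hst ht => L.aa 0 (by omega) s t (by omega) hst ht) ?_ ?_ ?_ ?_ ?_
    (fun _ _ => NM_symm) (fun _ _ _ => NM_fun L) ?_ ?_ ?_ ?_ ?_ ?_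
  · intro h hh
    obtain ⟨s, hs, rfl⟩ := (hF h).1 hh
    exact hDR s hs
  · intro s hs h hh
    obtain ⟨t, ht, rfl⟩ := (hF h).1 hh
    obtain ⟨h1, h2, _⟩ := lev_spec L ht
    exact a_lt_c L (Nat.zero_le _) h1 (by omega) hs h2 ht
  · intro h hh
    obtain ⟨t, ht, rfl⟩ := (hF h).1 hh
    rw [hD t ht]
    exact pr_lt L le_rfl t ht
  · intro h hh h' hh' he
    obtain ⟨t, ht, rfl⟩ := (hF h).1 hh
    obtain ⟨t', ht', rfl⟩ := (hF h').1 hh'
    rw [hD t ht, hD t' ht'] at he
    rw [pr_inj L le_rfl t ht t' ht' he]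
  · intro s hs
    obtain ⟨t, ht, h1⟩ := pr_surj L le_rfl hs
    exact ⟨D S c t, (hF _).2 ⟨t, ht, rfl⟩, by rw [hD t ht, h1]⟩
  · intro p q h
    refine ⟨NM_mem L h, fun hh => ?_, NM_ne L h, fun s hs => NM_e L h hs⟩
    obtain ⟨t, ht, h1⟩ := (hF _).1 hh
    exact NM_D L h ht h1.symm
  · intro p q h hpq d hd h1 h2
    refine NM_inside L h hpq ?_ h1 h2
    rcases hd with hd | hd | hd
    · obtain ⟨t, ht, h3⟩ := (hF _).1 hd
      exact Or.inl ⟨t, ht, h3.symm⟩
    · exact Or.inr (Or.inl hd)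
    · exact Or.inr (Or.inr hd)
  · intro h hh
    obtain ⟨t, ht, rfl⟩ := (hF h).1 hh
    rw [hD t ht]
    exact run_D L hRd ht
  · intro h hh
    obtain ⟨t, ht, rfl⟩ := Finset.mem_image.1 hh
    exact (hF _).2 ⟨t, by have := hB t ht; omega, rfl⟩
  · rw [Finset.card_image_of_injOn]
    · exact hN
    · intro s hs t ht h
      have h1 := hB s hs
      have h2 := hB t ht
      exact D_inj L (by omega) (by omega) h
  · intro h hh
    obtain ⟨t, ht, rfl⟩ := Finset.mem_image.1 hh
    obtain ⟨h1, h2, h3⟩ := hB t ht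
    refine ⟨D S c (t + 1), (hF _).2 ⟨t + 1, h1, rfl⟩, D_lt L (by omega) h1, ?_, ?_, ?_⟩
    · intro d hd
      obtain ⟨s, hs, rfl⟩ := (hF d).1 hd
      rintro ⟨h4, h5⟩
      rcases lt_trichotomy s t with h6 | h6 | h6
      · have := D_lt L h6 (by omega : t < r)
        omega
      · subst h6
        omega
      · rcases lt_trichotomy s (t + 1) with h7 | h7 | h7
        · omega
        · subst h7
          omega
        · have := D_lt L h7 hs
          omega
    · rw [hD t (by omega), hD (t + 1) h1]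
      exact h2
    · rw [hD t (by omega), hD (t + 1) h1]
      exact h3

end RotWqo.Hk
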