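import Pool.Agent.Lib.MP_cb4a0f_co.Hk.Core56
import Pool.Agent.Lib.MP_cb4a0f_co.Hk.Net67
import Pool.Agent.Lib.MP_cb4a0f_co.Hk.GadR67
import Pool.Agent.Lib.MP_cb4a0f_co.Hk.GadTL56

/-!
# MP_cb4a0f_co: row P
-/

namespace RotWqo.Hk

universe u v

theorem stCore_56 : StCore.{u, v} :=
  fun _ _ G A x R r N e F B st M => core_56 G A x R r N e F B st M

theorem stNet_56 : StNet.{u, v} := net_67 stCore_56

/-- (P) Many consecutive gadgets in an interval with loops only: many bad half-edges. -/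
theorem stGad_56 : StGad.{u, v} :=
  stGad_of (gadT_56 stNet_56) (gadL_56 stNet_56) (gadR_67 stNet_56)

end RotWqo.Hk
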