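import Pool.Agent.Lib.MP_cb4a0f_co.Hk.Gad67
import Pool.Agent.Lib.MP_cb4a0f_co.Hk.Core56

/-!
# MP_cb4a0f_co: row P
-/

namespace RotWqo.Hk

universe u v

theorem stCore_67 : StCore.{u, v} := by
  intro V H G A x R r N e F B st M h1 h2 h3 h4 h5 h6 h7 h8 h9 h10 h11 h12 h13 h14 h15 h16 h17 h18
    h19
  exact core_56 G A x R r N e F B st M h1 h2 h3 h4 h5 h6 h7 h8 h9 h10 h11 h12 h13 h14 h15 h16 h17
    h18 h19

/-- (P) Many consecutive gadgets: many bad half-edges. -/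
theorem stGad_67 : StGad.{u, v} := gad_67 stCore_67

end RotWqo.Hk
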