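import Pool.Agent.Lib.MP_cb4a0f_co.Hk.Stmts

/-!
# MP_cb4a0f_co: rotated graphs with a bounded number of vertices, the leaf theorem (helper5)
-/

open Classical

namespace RotWqo.Hk

open RotWqo.Bag

universe u v w

namespace LeafX5

theorem exists_enum {V : Type*} [Nonempty V] (A : Finset V) :
    ∃ e : ℕ → V, Set.BijOn e (Set.Iio A.card) (A : Set V) := by
  have e := A.equivFin
  refine ⟨fun n => if h : n < A.card then (e.symm ⟨n, h⟩ : V) else Classical.arbitrary V,
    ?_, ?_, ?_⟩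
  · intro n hn
    simp only [Set.mem_Iio] at hn
    simp only [dif_pos hn]
    exact (e.symm ⟨n, hn⟩).2
  · intro m hm n hn h
    simp only [Set.mem_Iio] at hm hn
    simp only [dif_pos hm, dif_pos hn] at h
    have := e.symm.injective (Subtype.ext h)
    simpa using this
  · intro v hv
    refine ⟨(e ⟨v, hv⟩ : ℕ), (e ⟨v, hv⟩).2, ?_⟩
    simp

theorem exists_bij {V V' : Type*} {A : Finset V} {A' : Finset V'} {a : ℕ} {e : ℕ → V}
    {e' : ℕ → V'} (h : Set.BijOn e (Set.Iio a) (A : Set V))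
    (h' : Set.BijOn e' (Set.Iio a) (A' : Set V')) :
    ∃ f : V → V', Set.BijOn f (A : Set V) (A' : Set V') ∧
      ∀ v ∈ A, ∃ i < a, e i = v ∧ f v = e' i := by
  have hinv := h.invOn_invFunOn
  have hb : Set.BijOn (Function.invFunOn e (Set.Iio a)) (A : Set V) (Set.Iio a) :=
    h.symm hinv.symm
  refine ⟨e' ∘ Function.invFunOn e (Set.Iio a), h'.comp hb, ?_⟩
  intro v hv
  exact ⟨_, hb.mapsTo (Finset.mem_coe.2 hv), hinv.2 (Finset.mem_coe.2 hv), rfl⟩

theorem cut_sdiff {V H : Type*} (G : RotGraph V H) (A S : Finset V) :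
    cut G (A \ S) ≤ cut G A + cut G S := by
  have := cut_posimod G A S
  omega

/-- Good sequences: an earlier piece embeds in a later one. -/
theorem isPreorder_PE {Q : Type w} (q : Q → Q → Prop) [IsPreorder Q q] {V : ℕ → Type u}
    {H : ℕ → Type v} (G : ∀ i, RotGraph (V i) (H i)) (lab : ∀ i, V i → Q)
    (A : ∀ i, Finset (V i)) : IsPreorder ℕ (fun m n =>
      ∃ β, PE (fun a b => q (lab m a) (lab n b)) (G m) (A m) (G n) (A n) β) :=
  { refl := fun m => ⟨id, PE.refl (fun v w => q (lab m v) (lab m w))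
      (fun _ => _root_.refl _) _ _⟩
    trans := fun m n l ⟨β, h⟩ ⟨β', h'⟩ => ⟨β' ∘ β,
      PE.trans (r₁ := fun v w => q (lab m v) (lab n w))
        (r₂ := fun v w => q (lab n v) (lab l w))
        (r := fun v w => q (lab m v) (lab l w))
        (fun _ _ _ h h' => _root_.trans h h') h h'⟩ }

end LeafX5

open LeafX5 in
/-- Module (A). -/
theorem leafX_5 (hU : StUniX.{u, v}) (hS : StStruct.{u, v}) (hG : StSeg.{u, v, w}) :
    StLeafX.{u, v, w} := by
  intro k
  induction k using Nat.strong_induction_on with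
  | _ k ihk =>
  intro c Q q _ hq V H _ _ G lab A hAv hk hc
  -- enumerations and a monotone subsequence
  choose en hen using fun i => exists_enum (A i)
  let D := (Fin (k + 1) × Fin (c + 1)) × (Fin k → Q)
  have hP1 : WellQuasiOrdered (fun a b : Fin (k + 1) × Fin (c + 1) => a = b) :=
    Finite.wellQuasiOrdered _
  have hP2 : WellQuasiOrdered (fun a b : Fin k → Q => ∀ i, q (a i) (b i)) :=
    WellQuasiOrdered.pi (r := fun _ => q) (fun _ => hq)
  have hP : WellQuasiOrdered (fun a b : D => a.1 = b.1 ∧ ∀ i, q (a.2 i) (b.2 i)) :=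
    hP1.prod hP2
  have : IsPreorder D (fun a b : D => a.1 = b.1 ∧ ∀ i, q (a.2 i) (b.2 i)) :=
    { refl := fun a => ⟨rfl, fun i => _root_.refl _⟩
      trans := fun a b c h h' => ⟨h.1.trans h'.1, fun i => _root_.trans (h.2 i) (h'.2 i)⟩ }
  obtain ⟨g, hg⟩ := hP.exists_monotone_subseq (fun i =>
    ((⟨(A i).card, Nat.lt_succ_of_le (hk i)⟩, ⟨cut (G i) (A i), Nat.lt_succ_of_le (hc i)⟩),
      fun j : Fin k => lab i (en i j)))
  have hcard : ∀ n, (A (g n)).card = (A (g 0)).card := by
    intro n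
    have h1 := (hg 0 n (Nat.zero_le _)).1
    have h2 := congrArg (fun p : Fin (k + 1) × Fin (c + 1) => (p.1 : ℕ)) h1
    exact h2.symm
  have hcut : ∀ n, cut (G (g n)) (A (g n)) = cut (G (g 0)) (A (g 0)) := by
    intro n
    have h1 := (hg 0 n (Nat.zero_le _)).1
    have h2 := congrArg (fun p : Fin (k + 1) × Fin (c + 1) => (p.2 : ℕ)) h1
    exact h2.symm
  have hlab : ∀ n, ∀ j < (A (g 0)).card, q (lab (g 0) (en (g 0) j)) (lab (g n) (en (g n) j)) := by
    intro n j hj
    exact (hg 0 n (Nat.zero_le _)).2 ⟨j, hj.trans_le (hk _)⟩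
  by_cases hA : ∃ N, ∀ i, ∃ j > i, ∃ S : Finset (V (g j)), S.Nonempty ∧ S ⊆ A (g j) ∧
      S ≠ A (g j) ∧ cut (G (g j)) S ≤ N
  · -- a small cut infinitely often
    obtain ⟨N, hN⟩ := hA
    obtain ⟨φ, hφ, hφS⟩ := Nat.exists_strictMono_subsequence hN
    choose S hSne hSA hSA' hScut using hφS
    have hkpos : ∀ n, (S n).card < k ∧ (A (g (φ n)) \ S n).card < k := by
      intro n
      have h1 : (S n).card < (A (g (φ n))).card :=
        Finset.card_lt_card (lt_of_le_of_ne (hSA n) (hSA' n))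
      have h2 := Finset.card_sdiff_add_card_eq_card (hSA n)
      have h3 := Finset.card_pos.2 (hSne n)
      have h4 := hk (g (φ n))
      omega
    have hL : WellQuasiOrdered (fun m n : ℕ => ∃ β,
        PE (fun a b => q (lab (g (φ m)) a) (lab (g (φ n)) b)) (G (g (φ m))) (S m)
          (G (g (φ n))) (S n) β) := by
      intro f
      exact ihk (k - 1) (by have := hkpos 0; omega) (N + c) Q q hq
        (fun i => V (g (φ (f i)))) (fun i => H (g (φ (f i)))) (fun i => G (g (φ (f i))))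
        (fun i => lab (g (φ (f i)))) (fun i => S (f i))
        (fun i => (hSA _).trans (hAv _)) (fun i => by have := hkpos (f i); omega)
        (fun i => (hScut _).trans (by omega))
    have hR : WellQuasiOrdered (fun m n : ℕ => ∃ β,
        PE (fun a b => q (lab (g (φ m)) a) (lab (g (φ n)) b)) (G (g (φ m)))
          (A (g (φ m)) \ S m) (G (g (φ n))) (A (g (φ n)) \ S n) β) := by
      intro f
      exact ihk (k - 1) (by have := hkpos 0; omega) (N + c) Q q hq
        (fun i => V (g (φ (f i)))) (fun i => H (g (φ (f i)))) (fun i => G (g (φ (f i))))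
        (fun i => lab (g (φ (f i)))) (fun i => A (g (φ (f i))) \ S (f i))
        (fun i => Finset.sdiff_subset.trans (hAv _)) (fun i => by have := hkpos (f i); omega)
        (fun i => (cut_sdiff _ _ _).trans (by
          have h1 := hc (g (φ (f i))); have h2 := hScut (f i); omega))
    have := isPreorder_PE q (fun i => G (g (φ i))) (fun i => lab (g (φ i))) (fun i => S i)
    have := isPreorder_PE q (fun i => G (g (φ i))) (fun i => lab (g (φ i)))
      (fun i => A (g (φ i)) \ S i)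
    obtain ⟨g1, hg1⟩ := hL.exists_monotone_subseq (fun n => n)
    obtain ⟨g2, hg2⟩ := hR.exists_monotone_subseq (fun n => g1 n)
    obtain ⟨m, n, hmn, β, hβ⟩ := exists_PE_glue q (fun n => V (g (φ (g1 (g2 n)))))
      (fun n => H (g (φ (g1 (g2 n))))) (fun n => G (g (φ (g1 (g2 n)))))
      (fun n => lab (g (φ (g1 (g2 n))))) (fun n => S (g1 (g2 n)))
      (fun n => A (g (φ (g1 (g2 n)))) \ S (g1 (g2 n)))
      (fun n => Finset.disjoint_sdiff)
      (fun n => hg1 _ _ (g2.monotone (Nat.le_succ n)))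
      (fun n => hg2 _ _ (Nat.le_succ n))
    refine ⟨g (φ (g1 (g2 m))), g (φ (g1 (g2 n))), g.strictMono (hφ (g1.strictMono
      (g2.strictMono hmn))), β, ?_⟩
    have h1 : ∀ n, S (g1 (g2 n)) ∪ A (g (φ (g1 (g2 n)))) \ S (g1 (g2 n)) =
        A (g (φ (g1 (g2 n)))) := fun n => Finset.union_sdiff_of_subset (hSA _)
    simpa only [h1] using hβ
  · push Not at hA
    -- the numbers of universality
    choose 𝒩 h𝒩 using fun M => hU k M c (dts (G (g 0)) (A (g 0))).card
    obtain ⟨M₀, s, w', hSt⟩ := hS k c 𝒩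
    choose I hI using fun M => hA (𝒩 M)
    obtain ⟨J, hJ⟩ : ∃ J : ℕ, ∀ M ≤ M₀, I M ≤ J := by
      refine ⟨(Finset.range (M₀ + 1)).sup I, fun M hM => ?_⟩
      exact Finset.le_sup (f := I) (Finset.mem_range.2 (Nat.lt_succ_of_le hM))
    by_cases hB : ∃ j > J, ∃ M ≤ M₀, ¬ Poor (𝒩 M) M (G (g j)) (A (g j))
    · -- a rich piece
      obtain ⟨j, hj, M, hM, hnP⟩ := hB
      unfold Poor at hnP
      push Not at hnP
      obtain ⟨G₁, hG₁, ι, hι, hbad⟩ := hnP
      obtain ⟨f, hf, hf'⟩ := exists_bij (a := (A (g 0)).card) (hen (g 0))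
        (by have := hen (g j); rwa [hcard] at this)
      have hcut1 : cut G₁ (A (g j)) = cut (G (g j)) (A (g j)) :=
        hG₁.cuts _ (Finset.Subset.refl _)
      obtain ⟨β, hβ⟩ := h𝒩 M (V (g 0)) (V (g j)) (H (g 0)) (H (g j)) (G (g 0)) (A (g 0))
        G₁ (A (g j)) ι (fun a b => q (lab (g 0) a) (lab (g j) b)) f (hAv _) hG₁.verts hf
        (fun v hv => by
          obtain ⟨i, hi, h1, h2⟩ := hf' v hv
          rw [h2, ← h1]
          exact hlab _ i hi) (hk _) le_rfl (by rw [hcut1]; exact (hcut _).symm)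
        (by rw [hcut1]; exact hc _)
        (fun S h1 h2 h3 => by
          rw [hG₁.cuts S h2]
          exact (hI M j (lt_of_le_of_lt (hJ M hM) hj) S h1 h2 h3).le) hι hbad
      obtain ⟨β', hβ'⟩ := hG₁.pe
      refine ⟨g 0, g j, g.strictMono (by omega), β' ∘ β, ?_⟩
      exact PE.trans (r₁ := fun a b => q (lab (g 0) a) (lab (g j) b))
        (r₂ := fun a b => a = b) (r := fun a b => q (lab (g 0) a) (lab (g j) b))
        (fun u v w h h' => h' ▸ h) hβ hβ'
    · push Not at hB
      have hcar : ∀ n, ∃ ι : H (g (J + 1 + n)) → ℕ,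
          Cutting (G (g (J + 1 + n))) (A (g (J + 1 + n))) ι s ∧
          (dts (G (g (J + 1 + n))) (A (g (J + 1 + n))) = ∅ ∨
            ∃ t, IsSegCar w' (G (g (J + 1 + n))) (A (g (J + 1 + n))) ι t) :=
        fun n => hSt _ _ _ _ (hAv _) (hk _) (hc _) fun M hM => hB _ (by omega) M hM
      choose ι hι hcar using hcar
      obtain ⟨m, n, hmn, β, hβ⟩ := hG k s w' Q q hq (fun n => V (g (J + 1 + n)))
        (fun n => H (g (J + 1 + n))) (fun n => G (g (J + 1 + n)))
        (fun n => lab (g (J + 1 + n))) (fun n => A (g (J + 1 + n))) ι (fun n => hAv _)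
        (fun n => hk _) hι hcar
      exact ⟨g (J + 1 + m), g (J + 1 + n), g.strictMono (by omega), β, hβ⟩

end RotWqo.Hk
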