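import Pool.Agent.Lib.MP_cb4a0f_co.Hk.Stmts2
import Pool.Agent.Lib.MP_cb4a0f_co.Bag.UnivA
import Pool.Agent.Lib.MP_cb4a0f_co.Bag.PatF

/-!
# MP_cb4a0f_co: rotated graphs with a bounded number of vertices: positions and parallel stretches
-/

open Classical

namespace RotWqo.Hk

open RotWqo.Bag

universe u v

variable {V : Type u} {H : Type v}

theorem list_lt94 {f : H → ℕ} {l : List H} (hl : l.Pairwise (fun a b => f a < f b)) {a b : H}
    (ha : a ∈ l) (hb : b ∈ l) : l.idxOf a < l.idxOf b ↔ f a < f b := by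
  have key : ∀ a ∈ l, ∀ b ∈ l, l.idxOf a < l.idxOf b → f a < f b := by
    intro a ha b hb h
    have h1 := List.idxOf_lt_length_of_mem ha
    have h2 := List.idxOf_lt_length_of_mem hb
    have h3 := List.pairwise_iff_getElem.1 hl _ _ h1 h2 h
    rwa [List.getElem_idxOf, List.getElem_idxOf] at h3
  refine ⟨key a ha b hb, fun h => ?_⟩
  rcases lt_trichotomy (l.idxOf a) (l.idxOf b) with h1 | h1 | h1
  · exact h1
  · rw [(List.idxOf_inj ha).1 h1] at h
    exact absurd h (lt_irrefl _)
  · have := key b hb a ha h1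
    omega

theorem pos_lt_iff94 {V' : Type*} {G : RotGraph V H} {G₁ : RotGraph V' H} {v : V} {v₁ : V'}
    {p : H → Bool} (h : G₁.rot v₁ = (G.rot v).filter p) {a b : H} (ha : a ∈ G₁.darts)
    (hb : b ∈ G₁.darts) (ha1 : G₁.base a = v₁) (hb1 : G₁.base b = v₁) :
    pos G₁ a < pos G₁ b ↔ pos G a < pos G b := by
  have h1 : (G₁.rot v₁).Pairwise (fun a b => pos G a < pos G b) := by
    rw [h]
    exact (rot_sorted G v).filter _
  rw [pos_eq ha1, pos_eq hb1]
  exact list_lt94 h1 ((G₁.mem_rot _ _).2 ⟨ha, ha1⟩) ((G₁.mem_rot _ _).2 ⟨hb, hb1⟩)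

theorem pos_succ94 {G : RotGraph V H} {a b : H} (hb : b ∈ G.darts)
    (h : pos G a < pos G b) (h' : ∀ c ∈ G.darts, G.base c = G.base b → pos G a < pos G c →
      ¬ pos G c < pos G b) : pos G b = pos G a + 1 := by
  by_contra h1
  obtain ⟨g, hg, hg1, hg2⟩ := exists_at_pos G hb (m := pos G a + 1) (by omega)
  exact h' g hg hg1 (by omega) (by omega)

theorem seq_dir94 (q : ℕ → ℕ) : ∀ l : ℕ, (∀ t < l, q (t + 1) = q t + 1 ∨ q t = q (t + 1) + 1) →
    (∀ t, t + 1 < l → q (t + 2) ≠ q t) →
    (∀ t ≤ l, q t = q 0 + t) ∨ (∀ t ≤ l, q 0 = q t + t) := by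
  intro l
  induction l with
  | zero =>
    intro _ _
    left
    intro t ht
    obtain rfl : t = 0 := by omega
    rfl
  | succ l ih =>
    intro h1 h2
    have hz : l = 0 ∨ ∃ m, l = m + 1 := by
      rcases l with _ | m
      · left; rfl
      · right; exact ⟨m, rfl⟩
    have hl1 : ∀ t ≤ l + 1, t ≤ l ∨ t = l + 1 := by intro t ht; omega
    rcases ih (fun t ht => h1 t (by omega)) (fun t ht => h2 t (by omega)) with h | h
    · rcases h1 l (by omega) with h3 | h3
      · left
        intro t ht
        rcases hl1 t ht with h4 | h4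
        · exact h t h4
        · subst h4
          have := h l le_rfl
          omega
      · rcases hz with h5 | ⟨m, rfl⟩
        · subst h5
          right
          intro t ht
          rcases hl1 t ht with h4 | h4
          · obtain rfl : t = 0 := by omega
            rfl
          · subst h4
            simpa using h3
        · exfalso
          have h6 := h m (by omega)
          have h7 := h (m + 1) le_rfl
          exact h2 m (by omega) (by have : m + 1 + 1 = m + 2 := rfl; rw [this] at h3; omega)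
    · rcases h1 l (by omega) with h3 | h3
      · rcases hz with h5 | ⟨m, rfl⟩
        · subst h5
          left
          intro t ht
          rcases hl1 t ht with h4 | h4
          · obtain rfl : t = 0 := by omega
            rfl
          · subst h4
            simpa using h3
        · exfalso
          have h6 := h m (by omega)
          have h7 := h (m + 1) le_rfl
          exact h2 m (by omega) (by have : m + 1 + 1 = m + 2 := rfl; rw [this] at h3; omega)
      · right
        intro t ht
        rcases hl1 t ht with h4 | h4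
        · exact h t h4
        · subst h4
          have := h l le_rfl
          omega

theorem mem_bad94 {V' : Type*} {G : RotGraph V' H} {A : Finset V'} {h : H} :
    h ∈ Bad G A ↔ h ∈ G.darts ∧ G.base h ∈ A ∧ ∃ h' ∈ G.darts, G.base h' = G.base h ∧
      pos G h' = pos G h + 1 ∧ ¬ Par G A h h' := by
  unfold Bad
  rw [Finset.mem_filter]

/-- Between `f` and `e` no bad half-edges: the other halves of `f` and `e` are at the same vertex, at the
same distance. -/
theorem par_stretch94 (E : RotGraph V H) (B : Finset V) {f e : H} {l : ℕ}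
    (hf : f ∈ E.darts) (he : e ∈ E.darts) (hb : E.base e = E.base f) (hB : E.base f ∈ B)
    (hl : pos E e = pos E f + l)
    (hg : ∀ g ∈ E.darts, E.base g = E.base f → pos E f ≤ pos E g → pos E g < pos E e →
      g ∉ Bad E B) :
    E.base (E.opp e) = E.base (E.opp f) ∧
      (pos E (E.opp e) = pos E (E.opp f) + l ∨ pos E (E.opp f) = pos E (E.opp e) + l) := by
  have hex : ∀ t, ∃ g, t ≤ l → (g ∈ E.darts ∧ E.base g = E.base f ∧ pos E g = pos E f + t) := by
    intro t
    by_cases ht : t ≤ l
    · obtain ⟨g, h1, h2, h3⟩ := exists_at_pos E he (m := pos E f + t) (by omega)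
      exact ⟨g, fun _ => ⟨h1, h2.trans hb, h3⟩⟩
    · exact ⟨f, fun h => absurd h ht⟩
  choose g hgg using hex
  have hg0 : g 0 = f := by
    obtain ⟨h1, h2, h3⟩ := hgg 0 (Nat.zero_le _)
    exact pos_inj h1 hf h2 (by simpa using h3)
  have hgl : g l = e := by
    obtain ⟨h1, h2, h3⟩ := hgg l le_rfl
    exact pos_inj h1 he (h2.trans hb.symm) (by omega)
  have hpar : ∀ t < l, Par E B (g t) (g (t + 1)) := by
    intro t ht
    obtain ⟨h1, h2, h3⟩ := hgg t ht.le
    obtain ⟨h4, h5, h6⟩ := hgg (t + 1) ht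
    have h7 := hg (g t) h1 h2 (by omega) (by omega)
    by_contra h8
    exact h7 (mem_bad94.2 ⟨h1, h2 ▸ hB, g (t + 1), h4, h5.trans h2.symm, by omega, h8⟩)
  have hbase : ∀ t ≤ l, E.base (E.opp (g t)) = E.base (E.opp f) := by
    intro t
    induction t with
    | zero => intro _; rw [hg0]
    | succ t ih =>
      intro ht
      rw [← ih (by omega)]
      exact (hpar t (by omega)).2.2.2.1
  have hq := seq_dir94 (fun t => pos E (E.opp (g t))) l (fun t ht => (hpar t ht).2.2.2.2.2) (by
    intro t ht h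
    have h1 := hgg t (by omega)
    have h2 := hgg (t + 2) (by omega)
    have h3 : E.opp (g (t + 2)) = E.opp (g t) :=
      pos_inj (E.opp_mem _ h2.1) (E.opp_mem _ h1.1)
        ((hbase _ (by omega)).trans (hbase _ (by omega)).symm) h
    have h4 : g (t + 2) = g t := opp_inj E h2.1 h1.1 h3
    rw [h4] at h2
    omega)
  refine ⟨hgl ▸ hbase l le_rfl, ?_⟩
  rcases hq with h | h
  · left
    have := h l le_rfl
    simp only [hg0, hgl] at this
    exact this
  · right
    have := h l le_rfl
    simp only [hg0, hgl] at this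
    exact this

/-- The first element after the position `n`. -/
theorem exists_next94 (S : Finset H) (ps : H → ℕ) (n : ℕ) {s : H} (hs : s ∈ S) (hn : n < ps s) :
    ∃ e ∈ S, n < ps e ∧ ps e ≤ ps s ∧ ∀ c ∈ S, n < ps c → ¬ ps c < ps e := by
  obtain ⟨e, he, h⟩ := Finset.exists_min_image (S.filter (fun h => n < ps h)) ps
    ⟨s, Finset.mem_filter.2 ⟨hs, hn⟩⟩
  rw [Finset.mem_filter] at he
  exact ⟨e, he.1, he.2, h s (Finset.mem_filter.2 ⟨hs, hn⟩), fun c hc hc1 =>
    not_lt.2 (h c (Finset.mem_filter.2 ⟨hc, hc1⟩))⟩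

/-- The last element before the position `n`. -/
theorem exists_prev94 (S : Finset H) (ps : H → ℕ) (n : ℕ) {s : H} (hs : s ∈ S) (hn : ps s < n) :
    ∃ e ∈ S, ps e < n ∧ ps s ≤ ps e ∧ ∀ c ∈ S, ps c < n → ¬ ps e < ps c := by
  obtain ⟨e, he, h⟩ := Finset.exists_max_image (S.filter (fun h => ps h < n)) ps
    ⟨s, Finset.mem_filter.2 ⟨hs, hn⟩⟩
  rw [Finset.mem_filter] at he
  exact ⟨e, he.1, he.2, h s (Finset.mem_filter.2 ⟨hs, hn⟩), fun c hc hc1 =>
    not_lt.2 (h c (Finset.mem_filter.2 ⟨hc, hc1⟩))⟩

end RotWqo.Hk
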