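import Pool.Agent.Lib.MP_cb4a0f_co.Hk.MixA94
import Pool.Agent.Lib.MP_cb4a0f_co.Hk.Con27

/-!
# MP_cb4a0f_co: rotated graphs with a bounded number of vertices: strands led through arc loops

`T` is a set of half-edges of arc loops in the arc number `i` at `x`, `ε a` is a strand in this arc
(an edge which is not an arc loop). The other half of the arc loop of `a` and the strand `ε a` are
matched, so the edge of `ε a` now ends with `a`; the other arc loops are deleted.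
-/

open Classical

namespace RotWqo.Hk

open RotWqo.Bag

universe u v

variable {V : Type u} {H : Type v}

/-- `T` and `ε` as in the introduction; between `G.opp a` and `ε a` there are only complete
pairs. -/
structure Swp (G : RotGraph V H) (ι : H → ℕ) (x : V) (i : ℕ) (T : Finset H) (ε : H → H) :
    Prop where
  T_mem : ∀ a ∈ T, a ∈ G.darts ∧ G.base a = x ∧ ι a = i ∧ AL G ι a
  T_opp : ∀ a ∈ T, G.opp a ∉ T
  ε_mem : ∀ a ∈ T, ε a ∈ G.darts ∧ G.base (ε a) = x ∧ ι (ε a) = i ∧ ¬ AL G ι (ε a)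
  ε_inj : ∀ a ∈ T, ∀ b ∈ T, ε a = ε b → a = b
  lt : ∀ a ∈ T, pos G (G.opp a) < pos G (ε a)
  nT : ∀ a ∈ T, ∀ c ∈ T, pos G (G.opp a) < pos G c → ¬ pos G c < pos G (ε a)
  nS : ∀ a ∈ T, ∀ c ∈ G.darts, G.base c = x → ι c = i → ¬ AL G ι c →
    pos G (G.opp a) < pos G c → pos G c < pos G (ε a) → ∃ b ∈ T, c = ε b
  ins : ∀ a ∈ T, ∀ b ∈ T, ∀ c, c = G.opp b ∨ c = ε b → pos G (G.opp a) < pos G c →
    pos G c < pos G (ε a) → pos G (G.opp a) < pos G (G.opp b) ∧ pos G (ε b) < pos G (ε a)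

/-- The exchange of `a` and `ε a`. -/
noncomputable def sig94 (T : Finset H) (ε : H → H) (h : H) : H :=
  if h ∈ T then ε h else if h' : ∃ a ∈ T, ε a = h then h'.choose else h

section

variable {G : RotGraph V H} {ι : H → ℕ} {x : V} {i : ℕ} {T : Finset H} {ε : H → H}

theorem Swp.dis (hS : Swp G ι x i T ε) {a b : H} (ha : a ∈ T) (hb : b ∈ T) : ε b ≠ a := by
  intro h
  exact (hS.ε_mem b hb).2.2.2 (h ▸ (hS.T_mem a ha).2.2.2)

theorem Swp.sigT (_hS : Swp G ι x i T ε) {a : H} (ha : a ∈ T) : sig94 T ε a = ε a := if_pos ha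

theorem Swp.sigE (hS : Swp G ι x i T ε) {a : H} (ha : a ∈ T) : sig94 T ε (ε a) = a := by
  have h1 : ε a ∉ T := fun h => hS.dis h ha rfl
  have h2 : ∃ b ∈ T, ε b = ε a := ⟨a, ha, rfl⟩
  rw [sig94, if_neg h1, dif_pos h2]
  exact hS.ε_inj _ h2.choose_spec.1 _ ha h2.choose_spec.2

theorem Swp.sigN (_hS : Swp G ι x i T ε) {h : H} (h1 : h ∉ T) (h2 : ∀ a ∈ T, ε a ≠ h) :
    sig94 T ε h = h := by
  rw [sig94, if_neg h1, dif_neg (by rintro ⟨a, ha, h3⟩; exact h2 a ha h3)]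

theorem Swp.cases (hS : Swp G ι x i T ε) (h : H) :
    (h ∈ T ∧ sig94 T ε h = ε h) ∨ (∃ a ∈ T, h = ε a ∧ sig94 T ε h = a) ∨
      (h ∉ T ∧ (∀ a ∈ T, ε a ≠ h) ∧ sig94 T ε h = h) := by
  by_cases h1 : h ∈ T
  · exact Or.inl ⟨h1, hS.sigT h1⟩
  · by_cases h2 : ∃ a ∈ T, ε a = h
    · obtain ⟨a, ha, rfl⟩ := h2
      exact Or.inr (Or.inl ⟨a, ha, rfl, hS.sigE ha⟩)
    · have h3 : ∀ a ∈ T, ε a ≠ h := fun a ha h4 => h2 ⟨a, ha, h4⟩
      exact Or.inr (Or.inr ⟨h1, h3, hS.sigN h1 h3⟩)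

theorem Swp.sig_sig (hS : Swp G ι x i T ε) (h : H) : sig94 T ε (sig94 T ε h) = h := by
  rcases hS.cases h with ⟨h1, h2⟩ | ⟨a, ha, h1, h2⟩ | ⟨h1, h2, h3⟩
  · rw [h2, hS.sigE h1]
  · rw [h2, hS.sigT ha, h1]
  · rw [h3, h3]

theorem Swp.sig_base (hS : Swp G ι x i T ε) (h : H) : G.base (sig94 T ε h) = G.base h := by
  rcases hS.cases h with ⟨h1, h2⟩ | ⟨a, ha, h1, h2⟩ | ⟨h1, h2, h3⟩
  · rw [h2, (hS.ε_mem h h1).2.1, (hS.T_mem h h1).2.1]
  · rw [h2, h1, (hS.ε_mem a ha).2.1, (hS.T_mem a ha).2.1]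
  · rw [h3]

theorem Swp.sig_iota (hS : Swp G ι x i T ε) (h : H) : ι (sig94 T ε h) = ι h := by
  rcases hS.cases h with ⟨h1, h2⟩ | ⟨a, ha, h1, h2⟩ | ⟨h1, h2, h3⟩
  · rw [h2, (hS.ε_mem h h1).2.2.1, (hS.T_mem h h1).2.2.1]
  · rw [h2, h1, (hS.ε_mem a ha).2.2.1, (hS.T_mem a ha).2.2.1]
  · rw [h3]

theorem Swp.sig_mem (hS : Swp G ι x i T ε) {h : H} (hh : h ∈ G.darts) :
    sig94 T ε h ∈ G.darts := by
  rcases hS.cases h with ⟨h1, h2⟩ | ⟨a, ha, h1, h2⟩ | ⟨h1, h2, h3⟩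
  · rw [h2]; exact (hS.ε_mem h h1).1
  · rw [h2]; exact (hS.T_mem a ha).1
  · rw [h3]; exact hh

theorem Swp.sig_ne (hS : Swp G ι x i T ε) {h : H} (hh : G.base h ≠ x ∨ ι h ≠ i) :
    sig94 T ε h = h := by
  rcases hS.cases h with ⟨h1, h2⟩ | ⟨a, ha, h1, h2⟩ | ⟨h1, h2, h3⟩
  · rcases hh with hh | hh
    · exact absurd (hS.T_mem h h1).2.1 hh
    · exact absurd (hS.T_mem h h1).2.2.1 hh
  · rcases hh with hh | hh
    · exact absurd (h1 ▸ (hS.ε_mem a ha).2.1) hh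
    · exact absurd (h1 ▸ (hS.ε_mem a ha).2.2.1) hh
  · exact h3

/-- The half-edges that stay before the exchange. -/
noncomputable def D094 (G : RotGraph V H) (A : Finset V) (ι : H → ℕ) : Finset H :=
  G.darts.filter (fun h => G.base h ∉ A ∨ ¬ AL G ι h)

theorem mem_D094 {A : Finset V} {h : H} :
    h ∈ D094 G A ι ↔ h ∈ G.darts ∧ (G.base h ∉ A ∨ ¬ AL G ι h) := Finset.mem_filter

theorem D094_opp {A : Finset V} {h : H} (hh : h ∈ D094 G A ι) : G.opp h ∈ D094 G A ι := by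
  rw [mem_D094] at hh ⊢
  refine ⟨G.opp_mem h hh.1, ?_⟩
  rcases hh.2 with h1 | h1
  · by_cases h2 : G.base (G.opp h) ∈ A
    · right
      rw [al_opp hh.1]
      intro h3
      exact h1 (h3.1 ▸ h2)
    · exact Or.inl h2
  · exact Or.inr (by rw [al_opp hh.1]; exact h1)

/-- The half-edges of the new graph. -/
noncomputable def K94 (G : RotGraph V H) (A : Finset V) (ι : H → ℕ) (T : Finset H) (ε : H → H) :
    Finset H :=
  G.darts.filter (fun h => sig94 T ε h ∈ D094 G A ι)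

theorem Swp.mem_K (hS : Swp G ι x i T ε) {A : Finset V} {h : H} :
    h ∈ K94 G A ι T ε ↔ sig94 T ε h ∈ D094 G A ι := by
  refine ⟨fun h1 => (Finset.mem_filter.1 h1).2, fun h1 => Finset.mem_filter.2 ⟨?_, h1⟩⟩
  have := hS.sig_mem (mem_D094.1 h1).1
  rwa [hS.sig_sig] at this

/-- The new involution. -/
noncomputable def o94 (G : RotGraph V H) (T : Finset H) (ε : H → H) (h : H) : H :=
  sig94 T ε (G.opp (sig94 T ε h))

/-- The matching. -/
def M94 (G : RotGraph V H) (T : Finset H) (ε : H → H) (p q : H) : Prop :=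
  (∃ a ∈ T, p = G.opp a ∧ q = ε a) ∨ ∃ a ∈ T, p = ε a ∧ q = G.opp a

/-- The other half of a strand of the arc is not in the arc. -/
theorem Swp.opp_out {h : H} (h1 : G.base h = x) (h2 : ι h = i)
    (h3 : ¬ AL G ι h) : G.base (G.opp h) ≠ x ∨ ι (G.opp h) ≠ i := by
  by_contra h4
  push Not at h4
  exact h3 ⟨h4.1.trans h1.symm, h4.2.trans h2.symm⟩

theorem Swp.oppT (hS : Swp G ι x i T ε) {a : H} (ha : a ∈ T) :
    G.opp a ∈ G.darts ∧ G.base (G.opp a) = x ∧ ι (G.opp a) = i ∧ AL G ι (G.opp a) ∧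
      sig94 T ε (G.opp a) = G.opp a := by
  obtain ⟨h1, h2, h3, h4⟩ := hS.T_mem a ha
  have h5 : AL G ι (G.opp a) := (al_opp h1).2 h4
  refine ⟨G.opp_mem a h1, h4.1.trans h2, h4.2.trans h3, h5, hS.sigN (hS.T_opp a ha) ?_⟩
  intro b hb h6
  exact (hS.ε_mem b hb).2.2.2 (h6 ▸ h5)

theorem Swp.M_symm (_hS : Swp G ι x i T ε) (a b : H) (h : M94 G T ε a b) : M94 G T ε b a := by
  rcases h with ⟨c, hc, h1, h2⟩ | ⟨c, hc, h1, h2⟩
  · exact Or.inr ⟨c, hc, h2, h1⟩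
  · exact Or.inl ⟨c, hc, h2, h1⟩

theorem Swp.M_fun (hS : Swp G ι x i T ε) (a b c : H) (h : M94 G T ε a b) (h' : M94 G T ε a c) :
    b = c := by
  rcases h with ⟨d, hd, h1, h2⟩ | ⟨d, hd, h1, h2⟩ <;>
    rcases h' with ⟨e, he, h3, h4⟩ | ⟨e, he, h3, h4⟩
  · have h5 := opp_inj G (hS.T_mem d hd).1 (hS.T_mem e he).1 (h1.symm.trans h3)
    rw [h2, h4, h5]
  · exact absurd (h3 ▸ h1 ▸ (hS.oppT hd).2.2.2.1) (hS.ε_mem e he).2.2.2
  · exact absurd (h1 ▸ h3 ▸ (hS.oppT he).2.2.2.1) (hS.ε_mem d hd).2.2.2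
  · have h5 := hS.ε_inj _ hd _ he (h1.symm.trans h3)
    rw [h2, h4, h5]

theorem Swp.M_mem (hS : Swp G ι x i T ε) {A : Finset V} (hx : x ∈ A) (a b : H)
    (h : M94 G T ε a b) : a ∈ G.darts ∧ G.base a ∈ A ∧ G.base b = G.base a ∧
      a ∉ K94 G A ι T ε := by
  rcases h with ⟨d, hd, h1, h2⟩ | ⟨d, hd, h1, h2⟩
  · obtain ⟨h3, h4, h5, h6, h7⟩ := hS.oppT hd
    refine ⟨h1 ▸ h3, h1 ▸ h4 ▸ hx, ?_, ?_⟩
    · rw [h1, h2, h4, (hS.ε_mem d hd).2.1]
    · rw [hS.mem_K, h1, h7, mem_D094]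
      rintro ⟨_, h8 | h8⟩
      · exact h8 (h4 ▸ hx)
      · exact h8 h6
  · obtain ⟨h3, h4, h5, h6⟩ := hS.ε_mem d hd
    obtain ⟨h7, h8, h9, h10⟩ := hS.T_mem d hd
    refine ⟨h1 ▸ h3, h1 ▸ h4 ▸ hx, ?_, ?_⟩
    · rw [h1, h2, h4, (hS.oppT hd).2.1]
    · rw [hS.mem_K, h1, hS.sigE hd, mem_D094]
      rintro ⟨_, h11 | h11⟩
      · exact h11 (h8 ▸ hx)
      · exact h11 h10

/-- By monotonicity everything between two half-edges of the arc is in the arc. -/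
theorem between94 {A : Finset V} {M : ℕ} (hC : Cutting G A ι M) (hx : x ∈ A) {a b c : H}
    (ha : a ∈ G.darts) (ha1 : G.base a = x) (ha2 : ι a = i) (hb : b ∈ G.darts)
    (hb1 : G.base b = x) (hb2 : ι b = i) (hc : c ∈ G.darts) (hc1 : G.base c = x)
    (h1 : pos G a ≤ pos G c) (h2 : pos G c ≤ pos G b) : ι c = i := by
  have hd : ∀ {g : H}, g ∈ G.darts → G.base g = x → g ∈ dts G A := fun {g} hg hg1 =>
    Finset.mem_filter.2 ⟨hg, hg1 ▸ hx⟩
  have h3 := hC.mono a (hd ha ha1) c (hd hc hc1) (ha1.trans hc1.symm) h1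
  have h4 := hC.mono c (hd hc hc1) b (hd hb hb1) (hc1.trans hb1.symm) h2
  omega

theorem Swp.nc (hS : Swp G ι x i T ε) {A : Finset V} {M : ℕ} (hC : Cutting G A ι M)
    (hx : x ∈ A) (v : V) : NC (M94 G T ε)
      ((G.rot v).filter (fun a => decide (a ∈ K94 G A ι T ε ∨ ∃ b, M94 G T ε a b))) := by
  have hkey : ∀ a ∈ T, ∀ c ∈ G.darts, G.base c = x →
      (c ∈ K94 G A ι T ε ∨ ∃ b, M94 G T ε c b) → pos G (G.opp a) < pos G c →
      pos G c < pos G (ε a) → ∃ d, M94 G T ε c d ∧ pos G (G.opp a) < pos G d ∧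
        pos G d < pos G (ε a) := by
    intro a ha c hc hcx hcK h1 h2
    obtain ⟨ha1, ha2, ha3, ha4, ha5⟩ := hS.oppT ha
    obtain ⟨he1, he2, he3, he4⟩ := hS.ε_mem a ha
    have hci : ι c = i := between94 hC hx ha1 ha2 ha3 he1 he2 he3 hc hcx h1.le h2.le
    -- `c` is one of the matched half-edges
    have h3 : ∃ b ∈ T, c = G.opp b ∨ c = ε b := by
      rcases hcK with h4 | ⟨b, h4⟩
      · rw [hS.mem_K, mem_D094] at h4
        rcases hS.cases c with ⟨h5, h6⟩ | ⟨b, hb, h5, h6⟩ | ⟨h5, h6, h7⟩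
        · exact absurd h2 (hS.nT a ha c h5 h1)
        · exact ⟨b, hb, Or.inr h5⟩
        · rw [h7] at h4
          rcases h4.2 with h8 | h8
          · exact absurd (hcx ▸ hx) h8
          · obtain ⟨b, hb, h9⟩ := hS.nS a ha c hc hcx hci h8 h1 h2
            exact ⟨b, hb, Or.inr h9⟩
      · rcases h4 with ⟨b, hb, h5, -⟩ | ⟨b, hb, h5, -⟩
        · exact ⟨b, hb, Or.inl h5⟩
        · exact ⟨b, hb, Or.inr h5⟩
    obtain ⟨b, hb, h4⟩ := h3
    obtain ⟨h5, h6⟩ := hS.ins a ha b hb c h4 h1 h2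
    have h7 := hS.lt b hb
    rcases h4 with rfl | rfl
    · exact ⟨ε b, Or.inl ⟨b, hb, rfl, rfl⟩, by omega, h6⟩
    · exact ⟨G.opp b, Or.inr ⟨b, hb, rfl, rfl⟩, h5, by omega⟩
  refine nc_of_inside (pos G) hS.M_symm hS.M_fun _ _ rfl ((rot_sorted G v).filter _) ?_ ?_ ?_
  · intro a ha b hab
    have h1 := hS.M_mem hx _ _ (hS.M_symm _ _ hab)
    rw [List.mem_filter, G.mem_rot] at ha ⊢
    exact ⟨⟨h1.1, h1.2.2.1.symm.trans ha.1.2⟩,
      by simpa using Or.inr ⟨a, hS.M_symm _ _ hab⟩⟩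
  · rintro a - (⟨b, hb, h1, h2⟩ | ⟨b, hb, h1, h2⟩)
    · exact (hS.ε_mem b hb).2.2.2 (h2 ▸ h1 ▸ (hS.oppT hb).2.2.2.1)
    · exact (hS.ε_mem b hb).2.2.2 (h1 ▸ h2 ▸ (hS.oppT hb).2.2.2.1)
  · intro a ha b hab c hc h1 h2
    rw [List.mem_filter, G.mem_rot, decide_eq_true_eq] at ha hc
    rcases hab with ⟨d, hd, rfl, rfl⟩ | ⟨d, hd, rfl, rfl⟩
    · have hv : v = x := ha.1.2.symm.trans (hS.oppT hd).2.1
      exact hkey d hd c hc.1.1 (hc.1.2.trans hv) hc.2 h1 h2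
    · have := hS.lt d hd
      omega

theorem Swp.run (hS : Swp G ι x i T ε) {A : Finset V} (hx : x ∈ A) {h : H}
    (hh : h ∈ K94 G A ι T ε) (hA : G.base h ∈ A) :
    ∃ y, Run G.opp (M94 G T ε) h y ∧ G.opp y = o94 G T ε h := by
  have hh' := hh
  rw [hS.mem_K, mem_D094] at hh
  rcases hS.cases h with ⟨h1, h2⟩ | ⟨a, ha, h1, h2⟩ | ⟨h1, h2, h3⟩
  · refine ⟨ε h, Run.step _ _ _ (Or.inl ⟨h, h1, rfl, rfl⟩) (Run.refl _), ?_⟩
    obtain ⟨h4, h5, h6, h7⟩ := hS.ε_mem h h1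
    rw [o94, h2, hS.sig_ne (Swp.opp_out h5 h6 h7)]
  · exact absurd hh' (hS.M_mem hx h (G.opp a) (Or.inr ⟨a, ha, h1, rfl⟩)).2.2.2
  · rw [h3] at hh
    have h4 : ¬ AL G ι h := hh.2.resolve_left (fun h5 => h5 hA)
    have h5 : o94 G T ε h = sig94 T ε (G.opp h) := by rw [o94, h3]
    rcases hS.cases (G.opp h) with ⟨h6, h7⟩ | ⟨a, ha, h6, h7⟩ | ⟨h6, h7, h8⟩
    · exact absurd ((al_opp hh.1).1 (hS.T_mem _ h6).2.2.2) h4
    · refine ⟨G.opp a, Run.step _ _ _ (Or.inr ⟨a, ha, h6, rfl⟩) (Run.refl _), ?_⟩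
      rw [h5, h7, G.opp_opp a (hS.T_mem a ha).1]
    · exact ⟨h, Run.refl _, by rw [h5, h8]⟩

/-- The new graph. -/
theorem Swp.graph (hS : Swp G ι x i T ε) {A : Finset V} {M : ℕ}
    (hA : A ⊆ G.verts) (hx : x ∈ A) (hC : Cutting G A ι M) :
    ∃ G₁ : RotGraph V H, G₁.verts = G.verts ∧ G₁.darts = K94 G A ι T ε ∧ G₁.base = G.base ∧
      G₁.opp = o94 G T ε ∧
      (∀ v, G₁.rot v = (G.rot v).filter (fun a => decide (a ∈ K94 G A ι T ε))) ∧
      ∃ β, PE (fun a b => a = b) G₁ A G A β := by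
  refine con_27 V H G A (K94 G A ι T ε) (M94 G T ε) (o94 G T ε) hA (Finset.filter_subset _ _) ?_
    hS.M_symm hS.M_fun (hS.M_mem hx) (fun v _ => hS.nc hC hx v) ?_ ?_
    (fun h hh hb => hS.run hx hh hb)
  · intro h hh hb
    have h1 : G.base h ≠ x := fun h2 => hb (h2 ▸ hx)
    rw [hS.mem_K, hS.sig_ne (Or.inl h1), mem_D094]
    exact ⟨hh, Or.inl hb⟩
  · intro h hh
    rw [hS.mem_K] at hh
    refine ⟨?_, ?_, ?_⟩
    · rw [hS.mem_K, o94, hS.sig_sig]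
      exact D094_opp hh
    · rw [o94, o94, hS.sig_sig, G.opp_opp _ (mem_D094.1 hh).1, hS.sig_sig]
    · intro h1
      have h2 := congrArg (sig94 T ε) h1
      rw [o94, hS.sig_sig] at h2
      exact G.opp_ne _ (mem_D094.1 hh).1 h2
  · intro h hh hb hb'
    have h1 : G.base h ≠ x := fun h2 => hb (h2 ▸ hx)
    rw [o94, hS.sig_ne (Or.inl h1)] at hb' ⊢
    rw [hS.sig_base] at hb'
    exact hS.sig_ne (Or.inl fun h2 => hb' (h2 ▸ hx))

/-- The properties of the new graph. -/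
structure New94 (G : RotGraph V H) (A : Finset V) (ι : H → ℕ) (T : Finset H) (ε : H → H)
    (G₁ : RotGraph V H) : Prop where
  verts : G₁.verts = G.verts
  darts : G₁.darts = K94 G A ι T ε
  base : G₁.base = G.base
  opp : G₁.opp = o94 G T ε
  rot : ∀ v, G₁.rot v = (G.rot v).filter (fun a => decide (a ∈ K94 G A ι T ε))

theorem New94.cutting {A : Finset V} {G₁ : RotGraph V H} (hN : New94 G A ι T ε G₁)
    {M : ℕ} (hC : Cutting G A ι M) : Cutting G₁ A ι M := by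
  have hsub : ∀ a ∈ dts G₁ A, a ∈ dts G A := by
    intro a ha
    obtain ⟨h1, h2⟩ := Finset.mem_filter.1 ha
    rw [hN.darts] at h1
    rw [hN.base] at h2
    exact Finset.mem_filter.2 ⟨(Finset.mem_filter.1 h1).1, h2⟩
  constructor
  · intro a ha b hb hab h
    refine hC.mono a (hsub a ha) b (hsub b hb) (by rw [← hN.base]; exact hab) ?_
    by_contra h1
    have h2 := (pos_lt_iff94 (hN.rot (G₁.base b)) (Finset.mem_filter.1 hb).1
      (Finset.mem_filter.1 ha).1 rfl hab).2 (not_le.1 h1)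
    omega
  · intro a ha
    exact hC.lt a (hsub a ha)

theorem New94.sub1 (hS : Swp G ι x i T ε) {A : Finset V} {G₁ : RotGraph V H}
    (hN : New94 G A ι T ε G₁) (hA : A ⊆ G.verts)
    (hpe : ∃ β, PE (fun a b => a = b) G₁ A G A β) : Sub1 G₁ G A := by
  refine ⟨hpe, hN.verts ▸ hA, fun S hSA => ?_⟩
  unfold cut
  symm
  refine Finset.card_bij' (fun h _ => sig94 T ε h) (fun h _ => sig94 T ε h) ?_ ?_
    (fun h _ => hS.sig_sig h) (fun h _ => hS.sig_sig h)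
  · intro h hh
    obtain ⟨h1, h2, h3⟩ := Finset.mem_filter.1 hh
    refine Finset.mem_filter.2 ⟨?_, ?_, ?_⟩
    · rw [hN.darts, hS.mem_K, hS.sig_sig, mem_D094]
      refine ⟨h1, Or.inr fun h4 => h3 ?_⟩
      rw [h4.1]
      exact h2
    · rw [hN.base, hS.sig_base]
      exact h2
    · rw [hN.base, hN.opp, o94, hS.sig_base, hS.sig_sig]
      exact h3
  · intro h hh
    obtain ⟨h1, h2, h3⟩ := Finset.mem_filter.1 hh
    rw [hN.darts, hS.mem_K, mem_D094] at h1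
    rw [hN.base] at h2 h3
    rw [hN.opp, o94, hS.sig_base] at h3
    refine Finset.mem_filter.2 ⟨h1.1, ?_, h3⟩
    rw [hS.sig_base]
    exact h2

theorem New94.al (hS : Swp G ι x i T ε) {A : Finset V} {G₁ : RotGraph V H}
    (hN : New94 G A ι T ε G₁) (h : H) : AL G₁ ι h ↔ AL G ι (sig94 T ε h) := by
  unfold AL
  rw [hN.base, hN.opp, o94, hS.sig_base, hS.sig_base, hS.sig_iota, hS.sig_iota]

/-- Positions in another arc do not change. -/
theorem New94.pos_out (hS : Swp G ι x i T ε) {A : Finset V} {G₁ : RotGraph V H} {M : ℕ}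
    (hN : New94 G A ι T ε G₁) {g : H} (hg : G.base g ≠ x ∨ ι g ≠ i) (hgA : G.base g ∈ A) :
    pos (expl G₁ M ι) g = pos (expl G M ι) g := by
  unfold pos
  have h1 : (expl G₁ M ι).base g = (expl G M ι).base g := by
    change (G₁.base g, ι g) = (G.base g, ι g)
    rw [hN.base]
  rw [h1]
  congr 1
  change (G₁.rot (G.base g)).filter _ = (G.rot (G.base g)).filter _
  rw [hN.rot, List.filter_filter]
  refine List.filter_congr fun h hh => ?_
  obtain ⟨hh1, hh2⟩ := (G.mem_rot _ _).1 hh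
  change (decide (¬ AL G₁ ι h ∧ ι h = ι g) && decide (h ∈ K94 G A ι T ε)) =
    decide (¬ AL G ι h ∧ ι h = ι g)
  by_cases h2 : ι h = ι g
  · have h3 : sig94 T ε h = h := hS.sig_ne (by rw [hh2, h2]; exact hg)
    have h4 : h ∈ K94 G A ι T ε ↔ ¬ AL G ι h := by
      rw [hS.mem_K, h3, mem_D094]
      constructor
      · rintro ⟨_, h5 | h5⟩
        · exact absurd (hh2 ▸ hgA) h5
        · exact h5
      · intro h5
        exact ⟨hh1, Or.inr h5⟩
    have h5 : AL G₁ ι h ↔ AL G ι h := by rw [hN.al hS, h3]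
    rw [Bool.eq_iff_iff]
    simp only [Bool.and_eq_true, decide_eq_true_eq]
    tauto
  · simp [h2]

/-- The last strand before `a` becomes bad if there were no bad ones up to `ε a`. -/
theorem New94.bad (hS : Swp G ι x i T ε) {A : Finset V} {G₁ : RotGraph V H} {M : ℕ}
    (hN : New94 G A ι T ε G₁) (hx : x ∈ A) (hi : i < M) {f a : H} {l : ℕ} (ha : a ∈ T)
    (hf : f ∈ G.darts) (hfx : G.base f = x) (hfi : ι f = i) (hfA : ¬ AL G ι f)
    (hfT : ∀ b ∈ T, ε b ≠ f) (hfa : pos G f < pos G a)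
    (hno : ∀ c ∈ K94 G A ι T ε, G.base c = x → ι c = i → pos G f < pos G c →
      ¬ pos G c < pos G a) (hl : 2 ≤ l)
    (hpos : pos (expl G M ι) (ε a) = pos (expl G M ι) f + l)
    (hgood : ∀ g ∈ (expl G M ι).darts, (expl G M ι).base g = (x, i) →
      pos (expl G M ι) f ≤ pos (expl G M ι) g → pos (expl G M ι) g < pos (expl G M ι) (ε a) →
      g ∉ Bad (expl G M ι) (arcs A M)) : f ∈ Bad (expl G₁ M ι) (arcs A M) := by
  obtain ⟨he1, he2, he3, he4⟩ := hS.ε_mem a ha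
  obtain ⟨ha1, ha2, ha3, ha4⟩ := hS.T_mem a ha
  have hfT' : f ∉ T := fun h => hfA (hS.T_mem f h).2.2.2
  have hsf : sig94 T ε f = f := hS.sigN hfT' hfT
  have hsa : sig94 T ε a = ε a := hS.sigT ha
  have hbf : (expl G M ι).base f = (x, i) := by
    change (G.base f, ι f) = (x, i)
    rw [hfx, hfi]
  have hbe : (expl G M ι).base (ε a) = (x, i) := by
    change (G.base (ε a), ι (ε a)) = (x, i)
    rw [he2, he3]
  have hfE : f ∈ (expl G M ι).darts := Finset.mem_filter.2 ⟨hf, hfA⟩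
  have heE : ε a ∈ (expl G M ι).darts := Finset.mem_filter.2 ⟨he1, he4⟩
  have hB : (x, i) ∈ arcs A M := Finset.mem_product.2 ⟨hx, Finset.mem_range.2 hi⟩
  obtain ⟨h1, h2⟩ := par_stretch94 (expl G M ι) (arcs A M) hfE heE (hbe.trans hbf.symm)
    (hbf.symm ▸ hB) hpos (fun g hg hg1 => hgood g hg (hg1.trans hbf))
  -- the other halves are at arcs
  have hfK : f ∈ K94 G A ι T ε := by
    rw [hS.mem_K, hsf, mem_D094]
    exact ⟨hf, Or.inr hfA⟩
  have haK : a ∈ K94 G A ι T ε := by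
    rw [hS.mem_K, hsa, mem_D094]
    exact ⟨he1, Or.inr he4⟩
  have hfE1 : f ∈ (expl G₁ M ι).darts := by
    refine Finset.mem_filter.2 ⟨hN.darts ▸ hfK, ?_⟩
    rw [hN.al hS, hsf]
    exact hfA
  have haE1 : a ∈ (expl G₁ M ι).darts := by
    refine Finset.mem_filter.2 ⟨hN.darts ▸ haK, ?_⟩
    rw [hN.al hS, hsa]
    exact he4
  have hbf1 : (expl G₁ M ι).base f = (x, i) := by
    change (G₁.base f, ι f) = (x, i)
    rw [hN.base, hfx, hfi]
  have hba1 : (expl G₁ M ι).base a = (x, i) := by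
    change (G₁.base a, ι a) = (x, i)
    rw [hN.base, ha2, ha3]
  have hlt1 : ∀ p q : H, p ∈ (expl G₁ M ι).darts → q ∈ (expl G₁ M ι).darts →
      (expl G₁ M ι).base p = (x, i) → (expl G₁ M ι).base q = (x, i) →
      (pos (expl G₁ M ι) p < pos (expl G₁ M ι) q ↔ pos G p < pos G q) := by
    intro p q hp hq hp1 hq1
    have h3 : pos (expl G₁ M ι) p < pos (expl G₁ M ι) q ↔ pos G₁ p < pos G₁ q :=
      pos_lt_iff94 (G := G₁) (v := x) (v₁ := (x, i))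
        (p := fun h => decide (¬ AL G₁ ι h ∧ ι h = i)) rfl hp hq hp1 hq1
    have hp2 : G₁.base p = x := (Prod.ext_iff.1 hp1).1
    have hq2 : G₁.base q = x := (Prod.ext_iff.1 hq1).1
    rw [h3]
    exact pos_lt_iff94 (hN.rot x) (Finset.mem_filter.1 hp).1 (Finset.mem_filter.1 hq).1 hp2 hq2
  have hs1 : pos (expl G₁ M ι) a = pos (expl G₁ M ι) f + 1 := by
    refine pos_succ94 haE1 ((hlt1 f a hfE1 haE1 hbf1 hba1).2 hfa) ?_
    intro c hc hc1 h3 h4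
    have hc2 := hc1.trans hba1
    have hc3 : G.base c = x := by
      rw [← hN.base]
      exact (Prod.ext_iff.1 hc2).1
    exact hno c (hN.darts ▸ (Finset.mem_filter.1 hc).1) hc3 (Prod.ext_iff.1 hc2).2
      ((hlt1 f c hfE1 hc hbf1 hc2).1 h3) ((hlt1 c a hc haE1 hc2 hba1).1 h4)
  refine mem_bad94.2 ⟨hfE1, hbf1.symm ▸ hB, a, haE1, hba1.trans hbf1.symm, hs1, ?_⟩
  rintro ⟨h3, h4, h5, h6, h7, h8⟩
  have hof : (expl G₁ M ι).opp f = G.opp f := by
    change G₁.opp f = _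
    rw [hN.opp, o94, hsf, hS.sig_ne (Swp.opp_out hfx hfi hfA)]
  have hoa : (expl G₁ M ι).opp a = G.opp (ε a) := by
    change G₁.opp a = _
    rw [hN.opp, o94, hsa, hS.sig_ne (Swp.opp_out he2 he3 he4)]
  have hAf : G.base (G.opp f) ∈ A := by
    have h9 := h3.2.2.1
    rw [hof] at h9
    have h10 : (G₁.base (G.opp f), ι (G.opp f)) ∈ arcs A M := h9
    rw [hN.base] at h10
    exact (Finset.mem_product.1 h10).1
  have hAa : G.base (G.opp (ε a)) ∈ A := by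
    have h9 := h4.2.2.1
    rw [hoa] at h9
    have h10 : (G₁.base (G.opp (ε a)), ι (G.opp (ε a))) ∈ arcs A M := h9
    rw [hN.base] at h10
    exact (Finset.mem_product.1 h10).1
  rw [hof, hoa, hN.pos_out hS (Swp.opp_out hfx hfi hfA) hAf,
    hN.pos_out hS (Swp.opp_out he2 he3 he4) hAa] at h8
  have h11 : (expl G M ι).opp f = G.opp f := rfl
  have h12 : (expl G M ι).opp (ε a) = G.opp (ε a) := rfl
  rw [h11, h12] at h2
  omega

end

end RotWqo.Hk
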