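import Pool.Agent.Lib.MP_cb4a0f_co.Hk.Stmts

/-!
# MP_cb4a0f_co: rotated graphs with a bounded number of vertices, auxiliary statements
-/

open Classical

namespace RotWqo.Hk

open RotWqo.Bag

universe u v w

/-- (K) The contraction lemma: the half-edges in `K` are kept, the pairs of `M` are traversed. -/
def StCon : Prop := ∀ (V : Type u) (H : Type v) (G : RotGraph V H) (A : Finset V) (K : Finset H)
  (M : H → H → Prop) (o : H → H), A ⊆ G.verts → K ⊆ G.darts →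
    (∀ h ∈ G.darts, G.base h ∉ A → h ∈ K) → (∀ a b, M a b → M b a) →
    (∀ a b c, M a b → M a c → b = c) →
    (∀ a b, M a b → a ∈ G.darts ∧ G.base a ∈ A ∧ G.base b = G.base a ∧ a ∉ K) →
    (∀ x ∈ A, NC M ((G.rot x).filter (fun a => decide (a ∈ K ∨ ∃ b, M a b)))) →
    (∀ h ∈ K, o h ∈ K ∧ o (o h) = h ∧ o h ≠ h) →
    (∀ h ∈ K, G.base h ∉ A → G.base (o h) ∉ A → o h = G.opp h) →
    (∀ h ∈ K, G.base h ∈ A → ∃ y, Run G.opp M h y ∧ G.opp y = o h) →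
    ∃ G₁ : RotGraph V H, G₁.verts = G.verts ∧ G₁.darts = K ∧ G₁.base = G.base ∧ G₁.opp = o ∧
      (∀ v, G₁.rot v = (G.rot v).filter (fun a => decide (a ∈ K))) ∧
      ∃ β, PE (fun a b => a = b) G₁ A G A β

/-- (S1) Refinement of a cutting: no arc loop around a strand of the first cutting. -/
def StRef : Prop := ∀ r N : ℕ, ∃ M₂ : ℕ, ∀ (V : Type u) (H : Type v) (G : RotGraph V H)
  (A : Finset V) (ι₁ : H → ℕ), A ⊆ G.verts → Cutting G A ι₁ r → Poor N r G A →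
    ∃ ι₂ : H → ℕ, Cutting G A ι₂ M₂ ∧
      (∀ a ∈ dts G A, ∀ b ∈ dts G A, G.base a = G.base b → ι₂ a = ι₂ b → ι₁ a = ι₁ b) ∧
      ∀ a ∈ dts G A, ∀ e ∈ dts G A, G.base e = G.base a → ι₂ e = ι₂ a → AL G ι₂ a →
        ¬ AL G ι₁ e → ¬ (pos G a < pos G e ∧ pos G e < pos G (G.opp a))

/-- (S2) The segment carving. -/
def StTree : Prop := ∀ k c r M₂ N θ : ℕ, ∃ s w : ℕ, ∀ (V : Type u) (H : Type v)
  (G : RotGraph V H) (A : Finset V) (ι₁ ι₂ : H → ℕ), A ⊆ G.verts → A.card ≤ k → cut G A ≤ c →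
    Cutting G A ι₁ r → Cutting G A ι₂ M₂ →
    (∀ x ∈ A, ∀ i, (arc G ι₁ x i).Nonempty → Tame θ G x (arc G ι₁ x i) (arc G ι₁ x i)) →
    (∀ a ∈ dts G A, ∀ b ∈ dts G A, G.base a = G.base b → ι₂ a = ι₂ b → ι₁ a = ι₁ b) →
    (∀ a ∈ dts G A, ∀ e ∈ dts G A, G.base e = G.base a → ι₂ e = ι₂ a → AL G ι₂ a →
      ¬ AL G ι₁ e → ¬ (pos G a < pos G e ∧ pos G e < pos G (G.opp a))) →
    nbad G A M₂ ι₂ < N →
    ∃ ι : H → ℕ, Cutting G A ι s ∧ (dts G A = ∅ ∨ ∃ t, IsSegCar w G A ι t)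

theorem stStruct_of (hT : StTame.{u, v}) (hR : StRef.{u, v}) (hS : StTree.{u, v}) :
    StStruct.{u, v} := by
  intro k c 𝒩
  obtain ⟨M₀, r, θ, h1⟩ := hT 𝒩
  obtain ⟨M₂, h2⟩ := hR r (𝒩 r)
  obtain ⟨s, w, h3⟩ := hS k c r M₂ (𝒩 M₂) θ
  refine ⟨max M₀ (max r M₂), s, w, fun V H G A hA hk hc hP => ?_⟩
  obtain ⟨ι₁, h4, h5⟩ := h1 V H G A hA fun M hM => hP M (hM.trans (le_max_left _ _))
  obtain ⟨ι₂, h6, h7, h8⟩ := h2 V H G A ι₁ hA h4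
    (hP r ((le_max_left _ _).trans (le_max_right _ _)))
  have h9 : Sub1 G G A := by
    exact ⟨⟨id, PE.refl _ (fun _ => rfl) G A⟩, hA, fun S _ => rfl⟩
  have h10 := hP M₂ ((le_max_right _ _).trans (le_max_right _ _)) G h9 ι₂ h6
  exact h3 V H G A ι₁ ι₂ hA hk hc h4 h6 h5 h7 h8 h10

end RotWqo.Hk
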