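import Pool.Agent.Lib.MP_cb4a0f_co.Hk.StmtsP67

/-!
# MP_cb4a0f_co: gadgets, statement of the core (row P, helper 56)
-/

open Classical

namespace RotWqo.Hk

open RotWqo.Bag

universe u v

/-- The core of (P): a noncrossing matching of half-edges in `R` which leads the strands `e s` to
the half-edges in `F`. -/
def StCore : Prop := ∀ (V : Type u) (H : Type v) (G : RotGraph V H) (A : Finset V) (x : V)
  (R : Finset H) (r N : ℕ) (e : ℕ → H) (F B : Finset H) (st : H → ℕ) (M : H → H → Prop),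
    A ⊆ G.verts → x ∈ A → IsInt G x R → (∀ h ∈ R, G.base (G.opp h) = x) →
    (∀ s < r, e s ∈ R) → (∀ s s', s < s' → s' < r → pos G (e s) < pos G (e s')) →
    F ⊆ R → (∀ s < r, ∀ a ∈ F, pos G (e s) < pos G a) → (∀ a ∈ F, st a < r) →
    (∀ a ∈ F, ∀ a' ∈ F, st a = st a' → a = a') → (∀ s < r, ∃ a ∈ F, st a = s) →
    (∀ a b, M a b → M b a) → (∀ a b c, M a b → M a c → b = c) →
    (∀ a b, M a b → a ∈ R ∧ a ∉ F ∧ a ≠ b ∧ ∀ s < r, a ≠ e s) →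
    (∀ a b, M a b → pos G a < pos G b → ∀ c, (c ∈ F ∨ (∃ s < r, c = e s) ∨ ∃ d, M c d) →
      pos G a < pos G c → pos G c < pos G b → ∃ d, M c d ∧ pos G a < pos G d ∧
        pos G d < pos G b) →
    (∀ a ∈ F, ∃ y, Run G.opp M a y ∧ G.opp y = e (st a)) → B ⊆ F → N ≤ B.card →
    (∀ a ∈ B, ∃ a' ∈ F, pos G a < pos G a' ∧
      (∀ c ∈ F, ¬ (pos G a < pos G c ∧ pos G c < pos G a')) ∧ st a' ≠ st a + 1 ∧
        st a ≠ st a' + 1) →
    ∃ (G₁ : RotGraph V H) (ι₁ : H → ℕ), Sub1 G₁ G A ∧ Cutting G₁ A ι₁ 4 ∧ N ≤ nbad G₁ A 4 ι₁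

/-- The strand at the place `s` of the order on level `j`. -/
def pr (r : ℕ) (S : ℕ → ℕ) (τ : ℕ → ℕ → ℕ) : ℕ → ℕ → ℕ
  | 0, s => τ 0 s
  | j + 1, s => if s < S (j + 1) then pr r S τ j s else pr r S τ j (r - 1 + S (j + 1) - τ (j + 1) s)

/-- Levels `0, ..., J` of half-edges at `x`: `a j s` and `c j s` for `S j ≤ s < r`. -/
structure Lev {V H : Type*} (G : RotGraph V H) (R : Finset H) (J r : ℕ) (S : ℕ → ℕ)
    (a c : ℕ → ℕ → H) (τ : ℕ → ℕ → ℕ) : Prop where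
  S0 : S 0 = 0
  Sm : ∀ j ≤ J, S j ≤ S (j + 1)
  SJ : S (J + 1) = r
  mem : ∀ j ≤ J, ∀ s, S j ≤ s → s < r → a j s ∈ R ∧ c j s ∈ R
  τm : ∀ j ≤ J, ∀ s, S j ≤ s → s < r → S j ≤ τ j s ∧ τ j s < r ∧ τ j (τ j s) = s
  opp : ∀ j ≤ J, ∀ s, S j ≤ s → s < r → G.opp (c j s) = a j (τ j s)
  aa : ∀ j ≤ J, ∀ s t, S j ≤ s → s < t → t < r → pos G (a j s) < pos G (a j t)
  cc : ∀ j ≤ J, ∀ s t, S j ≤ s → s < t → t < r → pos G (c j s) < pos G (c j t)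
  ac : ∀ j ≤ J, ∀ s t, S j ≤ s → s < r → S j ≤ t → t < r → pos G (a j s) < pos G (c j t)
  ca : ∀ i j, i < j → j ≤ J → ∀ s t, S i ≤ s → s < r → S j ≤ t → t < r →
    pos G (c i s) < pos G (a j t)

/-- The network theorem: if the strands of `N` kept half-edges and of their successors are not
neighbours, there are at least `N` bad half-edges. -/
def StNet : Prop := ∀ (V : Type u) (H : Type v) (G : RotGraph V H) (A : Finset V) (x : V)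
  (R : Finset H) (J r N : ℕ) (S : ℕ → ℕ) (a c : ℕ → ℕ → H) (τ : ℕ → ℕ → ℕ) (Bs : Finset ℕ),
    A ⊆ G.verts → x ∈ A → IsInt G x R → (∀ h ∈ R, G.base (G.opp h) = x) →
    Lev G R J r S a c τ → N ≤ Bs.card →
    (∀ s ∈ Bs, s + 1 < r ∧ pr r S τ J (s + 1) ≠ pr r S τ J s + 1 ∧
      pr r S τ J s ≠ pr r S τ J (s + 1) + 1) →
    ∃ (G₁ : RotGraph V H) (ι₁ : H → ℕ), Sub1 G₁ G A ∧ Cutting G₁ A ι₁ 4 ∧ N ≤ nbad G₁ A 4 ι₁

end RotWqo.Hk
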