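import Pool.Agent.Lib.MP_cb4a0f_co.Hk.Stmts2

/-!
# MP_cb4a0f_co: the three kinds of gadgets (statements for row P) and their combination
-/

open Classical

namespace RotWqo.Hk

open RotWqo.Bag

universe u v

/-- Kind T (twisted): `b 0 < b 1 < .. < c 0 < c 1 < ..`, `c i = opp (b i)`. -/
structure GadT {V H : Type*} (G : RotGraph V H) (q : ℕ) (X : Finset H) (b : ℕ → H) : Prop where
  mem : ∀ i < q, b i ∈ X ∧ G.opp (b i) ∈ X
  bb : ∀ i j, i < j → j < q → pos G (b i) < pos G (b j)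
  cc : ∀ i j, i < j → j < q → pos G (G.opp (b i)) < pos G (G.opp (b j))
  bc : ∀ i < q, ∀ j < q, pos G (b i) < pos G (G.opp (b j))

/-- Kind L: `p < b 0 < b 1 < .. < opp p < .. < c 1 < c 0`, `c i = opp (b i)`. -/
structure GadL {V H : Type*} (G : RotGraph V H) (q : ℕ) (X : Finset H) (p : H) (b : ℕ → H) :
    Prop where
  mem : ∀ i < q, b i ∈ X ∧ G.opp (b i) ∈ X
  pm : p ∈ X ∧ G.opp p ∈ X
  bb : ∀ i j, i < j → j < q → pos G (b i) < pos G (b j)
  cc : ∀ i j, i < j → j < q → pos G (G.opp (b j)) < pos G (G.opp (b i))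
  pb : ∀ i < q, pos G p < pos G (b i) ∧ pos G (b i) < pos G (G.opp p) ∧
    pos G (G.opp p) < pos G (G.opp (b i))

/-- Kind R: `b 0 < b 1 < .. < p < .. < c 1 < c 0 < opp p`, `c i = opp (b i)`. -/
structure GadR {V H : Type*} (G : RotGraph V H) (q : ℕ) (X : Finset H) (p : H) (b : ℕ → H) :
    Prop where
  mem : ∀ i < q, b i ∈ X ∧ G.opp (b i) ∈ X
  pm : p ∈ X ∧ G.opp p ∈ X
  bb : ∀ i j, i < j → j < q → pos G (b i) < pos G (b j)
  cc : ∀ i j, i < j → j < q → pos G (G.opp (b j)) < pos G (G.opp (b i))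
  pb : ∀ i < q, pos G (b i) < pos G p ∧ pos G p < pos G (G.opp (b i)) ∧
    pos G (G.opp (b i)) < pos G (G.opp p)

/-- (P1) Many gadgets of kind T. -/
def StGadT : Prop := ∀ N : ℕ, ∃ W q : ℕ, ∀ (V : Type u) (H : Type v) (G : RotGraph V H)
  (A : Finset V) (x : V) (R : Finset H) (X : ℕ → Finset H) (b : ℕ → ℕ → H), A ⊆ G.verts →
    x ∈ A → IsInt G x R → (∀ h ∈ R, G.base (G.opp h) = x) →
    (∀ w < W, X w ⊆ R ∧ GadT G q (X w) (b w)) →
    (∀ w w', w < w' → w' < W → Bef G (X w) (X w')) →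
    ∃ (G₁ : RotGraph V H) (ι₁ : H → ℕ), Sub1 G₁ G A ∧ Cutting G₁ A ι₁ 4 ∧ N ≤ nbad G₁ A 4 ι₁

/-- (P2) Many gadgets of kind L. -/
def StGadL : Prop := ∀ N : ℕ, ∃ W q : ℕ, ∀ (V : Type u) (H : Type v) (G : RotGraph V H)
  (A : Finset V) (x : V) (R : Finset H) (X : ℕ → Finset H) (p : ℕ → H) (b : ℕ → ℕ → H),
    A ⊆ G.verts → x ∈ A → IsInt G x R → (∀ h ∈ R, G.base (G.opp h) = x) →
    (∀ w < W, X w ⊆ R ∧ GadL G q (X w) (p w) (b w)) →
    (∀ w w', w < w' → w' < W → Bef G (X w) (X w')) →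
    ∃ (G₁ : RotGraph V H) (ι₁ : H → ℕ), Sub1 G₁ G A ∧ Cutting G₁ A ι₁ 4 ∧ N ≤ nbad G₁ A 4 ι₁

/-- (P3) Many gadgets of kind R. -/
def StGadR : Prop := ∀ N : ℕ, ∃ W q : ℕ, ∀ (V : Type u) (H : Type v) (G : RotGraph V H)
  (A : Finset V) (x : V) (R : Finset H) (X : ℕ → Finset H) (p : ℕ → H) (b : ℕ → ℕ → H),
    A ⊆ G.verts → x ∈ A → IsInt G x R → (∀ h ∈ R, G.base (G.opp h) = x) →
    (∀ w < W, X w ⊆ R ∧ GadR G q (X w) (p w) (b w)) →
    (∀ w w', w < w' → w' < W → Bef G (X w) (X w')) →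
    ∃ (G₁ : RotGraph V H) (ι₁ : H → ℕ), Sub1 G₁ G A ∧ Cutting G₁ A ι₁ 4 ∧ N ≤ nbad G₁ A 4 ι₁

section

variable {V H : Type*} {G : RotGraph V H} {q q' : ℕ} {X : Finset H} {p : H} {b : ℕ → H}

theorem GadT.le (h : GadT G q X b) (hq : q' ≤ q) : GadT G q' X b :=
  ⟨fun i hi => h.mem i (by omega), fun i j h1 h2 => h.bb i j h1 (by omega),
    fun i j h1 h2 => h.cc i j h1 (by omega), fun i hi j hj => h.bc i (by omega) j (by omega)⟩

theorem GadL.le (h : GadL G q X p b) (hq : q' ≤ q) : GadL G q' X p b :=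
  ⟨fun i hi => h.mem i (by omega), h.pm, fun i j h1 h2 => h.bb i j h1 (by omega),
    fun i j h1 h2 => h.cc i j h1 (by omega), fun i hi => h.pb i (by omega)⟩

theorem GadR.le (h : GadR G q X p b) (hq : q' ≤ q) : GadR G q' X p b :=
  ⟨fun i hi => h.mem i (by omega), h.pm, fun i j h1 h2 => h.bb i j h1 (by omega),
    fun i j h1 h2 => h.cc i j h1 (by omega), fun i hi => h.pb i (by omega)⟩

/-- Every gadget is of one of the three kinds. -/
theorem Gad.kind (h : Gad G q X) : ∃ p b, GadT G q X b ∨ GadL G q X p b ∨ GadR G q X p b := by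
  obtain ⟨p, b, s, hp, hp', hm, hb, hc, ht⟩ := h
  refine ⟨p, b, ?_⟩
  cases s with
  | true =>
    refine Or.inl ⟨hm, hb, fun i j h1 h2 => by simpa [lt] using hc i j h1 h2, fun i hi j hj => ?_⟩
    rcases ht with ht | ht
    · exact (ht i hi).2.1.trans (ht j hj).2.2
    · exact (ht i hi).1.trans (ht j hj).2.1
  | false =>
    rcases ht with ht | ht
    · exact Or.inr (Or.inl ⟨hm, ⟨hp, hp'⟩, hb, fun i j h1 h2 => by simpa [lt] using hc i j h1 h2,
        ht⟩)
    · exact Or.inr (Or.inr ⟨hm, ⟨hp, hp'⟩, hb, fun i j h1 h2 => by simpa [lt] using hc i j h1 h2,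
        ht⟩)

end

/-- A large set of numbers contains a long increasing sequence. -/
theorem exists_sub (S : Finset ℕ) (n W : ℕ) (hS : S ⊆ Finset.range W) (hn : n ≤ S.card) :
    ∃ f : ℕ → ℕ, (∀ i < n, f i ∈ S) ∧ ∀ i j, i < j → j < n → f i < f j := by
  have h1 : ∀ i : ℕ, i < n → i < S.card := fun i hi => hi.trans_le hn
  refine ⟨fun i => if h : i < S.card then S.orderEmbOfFin rfl ⟨i, h⟩ else 0, fun i hi => ?_,
    fun i j hij hj => ?_⟩
  · simp only [dif_pos (h1 i hi)]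
    exact Finset.orderEmbOfFin_mem S rfl _
  · simp only [dif_pos (h1 j hj), dif_pos (h1 i (hij.trans hj))]
    exact (S.orderEmbOfFin rfl).strictMono hij

/-- (P) from the three kinds. -/
theorem stGad_of (hT : StGadT.{u, v}) (hL : StGadL.{u, v}) (hR : StGadR.{u, v}) :
    StGad.{u, v} := by
  intro N
  obtain ⟨WT, qT, h1⟩ := hT N
  obtain ⟨WL, qL, h2⟩ := hL N
  obtain ⟨WR, qR, h3⟩ := hR N
  refine ⟨WT + WL + WR + 1, max qT (max qL qR), fun V H G A x R X hA hx hR hl hg hB => ?_⟩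
  set q := max qT (max qL qR) with hq
  have hqT : qT ≤ q := le_max_left _ _
  have hqL : qL ≤ q := (le_max_left _ _).trans (le_max_right _ _)
  have hqR : qR ≤ q := (le_max_right _ _).trans (le_max_right _ _)
  set W := WT + WL + WR + 1 with hW
  set ST := (Finset.range W).filter (fun w => ∃ b, GadT G q (X w) b) with hST
  set SL := (Finset.range W).filter (fun w => ∃ p b, GadL G q (X w) p b) with hSL
  set SR := (Finset.range W).filter (fun w => ∃ p b, GadR G q (X w) p b) with hSR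
  have hu : Finset.range W ⊆ ST ∪ (SL ∪ SR) := by
    intro w hw
    obtain ⟨p, b, h⟩ := (hg w (Finset.mem_range.1 hw)).2.kind
    simp only [hST, hSL, hSR, Finset.mem_union, Finset.mem_filter]
    rcases h with h | h | h
    · exact Or.inl ⟨hw, b, h⟩
    · exact Or.inr (Or.inl ⟨hw, p, b, h⟩)
    · exact Or.inr (Or.inr ⟨hw, p, b, h⟩)
  have hc : W ≤ ST.card + (SL.card + SR.card) := by
    have h4 := Finset.card_le_card hu
    rw [Finset.card_range] at h4
    exact h4.trans ((Finset.card_union_le _ _).trans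
      (Nat.add_le_add_left (Finset.card_union_le _ _) _))
  have hd : WT ≤ ST.card ∨ WL ≤ SL.card ∨ WR ≤ SR.card := by omega
  have hlt : ∀ S : Finset ℕ, S ⊆ Finset.range W → ∀ w ∈ S, w < W := fun S hS w hw =>
    Finset.mem_range.1 (hS hw)
  rcases hd with hd | hd | hd
  · obtain ⟨f, hf1, hf2⟩ := exists_sub ST WT W (Finset.filter_subset _ _) hd
    have hf3 : ∀ i < WT, f i < W := fun i hi => hlt ST (Finset.filter_subset _ _) _ (hf1 i hi)
    have hf4 : ∀ i, ∃ b, i < WT → GadT G q (X (f i)) b := by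
      intro i
      by_cases hi : i < WT
      · obtain ⟨b, hb⟩ := (Finset.mem_filter.1 (hf1 i hi)).2
        exact ⟨b, fun _ => hb⟩
      · exact ⟨fun _ => (hg 0 (by omega)).2.choose, fun h => absurd h hi⟩
    choose b hb using hf4
    exact h1 V H G A x R (fun i => X (f i)) b hA hx hR hl
      (fun i hi => ⟨(hg _ (hf3 i hi)).1, (hb i hi).le hqT⟩)
      (fun i j hij hj => hB _ _ (hf2 i j hij hj) (hf3 j hj))
  · obtain ⟨f, hf1, hf2⟩ := exists_sub SL WL W (Finset.filter_subset _ _) hd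
    have hf3 : ∀ i < WL, f i < W := fun i hi => hlt SL (Finset.filter_subset _ _) _ (hf1 i hi)
    have hf4 : ∀ i, ∃ p b, i < WL → GadL G q (X (f i)) p b := by
      intro i
      by_cases hi : i < WL
      · obtain ⟨p, b, hb⟩ := (Finset.mem_filter.1 (hf1 i hi)).2
        exact ⟨p, b, fun _ => hb⟩
      · exact ⟨(hg 0 (by omega)).2.choose, fun _ => (hg 0 (by omega)).2.choose,
          fun h => absurd h hi⟩
    choose p b hb using hf4
    exact h2 V H G A x R (fun i => X (f i)) p b hA hx hR hl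
      (fun i hi => ⟨(hg _ (hf3 i hi)).1, (hb i hi).le hqL⟩)
      (fun i j hij hj => hB _ _ (hf2 i j hij hj) (hf3 j hj))
  · obtain ⟨f, hf1, hf2⟩ := exists_sub SR WR W (Finset.filter_subset _ _) hd
    have hf3 : ∀ i < WR, f i < W := fun i hi => hlt SR (Finset.filter_subset _ _) _ (hf1 i hi)
    have hf4 : ∀ i, ∃ p b, i < WR → GadR G q (X (f i)) p b := by
      intro i
      by_cases hi : i < WR
      · obtain ⟨p, b, hb⟩ := (Finset.mem_filter.1 (hf1 i hi)).2
        exact ⟨p, b, fun _ => hb⟩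
      · exact ⟨(hg 0 (by omega)).2.choose, fun _ => (hg 0 (by omega)).2.choose,
          fun h => absurd h hi⟩
    choose p b hb using hf4
    exact h3 V H G A x R (fun i => X (f i)) p b hA hx hR hl
      (fun i hi => ⟨(hg _ (hf3 i hi)).1, (hb i hi).le hqR⟩)
      (fun i j hij hj => hB _ _ (hf2 i j hij hj) (hf3 j hj))

end RotWqo.Hk
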