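import Pool.Agent.Lib.MP_cb4a0f_co.Hk.TreeC6

/-!
# MP_cb4a0f_co: the segment carving
-/

open Classical

namespace RotWqo.Hk.Tree6

open RotWqo.Bag

section
variable {V H : Type*} {G : RotGraph V H} {A : Finset V} {r : ℕ} {ι₁ : H → ℕ} {M : ℕ}
  {ι₂ : H → ℕ}

lemma mem_Bad {V H : Type*} {G : RotGraph V H} {A : Finset V} {h : H} : h ∈ Bad G A ↔
    h ∈ G.darts ∧ G.base h ∈ A ∧ ∃ h' ∈ G.darts, G.base h' = G.base h ∧
      pos G h' = pos G h + 1 ∧ ¬ Par G A h h' := Finset.mem_filter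

lemma expl_base_mem (hT : HT G A r ι₁ M ι₂) {h : H} (hh : h ∈ dts G A) :
    (expl G M ι₂).base h ∈ arcs A M :=
  Finset.mem_product.2 ⟨(mem_dts.1 hh).2, Finset.mem_range.2 (hT.c2.lt h hh)⟩

/-- The number of ends of runs in a list. -/
lemma card_RE (hT : HT G A r ι₁ M ι₂) (x : V) :
    ((dts G A).filter (fun b => G.base b = x ∧ RE G A ι₁ M ι₂ b)).card ≤
      nbad G A M ι₂ + M := by
  have h1 : (dts G A).filter (fun b => G.base b = x ∧ RE G A ι₁ M ι₂ b) ⊆
      Bad (expl G M ι₂) (arcs A M) ∪ (dts G A).filter (fun b => G.base b = x ∧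
        b ∈ (expl G M ι₂).darts ∧ ¬ ∃ b' ∈ (expl G M ι₂).darts,
          (expl G M ι₂).base b' = (expl G M ι₂).base b ∧
            pos (expl G M ι₂) b' = pos (expl G M ι₂) b + 1) := by
    intro b hb
    rw [Finset.mem_filter] at hb
    obtain ⟨b1, b2, b3⟩ := hb
    have b4 := b3.1.expl hT
    rw [Finset.mem_union]
    by_cases h2 : ∃ b' ∈ (expl G M ι₂).darts,
          (expl G M ι₂).base b' = (expl G M ι₂).base b ∧
            pos (expl G M ι₂) b' = pos (expl G M ι₂) b + 1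
    · left
      obtain ⟨b', c1, c2, c3⟩ := h2
      exact mem_Bad.2 ⟨b4, expl_base_mem hT b1, b', c1, c2, c3, fun h3 => b3.2 ⟨b', h3⟩⟩
    · right
      exact Finset.mem_filter.2 ⟨b1, b2, b4, h2⟩
  refine (Finset.card_le_card h1).trans ((Finset.card_union_le _ _).trans ?_)
  refine Nat.add_le_add le_rfl ?_
  have h2 : ((dts G A).filter (fun b => G.base b = x ∧
        b ∈ (expl G M ι₂).darts ∧ ¬ ∃ b' ∈ (expl G M ι₂).darts,
          (expl G M ι₂).base b' = (expl G M ι₂).base b ∧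
            pos (expl G M ι₂) b' = pos (expl G M ι₂) b + 1)).card ≤ (Finset.range M).card := by
    refine Finset.card_le_card_of_injOn ι₂ ?_ ?_
    · intro b hb
      rw [Finset.mem_coe, Finset.mem_filter] at hb
      exact Finset.mem_coe.2 (Finset.mem_range.2 (hT.c2.lt b hb.1))
    · intro a ha b hb hab
      rw [Finset.mem_coe, Finset.mem_filter] at ha hb
      obtain ⟨a1, a2, a3, a4⟩ := ha
      obtain ⟨b1, b2, b3, b4⟩ := hb
      have hbase : (expl G M ι₂).base a = (expl G M ι₂).base b := Prod.ext (a2.trans b2.symm) hab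
      rcases lt_trichotomy (pos (expl G M ι₂) a) (pos (expl G M ι₂) b) with h3 | h3 | h3
      · obtain ⟨g, g1, g2, g3⟩ := exists_at_pos (expl G M ι₂) b3 (Nat.succ_le_of_lt h3)
        exact absurd ⟨g, g1, g2.trans hbase.symm, g3⟩ a4
      · exact pos_inj a3 b3 hbase h3
      · obtain ⟨g, g1, g2, g3⟩ := exists_at_pos (expl G M ι₂) a3 (Nat.succ_le_of_lt h3)
        exact absurd ⟨g, g1, g2.trans hbase, g3⟩ b4
  rwa [Finset.card_range] at h2

/-- The number of starts of runs in a list. -/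
lemma card_RS (hT : HT G A r ι₁ M ι₂) (x : V) :
    ((dts G A).filter (fun b => G.base b = x ∧ RS G A ι₁ M ι₂ b)).card ≤
      nbad G A M ι₂ + M := by
  have h1 : (dts G A).filter (fun b => G.base b = x ∧ RS G A ι₁ M ι₂ b) ⊆
      (dts G A).filter (fun a => a ∈ (expl G M ι₂).darts ∧
        ∃ b ∈ Bad (expl G M ι₂) (arcs A M), (expl G M ι₂).base a = (expl G M ι₂).base b ∧
          pos (expl G M ι₂) a = pos (expl G M ι₂) b + 1) ∪
      (dts G A).filter (fun b => G.base b = x ∧ b ∈ (expl G M ι₂).darts ∧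
        pos (expl G M ι₂) b = 0) := by
    intro b hb
    rw [Finset.mem_filter] at hb
    obtain ⟨b1, b2, b3⟩ := hb
    have b4 := b3.1.expl hT
    rw [Finset.mem_union]
    by_cases h2 : pos (expl G M ι₂) b = 0
    · right
      exact Finset.mem_filter.2 ⟨b1, b2, b4, h2⟩
    · left
      obtain ⟨g, g1, g2, g3⟩ := exists_at_pos (expl G M ι₂) b4
        (m := pos (expl G M ι₂) b - 1) (by omega)
      refine Finset.mem_filter.2 ⟨b1, b4, g, ?_, g2.symm, by omega⟩
      refine mem_Bad.2 ⟨g1, ?_, b, b4, g2.symm, by omega, fun h3 => b3.2 ⟨g, h3⟩⟩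
      rw [g2]
      exact expl_base_mem hT b1
  refine (Finset.card_le_card h1).trans ((Finset.card_union_le _ _).trans ?_)
  refine Nat.add_le_add ?_ ?_
  · set S := (dts G A).filter (fun a => a ∈ (expl G M ι₂).darts ∧
        ∃ b ∈ Bad (expl G M ι₂) (arcs A M), (expl G M ι₂).base a = (expl G M ι₂).base b ∧
          pos (expl G M ι₂) a = pos (expl G M ι₂) b + 1) with hS
    have h2 : ∀ a ∈ S, ∃ b ∈ Bad (expl G M ι₂) (arcs A M),
        (expl G M ι₂).base a = (expl G M ι₂).base b ∧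
          pos (expl G M ι₂) a = pos (expl G M ι₂) b + 1 := by
      intro a ha
      rw [hS, Finset.mem_filter] at ha
      exact ha.2.2
    choose! φ h3 h4 h5 using h2
    refine Finset.card_le_card_of_injOn φ (fun a ha => h3 a ha) ?_
    intro a ha b hb hab
    have ha' := (Finset.mem_filter.1 (Finset.mem_coe.1 ha)).2.1
    have hb' := (Finset.mem_filter.1 (Finset.mem_coe.1 hb)).2.1
    refine pos_inj ha' hb' ?_ ?_
    · rw [h4 a ha, h4 b hb, hab]
    · rw [h5 a ha, h5 b hb, hab]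
  · have h2 : ((dts G A).filter (fun b => G.base b = x ∧ b ∈ (expl G M ι₂).darts ∧
        pos (expl G M ι₂) b = 0)).card ≤ (Finset.range M).card := by
      refine Finset.card_le_card_of_injOn ι₂ ?_ ?_
      · intro b hb
        rw [Finset.mem_coe, Finset.mem_filter] at hb
        exact Finset.mem_coe.2 (Finset.mem_range.2 (hT.c2.lt b hb.1))
      · intro a ha b hb hab
        rw [Finset.mem_coe, Finset.mem_filter] at ha hb
        exact pos_inj ha.2.2.1 hb.2.2.1 (Prod.ext (ha.2.1.trans hb.2.1.symm) hab)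
          (ha.2.2.2.trans hb.2.2.2.symm)
    rwa [Finset.card_range] at h2

lemma io_lt (hT : HT G A r ι₁ M ι₂) {N : ℕ} (hN : nbad G A M ι₂ < N) {h : H}
    (hh : h ∈ dts G A) : io G A ι₁ M ι₂ h < M + 2 * (N + M) := by
  have h1 : (nS G A ι₁ M ι₂ h).card ≤ nbad G A M ι₂ + M := by
    refine (Finset.card_le_card fun a ha => ?_).trans (card_RS hT (G.base h))
    rw [nS, Finset.mem_filter] at ha
    exact Finset.mem_filter.2 ⟨ha.1, ha.2.1, ha.2.2.1⟩
  have h2 : (nE G A ι₁ M ι₂ h).card ≤ nbad G A M ι₂ + M := by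
    refine (Finset.card_le_card fun a ha => ?_).trans (card_RE hT (G.base h))
    rw [nE, Finset.mem_filter] at ha
    exact Finset.mem_filter.2 ⟨ha.1, ha.2.1, ha.2.2.1⟩
  have h3 := hT.c2.lt h hh
  unfold io
  omega

end

end RotWqo.Hk.Tree6

namespace RotWqo.Hk

open RotWqo.Bag Tree6

universe u v

theorem tree_6 : StTree.{u, v} := by
  intro k c r M₂ N θ
  refine ⟨M₂ + 2 * (N + M₂), max (max θ c) 1, ?_⟩
  intro V H G A ι₁ ι₂ hA hk hc c1 c2 hθ href hnop hN
  have hT : HT G A r ι₁ M₂ ι₂ := ⟨c1, c2, href, hnop⟩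
  have w1 : θ ≤ max (max θ c) 1 := (le_max_left _ _).trans (le_max_left _ _)
  have w2 : cut G A ≤ max (max θ c) 1 := hc.trans ((le_max_right _ _).trans (le_max_left _ _))
  have w3 : 1 ≤ max (max θ c) 1 := le_max_right _ _
  refine ⟨io G A ι₁ M₂ ι₂, ⟨fun a ha b hb h1 h2 => io_mono hT ha hb h1 h2,
    fun a ha => io_lt hT hN ha⟩, ?_⟩
  have key : Car (Nd G A (io G A ι₁ M₂ ι₂) (max (max θ c) 1)) (dts G A) := by
    refine car_of_blocks w2 fun h hh => ?_
    by_cases h1 : G.base (G.opp h) ∈ A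
    · by_cases h2 : ∃ e, FS G A ι₁ e ∧ G.base e = G.base h ∧
          io G A ι₁ M₂ ι₂ e = io G A ι₁ M₂ ι₂ h
      · obtain ⟨e, e1, e2, e3⟩ := h2
        by_cases h3 : G.base (G.opp e) ∈ A
        · obtain ⟨X, x1, x2, x3, x4⟩ := r_block hT hθ w1 w3 e1 h3
          exact ⟨X, x1 h hh e2.symm e3.symm, x2, x3, x4⟩
        · have h4 := (leg_sat hT e1.1 h3).2 e (Finset.mem_singleton_self e) h hh e2 e3
          rw [Finset.mem_singleton] at h4
          subst h4
          exact absurd h1 h3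
      · push Not at h2
        obtain ⟨X, x1, x2, x3, x4⟩ := c_block hT hθ w1 hh h2
        exact ⟨X, x1, x2, x3, x4⟩
    · obtain ⟨x2, x3, x4⟩ := leg_block hT w3 hh h1
      exact ⟨{h}, Finset.mem_singleton_self h, x2, x3, x4⟩
  rcases key with h1 | ⟨t, t1, t2, t3⟩
  · exact Or.inl h1
  · exact Or.inr ⟨t, t1, t2, fun s hs => t3 s hs⟩

end RotWqo.Hk
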