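import Pool.Agent.Lib.MP_cb4a0f_co.Hk.Stmts2
import Pool.Agent.Lib.MP_cb4a0f_co.Bag.UnivA
import Pool.Agent.Lib.MP_cb4a0f_co.Bag.PatF

/-!
# MP_cb4a0f_co: the segments of the structure theorem
-/

open Classical

namespace RotWqo.Hk.Tree6

open RotWqo.Bag

variable {V H : Type*}

/-! ### Positions in the exploded graph -/

lemma mem_expl {G : RotGraph V H} {M : ℕ} {ι : H → ℕ} {h : H} :
    h ∈ (expl G M ι).darts ↔ h ∈ G.darts ∧ ¬ AL G ι h := Finset.mem_filter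

lemma mem_dts {G : RotGraph V H} {A : Finset V} {h : H} :
    h ∈ dts G A ↔ h ∈ G.darts ∧ G.base h ∈ A := Finset.mem_filter

lemma expl_lt_imp {G : RotGraph V H} {M : ℕ} {ι : H → ℕ} {a b : H}
    (ha : a ∈ (expl G M ι).darts) (hb : b ∈ (expl G M ι).darts) (h1 : G.base a = G.base b)
    (h2 : ι a = ι b) (h : pos (expl G M ι) a < pos (expl G M ι) b) : pos G a < pos G b := by
  have hba : (expl G M ι).base a = (expl G M ι).base b := Prod.ext h1 h2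
  have hs : ((expl G M ι).rot ((expl G M ι).base b)).Pairwise (fun a b => pos G a < pos G b) :=
    (rot_sorted G _).filter _
  have ma : a ∈ (expl G M ι).rot ((expl G M ι).base b) := hba ▸ mem_rot_of ha
  have mb : b ∈ (expl G M ι).rot ((expl G M ι).base b) := mem_rot_of hb
  rw [pos_eq hba, pos_eq rfl] at h
  rw [List.pairwise_iff_getElem] at hs
  have h3 := hs _ _ (List.idxOf_lt_length_of_mem ma) (List.idxOf_lt_length_of_mem mb) h
  rwa [List.getElem_idxOf, List.getElem_idxOf] at h3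

lemma expl_lt_iff {G : RotGraph V H} {M : ℕ} {ι : H → ℕ} {a b : H}
    (ha : a ∈ (expl G M ι).darts) (hb : b ∈ (expl G M ι).darts) (h1 : G.base a = G.base b)
    (h2 : ι a = ι b) : pos (expl G M ι) a < pos (expl G M ι) b ↔ pos G a < pos G b := by
  refine ⟨expl_lt_imp ha hb h1 h2, fun h => ?_⟩
  rcases lt_trichotomy (pos (expl G M ι) a) (pos (expl G M ι) b) with h3 | h3 | h3
  · exact h3
  · rw [pos_inj ha hb (Prod.ext h1 h2) h3] at h
    exact absurd h (lt_irrefl _)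
  · exact absurd h (not_lt.2 (expl_lt_imp hb ha h1.symm h2.symm h3).le)

/-! ### Strands, starts and ends of runs, the segments -/

/-- Half-edges at `A` which do not belong to arc loops. -/
def FS (G : RotGraph V H) (A : Finset V) (ι : H → ℕ) (h : H) : Prop := h ∈ dts G A ∧ ¬ AL G ι h

/-- Parallel neighbours in the exploded graph. -/
def PP (G : RotGraph V H) (A : Finset V) (M : ℕ) (ι : H → ℕ) (a b : H) : Prop :=
  Par (expl G M ι) (arcs A M) a b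

/-- End of a run. -/
def RE (G : RotGraph V H) (A : Finset V) (ι₁ : H → ℕ) (M : ℕ) (ι₂ : H → ℕ) (b : H) : Prop :=
  FS G A ι₁ b ∧ ¬ ∃ b', PP G A M ι₂ b b'

/-- Start of a run. -/
def RS (G : RotGraph V H) (A : Finset V) (ι₁ : H → ℕ) (M : ℕ) (ι₂ : H → ℕ) (a : H) : Prop :=
  FS G A ι₁ a ∧ ¬ ∃ a', PP G A M ι₂ a' a

/-- The starts before `h`. -/
noncomputable def nS (G : RotGraph V H) (A : Finset V) (ι₁ : H → ℕ) (M : ℕ) (ι₂ : H → ℕ)
    (h : H) : Finset H :=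
  (dts G A).filter (fun a => G.base a = G.base h ∧ RS G A ι₁ M ι₂ a ∧ pos G a ≤ pos G h)

/-- The ends strictly before `h`. -/
noncomputable def nE (G : RotGraph V H) (A : Finset V) (ι₁ : H → ℕ) (M : ℕ) (ι₂ : H → ℕ)
    (h : H) : Finset H :=
  (dts G A).filter (fun a => G.base a = G.base h ∧ RE G A ι₁ M ι₂ a ∧ pos G a < pos G h)

/-- The segments. -/
noncomputable def io (G : RotGraph V H) (A : Finset V) (ι₁ : H → ℕ) (M : ℕ) (ι₂ : H → ℕ)
    (h : H) : ℕ := ι₂ h + (nS G A ι₁ M ι₂ h).card + (nE G A ι₁ M ι₂ h).card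

/-- The hypotheses on the two cuttings. -/
structure HT (G : RotGraph V H) (A : Finset V) (r : ℕ) (ι₁ : H → ℕ) (M : ℕ) (ι₂ : H → ℕ) :
    Prop where
  c1 : Cutting G A ι₁ r
  c2 : Cutting G A ι₂ M
  ref : ∀ a ∈ dts G A, ∀ b ∈ dts G A, G.base a = G.base b → ι₂ a = ι₂ b → ι₁ a = ι₁ b
  nop : ∀ a ∈ dts G A, ∀ e ∈ dts G A, G.base e = G.base a → ι₂ e = ι₂ a → AL G ι₂ a →
    ¬ AL G ι₁ e → ¬ (pos G a < pos G e ∧ pos G e < pos G (G.opp a))

section
variable {G : RotGraph V H} {A : Finset V} {r : ℕ} {ι₁ : H → ℕ} {M : ℕ} {ι₂ : H → ℕ}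

lemma nS_mono {a b : H} (h : G.base a = G.base b) (hp : pos G a ≤ pos G b) :
    nS G A ι₁ M ι₂ a ⊆ nS G A ι₁ M ι₂ b := by
  intro c hc
  rw [nS, Finset.mem_filter] at hc ⊢
  exact ⟨hc.1, hc.2.1.trans h, hc.2.2.1, hc.2.2.2.trans hp⟩

lemma nE_mono {a b : H} (h : G.base a = G.base b) (hp : pos G a ≤ pos G b) :
    nE G A ι₁ M ι₂ a ⊆ nE G A ι₁ M ι₂ b := by
  intro c hc
  rw [nE, Finset.mem_filter] at hc ⊢
  exact ⟨hc.1, hc.2.1.trans h, hc.2.2.1, hc.2.2.2.trans_le hp⟩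

lemma io_mono (hT : HT G A r ι₁ M ι₂) {a b : H} (ha : a ∈ dts G A) (hb : b ∈ dts G A)
    (h : G.base a = G.base b) (hp : pos G a ≤ pos G b) : io G A ι₁ M ι₂ a ≤ io G A ι₁ M ι₂ b :=
  Nat.add_le_add (Nat.add_le_add (hT.c2.mono a ha b hb h hp) (Finset.card_le_card (nS_mono h hp)))
    (Finset.card_le_card (nE_mono h hp))

/-- What equality of the segment numbers means. -/
lemma io_eq (hT : HT G A r ι₁ M ι₂) {a b : H} (ha : a ∈ dts G A) (hb : b ∈ dts G A)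
    (h : G.base a = G.base b) (hp : pos G a ≤ pos G b)
    (he : io G A ι₁ M ι₂ a = io G A ι₁ M ι₂ b) :
    ι₂ a = ι₂ b ∧ (∀ c, G.base c = G.base b → RS G A ι₁ M ι₂ c → pos G c ≤ pos G b →
      pos G c ≤ pos G a) ∧
    ∀ c, G.base c = G.base b → RE G A ι₁ M ι₂ c → pos G c < pos G b → pos G c < pos G a := by
  have h1 := hT.c2.mono a ha b hb h hp
  have h2 := Finset.card_le_card (nS_mono (A := A) (ι₁ := ι₁) (M := M) (ι₂ := ι₂) h hp)
  have h3 := Finset.card_le_card (nE_mono (A := A) (ι₁ := ι₁) (M := M) (ι₂ := ι₂) h hp)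
  unfold io at he
  have h4 := Finset.eq_of_subset_of_card_le
    (nS_mono (A := A) (ι₁ := ι₁) (M := M) (ι₂ := ι₂) h hp) (by omega)
  have h5 := Finset.eq_of_subset_of_card_le
    (nE_mono (A := A) (ι₁ := ι₁) (M := M) (ι₂ := ι₂) h hp) (by omega)
  refine ⟨by omega, fun c hc hS hcb => ?_, fun c hc hS hcb => ?_⟩
  · have h6 : c ∈ nS G A ι₁ M ι₂ b := by
      rw [nS, Finset.mem_filter]
      exact ⟨hS.1.1, hc, hS, hcb⟩
    rw [← h4, nS, Finset.mem_filter] at h6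
    exact h6.2.2.2
  · have h6 : c ∈ nE G A ι₁ M ι₂ b := by
      rw [nE, Finset.mem_filter]
      exact ⟨hS.1.1, hc, hS, hcb⟩
    rw [← h5, nE, Finset.mem_filter] at h6
    exact h6.2.2.2

/-- The segments are contained in the arcs of the second cutting. -/
lemma io_i2 (hT : HT G A r ι₁ M ι₂) {a b : H} (ha : a ∈ dts G A) (hb : b ∈ dts G A)
    (h : G.base a = G.base b) (he : io G A ι₁ M ι₂ a = io G A ι₁ M ι₂ b) : ι₂ a = ι₂ b := by
  rcases le_total (pos G a) (pos G b) with h1 | h1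
  · exact (io_eq hT ha hb h h1 he).1
  · exact (io_eq hT hb ha h.symm h1 he.symm).1.symm

lemma io_eq_of {a b : H} (h : G.base a = G.base b) (hp : pos G a ≤ pos G b) (h2 : ι₂ a = ι₂ b)
    (hS : ∀ c, G.base c = G.base b → RS G A ι₁ M ι₂ c → pos G c ≤ pos G b → pos G c ≤ pos G a)
    (hE : ∀ c, G.base c = G.base b → RE G A ι₁ M ι₂ c → pos G c < pos G b →
      pos G c < pos G a) : io G A ι₁ M ι₂ a = io G A ι₁ M ι₂ b := by
  have h4 : nS G A ι₁ M ι₂ a = nS G A ι₁ M ι₂ b := by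
    refine (nS_mono h hp).antisymm fun c hc => ?_
    rw [nS, Finset.mem_filter] at hc ⊢
    exact ⟨hc.1, hc.2.1.trans h.symm, hc.2.2.1, hS c hc.2.1 hc.2.2.1 hc.2.2.2⟩
  have h5 : nE G A ι₁ M ι₂ a = nE G A ι₁ M ι₂ b := by
    refine (nE_mono h hp).antisymm fun c hc => ?_
    rw [nE, Finset.mem_filter] at hc ⊢
    exact ⟨hc.1, hc.2.1.trans h.symm, hc.2.2.1, hE c hc.2.1 hc.2.2.1 hc.2.2.2⟩
  unfold io
  rw [h4, h5, h2]

/-! ### Strands of the first cutting are strands of the second one -/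

lemma al_of (hT : HT G A r ι₁ M ι₂) {h : H} (hh : h ∈ dts G A) (h2 : AL G ι₂ h) :
    AL G ι₁ h := by
  have h3 := mem_dts.1 hh
  exact ⟨h2.1, hT.ref _ (mem_dts.2 ⟨G.opp_mem h h3.1, h2.1 ▸ h3.2⟩) _ hh h2.1 h2.2⟩

lemma FS.expl (hT : HT G A r ι₁ M ι₂) {h : H} (hh : FS G A ι₁ h) :
    h ∈ (expl G M ι₂).darts :=
  mem_expl.2 ⟨(mem_dts.1 hh.1).1, fun h1 => hh.2 (al_of hT hh.1 h1)⟩

/-- Neighbours. -/
def Adj (G : RotGraph V H) (A : Finset V) (M : ℕ) (ι : H → ℕ) (a b : H) : Prop :=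
  PP G A M ι a b ∨ PP G A M ι b a

lemma Adj.symm {a b : H} (h : Adj G A M ι₂ a b) : Adj G A M ι₂ b a := Or.symm h

lemma PP.mems {a b : H} (h : PP G A M ι₂ a b) : a ∈ dts G A ∧ b ∈ dts G A ∧
    G.opp a ∈ dts G A ∧ G.opp b ∈ dts G A ∧ a ∈ (expl G M ι₂).darts ∧
    b ∈ (expl G M ι₂).darts := by
  obtain ⟨⟨h1, h2, h3, -⟩, ⟨h4, h5, h6, -⟩, -⟩ := h
  have h1' := mem_expl.1 h1
  have h4' := mem_expl.1 h4
  rw [arcs, Finset.mem_product] at h2 h3 h5 h6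
  exact ⟨mem_dts.2 ⟨h1'.1, h2.1⟩, mem_dts.2 ⟨h4'.1, h5.1⟩, mem_dts.2 ⟨G.opp_mem _ h1'.1, h3.1⟩,
    mem_dts.2 ⟨G.opp_mem _ h4'.1, h6.1⟩, h1, h4⟩

lemma PP.eqs {a b : H} (h : PP G A M ι₂ a b) : G.base b = G.base a ∧ ι₂ b = ι₂ a ∧
    G.base (G.opp b) = G.base (G.opp a) ∧ ι₂ (G.opp b) = ι₂ (G.opp a) := by
  obtain ⟨-, -, h1, h2, -⟩ := h
  exact ⟨congrArg Prod.fst h1, congrArg Prod.snd h1, congrArg Prod.fst h2, congrArg Prod.snd h2⟩

lemma PP.ne {a b : H} (h : PP G A M ι₂ a b) :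
    (G.base (G.opp a), ι₂ (G.opp a)) ≠ (G.base a, ι₂ a) := h.1.2.2.2

lemma PP.lt {a b : H} (h : PP G A M ι₂ a b) : pos G a < pos G b := by
  obtain ⟨h1, -, -, -, h3, h4⟩ := h.mems
  have h5 := h.eqs
  refine expl_lt_imp h3 h4 h5.1.symm h5.2.1.symm ?_
  have h6 : pos (expl G M ι₂) b = pos (expl G M ι₂) a + 1 := h.2.2.2.2.1
  omega

/-- No strand between parallel neighbours. -/
lemma PP.between {a b g : H} (h : PP G A M ι₂ a b) (hg : g ∈ (expl G M ι₂).darts)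
    (h1 : G.base g = G.base a) (h2 : ι₂ g = ι₂ a) (h3 : pos G a < pos G g) :
    pos G b ≤ pos G g := by
  obtain ⟨-, -, -, -, ha, hb⟩ := h.mems
  have h5 := h.eqs
  have h6 : pos (expl G M ι₂) b = pos (expl G M ι₂) a + 1 := h.2.2.2.2.1
  by_contra h7
  rw [not_le] at h7
  have h8 := (expl_lt_iff ha hg h1.symm h2.symm).2 h3
  have h9 := (expl_lt_iff hg hb (h1.trans h5.1.symm) (h2.trans h5.2.1.symm)).2 h7
  omega

lemma PP.oppA {a b : H} (h : PP G A M ι₂ a b) : Adj G A M ι₂ (G.opp a) (G.opp b) := by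
  obtain ⟨ha, hb, -, -, ha', hb'⟩ := h.mems
  have e1 : G.opp (G.opp a) = a := G.opp_opp a (mem_dts.1 ha).1
  have e2 : G.opp (G.opp b) = b := G.opp_opp b (mem_dts.1 hb).1
  obtain ⟨⟨i1, i2, i3, i4⟩, ⟨j1, j2, j3, j4⟩, h1, h2, h3, h4⟩ := h
  have ia : Inn (expl G M ι₂) (arcs A M) (G.opp a) := by
    refine ⟨(expl G M ι₂).opp_mem a i1, i3, ?_, ?_⟩
    · change (expl G M ι₂).base (G.opp (G.opp a)) ∈ _
      rw [e1]; exact i2
    · change (expl G M ι₂).base (G.opp (G.opp a)) ≠ _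
      rw [e1]; exact i4.symm
  have ib : Inn (expl G M ι₂) (arcs A M) (G.opp b) := by
    refine ⟨(expl G M ι₂).opp_mem b j1, j3, ?_, ?_⟩
    · change (expl G M ι₂).base (G.opp (G.opp b)) ∈ _
      rw [e2]; exact j2
    · change (expl G M ι₂).base (G.opp (G.opp b)) ≠ _
      rw [e2]; exact j4.symm
  rcases h4 with h4 | h4
  · left
    refine ⟨ia, ib, h2, ?_, h4, Or.inl ?_⟩
    · change (expl G M ι₂).base (G.opp (G.opp b)) = (expl G M ι₂).base (G.opp (G.opp a))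
      rw [e1, e2]; exact h1
    · change pos (expl G M ι₂) (G.opp (G.opp b)) = pos (expl G M ι₂) (G.opp (G.opp a)) + 1
      rw [e1, e2]; exact h3
  · right
    refine ⟨ib, ia, h2.symm, ?_, h4, Or.inr ?_⟩
    · change (expl G M ι₂).base (G.opp (G.opp a)) = (expl G M ι₂).base (G.opp (G.opp b))
      rw [e1, e2]; exact h1.symm
    · change pos (expl G M ι₂) (G.opp (G.opp b)) = pos (expl G M ι₂) (G.opp (G.opp a)) + 1
      rw [e1, e2]; exact h3

lemma PP.FS_iff (hT : HT G A r ι₁ M ι₂) {a b : H} (h : PP G A M ι₂ a b) :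
    FS G A ι₁ a ↔ FS G A ι₁ b := by
  obtain ⟨ha, hb, ha', hb', -⟩ := h.mems
  obtain ⟨e1, e2, e3, e4⟩ := h.eqs
  have f1 : ι₁ b = ι₁ a := hT.ref _ hb _ ha e1 e2
  have f2 : ι₁ (G.opp b) = ι₁ (G.opp a) := hT.ref _ hb' _ ha' e3 e4
  unfold FS AL
  rw [e1, e3, f1, f2]
  exact ⟨fun h => ⟨hb, h.2⟩, fun h => ⟨ha, h.2⟩⟩

/-- Parallel neighbours are in the same segment. -/
lemma PP.seg (hT : HT G A r ι₁ M ι₂) {a b : H} (h : PP G A M ι₂ a b) :
    io G A ι₁ M ι₂ a = io G A ι₁ M ι₂ b := by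
  obtain ⟨ha, hb, -, -, ha', hb'⟩ := h.mems
  obtain ⟨e1, e2, e3, e4⟩ := h.eqs
  refine io_eq_of e1.symm h.lt.le e2.symm (fun c hc hS hcb => ?_) (fun c hc hS hcb => ?_)
  · by_contra h1
    rw [not_le] at h1
    have h2 : ι₂ c = ι₂ a := le_antisymm
      ((hT.c2.mono c hS.1.1 b hb hc hcb).trans e2.le)
      (hT.c2.mono a ha c hS.1.1 (e1.symm.trans hc.symm) h1.le)
    have h3 := h.between (hS.1.expl hT) (hc.trans e1) h2 h1
    have h4 : c = b := pos_inj (mem_dts.1 hS.1.1).1 (mem_dts.1 hb).1 hc (le_antisymm hcb h3)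
    subst h4
    exact hS.2 ⟨a, h⟩
  · by_contra h1
    rw [not_lt] at h1
    have h2 : ι₂ c = ι₂ a := le_antisymm
      ((hT.c2.mono c hS.1.1 b hb hc hcb.le).trans e2.le)
      (hT.c2.mono a ha c hS.1.1 (e1.symm.trans hc.symm) h1)
    rcases h1.eq_or_lt with h1 | h1
    · have h4 : a = c := pos_inj (mem_dts.1 ha).1 (mem_dts.1 hS.1.1).1 (e1.symm.trans hc.symm) h1
      subst h4
      exact hS.2 ⟨b, h⟩
    · have h3 := h.between (hS.1.expl hT) (hc.trans e1) h2 h1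
      omega

/-- The half-edge `h` is between `a` and `b`. -/
def Btw (G : RotGraph V H) (a b h : H) : Prop := G.base h = G.base a ∧
  (pos G a < pos G h ∧ pos G h < pos G b ∨ pos G b < pos G h ∧ pos G h < pos G a)

lemma Adj.eqs {a b : H} (h : Adj G A M ι₂ a b) : G.base b = G.base a ∧ ι₂ b = ι₂ a := by
  rcases h with h | h
  · exact ⟨h.eqs.1, h.eqs.2.1⟩
  · exact ⟨h.eqs.1.symm, h.eqs.2.1.symm⟩

lemma Adj.seg (hT : HT G A r ι₁ M ι₂) {a b : H} (h : Adj G A M ι₂ a b) :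
    io G A ι₁ M ι₂ a = io G A ι₁ M ι₂ b := by
  rcases h with h | h
  · exact h.seg hT
  · exact (h.seg hT).symm

lemma Adj.oppA {a b : H} (h : Adj G A M ι₂ a b) : Adj G A M ι₂ (G.opp a) (G.opp b) := by
  rcases h with h | h
  · exact h.oppA
  · exact h.oppA.symm

lemma Adj.FS_iff (hT : HT G A r ι₁ M ι₂) {a b : H} (h : Adj G A M ι₂ a b) :
    FS G A ι₁ a ↔ FS G A ι₁ b := by
  rcases h with h | h
  · exact h.FS_iff hT
  · exact (h.FS_iff hT).symm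

/-- The gap between parallel neighbours is closed. -/
lemma PP.gap (hT : HT G A r ι₁ M ι₂) {a b h : H} (hab : PP G A M ι₂ a b) (ha : FS G A ι₁ a)
    (hh : h ∈ dts G A) (h0 : G.base h = G.base a) (h1 : pos G a < pos G h)
    (h2 : pos G h < pos G b) : AL G ι₂ h ∧ G.base (G.opp h) = G.base a ∧
      pos G a < pos G (G.opp h) ∧ pos G (G.opp h) < pos G b := by
  obtain ⟨da, db, -, -, ha', hb'⟩ := hab.mems
  obtain ⟨e1, e2, e3, e4⟩ := hab.eqs
  have hb := (hab.FS_iff hT).1 ha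
  have i2 : ι₂ h = ι₂ a := le_antisymm
    ((hT.c2.mono h hh b db (h0.trans e1.symm) h2.le).trans e2.le)
    (hT.c2.mono a da h hh h0.symm h1.le)
  have hal : AL G ι₂ h := by
    by_contra h3
    have h4 := hab.between (mem_expl.2 ⟨(mem_dts.1 hh).1, h3⟩) h0 i2 h1
    omega
  have ho : G.opp h ∈ dts G A := mem_dts.2 ⟨G.opp_mem _ (mem_dts.1 hh).1,
    hal.1 ▸ (mem_dts.1 hh).2⟩
  have hoo : G.opp (G.opp h) = h := G.opp_opp _ (mem_dts.1 hh).1
  have hal' : AL G ι₂ (G.opp h) := (al_opp (mem_dts.1 hh).1).2 hal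
  have n1 : ¬ pos G (G.opp h) < pos G a := by
    intro h3
    refine hT.nop (G.opp h) ho a da (h0.symm.trans hal.1.symm) (i2.symm.trans hal.2.symm) hal'
      ha.2 ⟨h3, ?_⟩
    rw [hoo]; exact h1
  have n2 : ¬ pos G b < pos G (G.opp h) := by
    intro h3
    exact hT.nop h hh b db (e1.trans h0.symm) (e2.trans i2.symm) hal hb.2 ⟨h2, h3⟩
  have n3 : pos G (G.opp h) ≠ pos G a := by
    intro h3
    have h4 := pos_inj (mem_dts.1 ho).1 (mem_dts.1 da).1 (hal.1.trans h0) h3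
    rw [h4] at hal'
    exact (mem_expl.1 ha').2 hal'
  have n4 : pos G (G.opp h) ≠ pos G b := by
    intro h3
    have h4 := pos_inj (mem_dts.1 ho).1 (mem_dts.1 db).1 (hal.1.trans (h0.trans e1.symm)) h3
    rw [h4] at hal'
    exact (mem_expl.1 hb').2 hal'
  exact ⟨hal, hal.1.trans h0, by omega, by omega⟩

lemma Adj.gap (hT : HT G A r ι₁ M ι₂) {a b h : H} (hab : Adj G A M ι₂ a b) (ha : FS G A ι₁ a)
    (hh : h ∈ dts G A) (hb : Btw G a b h) : AL G ι₂ h ∧ Btw G a b (G.opp h) ∧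
      G.opp h ∈ dts G A ∧ io G A ι₁ M ι₂ h = io G A ι₁ M ι₂ a := by
  have key : AL G ι₂ h ∧ Btw G a b (G.opp h) := by
    rcases hab with hab | hab
    · have h1 : ¬ (pos G b < pos G h ∧ pos G h < pos G a) := by
        have := hab.lt
        omega
      rcases hb with ⟨h0, h2 | h2⟩
      · obtain ⟨g1, g2, g3, g4⟩ := hab.gap hT ha hh h0 h2.1 h2.2
        exact ⟨g1, g2, Or.inl ⟨g3, g4⟩⟩
      · exact absurd h2 h1
    · have h1 : ¬ (pos G a < pos G h ∧ pos G h < pos G b) := by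
        have := hab.lt
        omega
      rcases hb with ⟨h0, h2 | h2⟩
      · exact absurd h2 h1
      · obtain ⟨g1, g2, g3, g4⟩ := hab.gap hT ((hab.FS_iff hT).2 ha) hh
          (h0.trans hab.eqs.1) h2.1 h2.2
        exact ⟨g1, g2.trans hab.eqs.1.symm, Or.inr ⟨g3, g4⟩⟩
  refine ⟨key.1, key.2, mem_dts.2 ⟨G.opp_mem _ (mem_dts.1 hh).1, key.1.1 ▸ (mem_dts.1 hh).2⟩, ?_⟩
  have h5 := hab.seg hT
  have h6 := ((hab.FS_iff hT).1 ha).1
  have h7 := hab.eqs.1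
  rcases hb with ⟨h0, h2 | h2⟩
  · have g1 := io_mono hT ha.1 hh h0.symm h2.1.le
    have g2 := io_mono hT hh h6 (h0.trans h7.symm) h2.2.le
    omega
  · have g1 := io_mono hT h6 hh (h7.trans h0.symm) h2.1.le
    have g2 := io_mono hT hh ha.1 h0 h2.2.le
    omega

end

end RotWqo.Hk.Tree6
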