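import Pool.Agent.Lib.MP_cb4a0f_co.Hk.TreeA6

/-!
# MP_cb4a0f_co: the segment carving of the structure theorem
-/

open Classical

namespace RotWqo.Hk.Tree6

open RotWqo.Bag

/-! ### Trees -/

section
variable {H : Type*}

/-- The part of a tree with leaves in a given set. -/
lemma restrict_tree (p : H → Prop) (t : Tree H) : t.leaves.filter (fun h => p h) = [] ∨
    ∃ t' : Tree H, t'.leaves = t.leaves.filter (fun h => p h) ∧
      ∀ s', IsSub s' t' → ∃ s, IsSub s t ∧ s'.leaves = s.leaves.filter (fun h => p h) := by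
  induction t with
  | leaf h =>
    by_cases hp : p h
    · right
      refine ⟨.leaf h, ?_, ?_⟩
      · simp [Tree.leaves, hp]
      · intro s' hs'
        cases hs'
        exact ⟨.leaf h, IsSub.refl, by simp [Tree.leaves, hp]⟩
    · left
      simp [Tree.leaves, hp]
  | node a b iha ihb =>
    rcases iha with ha | ⟨a', ha1, ha2⟩
    · rcases ihb with hb | ⟨b', hb1, hb2⟩
      · left
        simp only [Tree.leaves, List.filter_append, ha, hb, List.append_nil]
      · right
        refine ⟨b', ?_, ?_⟩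
        · simp only [Tree.leaves, List.filter_append, ha, List.nil_append, hb1]
        · intro s' hs'
          obtain ⟨s, h1, h2⟩ := hb2 s' hs'
          exact ⟨s, IsSub.right _ _ h1, h2⟩
    · rcases ihb with hb | ⟨b', hb1, hb2⟩
      · right
        refine ⟨a', ?_, ?_⟩
        · simp only [Tree.leaves, List.filter_append, hb, List.append_nil, ha1]
        · intro s' hs'
          obtain ⟨s, h1, h2⟩ := ha2 s' hs'
          exact ⟨s, IsSub.left _ _ h1, h2⟩
      · right
        refine ⟨.node a' b', ?_, ?_⟩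
        · simp only [Tree.leaves, List.filter_append, ha1, hb1]
        · intro s' hs'
          cases hs' with
          | refl =>
            exact ⟨.node a b, IsSub.refl, by simp only [Tree.leaves, List.filter_append, ha1, hb1]⟩
          | left _ _ h =>
            obtain ⟨s, h1, h2⟩ := ha2 s' h
            exact ⟨s, IsSub.left _ _ h1, h2⟩
          | right _ _ h =>
            obtain ⟨s, h1, h2⟩ := hb2 s' h
            exact ⟨s, IsSub.right _ _ h1, h2⟩

/-- `X` is empty or the set of leaves of a tree all of whose nodes have the property `P`. -/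
def Car (P : Finset H → Prop) (X : Finset H) : Prop :=
  X = ∅ ∨ ∃ t : Tree H, t.leaves.Nodup ∧ t.set = X ∧ ∀ s, IsSub s t → P s.set

lemma Car.single {P : Finset H → Prop} {h : H} (hP : P {h}) : Car P {h} := by
  refine Or.inr ⟨.leaf h, by simp [Tree.leaves], by simp [Tree.set, Tree.leaves], ?_⟩
  intro s hs
  cases hs
  simpa [Tree.set, Tree.leaves] using hP

lemma Car.union {P : Finset H → Prop} {X Y : Finset H} (hX : Car P X) (hY : Car P Y)
    (hd : Disjoint X Y) (hP : P (X ∪ Y)) : Car P (X ∪ Y) := by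
  rcases hX with hX | ⟨t, h1, h2, h3⟩
  · subst hX
    rwa [Finset.empty_union]
  rcases hY with hY | ⟨t', h1', h2', h3'⟩
  · subst hY
    rw [Finset.union_empty]
    exact Or.inr ⟨t, h1, h2, h3⟩
  have h4 : (Tree.node t t').set = X ∪ Y := by
    rw [← h2, ← h2']
    simp [Tree.set, Tree.leaves, List.toFinset_append]
  refine Or.inr ⟨.node t t', ?_, h4, ?_⟩
  · rw [Tree.leaves, List.nodup_append]
    refine ⟨h1, h1', fun a ha b hb hab => ?_⟩
    subst hab
    refine (Finset.disjoint_left.1 hd) (a := a) ?_ ?_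
    · rw [← h2]; exact List.mem_toFinset.2 ha
    · rw [← h2']; exact List.mem_toFinset.2 hb
  · intro s hs
    cases hs with
    | refl => rw [h4]; exact hP
    | left _ _ h => exact h3 s h
    | right _ _ h => exact h3' s h

lemma Car.restrict {P Q : Finset H → Prop} {X : Finset H} (hX : Car P X) (p : H → Prop)
    {X' : Finset H} (hX' : ∀ a, a ∈ X' ↔ a ∈ X ∧ p a)
    (hP : ∀ Y, Y ⊆ X → P Y → ∀ Y' : Finset H, (∀ a, a ∈ Y' ↔ a ∈ Y ∧ p a) → Q Y') :
    Car Q X' := by
  rcases hX with hX | ⟨t, h1, h2, h3⟩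
  · subst hX
    refine Or.inl (Finset.eq_empty_of_forall_notMem fun a ha => ?_)
    exact Finset.notMem_empty a ((hX' a).1 ha).1
  have h5 : ∀ s s' : Tree H, s'.leaves = s.leaves.filter (fun h => p h) →
      ∀ a, a ∈ s'.set ↔ a ∈ s.set ∧ p a := by
    intro s s' h a
    rw [Tree.set, List.mem_toFinset, h, List.mem_filter, Tree.set, List.mem_toFinset,
      decide_eq_true_eq]
  rcases restrict_tree p t with h4 | ⟨t', h4, h6⟩
  · refine Or.inl (Finset.eq_empty_of_forall_notMem fun a ha => ?_)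
    have h7 := (hX' a).1 ha
    rw [← h2, Tree.set, List.mem_toFinset] at h7
    have h9 : a ∈ t.leaves.filter (fun h => p h) :=
      List.mem_filter.2 ⟨h7.1, decide_eq_true h7.2⟩
    rw [h4] at h9
    exact absurd h9 List.not_mem_nil
  · refine Or.inr ⟨t', ?_, ?_, ?_⟩
    · rw [h4]; exact h1.filter _
    · ext a
      rw [h5 t t' h4, h2, hX']
    · intro s' hs'
      obtain ⟨s, h7, h8⟩ := h6 s' hs'
      refine hP _ ?_ (h3 s h7) _ (h5 s s' h8)
      rw [← h2]
      exact h7.set_subset

end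

/-! ### Convex and closed sets -/

section
variable {V H : Type*} {G : RotGraph V H} {A : Finset V} {r : ℕ} {ι₁ : H → ℕ} {M : ℕ}
  {ι₂ : H → ℕ} {ι : H → ℕ} {w : ℕ}

/-- Consecutive in each segment. -/
def Conv (G : RotGraph V H) (A : Finset V) (ι : H → ℕ) (X : Finset H) : Prop :=
  ∀ a ∈ X, ∀ c ∈ X, ∀ b ∈ dts G A, G.base a = G.base b → G.base c = G.base b →
    ι a = ι b → ι c = ι b → pos G a ≤ pos G b → pos G b ≤ pos G c → b ∈ X

/-- The condition at a node. -/
def Nd (G : RotGraph V H) (A : Finset V) (ι : H → ℕ) (w : ℕ) (X : Finset H) : Prop :=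
  Conv G A ι X ∧ (X.filter (fun h => G.opp h ∉ X)).card ≤ w

/-- A union of segments. -/
def Sat (G : RotGraph V H) (A : Finset V) (ι : H → ℕ) (X : Finset H) : Prop :=
  X ⊆ dts G A ∧ ∀ a ∈ X, ∀ b ∈ dts G A, G.base a = G.base b → ι a = ι b → b ∈ X

/-- Closed up to legs. -/
def Cl (G : RotGraph V H) (A : Finset V) (X : Finset H) : Prop :=
  ∀ h ∈ X, G.base (G.opp h) ∈ A → G.opp h ∈ X

lemma Sat.conv {X : Finset H} (h : Sat G A ι X) : Conv G A ι X :=
  fun a ha _ _ b hb h1 _ h3 _ _ _ => h.2 a ha b hb h1 h3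

lemma Cl.out {X : Finset H} (h : Cl G A X) (hX : X ⊆ dts G A) :
    (X.filter (fun h => G.opp h ∉ X)).card ≤ cut G A := by
  refine Finset.card_le_card fun a ha => ?_
  rw [Finset.mem_filter] at ha
  have h1 := mem_dts.1 (hX ha.1)
  exact Finset.mem_filter.2 ⟨h1.1, h1.2, fun h2 => ha.2 (h a ha.1 h2)⟩

/-- If every half-edge is in a block, then there is a carving. -/
lemma car_of_blocks (hw : cut G A ≤ w)
    (hb : ∀ h ∈ dts G A, ∃ X, h ∈ X ∧ Sat G A ι X ∧ Cl G A X ∧ Car (Nd G A ι w) X) :
    Car (Nd G A ι w) (dts G A) := by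
  have key : ∀ n, ∃ X, Sat G A ι X ∧ Cl G A X ∧ Car (Nd G A ι w) X ∧
      (X = dts G A ∨ n ≤ X.card) := by
    intro n
    induction n with
    | zero =>
      exact ⟨∅, ⟨by simp, by simp⟩, by intro h hh; simp at hh, Or.inl rfl, Or.inr (Nat.zero_le _)⟩
    | succ n ih =>
      obtain ⟨X, h1, h2, h3, h4⟩ := ih
      rcases h4 with h4 | h4
      · exact ⟨X, h1, h2, h3, Or.inl h4⟩
      by_cases h5 : X = dts G A
      · exact ⟨X, h1, h2, h3, Or.inl h5⟩
      obtain ⟨h, h6, h7⟩ : ∃ h ∈ dts G A, h ∉ X := by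
        by_contra h6
        push Not at h6
        exact h5 (h1.1.antisymm h6)
      obtain ⟨Y, g1, g2, g3, g4⟩ := hb h h6
      have hsat : Sat G A ι (X ∪ Y) := by
        refine ⟨Finset.union_subset h1.1 g2.1, fun a ha b hb' e1 e2 => ?_⟩
        rcases Finset.mem_union.1 ha with ha | ha
        · exact Finset.mem_union_left _ (h1.2 a ha b hb' e1 e2)
        · exact Finset.mem_union_right _ (g2.2 a ha b hb' e1 e2)
      have hcl : Cl G A (X ∪ Y) := by
        intro a ha e1
        rcases Finset.mem_union.1 ha with ha | ha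
        · exact Finset.mem_union_left _ (h2 a ha e1)
        · exact Finset.mem_union_right _ (g3 a ha e1)
      have g5 : Car (Nd G A ι w) (Y \ X) := by
        refine g4.restrict (fun a => a ∉ X) (fun a => Finset.mem_sdiff) fun Z hZ hN Z' hZ' =>
          ⟨?_, ?_⟩
        · intro a ha c hc b hb' e1 e2 e3 e4 e5 e6
          rw [hZ'] at ha hc ⊢
          refine ⟨hN.1 a ha.1 c hc.1 b hb' e1 e2 e3 e4 e5 e6, fun hX => ha.2 ?_⟩
          exact h1.2 b hX a (g2.1 (hZ ha.1)) e1.symm e3.symm
        · refine le_trans (Finset.card_le_card fun a ha => ?_) hN.2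
          rw [Finset.mem_filter, hZ', hZ'] at ha
          rw [Finset.mem_filter]
          refine ⟨ha.1.1, fun hop => ha.2 ⟨hop, fun hX => ha.1.2 ?_⟩⟩
          have h8 := mem_dts.1 (g2.1 (hZ ha.1.1))
          have h9 := h2 _ hX (by rw [G.opp_opp a h8.1]; exact h8.2)
          rwa [G.opp_opp a h8.1] at h9
      have g6 : X ∪ Y \ X = X ∪ Y := Finset.union_sdiff_self_eq_union
      refine ⟨X ∪ Y, hsat, hcl, ?_, Or.inr ?_⟩
      · rw [← g6]
        refine h3.union g5 ?_ ?_
        · exact Finset.disjoint_sdiff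
        · rw [g6]
          exact ⟨hsat.conv, (hcl.out hsat.1).trans hw⟩
      · have h10 : X ⊂ X ∪ Y := by
          rw [Finset.ssubset_iff_of_subset Finset.subset_union_left]
          exact ⟨h, Finset.mem_union_right _ g1, h7⟩
        have h11 := Finset.card_lt_card h10
        omega
  obtain ⟨X, h1, h2, h3, h4⟩ := key ((dts G A).card + 1)
  rcases h4 with h4 | h4
  · rwa [h4] at h3
  · have h5 := Finset.card_le_card h1.1
    omega

lemma Conv.union {X I : Finset H} {f : H} (hX : Conv G A ι X) (hI : Conv G A ι I) (hf : f ∈ X)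
    (hf' : f ∈ I) (hs : ∀ a ∈ I, G.base a = G.base f ∧ ι a = ι f) :
    Conv G A ι (X ∪ I) := by
  intro a ha c hc b hb e1 e2 e3 e4 e5 e6
  rw [Finset.mem_union] at ha hc ⊢
  rcases ha with ha | ha
  · rcases hc with hc | hc
    · exact Or.inl (hX a ha c hc b hb e1 e2 e3 e4 e5 e6)
    · have h1 := hs c hc
      rcases le_total (pos G f) (pos G b) with h2 | h2
      · exact Or.inr (hI f hf' c hc b hb (h1.1.symm.trans e2) e2 (h1.2.symm.trans e4) e4 h2 e6)
      · exact Or.inl (hX a ha f hf b hb e1 (h1.1.symm.trans e2) e3 (h1.2.symm.trans e4) e5 h2)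
  · rcases hc with hc | hc
    · have h1 := hs a ha
      rcases le_total (pos G f) (pos G b) with h2 | h2
      · exact Or.inl (hX f hf c hc b hb (h1.1.symm.trans e1) e2 (h1.2.symm.trans e3) e4 h2 e6)
      · exact Or.inr (hI a ha f hf' b hb e1 (h1.1.symm.trans e1) e3 (h1.2.symm.trans e3) e5 h2)
    · exact Or.inr (hI a ha c hc b hb e1 e2 e3 e4 e5 e6)

end

end RotWqo.Hk.Tree6
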