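import Pool.Agent.Lib.MP_cb4a0f_co.Hk.TreeB6

/-!
# MP_cb4a0f_co: the blocks of the segment carving
-/

open Classical

namespace RotWqo.Hk.Tree6

open RotWqo.Bag

section
variable {V H : Type*} {G : RotGraph V H} {A : Finset V} {r : ℕ} {ι₁ : H → ℕ} {M : ℕ}
  {ι₂ : H → ℕ} {ι : H → ℕ} {w : ℕ}

/-- A strand in the segment of `g` on one side of it gives parallel strands around `g`. -/
lemma exists_adj_around (hT : HT G A r ι₁ M ι₂) {e g : H} (he : FS G A ι₁ e)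
    (hg : g ∈ dts G A) (hgn : ¬ FS G A ι₁ g) (h1 : G.base e = G.base g)
    (h2 : io G A ι₁ M ι₂ e = io G A ι₁ M ι₂ g) :
    ∃ a b, FS G A ι₁ a ∧ FS G A ι₁ b ∧ Adj G A M ι₂ a b ∧ Btw G a b g ∧
      G.base a = G.base g ∧ io G A ι₁ M ι₂ a = io G A ι₁ M ι₂ g := by
  rcases lt_trichotomy (pos G e) (pos G g) with h3 | h3 | h3
  · -- the last strand before `g`
    obtain ⟨f, hf, hmax⟩ := Finset.exists_max_image
      ((dts G A).filter (fun f => FS G A ι₁ f ∧ G.base f = G.base g ∧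
        io G A ι₁ M ι₂ f = io G A ι₁ M ι₂ g ∧ pos G f < pos G g)) (fun f => pos G f)
      ⟨e, Finset.mem_filter.2 ⟨he.1, he, h1, h2, h3⟩⟩
    rw [Finset.mem_filter] at hf
    obtain ⟨f1, f2, f3, f4, f5⟩ := hf
    have h6 : ∃ b, PP G A M ι₂ f b := by
      by_contra h6
      have h7 := (io_eq hT f1 hg f3 f5.le f4).2.2 f f3 ⟨f2, h6⟩ f5
      exact lt_irrefl _ h7
    obtain ⟨b, hb⟩ := h6
    have hbF := (hb.FS_iff hT).1 f2
    refine ⟨f, b, f2, hbF, Or.inl hb, ⟨f3.symm, Or.inl ⟨f5, ?_⟩⟩, f3, f4⟩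
    by_contra h7
    rw [not_lt] at h7
    rcases h7.eq_or_lt with h7 | h7
    · have h8 : b = g := pos_inj (mem_dts.1 hbF.1).1 (mem_dts.1 hg).1 (hb.eqs.1.trans f3) h7
      exact hgn (h8 ▸ hbF)
    · have h8 := hmax b (Finset.mem_filter.2 ⟨hbF.1, hbF, hb.eqs.1.trans f3,
        (hb.seg hT).symm.trans f4, h7⟩)
      exact absurd hb.lt (not_lt.2 h8)
  · exact absurd (pos_inj (mem_dts.1 he.1).1 (mem_dts.1 hg).1 h1 h3 ▸ he) hgn
  · obtain ⟨f, hf, hmin⟩ := Finset.exists_min_image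
      ((dts G A).filter (fun f => FS G A ι₁ f ∧ G.base f = G.base g ∧
        io G A ι₁ M ι₂ f = io G A ι₁ M ι₂ g ∧ pos G g < pos G f)) (fun f => pos G f)
      ⟨e, Finset.mem_filter.2 ⟨he.1, he, h1, h2, h3⟩⟩
    rw [Finset.mem_filter] at hf
    obtain ⟨f1, f2, f3, f4, f5⟩ := hf
    have h6 : ∃ b, PP G A M ι₂ b f := by
      by_contra h6
      have h7 := (io_eq hT hg f1 f3.symm f5.le f4.symm).2.1 f rfl ⟨f2, h6⟩ le_rfl
      omega
    obtain ⟨b, hb⟩ := h6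
    have hbF := (hb.FS_iff hT).2 f2
    refine ⟨f, b, f2, hbF, Or.inr hb, ⟨f3.symm, Or.inr ⟨?_, f5⟩⟩, f3, f4⟩
    by_contra h7
    rw [not_lt] at h7
    rcases h7.eq_or_lt with h7 | h7
    · have h8 : g = b := pos_inj (mem_dts.1 hg).1 (mem_dts.1 hbF.1).1
        (f3.symm.trans hb.eqs.1) h7
      exact hgn (h8 ▸ hbF)
    · have h8 := hmin b (Finset.mem_filter.2 ⟨hbF.1, hbF, hb.eqs.1.symm.trans f3,
        (hb.seg hT).trans f4, h7⟩)
      exact absurd hb.lt (not_lt.2 h8)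

lemma conv_single {g : H} (hg : g ∈ dts G A) : Conv G A ι {g} := by
  intro a ha c hc b hb e1 e2 e3 e4 e5 e6
  rw [Finset.mem_singleton] at ha hc ⊢
  subst ha
  subst hc
  exact (pos_inj (mem_dts.1 hg).1 (mem_dts.1 hb).1 e1 (le_antisymm e5 e6)).symm

lemma nd_single {g : H} (hg : g ∈ dts G A) (hw : 1 ≤ w) : Nd G A ι w {g} :=
  ⟨conv_single hg, (Finset.card_filter_le _ _).trans (by simpa using hw)⟩

/-! ### Legs -/

lemma leg_FS {h : H} (hh : h ∈ dts G A) (hl : G.base (G.opp h) ∉ A) : FS G A ι₁ h :=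
  ⟨hh, fun h1 => hl (h1.1 ▸ (mem_dts.1 hh).2)⟩

lemma leg_sat (hT : HT G A r ι₁ M ι₂) {h : H} (hh : h ∈ dts G A)
    (hl : G.base (G.opp h) ∉ A) : Sat G A (io G A ι₁ M ι₂) {h} := by
  refine ⟨Finset.singleton_subset_iff.2 hh, ?_⟩
  intro a ha b hb e1 e2
  rw [Finset.mem_singleton] at ha ⊢
  subst ha
  have hS : RS G A ι₁ M ι₂ a := ⟨leg_FS hh hl, fun ⟨a', h1⟩ => hl (mem_dts.1 h1.mems.2.2.2.1).2⟩
  have hE : RE G A ι₁ M ι₂ a := ⟨leg_FS hh hl, fun ⟨a', h1⟩ => hl (mem_dts.1 h1.mems.2.2.1).2⟩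
  rcases lt_trichotomy (pos G a) (pos G b) with h3 | h3 | h3
  · have h4 := (io_eq hT hh hb e1 h3.le e2).2.2 a e1 hE h3
    omega
  · exact (pos_inj (mem_dts.1 hh).1 (mem_dts.1 hb).1 e1 h3).symm
  · have h4 := (io_eq hT hb hh e1.symm h3.le e2.symm).2.1 a rfl hS le_rfl
    omega

lemma leg_block (hT : HT G A r ι₁ M ι₂) (hw : 1 ≤ w) {h : H} (hh : h ∈ dts G A)
    (hl : G.base (G.opp h) ∉ A) : Sat G A (io G A ι₁ M ι₂) {h} ∧ Cl G A {h} ∧
      Car (Nd G A (io G A ι₁ M ι₂) w) {h} := by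
  refine ⟨leg_sat hT hh hl, ?_, Car.single (nd_single hh hw)⟩
  intro a ha h1
  rw [Finset.mem_singleton] at ha
  subst ha
  exact absurd h1 hl

/-! ### Closed parts of the tame arcs -/

/-- Closed. -/
def Clo (G : RotGraph V H) (X : Finset H) : Prop := ∀ h ∈ X, G.opp h ∈ X

lemma car_of_tame {θ i : ℕ} {x : V} (hθ : Tame θ G x (arc G ι₁ x i) (arc G ι₁ x i))
    (hw : θ ≤ w) {D : Finset H} (hD : D ⊆ arc G ι₁ x i) (hc : Clo G D) (hcv : Conv G A ι D) :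
    Car (Nd G A ι w) D := by
  obtain ⟨t, h1, h2, h3⟩ := hθ
  have h4 : Car (fun Y => IsInt G x Y ∧ fcut G (arc G ι₁ x i) Y ≤ θ) (arc G ι₁ x i) :=
    Or.inr ⟨t, h1, h2, h3⟩
  refine h4.restrict (fun a => a ∈ D) (fun a => ⟨fun h => ⟨hD h, h⟩, fun h => h.2⟩) ?_
  rintro Y hY ⟨h5, h6⟩ Y' hY'
  refine ⟨?_, le_trans (Finset.card_le_card fun a ha => ?_) (h6.trans hw)⟩
  · intro a ha c hc' b hb e1 e2 e3 e4 e5 e6
    rw [hY'] at ha hc' ⊢
    refine ⟨h5.2 a ha.1 c hc'.1 b (mem_dts.1 hb).1 ?_ e5 e6,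
      hcv a ha.2 c hc'.2 b hb e1 e2 e3 e4 e5 e6⟩
    rw [← e1]
    exact (h5.1 a ha.1).2
  · rw [Finset.mem_filter, hY', hY'] at ha
    rw [Finset.mem_filter]
    have h7 := hc a ha.1.2
    exact ⟨ha.1.1, hD h7, fun h8 => ha.2 ⟨h8, h7⟩⟩

/-! ### The half-edges in segments without strands -/

lemma c_block (hT : HT G A r ι₁ M ι₂) {θ : ℕ}
    (hθ : ∀ x ∈ A, ∀ i, (arc G ι₁ x i).Nonempty → Tame θ G x (arc G ι₁ x i) (arc G ι₁ x i))
    (hw : θ ≤ w) {g : H} (hg : g ∈ dts G A)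
    (hn : ∀ e, FS G A ι₁ e → G.base e = G.base g → io G A ι₁ M ι₂ e ≠ io G A ι₁ M ι₂ g) :
    ∃ X, g ∈ X ∧ Sat G A (io G A ι₁ M ι₂) X ∧ Cl G A X ∧
      Car (Nd G A (io G A ι₁ M ι₂) w) X := by
  set X := (dts G A).filter (fun h => G.base h = G.base g ∧ ι₁ h = ι₁ g ∧
    ∀ e, FS G A ι₁ e → G.base e = G.base h → io G A ι₁ M ι₂ e ≠ io G A ι₁ M ι₂ h) with hX
  have hmem : ∀ h, h ∈ X ↔ h ∈ dts G A ∧ G.base h = G.base g ∧ ι₁ h = ι₁ g ∧
      ∀ e, FS G A ι₁ e → G.base e = G.base h → io G A ι₁ M ι₂ e ≠ io G A ι₁ M ι₂ h := by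
    intro h
    rw [hX, Finset.mem_filter]
  have hsat : Sat G A (io G A ι₁ M ι₂) X := by
    refine ⟨Finset.filter_subset _ _, fun a ha b hb e1 e2 => ?_⟩
    rw [hmem] at ha ⊢
    obtain ⟨a1, a2, a3, a4⟩ := ha
    refine ⟨hb, e1.symm.trans a2, ?_, fun e h1 h2 h3 => ?_⟩
    · rw [← a3]
      exact hT.ref _ hb _ a1 e1.symm (io_i2 hT a1 hb e1 e2).symm
    · exact a4 e h1 (h2.trans e1.symm) (h3.trans e2.symm)
  have hclo : Clo G X := by
    intro h hh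
    rw [hmem] at hh ⊢
    obtain ⟨a1, a2, a3, a4⟩ := hh
    have a1' := mem_dts.1 a1
    have hal : AL G ι₁ h := by
      by_contra h1
      exact a4 h ⟨a1, h1⟩ rfl rfl
    have ho : G.opp h ∈ dts G A := mem_dts.2 ⟨G.opp_mem _ a1'.1, hal.1 ▸ a1'.2⟩
    have hoo : G.opp (G.opp h) = h := G.opp_opp h a1'.1
    refine ⟨ho, hal.1.trans a2, hal.2.trans a3, fun e h1 h2 h3 => ?_⟩
    obtain ⟨a, b, b1, b2, b3, b4, b5, b6⟩ := exists_adj_around hT h1 ho
      (fun h4 => h4.2 ((al_opp a1'.1).2 hal)) h2 h3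
    have h5 := (b3.gap hT b1 ho b4).2.1
    rw [hoo] at h5
    have h6 := (b3.gap hT b1 a1 h5).2.2.2
    exact a4 a b1 (b5.trans hal.1) h6.symm
  have hgX : g ∈ X := (hmem g).2 ⟨hg, rfl, rfl, hn⟩
  refine ⟨X, hgX, hsat, fun h hh _ => hclo h hh, ?_⟩
  have hsub : X ⊆ arc G ι₁ (G.base g) (ι₁ g) := by
    intro h hh
    rw [hmem] at hh
    exact Finset.mem_filter.2 ⟨(mem_dts.1 hh.1).1, hh.2.1, hh.2.2.1⟩
  exact car_of_tame (hθ _ (mem_dts.1 hg).2 _ ⟨g, hsub hgX⟩) hw hsub hclo hsat.conv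

/-! ### Pairs of opposite runs -/

/-- What is kept during the construction. -/
structure Inv (G : RotGraph V H) (A : Finset V) (ι : H → ℕ) (w : ℕ) (Y : Finset H) : Prop where
  sub : Y ⊆ dts G A
  conv : Conv G A ι Y
  clo : Clo G Y
  car : Car (Nd G A ι w) Y

lemma out_zero {Y : Finset H} (h : Clo G Y) : (Y.filter (fun h => G.opp h ∉ Y)).card ≤ w := by
  rw [Finset.filter_false_of_mem fun a ha => not_not.2 (h a ha)]
  simp

/-- The interval from `f` (included) to `f'` (excluded). -/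
noncomputable def I1 (G : RotGraph V H) (A : Finset V) (f f' : H) : Finset H :=
  (dts G A).filter (fun h => G.base h = G.base f ∧
    (pos G f ≤ pos G h ∧ pos G h < pos G f' ∨ pos G f' < pos G h ∧ pos G h ≤ pos G f))

/-- The interval from `f` (included) to `f'` (included). -/
noncomputable def I3 (G : RotGraph V H) (A : Finset V) (f f' : H) : Finset H :=
  (dts G A).filter (fun h => G.base h = G.base f ∧
    (pos G f ≤ pos G h ∧ pos G h ≤ pos G f' ∨ pos G f' ≤ pos G h ∧ pos G h ≤ pos G f))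

lemma mem_I1 {f f' h : H} : h ∈ I1 G A f f' ↔ h ∈ dts G A ∧ G.base h = G.base f ∧
    (pos G f ≤ pos G h ∧ pos G h < pos G f' ∨ pos G f' < pos G h ∧ pos G h ≤ pos G f) := by
  rw [I1, Finset.mem_filter]

lemma mem_I3 {f f' h : H} : h ∈ I3 G A f f' ↔ h ∈ dts G A ∧ G.base h = G.base f ∧
    (pos G f ≤ pos G h ∧ pos G h ≤ pos G f' ∨ pos G f' ≤ pos G h ∧ pos G h ≤ pos G f) := by
  rw [I3, Finset.mem_filter]

lemma I1_cases {f f' h : H} (hf : f ∈ dts G A) (h1 : h ∈ I1 G A f f') :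
    h = f ∨ Btw G f f' h := by
  rw [mem_I1] at h1
  obtain ⟨h2, h3, h4⟩ := h1
  by_cases h5 : pos G h = pos G f
  · exact Or.inl (pos_inj (mem_dts.1 h2).1 (mem_dts.1 hf).1 h3 h5)
  · exact Or.inr ⟨h3, by omega⟩

lemma I3_cases {f f' h : H} (hf' : f' ∈ dts G A) (hb : G.base f' = G.base f)
    (h1 : h ∈ I3 G A f f') : h = f' ∨ h ∈ I1 G A f f' := by
  rw [mem_I3] at h1
  obtain ⟨h2, h3, h4⟩ := h1
  by_cases h5 : pos G h = pos G f'
  · exact Or.inl (pos_inj (mem_dts.1 h2).1 (mem_dts.1 hf').1 (h3.trans hb.symm) h5)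
  · exact Or.inr (mem_I1.2 ⟨h2, h3, by omega⟩)

lemma conv_I1 {f f' : H} : Conv G A ι (I1 G A f f') := by
  intro a ha c hc b hb e1 e2 e3 e4 e5 e6
  rw [mem_I1] at ha hc ⊢
  obtain ⟨a1, a2, a3⟩ := ha
  obtain ⟨c1, c2, c3⟩ := hc
  exact ⟨hb, e1.symm.trans a2, by omega⟩

lemma conv_I3 {f f' : H} : Conv G A ι (I3 G A f f') := by
  intro a ha c hc b hb e1 e2 e3 e4 e5 e6
  rw [mem_I3] at ha hc ⊢
  obtain ⟨a1, a2, a3⟩ := ha
  obtain ⟨c1, c2, c3⟩ := hc
  exact ⟨hb, e1.symm.trans a2, by omega⟩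

lemma Adj.pos_ne {f f' : H} (h : Adj G A M ι₂ f f') : pos G f ≠ pos G f' := by
  rcases h with h | h
  · exact h.lt.ne
  · exact h.lt.ne'

lemma Adj.mem_right {f f' : H} (h : Adj G A M ι₂ f f') : f' ∈ dts G A := by
  rcases h with h | h
  · exact h.mems.2.1
  · exact h.mems.1

lemma Adj.opp_mem {f f' : H} (h : Adj G A M ι₂ f f') : G.opp f ∈ dts G A := by
  rcases h with h | h
  · exact h.mems.2.2.1
  · exact h.mems.2.2.2.1

lemma self_mem_I1 {f f' : H} (hf : f ∈ dts G A) (h : Adj G A M ι₂ f f') :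
    f ∈ I1 G A f f' := by
  have := h.pos_ne
  exact mem_I1.2 ⟨hf, rfl, by omega⟩

lemma I1_seg (hT : HT G A r ι₁ M ι₂) {f f' : H} (hf : FS G A ι₁ f)
    (h : Adj G A M ι₂ f f') {a : H} (ha : a ∈ I1 G A f f') :
    G.base a = G.base f ∧ io G A ι₁ M ι₂ a = io G A ι₁ M ι₂ f := by
  rcases I1_cases hf.1 ha with h1 | h1
  · subst h1
    exact ⟨rfl, rfl⟩
  · exact ⟨h1.1, (h.gap hT hf (mem_I1.1 ha).1 h1).2.2.2⟩

/-- Adding a gap. -/
lemma Inv.gap (hT : HT G A r ι₁ M ι₂) {θ : ℕ}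
    (hθ : ∀ x ∈ A, ∀ i, (arc G ι₁ x i).Nonempty → Tame θ G x (arc G ι₁ x i) (arc G ι₁ x i))
    (hw : θ ≤ w) {Y : Finset H} (hY : Inv G A (io G A ι₁ M ι₂) w Y) {f f' : H}
    (hf : FS G A ι₁ f) (hfY : f ∈ Y) (hff : Adj G A M ι₂ f f') :
    Inv G A (io G A ι₁ M ι₂) w (Y ∪ I1 G A f f') := by
  have hbtw : ∀ h ∈ I1 G A f f', h ≠ f → AL G ι₂ h ∧ G.opp h ∈ I1 G A f f' := by
    intro h hh hne
    have h1 := (I1_cases hf.1 hh).resolve_left hne
    obtain ⟨g1, g2, g3, -⟩ := hff.gap hT hf (mem_I1.1 hh).1 h1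
    refine ⟨g1, mem_I1.2 ⟨g3, g2.1, ?_⟩⟩
    have := g2.2
    omega
  have hconv : Conv G A (io G A ι₁ M ι₂) (Y ∪ I1 G A f f') :=
    hY.conv.union conv_I1 hfY (self_mem_I1 hf.1 hff) fun a ha => I1_seg hT hf hff ha
  have hclo : Clo G (Y ∪ I1 G A f f') := by
    intro h hh
    rw [Finset.mem_union] at hh ⊢
    rcases hh with hh | hh
    · exact Or.inl (hY.clo h hh)
    · by_cases hne : h = f
      · subst hne
        exact Or.inl (hY.clo h hfY)
      · exact Or.inr (hbtw h hh hne).2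
  refine ⟨Finset.union_subset hY.sub (Finset.filter_subset _ _), hconv, hclo, ?_⟩
  have hD : Car (Nd G A (io G A ι₁ M ι₂) w) (I1 G A f f' \ Y) := by
    have hsub : I1 G A f f' \ Y ⊆ arc G ι₁ (G.base f) (ι₁ f) := by
      intro h hh
      rw [Finset.mem_sdiff] at hh
      have h1 := I1_seg hT hf hff hh.1
      have h2 := (mem_I1.1 hh.1).1
      exact Finset.mem_filter.2 ⟨(mem_dts.1 h2).1, h1.1,
        hT.ref _ h2 _ hf.1 h1.1 (io_i2 hT h2 hf.1 h1.1 h1.2)⟩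
    have hclo' : Clo G (I1 G A f f' \ Y) := by
      intro h hh
      rw [Finset.mem_sdiff] at hh ⊢
      have hne : h ≠ f := by
        rintro rfl
        exact hh.2 hfY
      refine ⟨(hbtw h hh.1 hne).2, fun h1 => hh.2 ?_⟩
      have h2 := hY.clo _ h1
      rwa [G.opp_opp h (mem_dts.1 (mem_I1.1 hh.1).1).1] at h2
    refine car_of_tame (hθ _ (mem_dts.1 hf.1).2 _
      ⟨f, Finset.mem_filter.2 ⟨(mem_dts.1 hf.1).1, rfl, rfl⟩⟩) hw hsub hclo' ?_
    intro a ha c hc b hb e1 e2 e3 e4 e5 e6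
    rw [Finset.mem_sdiff] at ha hc ⊢
    have h1 := conv_I1 a ha.1 c hc.1 b hb e1 e2 e3 e4 e5 e6
    refine ⟨h1, fun h2 => ?_⟩
    have ga := I1_seg hT hf hff ha.1
    have gb := I1_seg hT hf hff h1
    have gc := I1_seg hT hf hff hc.1
    have p1 := (mem_I1.1 ha.1).2.2
    have p2 := (mem_I1.1 hc.1).2.2
    rcases lt_or_gt_of_ne hff.pos_ne with h3 | h3
    · refine ha.2 (hY.conv f hfY b h2 a (mem_I1.1 ha.1).1 ga.1.symm (gb.1.trans ga.1.symm)
        ga.2.symm (gb.2.trans ga.2.symm) ?_ e5)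
      omega
    · refine hc.2 (hY.conv b h2 f hfY c (mem_I1.1 hc.1).1 (gb.1.trans gc.1.symm) gc.1.symm
        (gb.2.trans gc.2.symm) gc.2.symm e6 ?_)
      omega
  have h5 : Y ∪ I1 G A f f' \ Y = Y ∪ I1 G A f f' := Finset.union_sdiff_self_eq_union
  rw [← h5]
  refine hY.car.union hD Finset.disjoint_sdiff ?_
  rw [h5]
  exact ⟨hconv, out_zero hclo⟩

/-- Adding a strand next to the set. -/
lemma conv_add (hT : HT G A r ι₁ M ι₂) {Y : Finset H} (hY : Conv G A (io G A ι₁ M ι₂) Y)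
    {f f' : H} (hf : FS G A ι₁ f) (hfY : f ∈ Y) (hff : Adj G A M ι₂ f f')
    (hI : I1 G A f f' ⊆ Y) : Conv G A (io G A ι₁ M ι₂) (Y ∪ {f'}) := by
  have h1 : Y ∪ I3 G A f f' = Y ∪ {f'} := by
    ext a
    rw [Finset.mem_union, Finset.mem_union, Finset.mem_singleton]
    constructor
    · rintro (h | h)
      · exact Or.inl h
      · rcases I3_cases hff.mem_right hff.eqs.1 h with h | h
        · exact Or.inr h
        · exact Or.inl (hI h)
    · rintro (h | h)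
      · exact Or.inl h
      · subst h
        right
        exact mem_I3.2 ⟨hff.mem_right, hff.eqs.1, by omega⟩
  rw [← h1]
  refine hY.union conv_I3 hfY (mem_I3.2 ⟨hf.1, rfl, by omega⟩) fun a ha => ?_
  rcases I3_cases hff.mem_right hff.eqs.1 ha with h | h
  · subst h
    exact ⟨hff.eqs.1, (hff.seg hT).symm⟩
  · exact I1_seg hT hf hff h

lemma car_add {Y : Finset H} (hY : Car (Nd G A ι w) Y) {g : H} (hg : g ∈ dts G A)
    (hw : 1 ≤ w) (hN : Nd G A ι w (Y ∪ {g})) : Car (Nd G A ι w) (Y ∪ {g}) := by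
  by_cases h : g ∈ Y
  · rwa [Finset.union_eq_left.2 (Finset.singleton_subset_iff.2 h)]
  · exact hY.union (Car.single (nd_single hg hw)) (Finset.disjoint_singleton_right.2 h) hN

/-- One step of the construction. -/
lemma Inv.step (hT : HT G A r ι₁ M ι₂) {θ : ℕ}
    (hθ : ∀ x ∈ A, ∀ i, (arc G ι₁ x i).Nonempty → Tame θ G x (arc G ι₁ x i) (arc G ι₁ x i))
    (hw : θ ≤ w) (hw1 : 1 ≤ w) {Y : Finset H} (hY : Inv G A (io G A ι₁ M ι₂) w Y) {f f' : H}
    (hf : FS G A ι₁ f) (hfY : f ∈ Y) (hff : Adj G A M ι₂ f f') :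
    ∃ Y', Inv G A (io G A ι₁ M ι₂) w Y' ∧ Y ⊆ Y' ∧ f' ∈ Y' ∧ ∀ h ∈ Y', h ∈ Y ∨
      (G.base h = G.base f ∧ io G A ι₁ M ι₂ h = io G A ι₁ M ι₂ f) ∨
      (G.base h = G.base (G.opp f) ∧ io G A ι₁ M ι₂ h = io G A ι₁ M ι₂ (G.opp f)) := by
  have hd := (mem_dts.1 hf.1).1
  have hf' : FS G A ι₁ (G.opp f) := ⟨hff.opp_mem, fun h => hf.2 ((al_opp hd).1 h)⟩
  have hff' : Adj G A M ι₂ (G.opp f) (G.opp f') := hff.oppA
  have h1 := hY.gap hT hθ hw hf hfY hff
  have h2 := h1.gap hT hθ hw hf' (Finset.mem_union_left _ (hY.clo f hfY)) hff'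
  set Y2 := Y ∪ I1 G A f f' ∪ I1 G A (G.opp f) (G.opp f') with hY2
  have s1 : I1 G A f f' ⊆ Y2 := Finset.subset_union_right.trans Finset.subset_union_left
  have s2 : I1 G A (G.opp f) (G.opp f') ⊆ Y2 := Finset.subset_union_right
  have s0 : Y ⊆ Y2 := Finset.subset_union_left.trans Finset.subset_union_left
  have c3 := conv_add hT h2.conv hf (s0 hfY) hff s1
  have n3 : Nd G A (io G A ι₁ M ι₂) w (Y2 ∪ {f'}) := by
    refine ⟨c3, le_trans (Finset.card_le_card (t := {f'}) fun a ha => ?_) (by simpa using hw1)⟩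
    rw [Finset.mem_filter] at ha
    rcases Finset.mem_union.1 ha.1 with h | h
    · exact absurd (Finset.mem_union_left _ (h2.clo a h)) ha.2
    · exact h
  have k3 := car_add h2.car hff.mem_right hw1 n3
  have c4 := conv_add hT c3 hf' (Finset.mem_union_left _ (s0 (hY.clo f hfY))) hff'
    (s2.trans Finset.subset_union_left)
  have hdf' := (mem_dts.1 hff.mem_right).1
  have cl4 : Clo G (Y2 ∪ {f'} ∪ {G.opp f'}) := by
    intro h hh
    simp only [Finset.mem_union, Finset.mem_singleton] at hh ⊢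
    rcases hh with (hh | hh) | hh
    · exact Or.inl (Or.inl (h2.clo h hh))
    · subst hh
      exact Or.inr rfl
    · subst hh
      rw [G.opp_opp f' hdf']
      exact Or.inl (Or.inr rfl)
  have k4 := car_add k3 hff'.mem_right hw1 ⟨c4, out_zero cl4⟩
  refine ⟨Y2 ∪ {f'} ∪ {G.opp f'}, ⟨?_, c4, cl4, k4⟩, ?_, ?_, ?_⟩
  · exact Finset.union_subset (Finset.union_subset h2.sub
      (Finset.singleton_subset_iff.2 hff.mem_right)) (Finset.singleton_subset_iff.2 hff'.mem_right)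
  · exact s0.trans (Finset.subset_union_left.trans Finset.subset_union_left)
  · simp
  · intro h hh
    simp only [hY2, Finset.mem_union, Finset.mem_singleton] at hh
    rcases hh with (((hh | hh) | hh) | hh) | hh
    · exact Or.inl hh
    · exact Or.inr (Or.inl (I1_seg hT hf hff hh))
    · exact Or.inr (Or.inr (I1_seg hT hf' hff' hh))
    · subst hh
      exact Or.inr (Or.inl ⟨hff.eqs.1, (hff.seg hT).symm⟩)
    · subst hh
      exact Or.inr (Or.inr ⟨hff'.eqs.1, (hff'.seg hT).symm⟩)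

/-- A set closed under the neighbour relation contains all strands of the segments it meets. -/
lemma reach (hT : HT G A r ι₁ M ι₂) {Y : Finset H}
    (hcl : ∀ f ∈ Y, FS G A ι₁ f → ∀ f', Adj G A M ι₂ f f' → f' ∈ Y) {g : H}
    (hg : FS G A ι₁ g) : ∀ n, ∀ f ∈ Y, FS G A ι₁ f → G.base f = G.base g →
      io G A ι₁ M ι₂ f = io G A ι₁ M ι₂ g → pos G g - pos G f + (pos G f - pos G g) ≤ n →
      g ∈ Y := by
  intro n
  induction n with
  | zero =>
    intro f hf _ h1 _ h3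
    have h4 : pos G f = pos G g := by omega
    rw [← pos_inj (mem_dts.1 (by assumption : FS G A ι₁ f).1).1 (mem_dts.1 hg.1).1 h1 h4]
    exact hf
  | succ n ih =>
    intro f hf hF h1 h2 h3
    rcases lt_trichotomy (pos G f) (pos G g) with h4 | h4 | h4
    · obtain ⟨b, hb⟩ : ∃ b, PP G A M ι₂ f b := by
        by_contra h6
        have h7 := (io_eq hT hF.1 hg.1 h1 h4.le h2).2.2 f h1 ⟨hF, h6⟩ h4
        exact lt_irrefl _ h7
      have i2 := (io_i2 hT hF.1 hg.1 h1 h2)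
      have h5 := hb.between (hg.expl hT) h1.symm i2.symm h4
      have h6 := hb.lt
      exact ih b (hcl f hf hF b (Or.inl hb)) ((hb.FS_iff hT).1 hF) (hb.eqs.1.trans h1)
        ((hb.seg hT).symm.trans h2) (by omega)
    · rw [← pos_inj (mem_dts.1 hF.1).1 (mem_dts.1 hg.1).1 h1 h4]
      exact hf
    · obtain ⟨b, hb⟩ : ∃ b, PP G A M ι₂ b f := by
        by_contra h6
        have h7 := (io_eq hT hg.1 hF.1 h1.symm h4.le h2.symm).2.1 f rfl ⟨hF, h6⟩ le_rfl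
        omega
      have i2 := (io_i2 hT hF.1 hg.1 h1 h2)
      have h6 := hb.lt
      have h5 : pos G g ≤ pos G b := by
        by_contra h7
        rw [not_le] at h7
        have h8 := hb.between (hg.expl hT) (h1.symm.trans hb.eqs.1) (i2.symm.trans hb.eqs.2.1) h7
        omega
      exact ih b (hcl f hf hF b (Or.inr hb)) ((hb.FS_iff hT).2 hF) (hb.eqs.1.symm.trans h1)
        ((hb.seg hT).trans h2) (by omega)

lemma r_block (hT : HT G A r ι₁ M ι₂) {θ : ℕ}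
    (hθ : ∀ x ∈ A, ∀ i, (arc G ι₁ x i).Nonempty → Tame θ G x (arc G ι₁ x i) (arc G ι₁ x i))
    (hw : θ ≤ w) (hw1 : 1 ≤ w) {e : H} (he : FS G A ι₁ e) (heo : G.base (G.opp e) ∈ A) :
    ∃ X, (∀ h ∈ dts G A, G.base h = G.base e → io G A ι₁ M ι₂ h = io G A ι₁ M ι₂ e → h ∈ X) ∧
      Sat G A (io G A ι₁ M ι₂) X ∧ Cl G A X ∧ Car (Nd G A (io G A ι₁ M ι₂) w) X := by
  have hd := (mem_dts.1 he.1).1
  have hod : G.opp e ∈ dts G A := mem_dts.2 ⟨G.opp_mem _ hd, heo⟩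
  have he' : FS G A ι₁ (G.opp e) := ⟨hod, fun h => he.2 ((al_opp hd).1 h)⟩
  set X := (dts G A).filter (fun h =>
    (G.base h = G.base e ∧ io G A ι₁ M ι₂ h = io G A ι₁ M ι₂ e) ∨
    (G.base h = G.base (G.opp e) ∧ io G A ι₁ M ι₂ h = io G A ι₁ M ι₂ (G.opp e))) with hX
  have hmem : ∀ h, h ∈ X ↔ h ∈ dts G A ∧
      ((G.base h = G.base e ∧ io G A ι₁ M ι₂ h = io G A ι₁ M ι₂ e) ∨
      (G.base h = G.base (G.opp e) ∧ io G A ι₁ M ι₂ h = io G A ι₁ M ι₂ (G.opp e))) := by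
    intro h
    rw [hX, Finset.mem_filter]
  have hseg : ∀ f ∈ X, ∀ h ∈ dts G A, G.base h = G.base f →
      io G A ι₁ M ι₂ h = io G A ι₁ M ι₂ f → h ∈ X := by
    intro f hf h hh h1 h2
    rw [hmem] at hf ⊢
    rcases hf.2 with h3 | h3
    · exact ⟨hh, Or.inl ⟨h1.trans h3.1, h2.trans h3.2⟩⟩
    · exact ⟨hh, Or.inr ⟨h1.trans h3.1, h2.trans h3.2⟩⟩
  have hsat : Sat G A (io G A ι₁ M ι₂) X :=
    ⟨Finset.filter_subset _ _, fun a ha b hb e1 e2 => hseg a ha b hb e1.symm e2.symm⟩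
  -- the start
  have hstart : Inv G A (io G A ι₁ M ι₂) w ({e} ∪ {G.opp e}) := by
    have hcv : Conv G A (io G A ι₁ M ι₂) ({e} ∪ {G.opp e}) := by
      intro a ha c hc b hb e1 e2 e3 e4 e5 e6
      simp only [Finset.mem_union, Finset.mem_singleton] at ha hc ⊢
      have key : ∀ u : H, u ∈ dts G A → G.base u = G.base b → pos G u ≤ pos G b →
          pos G b ≤ pos G u → b = u := fun u hu h1 h2 h3 =>
        pos_inj (mem_dts.1 hb).1 (mem_dts.1 hu).1 h1.symm (le_antisymm h3 h2)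
      have hno : ¬ (G.base (G.opp e) = G.base e ∧
          io G A ι₁ M ι₂ (G.opp e) = io G A ι₁ M ι₂ e) := by
        rintro ⟨h1, h2⟩
        exact he.2 (al_of hT he.1 ⟨h1, io_i2 hT hod he.1 h1 h2⟩)
      rcases ha with ha | ha <;> rcases hc with hc | hc <;> subst ha <;> subst hc
      · exact Or.inl (key _ he.1 e1 e5 e6)
      · exact absurd ⟨e2.trans e1.symm, e4.trans e3.symm⟩ hno
      · exact absurd ⟨e1.trans e2.symm, e3.trans e4.symm⟩ hno
      · exact Or.inr (key _ hod e1 e5 e6)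
    have hcl : Clo G ({e} ∪ {G.opp e}) := by
      intro h hh
      simp only [Finset.mem_union, Finset.mem_singleton] at hh ⊢
      rcases hh with hh | hh
      · subst hh; exact Or.inr rfl
      · subst hh; rw [G.opp_opp e hd]; exact Or.inl rfl
    refine ⟨Finset.union_subset (Finset.singleton_subset_iff.2 he.1)
      (Finset.singleton_subset_iff.2 hod), hcv, hcl, ?_⟩
    exact car_add (Car.single (nd_single he.1 hw1)) hod hw1 ⟨hcv, out_zero hcl⟩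
  have key : ∀ n, ∃ Y, Inv G A (io G A ι₁ M ι₂) w Y ∧ Y ⊆ X ∧ e ∈ Y ∧
      (Y = X ∨ n ≤ Y.card) := by
    intro n
    induction n with
    | zero =>
      refine ⟨_, hstart, ?_, by simp, Or.inr (Nat.zero_le _)⟩
      intro h hh
      simp only [Finset.mem_union, Finset.mem_singleton] at hh
      rcases hh with hh | hh
      · subst hh; exact (hmem _).2 ⟨he.1, Or.inl ⟨rfl, rfl⟩⟩
      · subst hh; exact (hmem _).2 ⟨hod, Or.inr ⟨rfl, rfl⟩⟩
    | succ n ih =>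
      obtain ⟨Y, h1, h2, h3, h4⟩ := ih
      rcases h4 with h4 | h4
      · exact ⟨Y, h1, h2, h3, Or.inl h4⟩
      by_cases h5 : Y = X
      · exact ⟨Y, h1, h2, h3, Or.inl h5⟩
      obtain ⟨f, g1, g2, f', g3, g4⟩ : ∃ f ∈ Y, FS G A ι₁ f ∧ ∃ f', Adj G A M ι₂ f f' ∧
          f' ∉ Y := by
        by_contra hno
        push Not at hno
        apply h5
        refine h2.antisymm fun g hg => ?_
        have hg' := (hmem g).1 hg
        obtain ⟨e₀, i1, i2, i3, i4⟩ : ∃ e₀ ∈ Y, FS G A ι₁ e₀ ∧ G.base e₀ = G.base g ∧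
            io G A ι₁ M ι₂ e₀ = io G A ι₁ M ι₂ g := by
          rcases hg'.2 with h6 | h6
          · exact ⟨e, h3, he, h6.1.symm, h6.2.symm⟩
          · exact ⟨G.opp e, h1.clo e h3, he', h6.1.symm, h6.2.symm⟩
        have hno' : ∀ f ∈ Y, FS G A ι₁ f → ∀ f', Adj G A M ι₂ f f' → f' ∈ Y :=
          fun f a1 a2 f' a3 => hno f a1 a2 f' a3
        by_cases hgF : FS G A ι₁ g
        · exact reach hT hno' hgF _ e₀ i1 i2 i3 i4 le_rfl
        · obtain ⟨a, b, b1, b2, b3, b4, b5, b6⟩ := exists_adj_around hT i2 hg'.1 hgF i3 i4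
          have haY : a ∈ Y := reach hT hno' b1 _ e₀ i1 i2 (i3.trans b5.symm)
            (i4.trans b6.symm) le_rfl
          have hbY : b ∈ Y := hno' a haY b1 b b3
          have hb5 : G.base b = G.base g := b3.eqs.1.trans b5
          have hb6 : io G A ι₁ M ι₂ b = io G A ι₁ M ι₂ g := (b3.seg hT).symm.trans b6
          rcases b4.2 with h7 | h7
          · exact h1.conv a haY b hbY g hg'.1 b5 hb5 b6 hb6 h7.1.le h7.2.le
          · exact h1.conv b hbY a haY g hg'.1 hb5 b5 hb6 b6 h7.1.le h7.2.le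
      obtain ⟨Y', k1, k2, k3, k4⟩ := h1.step hT hθ hw hw1 g2 g1 g3
      refine ⟨Y', k1, ?_, k2 h3, Or.inr ?_⟩
      · intro h hh
        rcases k4 h hh with h6 | h6 | h6
        · exact h2 h6
        · exact hseg f (h2 g1) h (k1.sub hh) h6.1 h6.2
        · exact hseg _ (h2 (h1.clo f g1)) h (k1.sub hh) h6.1 h6.2
      · have h10 : Y ⊂ Y' := by
          rw [Finset.ssubset_iff_of_subset k2]
          exact ⟨f', k3, g4⟩
        have h11 := Finset.card_lt_card h10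
        omega
  obtain ⟨Y, h1, h2, h3, h4⟩ := key (X.card + 1)
  have h5 : Y = X := by
    rcases h4 with h4 | h4
    · exact h4
    · have h5 := Finset.card_le_card h2
      omega
  rw [h5] at h1
  refine ⟨X, fun h hh h6 h7 => (hmem h).2 ⟨hh, Or.inl ⟨h6, h7⟩⟩, hsat,
    fun h hh _ => h1.clo h hh, h1.car⟩

end

end RotWqo.Hk.Tree6
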