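import Pool.Agent.Lib.MP_cb4a0f_co.Hk.UniB33

/-!
# MP_cb4a0f_co: arches of the exploded graph, and flows without loops
-/

open Classical

namespace RotWqo.Hk.Uni33

open RotWqo.Bag

variable {V H : Type*}

/-! ### The graph without its loops -/

/-- The graph without its loops. -/
noncomputable def nol (G : RotGraph V H) : RotGraph V H where
  verts := G.verts
  darts := G.darts.filter (fun h => G.base (G.opp h) ≠ G.base h)
  base := G.base
  opp := G.opp
  rot v := (G.rot v).filter (fun h => decide (G.base (G.opp h) ≠ G.base h))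
  base_mem h hh := G.base_mem h (Finset.mem_filter.1 hh).1
  opp_mem h hh := by
    rw [Finset.mem_filter] at hh ⊢
    exact ⟨G.opp_mem h hh.1, by rw [G.opp_opp h hh.1]; exact hh.2.symm⟩
  opp_opp h hh := G.opp_opp h (Finset.mem_filter.1 hh).1
  opp_ne h hh := G.opp_ne h (Finset.mem_filter.1 hh).1
  nodup v := (G.nodup v).filter _
  mem_rot v h := by
    rw [List.mem_filter, G.mem_rot, Finset.mem_filter, decide_eq_true_eq]
    tauto

lemma mem_nol {G : RotGraph V H} {h : H} :
    h ∈ (nol G).darts ↔ h ∈ G.darts ∧ G.base (G.opp h) ≠ G.base h := Finset.mem_filter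

lemma bd_nol (G : RotGraph V H) (A : Finset V) : bd (nol G) A = bd G A := by
  ext h
  rw [mem_bd, mem_bd, mem_nol]
  change (_ ∧ G.base h ∈ A ∧ G.base (G.opp h) ∉ A) ↔ _
  constructor
  · rintro ⟨⟨h1, -⟩, h2, h3⟩
    exact ⟨h1, h2, h3⟩
  · rintro ⟨h1, h2, h3⟩
    refine ⟨⟨h1, ?_⟩, h2, h3⟩
    intro h4
    rw [h4] at h3
    exact h3 h2

lemma cut_nol (G : RotGraph V H) (A : Finset V) : cut (nol G) A = cut G A := by
  rw [cut, cut, bd_nol]

/-- A flow of the graph without its loops is a flow. -/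
theorem flow_of_nol {G : RotGraph V H} {A : Finset V} {x : V} {t : V → ℕ} {U T : Finset H}
    {M : H → H → Prop} {en : H → H} (F : Flow (nol G) A x t U T M en) :
    Flow G A x t U T M en ∧ ∀ h ∈ U, G.base (G.opp h) ≠ G.base h := by
  have hU : ∀ h ∈ U, h ∈ G.darts ∧ G.base (G.opp h) ≠ G.base h := fun h hh =>
    mem_nol.1 (F.U_mem h hh).1
  have hb := bd_nol G A
  have hc := cut_nol G A
  refine ⟨⟨fun h hh => ⟨(hU h hh).1, (F.U_mem h hh).2⟩, hb ▸ F.bd_sub, F.T_sub, F.T_x, F.T_bd,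
    F.T_card, F.M_symm, F.M_fun, F.M_mem, F.M_total, ?_, ?_, ?_, F.surj_T, hc ▸ F.card,
    hc ▸ F.U_card⟩, fun h hh => (hU h hh).2⟩
  · intro v hv hvx
    have h1 := F.nc v hv hvx
    have h2 : ((nol G).rot v).filter (fun h => h ∈ U) = (G.rot v).filter (fun h => h ∈ U) := by
      change ((G.rot v).filter (fun h => decide (G.base (G.opp h) ≠ G.base h))).filter
        (fun h => h ∈ U) = _
      rw [List.filter_filter]
      refine List.filter_congr fun h _ => ?_
      rw [Bool.eq_iff_iff, Bool.and_eq_true, decide_eq_true_eq, decide_eq_true_eq]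
      exact ⟨fun h3 => h3.1, fun h3 => ⟨h3, (hU h h3).2⟩⟩
    rw [h2] at h1
    exact h1
  · intro p hp hpx
    have h1 := F.run p hp hpx
    rw [hb] at h1
    exact h1
  · intro b hb'
    exact F.surj_bd b (hb.symm ▸ hb')

/-! ### The exploded graph -/

section

variable {G : RotGraph V H} {A : Finset V} {M : ℕ} {ι : H → ℕ}

lemma mem_expl {h : H} : h ∈ (expl G M ι).darts ↔ h ∈ G.darts ∧ ¬ AL G ι h := Finset.mem_filter

lemma expl_base (h : H) : (expl G M ι).base h = (G.base h, ι h) := rfl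

lemma expl_opp (h : H) : (expl G M ι).opp h = G.opp h := rfl

lemma mem_arcs {p : V × ℕ} : p ∈ arcs A M ↔ p.1 ∈ A ∧ p.2 < M := by
  rw [arcs, Finset.mem_product, Finset.mem_range]

lemma expl_pos_mp {a b : H} (ha : a ∈ (expl G M ι).darts) (hb : b ∈ (expl G M ι).darts)
    (hab : (expl G M ι).base a = (expl G M ι).base b)
    (h : pos (expl G M ι) a < pos (expl G M ι) b) : pos G a < pos G b := by
  have hs : ((expl G M ι).rot ((expl G M ι).base a)).Pairwise
      (fun a b => pos G a < pos G b) := by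
    change ((G.rot (G.base a)).filter
      (fun h => decide (¬ AL G ι h ∧ ι h = ι a))).Pairwise _
    exact (rot_sorted G _).filter _
  have ha' := mem_rot_of ha
  have hb' : b ∈ (expl G M ι).rot ((expl G M ι).base a) := by
    rw [hab]
    exact mem_rot_of hb
  rw [pos, pos, ← hab] at h
  have h1 := List.idxOf_lt_length_iff.2 ha'
  have h2 := List.idxOf_lt_length_iff.2 hb'
  have h3 := List.pairwise_iff_getElem.1 hs _ _ h1 h2 h
  rwa [List.getElem_idxOf, List.getElem_idxOf] at h3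

lemma expl_pos {a b : H} (ha : a ∈ (expl G M ι).darts) (hb : b ∈ (expl G M ι).darts)
    (hab : (expl G M ι).base a = (expl G M ι).base b) :
    pos (expl G M ι) a < pos (expl G M ι) b ↔ pos G a < pos G b := by
  refine ⟨expl_pos_mp ha hb hab, fun h => ?_⟩
  rcases lt_trichotomy (pos (expl G M ι) a) (pos (expl G M ι) b) with h1 | h1 | h1
  · exact h1
  · rw [pos_inj ha hb hab h1] at h
    exact absurd h (lt_irrefl _)
  · exact absurd h (not_lt.2 (expl_pos_mp hb ha hab.symm h1).le)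

lemma bd_expl (hι : Cutting G A ι M) : bd (expl G M ι) (arcs A M) ⊆ bd G A := by
  intro h hh
  rw [mem_bd, mem_expl, expl_base, expl_opp, expl_base, mem_arcs, mem_arcs] at hh
  obtain ⟨⟨h1, -⟩, ⟨h2, -⟩, h3⟩ := hh
  refine mem_bd.2 ⟨h1, h2, fun h4 => h3 ⟨h4, hι.lt _ ?_⟩⟩
  rw [dts, Finset.mem_filter]
  exact ⟨G.opp_mem h h1, h4⟩

lemma cut_expl (hι : Cutting G A ι M) : cut (expl G M ι) (arcs A M) ≤ cut G A :=
  Finset.card_le_card (bd_expl hι)

lemma of_mem_loopsAt {V' : Type*} {K : RotGraph V' H} {B : Finset V'} {h : H}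
    (hh : h ∈ loopsAt K B) : h ∈ K.darts ∧ K.base (K.opp h) = K.base h := by
  rw [loopsAt, Finset.mem_filter] at hh
  exact ⟨hh.1, hh.2.2⟩

lemma loops_expl (B : Finset (V × ℕ)) : (loopsAt (expl G M ι) B).card = 0 := by
  rw [Finset.card_eq_zero]
  refine Finset.eq_empty_of_forall_notMem fun h hh => ?_
  obtain ⟨h1, h2⟩ := of_mem_loopsAt hh
  rw [expl_opp, expl_base, expl_base, Prod.ext_iff] at h2
  exact (mem_expl.1 h1).2 h2

lemma card_arcs (A : Finset V) (M : ℕ) : (arcs A M).card = A.card * M := by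
  rw [arcs, Finset.card_product, Finset.card_range]

/-- Arches of the exploded graph are arches of the graph. -/
theorem archesX_of (hι : Cutting G A ι M) {U : Finset H}
    (hU : ∀ h ∈ U, h ∈ G.darts ∧ G.base h ∈ A ∧ G.base (G.opp h) ≠ G.base h)
    {x : V} {i₀ : ℕ} (lo : ℕ) (hx : x ∈ A) :
    ∃ lo', ∀ (L : ℕ) (u : ℕ → H) (τ : ℕ → ℕ), 0 < L → (∀ i < L, τ i < L) →
      Arches (expl G M ι) (arcs A M) U (x, i₀) lo L u τ → ArchesX G A U x lo' L u τ := by
  set F : Finset H := U.filter (fun g => G.base g = x ∧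
    (ι g < i₀ ∨ (ι g = i₀ ∧ pos (expl G M ι) g < lo))) with hF
  refine ⟨F.sup (fun g => pos G g + 1), fun L u τ hL hτ R => ?_⟩
  have hUe : ∀ h ∈ U, h ∈ (expl G M ι).darts := fun h hh =>
    mem_expl.2 ⟨(hU h hh).1, fun h1 => (hU h hh).2.2 h1.1⟩
  have hud : ∀ i < L, u i ∈ G.darts ∧ G.base (u i) = x ∧ ι (u i) = i₀ ∧
      G.base (G.opp (u i)) ∈ A ∧ G.opp (u i) ∈ G.darts ∧ G.opp (u i) ∈ (expl G M ι).darts ∧
      u i ∈ (expl G M ι).darts := by
    intro i hi
    obtain ⟨h1, h2, h3, -⟩ := R.mem i hi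
    rw [expl_base, Prod.ext_iff] at h2
    rw [expl_opp, expl_base, mem_arcs] at h3
    have h4 := (mem_expl.1 h1).1
    exact ⟨h4, h2.1, h2.2, h3.1, G.opp_mem _ h4, (expl G M ι).opp_mem _ h1, h1⟩
  have hmono : ∀ a ∈ G.darts, ∀ b ∈ G.darts, G.base a ∈ A → G.base a = G.base b →
      ι a < ι b → pos G a < pos G b := by
    intro a ha b hb hA hab h
    by_contra h1
    have h2 := hι.mono b (by rw [dts, Finset.mem_filter]; exact ⟨hb, hab ▸ hA⟩) a
      (by rw [dts, Finset.mem_filter]; exact ⟨ha, hA⟩) hab.symm (not_lt.1 h1)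
    omega
  have hmono' : ∀ a ∈ G.darts, ∀ b ∈ G.darts, G.base a ∈ A → G.base a = G.base b →
      pos G a ≤ pos G b → ι a ≤ ι b := by
    intro a ha b hb hA hab h
    exact hι.mono a (by rw [dts, Finset.mem_filter]; exact ⟨ha, hA⟩) b
      (by rw [dts, Finset.mem_filter]; exact ⟨hb, hab ▸ hA⟩) hab h
  have hL1 : L - 1 < L := by omega
  refine ⟨fun i hi => ⟨(hud i hi).1, (hud i hi).2.1, (hud i hi).2.2.2.1⟩,
    fun i hi => R.disj i hi, ?_, ?_, ?_, ?_, ?_, ?_⟩
  · intro i j hij hj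
    have h1 := hud i (by omega)
    have h2 := hud j hj
    refine (expl_pos h1.2.2.2.2.2.2 h2.2.2.2.2.2.2 ?_).1 (R.mono i j hij hj)
    rw [expl_base, expl_base, h1.2.1, h1.2.2.1, h2.2.1, h2.2.2.1]
  · intro g hg hgx hlt
    obtain ⟨h1, h2, -⟩ := hU g hg
    obtain ⟨k1, k2, k3, -, -, -, k7⟩ := hud 0 hL
    rw [Finset.lt_sup_iff] at hlt
    obtain ⟨g', hg', h3⟩ := hlt
    rw [hF, Finset.mem_filter] at hg'
    obtain ⟨h4, h5, h6⟩ := hg'
    obtain ⟨h7, -, -⟩ := hU g' h4
    have h8 : ι g ≤ ι g' := hmono' g h1 g' h7 h2 (hgx.trans h5.symm) (by omega)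
    rcases lt_or_ge (ι g) i₀ with h9 | h9
    · exact hmono g h1 (u 0) k1 h2 (hgx.trans k2.symm) (by rw [k3]; exact h9)
    · have h10 : ι g = i₀ := by
        rcases h6 with h6 | h6 <;> omega
      have h11 : pos (expl G M ι) g' < lo := by
        rcases h6 with h6 | h6
        · omega
        · exact h6.2
      have h12 : ι g' = i₀ := by
        rcases h6 with h6 | h6 <;> omega
      have h13 : pos (expl G M ι) g ≤ pos (expl G M ι) g' := by
        by_contra h14
        have := (expl_pos (hUe g' h4) (hUe g hg) (by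
          rw [expl_base, expl_base, h5, hgx, h10, h12])).1 (not_le.1 h14)
        omega
      refine (expl_pos (hUe g hg) k7 ?_).1 (R.free_left g hg ?_ (by omega))
      · rw [expl_base, expl_base, hgx, h10, k2, k3]
      · rw [expl_base, hgx, h10]
  · intro g hg hgx hle
    obtain ⟨h1, h2, -⟩ := hU g hg
    obtain ⟨k1, k2, k3, -, -, -, k7⟩ := hud (L - 1) hL1
    have h3 : g ∉ F := by
      intro h4
      have : pos G g + 1 ≤ F.sup (fun g => pos G g + 1) :=
        Finset.le_sup (f := fun g => pos G g + 1) h4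
      omega
    rw [hF, Finset.mem_filter] at h3
    have h4 : ¬ (ι g < i₀ ∨ (ι g = i₀ ∧ pos (expl G M ι) g < lo)) := fun h5 => h3 ⟨hg, hgx, h5⟩
    rcases lt_or_ge i₀ (ι g) with h5 | h5
    · exact hmono _ k1 g h1 (by rw [k2]; exact hx) (k2.trans hgx.symm) (by rw [k3]; exact h5)
    · have h6 : ι g = i₀ := by
        by_contra h7
        exact h4 (Or.inl (by omega))
      have h7 : lo ≤ pos (expl G M ι) g := by
        by_contra h8
        exact h4 (Or.inr ⟨h6, by omega⟩)
      refine (expl_pos k7 (hUe g hg) ?_).1 (R.free_right g hg ?_ h7)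
      · rw [expl_base, expl_base, hgx, h6, k2, k3]
      · rw [expl_base, hgx, h6]
  · intro i hi
    have h1 := R.same i hi
    rw [expl_opp, expl_opp, expl_base, expl_base, Prod.ext_iff] at h1
    exact h1.1
  · intro i hi hix
    have h1 := R.same i hi
    rw [expl_opp, expl_opp, expl_base, expl_base, Prod.ext_iff] at h1
    have h2 := (R.mem i hi).2.2.2
    rw [expl_opp, expl_base, ne_eq, Prod.ext_iff] at h2
    have h3 : ι (G.opp (u i)) ≠ i₀ := fun h4 => h2 ⟨hix, h4⟩
    obtain ⟨k1, k2, k3, -, -, -, -⟩ := hud 0 hL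
    obtain ⟨l1, l2, l3, -, -, -, -⟩ := hud (L - 1) hL1
    have m1 := (hud i hi).2.2.2.2.1
    have m2 := (hud _ (hτ i hi)).2.2.2.2.1
    have n1 : G.base (G.opp (u (τ i))) = x := h1.1.trans hix
    have n2 : ι (G.opp (u (τ i))) = ι (G.opp (u i)) := h1.2
    rcases lt_or_gt_of_ne h3 with h4 | h4
    · exact Or.inl ⟨hmono _ m1 _ k1 (by rw [hix]; exact hx) (hix.trans k2.symm) (by omega),
        hmono _ m2 _ k1 (by rw [n1]; exact hx) (n1.trans k2.symm) (by omega)⟩
    · exact Or.inr ⟨hmono _ l1 _ m1 (by rw [l2]; exact hx) (l2.trans hix.symm) (by omega),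
        hmono _ l1 _ m2 (by rw [l2]; exact hx) (l2.trans n1.symm) (by omega)⟩
  · intro i hi g hg hb h1 h2
    have h3 := R.same i hi
    rw [expl_opp, expl_opp, expl_base, expl_base, Prod.ext_iff] at h3
    obtain ⟨-, -, -, k4, k5, k6, -⟩ := hud i hi
    obtain ⟨-, -, -, l4, l5, l6, -⟩ := hud _ (hτ i hi)
    have h4 : ι (G.opp (u i)) ≤ ι g := hmono' _ k5 g hg k4 hb.symm h1.le
    have h5 : ι g ≤ ι (G.opp (u (τ i))) := hmono' g hg _ l5 (hb ▸ k4) (hb.trans h3.1.symm) h2.le
    have h6 : ι g = ι (G.opp (u i)) := by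
      have := h3.2
      simp only at this
      omega
    by_cases h7 : AL G ι g
    · refine ⟨fun h8 => (hU g h8).2.2 h7.1, ?_⟩
      rintro j hj rfl
      exact absurd h7 (mem_expl.1 (hud j hj).2.2.2.2.2.1).2
    · have h8 : g ∈ (expl G M ι).darts := mem_expl.2 ⟨hg, h7⟩
      have h9 : (expl G M ι).base g = (expl G M ι).base (G.opp (u i)) := by
        rw [expl_base, expl_base, hb, h6]
      have h9' : (expl G M ι).base g = (expl G M ι).base (G.opp (u (τ i))) := by
        rw [h9, expl_base, expl_base, Prod.ext_iff]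
        exact ⟨h3.1.symm, h3.2.symm⟩
      obtain ⟨h10, h11⟩ := R.inside i hi g h8 h9 ((expl_pos k6 h8 h9.symm).2 h1)
        ((expl_pos h8 l6 h9').2 h2)
      refine ⟨h10, fun j hj hgj => ?_⟩
      obtain ⟨h12, h13⟩ := h11 j hj hgj
      have m6 := (hud _ (hτ j hj)).2.2.2.2.2.1
      have h14 := R.same j hj
      rw [expl_opp, expl_opp] at h14
      have h15 : (expl G M ι).base (G.opp (u (τ j))) = (expl G M ι).base (G.opp (u i)) := by
        rw [h14, ← hgj, h9]
      exact ⟨(expl_pos k6 m6 h15.symm).1 h12,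
        (expl_pos m6 l6 (h15.trans (h9.symm.trans h9'))).1 h13⟩

end

end RotWqo.Hk.Uni33
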