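import Pool.Agent.Lib.MP_cb4a0f_co.Hk.Stmts
import Pool.Agent.Lib.MP_cb4a0f_co.Bag.UnivE

/-!
# MP_cb4a0f_co: universality with arches that may return to the centre in another arc
-/

open Classical

namespace RotWqo.Hk.Uni33

open RotWqo.Bag

variable {V H V' H' : Type*}

/-- The half-edges `u 0, ..., u (L - 1)` at `x` (in this order, without half-edges of `U` between
them, and in the place `lo` among the half-edges of `U`) continue by arches. The other halves may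
be at `x` as well, but then a whole arch is before `u 0` or after `u (L - 1)`. -/
structure ArchesX (G : RotGraph V H) (A : Finset V) (U : Finset H) (x : V) (lo L : ℕ) (u : ℕ → H)
    (τ : ℕ → ℕ) : Prop where
  mem : ∀ i < L, u i ∈ G.darts ∧ G.base (u i) = x ∧ G.base (G.opp (u i)) ∈ A
  disj : ∀ i < L, u i ∉ U ∧ G.opp (u i) ∉ U
  mono : ∀ i j, i < j → j < L → pos G (u i) < pos G (u j)
  free_left : ∀ g ∈ U, G.base g = x → pos G g < lo → pos G g < pos G (u 0)
  free_right : ∀ g ∈ U, G.base g = x → lo ≤ pos G g → pos G (u (L - 1)) < pos G g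
  same : ∀ i < L, G.base (G.opp (u (τ i))) = G.base (G.opp (u i))
  side : ∀ i < L, G.base (G.opp (u i)) = x →
    (pos G (G.opp (u i)) < pos G (u 0) ∧ pos G (G.opp (u (τ i))) < pos G (u 0)) ∨
    (pos G (u (L - 1)) < pos G (G.opp (u i)) ∧ pos G (u (L - 1)) < pos G (G.opp (u (τ i))))
  inside : ∀ i < L, ∀ g ∈ G.darts, G.base g = G.base (G.opp (u i)) →
    pos G (G.opp (u i)) < pos G g → pos G g < pos G (G.opp (u (τ i))) →
    g ∉ U ∧ ∀ j < L, g = G.opp (u j) → pos G (G.opp (u i)) < pos G (G.opp (u (τ j))) ∧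
      pos G (G.opp (u (τ j))) < pos G (G.opp (u (τ i)))

/-- All data of the embedding. -/
structure AsmX (G : RotGraph V H) (A : Finset V) (G' : RotGraph V' H') (A' : Finset V')
    (f : V → V') (x : V') (t : V' → ℕ) (U T : Finset H') (MF : H' → H' → Prop) (en : H' → H')
    (lo L m R : ℕ) (u : ℕ → H') (τ bot μ : ℕ → ℕ) (P : List H') (φ β : H → H')
    (sT sB : H → ℕ) : Prop where
  hf : Set.BijOn f (A : Set V) (A' : Set V')
  hx : x ∈ A'
  fl : Flow G' A' x t U T MF en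
  ar : ArchesX G' A' U x lo L u τ
  hR : R = m + t x
  hRL : R ≤ L
  ht : ∀ v ∈ A, t (f v) = (G.rot v).length
  τ1 : ∀ p < L, τ p < L ∧ τ (τ p) = p ∧ τ p ≠ p
  b1 : ∀ p, R ≤ p → p < L → R ≤ bot p ∧ bot p < L ∧ bot (bot p) = p ∧ bot p ≠ p
  b2 : ∀ p q, R ≤ p → p < q → q < bot p → bot p < L → p < bot q ∧ bot q < bot p
  wk : ∀ i < R, Wk τ bot R i (μ i)
  hPl : P.length = m
  hP : P.reverse = (G'.rot x).filter (fun h => h ∈ U ∧ lo ≤ pos G' h) ++
    (G'.rot x).filter (fun h => h ∈ U ∧ pos G' h < lo)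
  φx : ∀ v ∈ A, f v = x → (G.rot v).map φ = (List.range (t x)).map (fun i => u (m + i))
  φT : ∀ v ∈ A, f v ≠ x → (G.rot v).map φ = (G'.rot (f v)).filter (fun h => h ∈ T)
  β_bij : Set.BijOn β (bd G A : Set H) (bd G' A' : Set H')
  sTx : ∀ h ∈ dts G A, f (G.base h) = x → sT h < R ∧ φ h = u (sT h)
  sTT : ∀ h ∈ dts G A, f (G.base h) ≠ x → sT h < m ∧ ∃ p, P[sT h]? = some p ∧
    G'.opp (en p) = φ h
  sBB : ∀ h ∈ bd G A, sB h < m ∧ ∃ p, P[sB h]? = some p ∧ en p = β h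
  μT : ∀ h ∈ dts G A, G.base (G.opp h) ∈ A → μ (sT h) = sT (G.opp h)
  μB : ∀ h ∈ bd G A, μ (sT h) = sB h

variable {G : RotGraph V H} {A : Finset V} {G' : RotGraph V' H'}
  {A' : Finset V'} {f : V → V'} {x : V'} {t : V' → ℕ} {U T : Finset H'} {MF : H' → H' → Prop}
  {en : H' → H'} {lo L m R : ℕ} {u : ℕ → H'} {τ bot μ : ℕ → ℕ} {P : List H'} {φ β : H → H'}
  {sT sB : H → ℕ}

section

variable (S : AsmX G A G' A' f x t U T MF en lo L m R u τ bot μ P φ β sT sB)

include S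

lemma AsmX.u_inj {i j : ℕ} (hi : i < L) (hj : j < L) (h : u i = u j) : i = j := by
  rcases lt_trichotomy i j with h1 | h1 | h1
  · have := S.ar.mono i j h1 hj
    rw [h] at this
    exact absurd this (lt_irrefl _)
  · exact h1
  · have := S.ar.mono j i h1 hi
    rw [h] at this
    exact absurd this (lt_irrefl _)

lemma AsmX.ou_inj {i j : ℕ} (hi : i < L) (hj : j < L) (h : G'.opp (u i) = G'.opp (u j)) :
    i = j := by
  refine S.u_inj hi hj ?_
  rw [← G'.opp_opp _ (S.ar.mem i hi).1, h, G'.opp_opp _ (S.ar.mem j hj).1]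

lemma AsmX.pos_le {i j : ℕ} (hij : i ≤ j) (hj : j < L) : pos G' (u i) ≤ pos G' (u j) := by
  rcases hij.lt_or_eq with h | rfl
  · exact (S.ar.mono i j h hj).le
  · exact le_rfl

lemma AsmX.u_ne_ou {i j : ℕ} (hi : i < L) (hj : j < L) : u i ≠ G'.opp (u j) := by
  intro h
  have h1 := (S.ar.mem i hi).2.1
  rw [h] at h1
  have h2 := S.pos_le (Nat.zero_le i) hi
  have h3 := S.pos_le (i := i) (j := L - 1) (by omega) (by omega)
  rcases S.ar.side j hj h1 with h4 | h4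
  · rw [← h] at h4
    omega
  · rw [← h] at h4
    omega

lemma AsmX.mem_P {a : H'} : a ∈ P ↔ a ∈ U ∧ G'.base a = x := by
  rw [← List.mem_reverse, S.hP, List.mem_append, List.mem_filter, List.mem_filter,
    decide_eq_true_eq, decide_eq_true_eq, G'.mem_rot]
  constructor
  · rintro (⟨⟨-, h2⟩, h3, -⟩ | ⟨⟨-, h2⟩, h3, -⟩)
    · exact ⟨h3, h2⟩
    · exact ⟨h3, h2⟩
  · rintro ⟨h1, h2⟩
    have h3 := (S.fl.U_mem a h1).1
    rcases le_or_gt lo (pos G' a) with h | h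
    · exact Or.inl ⟨⟨h3, h2⟩, h1, h⟩
    · exact Or.inr ⟨⟨h3, h2⟩, h1, h⟩

lemma AsmX.P_nodup : P.Nodup := by
  rw [← List.nodup_reverse, S.hP, List.nodup_append]
  refine ⟨(G'.nodup x).filter _, (G'.nodup x).filter _, ?_⟩
  intro a ha b hb hab
  subst hab
  rw [List.mem_filter, decide_eq_true_eq] at ha hb
  omega

lemma AsmX.P_mem {j : ℕ} {a : H'} (h : P[j]? = some a) : j < m ∧ a ∈ U ∧ G'.base a = x := by
  have h1 := List.mem_of_getElem? h
  have h2 := (List.getElem?_eq_some_iff.1 h).1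
  rw [S.hPl] at h2
  exact ⟨h2, S.mem_P.1 h1⟩

lemma AsmX.P_inj {i j : ℕ} {a : H'} (h : P[i]? = some a) (h' : P[j]? = some a) : i = j := by
  obtain ⟨h1, h2⟩ := List.getElem?_eq_some_iff.1 h
  obtain ⟨h3, h4⟩ := List.getElem?_eq_some_iff.1 h'
  exact (S.P_nodup.getElem_inj_iff).1 (h2.trans h4.symm)

/-! ### The kernel -/

lemma AsmX.map_mem {v : V} (hv : v ∈ A) {h : H} (hh : h ∈ G.darts) (hb : G.base h = v) :
    (f v = x ∧ ∃ i < t x, φ h = u (m + i)) ∨ (f v ≠ x ∧ φ h ∈ T ∧ G'.base (φ h) = f v) := by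
  have h1 : φ h ∈ (G.rot v).map φ := List.mem_map.2 ⟨h, (G.mem_rot v h).2 ⟨hh, hb⟩, rfl⟩
  by_cases hx : f v = x
  · rw [S.φx v hv hx, List.mem_map] at h1
    obtain ⟨i, hi, h2⟩ := h1
    exact Or.inl ⟨hx, i, List.mem_range.1 hi, h2.symm⟩
  · rw [S.φT v hv hx, List.mem_filter, decide_eq_true_eq] at h1
    exact Or.inr ⟨hx, h1.2, ((G'.mem_rot _ _).1 h1.1).2⟩

lemma AsmX.ker_iff {a : H'} : Ker G A φ a ↔ a ∈ T ∨ ∃ i < t x, a = u (m + i) := by
  constructor
  · rintro ⟨h, hh, hb, rfl⟩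
    rcases S.map_mem hb hh rfl with ⟨-, i, hi, h1⟩ | ⟨-, h1, -⟩
    · exact Or.inr ⟨i, hi, h1⟩
    · exact Or.inl h1
  · rintro (h1 | ⟨i, hi, rfl⟩)
    · have h2 := S.fl.U_mem a (S.fl.T_sub h1)
      obtain ⟨v, hv, hfv⟩ := S.hf.surjOn (Finset.mem_coe.2 h2.2)
      have hx : f v ≠ x := by rw [hfv]; exact S.fl.T_x a h1
      have h3 : a ∈ (G.rot v).map φ := by
        rw [S.φT v (Finset.mem_coe.1 hv) hx, List.mem_filter, decide_eq_true_eq, G'.mem_rot]
        exact ⟨⟨h2.1, hfv.symm⟩, h1⟩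
      obtain ⟨h, hh, h4⟩ := List.mem_map.1 h3
      obtain ⟨h5, h6⟩ := (G.mem_rot v h).1 hh
      exact ⟨h, h5, h6 ▸ Finset.mem_coe.1 hv, h4⟩
    · obtain ⟨v, hv, hfv⟩ := S.hf.surjOn (Finset.mem_coe.2 S.hx)
      have h3 : u (m + i) ∈ (G.rot v).map φ := by
        rw [S.φx v (Finset.mem_coe.1 hv) hfv, List.mem_map]
        exact ⟨i, List.mem_range.2 hi, rfl⟩
      obtain ⟨h, hh, h4⟩ := List.mem_map.1 h3
      obtain ⟨h5, h6⟩ := (G.mem_rot v h).1 hh
      exact ⟨h, h5, h6 ▸ Finset.mem_coe.1 hv, h4⟩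

/-! ### The matching -/

/-- The kinds of letters. -/
lemma AsmX.MM_symm (a b : H') (h : MM G' MF u τ bot R L m P a b) :
    MM G' MF u τ bot R L m P b a := by
  rcases h with h | ⟨i, hi, rfl, rfl⟩ | ⟨p, h1, h2, rfl, rfl⟩ | ⟨j, hj, h | h⟩
  · exact Or.inl (S.fl.M_symm _ _ h)
  · obtain ⟨h1, h2, -⟩ := S.τ1 i hi
    exact Or.inr (Or.inl ⟨τ i, h1, rfl, by rw [h2]⟩)
  · obtain ⟨h3, h4, h5, -⟩ := S.b1 p h1 h2
    exact Or.inr (Or.inr (Or.inl ⟨bot p, h3, h4, rfl, by rw [h5]⟩))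
  · exact Or.inr (Or.inr (Or.inr ⟨j, hj, Or.inr h⟩))
  · exact Or.inr (Or.inr (Or.inr ⟨j, hj, Or.inl h⟩))

lemma AsmX.hm : m ≤ R := by
  have := S.hR
  omega

/-- A letter matched by `MM`, with its kind. -/
lemma AsmX.kind {a b : H'} (h : MM G' MF u τ bot R L m P a b) :
    (a ∈ U ∧ a ∉ T ∧ G'.base a ≠ x ∧ MF a b) ∨
    (∃ i < L, a = G'.opp (u i) ∧ b = G'.opp (u (τ i))) ∨
    (∃ p, R ≤ p ∧ p < L ∧ a = u p ∧ b = u (bot p)) ∨
    (∃ j < m, a = u j ∧ P[j]? = some b) ∨ (∃ j < m, b = u j ∧ P[j]? = some a) := by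
  rcases h with h | h | h | ⟨j, hj, h | h⟩
  · obtain ⟨h1, h2, h3, -⟩ := S.fl.M_mem _ _ h
    exact Or.inl ⟨h1, h2, h3, h⟩
  · exact Or.inr (Or.inl h)
  · exact Or.inr (Or.inr (Or.inl h))
  · exact Or.inr (Or.inr (Or.inr (Or.inl ⟨j, hj, h.1, h.2⟩)))
  · exact Or.inr (Or.inr (Or.inr (Or.inr ⟨j, hj, h.1, h.2⟩)))

lemma AsmX.MM_fun (a b c : H') (h : MM G' MF u τ bot R L m P a b)
    (h' : MM G' MF u τ bot R L m P a c) : b = c := by
  have hmR := S.hm
  have hRL := S.hRL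
  rcases S.kind h with ⟨h1, h2, h3, h4⟩ | ⟨i, hi, h1, h2⟩ | ⟨p, hp, hp', h1, h2⟩ |
    ⟨j, hj, h1, h2⟩ | ⟨j, hj, h1, h2⟩
  · rcases S.kind h' with ⟨-, -, -, k4⟩ | ⟨i', hi', k1, k2⟩ | ⟨p', hp1, hp2, k1, k2⟩ |
      ⟨j', hj', k1, k2⟩ | ⟨j', hj', k1, k2⟩
    · exact S.fl.M_fun _ _ _ h4 k4
    · exact absurd (k1 ▸ h1) (S.ar.disj i' hi').2
    · exact absurd (k1 ▸ h1) (S.ar.disj p' hp2).1
    · exact absurd (k1 ▸ h1) (S.ar.disj j' (by omega)).1
    · exact absurd (S.P_mem k2).2.2 h3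
  · rcases S.kind h' with ⟨k1, -, -, -⟩ | ⟨i', hi', k1, k2⟩ | ⟨p', hp1, hp2, k1, k2⟩ |
      ⟨j', hj', k1, k2⟩ | ⟨j', hj', k1, k2⟩
    · exact absurd (h1 ▸ k1) (S.ar.disj i hi).2
    · have := S.ou_inj hi hi' (h1.symm.trans k1)
      subst this
      rw [h2, k2]
    · exact absurd (k1.symm.trans h1) (S.u_ne_ou hp2 hi)
    · exact absurd (k1.symm.trans h1) (S.u_ne_ou (by omega) hi)
    · have := (S.P_mem k2).2.1
      rw [h1] at this
      exact absurd this (S.ar.disj i hi).2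
  · rcases S.kind h' with ⟨k1, -, -, -⟩ | ⟨i', hi', k1, k2⟩ | ⟨p', hp1, hp2, k1, k2⟩ |
      ⟨j', hj', k1, k2⟩ | ⟨j', hj', k1, k2⟩
    · exact absurd (h1 ▸ k1) (S.ar.disj p hp').1
    · exact absurd (h1.symm.trans k1) (S.u_ne_ou hp' hi')
    · have := S.u_inj hp' hp2 (h1.symm.trans k1)
      subst this
      rw [h2, k2]
    · have := S.u_inj hp' (by omega) (h1.symm.trans k1)
      omega
    · exact absurd (h1 ▸ (S.P_mem k2).2.1) (S.ar.disj p hp').1
  · rcases S.kind h' with ⟨k1, -, -, -⟩ | ⟨i', hi', k1, k2⟩ | ⟨p', hp1, hp2, k1, k2⟩ |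
      ⟨j', hj', k1, k2⟩ | ⟨j', hj', k1, k2⟩
    · exact absurd (h1 ▸ k1) (S.ar.disj j (by omega)).1
    · exact absurd (h1.symm.trans k1) (S.u_ne_ou (by omega) hi')
    · have := S.u_inj (i := j) (by omega) hp2 (h1.symm.trans k1)
      omega
    · have := S.u_inj (i := j) (j := j') (by omega) (by omega) (h1.symm.trans k1)
      subst this
      exact Option.some.inj (h2.symm.trans k2)
    · exact absurd (h1 ▸ (S.P_mem k2).2.1) (S.ar.disj j (by omega)).1
  · rcases S.kind h' with ⟨-, -, k3, -⟩ | ⟨i', hi', k1, k2⟩ | ⟨p', hp1, hp2, k1, k2⟩ |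
      ⟨j', hj', k1, k2⟩ | ⟨j', hj', k1, k2⟩
    · exact absurd (S.P_mem h2).2.2 k3
    · have := (S.P_mem h2).2.1
      rw [k1] at this
      exact absurd this (S.ar.disj i' hi').2
    · exact absurd (k1 ▸ (S.P_mem h2).2.1) (S.ar.disj p' hp2).1
    · exact absurd (k1 ▸ (S.P_mem h2).2.1) (S.ar.disj j' (by omega)).1
    · have := S.P_inj h2 k2
      subst this
      rw [h1, k1]

lemma AsmX.MM_mem (a b : H') (h : MM G' MF u τ bot R L m P a b) : a ∈ G'.darts := by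
  have hmR := S.hm
  have hRL := S.hRL
  rcases S.kind h with ⟨h1, -⟩ | ⟨i, hi, h1, -⟩ | ⟨p, hp, hp', h1, -⟩ |
    ⟨j, hj, h1, -⟩ | ⟨j, hj, -, h2⟩
  · exact (S.fl.U_mem a h1).1
  · rw [h1]
    exact G'.opp_mem _ (S.ar.mem i hi).1
  · rw [h1]
    exact (S.ar.mem p hp').1
  · rw [h1]
    exact (S.ar.mem j (by omega)).1
  · exact (S.fl.U_mem a (S.P_mem h2).2.1).1

lemma AsmX.MM_base (a b : H') (h : MM G' MF u τ bot R L m P a b) :
    G'.base a ∈ A' ∧ G'.base b = G'.base a := by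
  have hmR := S.hm
  have hRL := S.hRL
  rcases S.kind h with ⟨h1, -, -, h2⟩ | ⟨i, hi, h1, h2⟩ | ⟨p, hp, hp', h1, h2⟩ |
    ⟨j, hj, h1, h2⟩ | ⟨j, hj, h1, h2⟩
  · exact ⟨(S.fl.U_mem a h1).2, (S.fl.M_mem _ _ h2).2.2.2⟩
  · rw [h1, h2]
    exact ⟨(S.ar.mem i hi).2.2, S.ar.same i hi⟩
  · rw [h1, h2, (S.ar.mem p hp').2.1, (S.ar.mem _ (S.b1 p hp hp').2.1).2.1]
    exact ⟨S.hx, rfl⟩
  · rw [h1, (S.ar.mem j (by omega)).2.1, (S.P_mem h2).2.2]
    exact ⟨S.hx, rfl⟩
  · rw [h1, (S.ar.mem j (by omega)).2.1, (S.P_mem h2).2.2]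
    exact ⟨S.hx, rfl⟩

lemma AsmX.MM_ker (a b : H') (h : MM G' MF u τ bot R L m P a b) : ¬ Ker G A φ a := by
  have hmR := S.hm
  have hRL := S.hRL
  have hR := S.hR
  rw [S.ker_iff]
  rintro (k | ⟨q, hq, k⟩)
  · have kU := S.fl.T_sub k
    rcases S.kind h with ⟨h1, h2, -⟩ | ⟨i, hi, h1, -⟩ | ⟨p, hp, hp', h1, -⟩ |
      ⟨j, hj, h1, -⟩ | ⟨j, hj, -, h2⟩
    · exact h2 k
    · rw [h1] at kU
      exact (S.ar.disj i hi).2 kU
    · rw [h1] at kU
      exact (S.ar.disj p hp').1 kU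
    · rw [h1] at kU
      exact (S.ar.disj j (by omega)).1 kU
    · exact S.fl.T_x a k (S.P_mem h2).2.2
  · have hql : m + q < L := by omega
    rcases S.kind h with ⟨h1, h2, -⟩ | ⟨i, hi, h1, -⟩ | ⟨p, hp, hp', h1, -⟩ |
      ⟨j, hj, h1, -⟩ | ⟨j, hj, -, h2⟩
    · rw [k] at h1
      exact (S.ar.disj _ hql).1 h1
    · exact S.u_ne_ou hql hi (k.symm.trans h1)
    · have := S.u_inj hql hp' (k.symm.trans h1)
      omega
    · have := S.u_inj (j := j) hql (by omega) (k.symm.trans h1)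
      omega
    · have := (S.P_mem h2).2.1
      rw [k] at this
      exact (S.ar.disj _ hql).1 this

/-! ### Rotations -/

lemma AsmX.range_sorted (a n : ℕ) (h : a + n ≤ L) :
    ((List.range n).map (fun i => u (a + i))).Pairwise (fun a b => pos G' a < pos G' b) := by
  rw [List.pairwise_map]
  have h1 : (List.range n).Pairwise (fun i j => i < j ∧ j < n) := by
    rw [List.pairwise_iff_getElem]
    intro i j hi hj hij
    simp only [List.getElem_range]
    simp only [List.length_range] at hi hj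
    exact ⟨hij, hj⟩
  refine h1.imp fun {i j} hij => ?_
  exact S.ar.mono _ _ (by omega) (by omega)

lemma AsmX.rot_eq (v : V) (hv : v ∈ A) :
    (G'.rot (f v)).filter (fun a => Ker G A φ a) = (G.rot v).map φ := by
  have hR := S.hR
  have hRL := S.hRL
  by_cases hx : f v = x
  · rw [S.φx v hv hx, hx]
    refine filter_rot_eq G' x _ (S.range_sorted m (t x) (by omega)) _ ?_
    intro h
    rw [List.mem_map, S.ker_iff, G'.mem_rot]
    constructor
    · rintro ⟨i, hi, rfl⟩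
      have hi' := List.mem_range.1 hi
      have h1 := S.ar.mem (m + i) (by omega)
      exact ⟨⟨h1.1, h1.2.1⟩, Or.inr ⟨i, hi', rfl⟩⟩
    · rintro ⟨⟨h1, h2⟩, h3 | ⟨i, hi, rfl⟩⟩
      · exact absurd h2 (S.fl.T_x h h3)
      · exact ⟨i, List.mem_range.2 hi, rfl⟩
  · rw [S.φT v hv hx]
    refine List.filter_congr fun h hh => ?_
    rw [decide_eq_decide, S.ker_iff]
    constructor
    · rintro (h1 | ⟨i, hi, rfl⟩)
      · exact h1
      · have h1 := (S.ar.mem (m + i) (by omega)).2.1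
        exact absurd (((G'.mem_rot _ _).1 hh).2.symm.trans h1) hx
    · exact Or.inl


/-! ### Non-crossing at the vertices different from the centre -/

lemma AsmX.nc_ne (v : V') (hv : v ∈ A') (hvx : v ≠ x) :
    NC (MM G' MF u τ bot R L m P) ((G'.rot v).filter
      (fun a => Ker G A φ a ∨ ∃ b, MM G' MF u τ bot R L m P a b)) := by
  have hmR := S.hm
  have hRL := S.hRL
  have hR := S.hR
  set Top : H' → H' → Prop := fun a b => ∃ i < L, a = G'.opp (u i) ∧ b = G'.opp (u (τ i))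
    with hTop
  set M₁ : H' → H' → Prop := fun a b => MF a b ∨
    (∃ p, R ≤ p ∧ p < L ∧ a = u p ∧ b = u (bot p)) ∨
    ∃ j < m, (a = u j ∧ P[j]? = some b) ∨ (b = u j ∧ P[j]? = some a) with hM₁
  have hl : (G'.rot v).filter (fun a => Ker G A φ a ∨ ∃ b, MM G' MF u τ bot R L m P a b) =
      (G'.rot v).filter (fun a => a ∈ U ∨ ∃ i < L, a = G'.opp (u i)) := by
    refine List.filter_congr fun a ha => ?_
    have hav := ((G'.mem_rot _ _).1 ha).2
    rw [decide_eq_decide, S.ker_iff]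
    constructor
    · rintro ((h1 | ⟨i, hi, rfl⟩) | ⟨b, hb⟩)
      · exact Or.inl (S.fl.T_sub h1)
      · exact absurd (hav.symm.trans (S.ar.mem (m + i) (by omega)).2.1) hvx
      · rcases S.kind hb with ⟨h1, -⟩ | ⟨i, hi, h1, -⟩ | ⟨p, hp, hp', rfl, -⟩ |
          ⟨j, hj, rfl, -⟩ | ⟨j, hj, -, h2⟩
        · exact Or.inl h1
        · exact Or.inr ⟨i, hi, h1⟩
        · exact absurd (hav.symm.trans (S.ar.mem p hp').2.1) hvx
        · exact absurd (hav.symm.trans (S.ar.mem j (by omega)).2.1) hvx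
        · exact Or.inl (S.P_mem h2).2.1
    · rintro (h1 | ⟨i, hi, rfl⟩)
      · by_cases hT : a ∈ T
        · exact Or.inl (Or.inl hT)
        · obtain ⟨b, hb⟩ := S.fl.M_total a h1 hT (by rw [hav]; exact hvx)
          exact Or.inr ⟨b, Or.inl hb⟩
      · exact Or.inr ⟨_, Or.inr (Or.inl ⟨i, hi, rfl, rfl⟩)⟩
  rw [hl]
  have hTs : ∀ a b, Top a b → Top b a := by
    rintro a b ⟨i, hi, rfl, rfl⟩
    obtain ⟨h1, h2, -⟩ := S.τ1 i hi
    exact ⟨τ i, h1, rfl, by rw [h2]⟩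
  refine NC.trans (M₁ := M₁) (M₂ := Top) ?_ hTs ?_ ?_
  · intro a b
    constructor
    · rintro (h | h | h | h)
      · exact Or.inl (Or.inl h)
      · exact Or.inr h
      · exact Or.inl (Or.inr (Or.inl h))
      · exact Or.inl (Or.inr (Or.inr h))
    · rintro ((h | h | h) | h)
      · exact Or.inl h
      · exact Or.inr (Or.inr (Or.inl h))
      · exact Or.inr (Or.inr (Or.inr h))
      · exact Or.inr (Or.inl h)
  · refine nc_of_inside (pos G') hTs ?_ _ _ rfl ((rot_sorted G' v).filter _) ?_ ?_ ?_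
    · rintro a b c ⟨i, hi, rfl, rfl⟩ ⟨j, hj, h1, rfl⟩
      have := S.ou_inj hi hj h1
      rw [this]
    · rintro a ha b ⟨i, hi, rfl, rfl⟩
      rw [List.mem_filter, decide_eq_true_eq, G'.mem_rot] at ha ⊢
      obtain ⟨h1, -, -⟩ := S.τ1 i hi
      exact ⟨⟨G'.opp_mem _ (S.ar.mem _ h1).1, (S.ar.same i hi).trans ha.1.2⟩,
        Or.inr ⟨τ i, h1, rfl⟩⟩
    · rintro a - ⟨i, hi, h1, h2⟩
      obtain ⟨h3, -, h4⟩ := S.τ1 i hi
      exact h4 (S.ou_inj hi h3 (h1.symm.trans h2)).symm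
    · rintro a ha b ⟨i, hi, rfl, rfl⟩ c hc h1 h2
      rw [List.mem_filter, decide_eq_true_eq, G'.mem_rot] at ha hc
      obtain ⟨h3, h4⟩ := S.ar.inside i hi c hc.1.1 (hc.1.2.trans ha.1.2.symm) h1 h2
      rcases hc.2 with h5 | ⟨j, hj, rfl⟩
      · exact absurd h5 h3
      · exact ⟨_, ⟨j, hj, rfl, rfl⟩, h4 j hj rfl⟩
  · have hl2 : ((G'.rot v).filter (fun a => a ∈ U ∨ ∃ i < L, a = G'.opp (u i))).filter
        (fun a => decide (∀ b, ¬ Top a b)) = (G'.rot v).filter (fun a => a ∈ U) := by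
      rw [List.filter_filter]
      refine List.filter_congr fun a ha => ?_
      rw [Bool.eq_iff_iff, Bool.and_eq_true, decide_eq_true_eq, decide_eq_true_eq,
        decide_eq_true_eq]
      constructor
      · rintro ⟨h1, h2 | ⟨i, hi, rfl⟩⟩
        · exact h2
        · exact absurd ⟨i, hi, rfl, rfl⟩ (h1 (G'.opp (u (τ i))))
      · intro h1
        refine ⟨?_, Or.inl h1⟩
        rintro b ⟨i, hi, rfl, -⟩
        exact (S.ar.disj i hi).2 h1
    rw [hl2]
    refine (S.fl.nc v hv hvx).congr fun a ha b => ⟨fun h => Or.inl h, ?_⟩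
    rw [List.mem_filter, decide_eq_true_eq, G'.mem_rot] at ha
    rintro (h | ⟨p, hp, hp', rfl, -⟩ | ⟨j, hj, ⟨rfl, -⟩ | ⟨-, h⟩⟩)
    · exact h
    · exact absurd ha.2 (S.ar.disj p hp').1
    · exact absurd ha.2 (S.ar.disj j (by omega)).1
    · exact absurd (ha.1.2.symm.trans (S.P_mem h).2.2) hvx

/-! ### Non-crossing at the centre -/

lemma AsmX.lt_of_pos {i j : ℕ} (hi : i < L) (h : pos G' (u i) < pos G' (u j)) : i < j := by
  by_contra hij
  exact absurd h (not_lt.2 (S.pos_le (not_lt.1 hij) hi))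

lemma AsmX.nc_x (hR0 : 0 < R) :
    NC (MM G' MF u τ bot R L m P) ((G'.rot x).filter
      (fun a => Ker G A φ a ∨ ∃ b, MM G' MF u τ bot R L m P a b)) := by
  have hmR := S.hm
  have hRL := S.hRL
  have hR := S.hR
  set Bot : H' → H' → Prop := fun a b => (∃ p, R ≤ p ∧ p < L ∧ a = u p ∧ b = u (bot p)) ∨
    ∃ i < L, a = G'.opp (u i) ∧ b = G'.opp (u (τ i)) with hBot
  set M₁ : H' → H' → Prop := fun a b => MF a b ∨
    ∃ j < m, (a = u j ∧ P[j]? = some b) ∨ (b = u j ∧ P[j]? = some a) with hM₁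
  have hl : (G'.rot x).filter (fun a => Ker G A φ a ∨ ∃ b, MM G' MF u τ bot R L m P a b) =
      (G'.rot x).filter (fun a => a ∈ U ∨ (∃ i < L, a = u i) ∨ ∃ i < L, a = G'.opp (u i)) := by
    refine List.filter_congr fun a ha => ?_
    have hav := ((G'.mem_rot _ _).1 ha).2
    rw [decide_eq_decide, S.ker_iff]
    constructor
    · rintro ((h1 | ⟨i, hi, rfl⟩) | ⟨b, hb⟩)
      · exact Or.inl (S.fl.T_sub h1)
      · exact Or.inr (Or.inl ⟨m + i, by omega, rfl⟩)
      · rcases S.kind hb with ⟨h1, -⟩ | ⟨i, hi, rfl, -⟩ | ⟨p, hp, hp', rfl, -⟩ |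
          ⟨j, hj, rfl, -⟩ | ⟨j, hj, -, h2⟩
        · exact Or.inl h1
        · exact Or.inr (Or.inr ⟨i, hi, rfl⟩)
        · exact Or.inr (Or.inl ⟨p, hp', rfl⟩)
        · exact Or.inr (Or.inl ⟨j, by omega, rfl⟩)
        · exact Or.inl (S.P_mem h2).2.1
    · rintro (h1 | ⟨i, hi, rfl⟩ | ⟨i, hi, rfl⟩)
      · have h2 : a ∈ P := S.mem_P.2 ⟨h1, hav⟩
        obtain ⟨j, hj, h3⟩ := List.getElem_of_mem h2
        rw [S.hPl] at hj
        refine Or.inr ⟨u j, Or.inr (Or.inr (Or.inr ⟨j, hj, Or.inr ⟨rfl, ?_⟩⟩))⟩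
        rw [List.getElem?_eq_some_iff]
        exact ⟨_, h3⟩
      · rcases lt_or_ge i m with h1 | h1
        · have h2 : i < P.length := by rw [S.hPl]; exact h1
          exact Or.inr ⟨P[i], Or.inr (Or.inr (Or.inr ⟨i, h1, Or.inl ⟨rfl, by simp [h2]⟩⟩))⟩
        · rcases lt_or_ge i R with h2 | h2
          · exact Or.inl (Or.inr ⟨i - m, by omega, by congr 1; omega⟩)
          · exact Or.inr ⟨_, Or.inr (Or.inr (Or.inl ⟨i, h2, hi, rfl, rfl⟩))⟩
      · exact Or.inr ⟨_, Or.inr (Or.inl ⟨i, hi, rfl, rfl⟩)⟩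
  rw [hl]
  have hBs : ∀ a b, Bot a b → Bot b a := by
    rintro a b (⟨p, h1, h2, rfl, rfl⟩ | ⟨i, hi, rfl, rfl⟩)
    · obtain ⟨h3, h4, h5, -⟩ := S.b1 p h1 h2
      exact Or.inl ⟨bot p, h3, h4, rfl, by rw [h5]⟩
    · obtain ⟨h1, h2, -⟩ := S.τ1 i hi
      exact Or.inr ⟨τ i, h1, rfl, by rw [h2]⟩
  refine NC.trans (M₁ := M₁) (M₂ := Bot) ?_ hBs ?_ ?_
  · intro a b
    constructor
    · rintro (h | h | h | h)
      · exact Or.inl (Or.inl h)
      · exact Or.inr (Or.inr h)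
      · exact Or.inr (Or.inl h)
      · exact Or.inl (Or.inr h)
    · rintro ((h | h) | (h | h))
      · exact Or.inl h
      · exact Or.inr (Or.inr (Or.inr h))
      · exact Or.inr (Or.inr (Or.inl h))
      · exact Or.inr (Or.inl h)
  · refine nc_of_inside (pos G') hBs ?_ _ _ rfl ((rot_sorted G' x).filter _) ?_ ?_ ?_
    · rintro a b c (⟨p, h1, h2, rfl, rfl⟩ | ⟨i, hi, rfl, rfl⟩) (⟨q, h3, h4, h5, rfl⟩ |
        ⟨j, hj, h5, rfl⟩)
      · have := S.u_inj h2 h4 h5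
        rw [this]
      · exact absurd h5 (S.u_ne_ou h2 hj)
      · exact absurd h5.symm (S.u_ne_ou h4 hi)
      · have := S.ou_inj hi hj h5
        rw [this]
    · rintro a ha b (⟨p, h1, h2, rfl, rfl⟩ | ⟨i, hi, rfl, rfl⟩)
      · obtain ⟨h3, h4, -⟩ := S.b1 p h1 h2
        rw [List.mem_filter, decide_eq_true_eq, G'.mem_rot]
        have h5 := S.ar.mem _ h4
        exact ⟨⟨h5.1, h5.2.1⟩, Or.inr (Or.inl ⟨_, h4, rfl⟩)⟩
      · rw [List.mem_filter, decide_eq_true_eq, G'.mem_rot] at ha ⊢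
        obtain ⟨h1, -, -⟩ := S.τ1 i hi
        exact ⟨⟨G'.opp_mem _ (S.ar.mem _ h1).1, (S.ar.same i hi).trans ha.1.2⟩,
          Or.inr (Or.inr ⟨τ i, h1, rfl⟩)⟩
    · rintro a - (⟨p, h1, h2, h3, h4⟩ | ⟨i, hi, h1, h2⟩)
      · obtain ⟨-, h5, -, h6⟩ := S.b1 p h1 h2
        exact h6 (S.u_inj h2 h5 (h3.symm.trans h4)).symm
      · obtain ⟨h3, -, h4⟩ := S.τ1 i hi
        exact h4 (S.ou_inj hi h3 (h1.symm.trans h2)).symm
    · rintro a ha b (⟨p, h1, h2, rfl, rfl⟩ | ⟨i, hi, rfl, rfl⟩) c hc h3 h4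
      · obtain ⟨h5, h6, h7, h8⟩ := S.b1 p h1 h2
        rw [List.mem_filter, decide_eq_true_eq, G'.mem_rot] at hc
        rcases hc.2 with h9 | ⟨q, hq, rfl⟩ | ⟨q, hq, rfl⟩
        · exfalso
          rcases lt_or_ge (pos G' c) lo with h10 | h10
          · have := S.ar.free_left c h9 hc.1.2 h10
            have := S.pos_le (Nat.zero_le p) h2
            omega
          · have := S.ar.free_right c h9 hc.1.2 h10
            have := S.pos_le (i := bot p) (j := L - 1) (by omega) (by omega)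
            omega
        · have h9 := S.lt_of_pos h2 h3
          have h10 := S.lt_of_pos hq h4
          obtain ⟨h11, h12⟩ := S.b2 p q h1 h9 h10 h6
          exact ⟨u (bot q), Or.inl ⟨q, by omega, hq, rfl, rfl⟩, S.ar.mono _ _ h11 (by omega),
            S.ar.mono _ _ h12 h6⟩
        · exfalso
          have h9 := S.pos_le (Nat.zero_le p) h2
          have h10 := S.pos_le (i := bot p) (j := L - 1) (by omega) (by omega)
          rcases S.ar.side q hq hc.1.2 with h11 | h11 <;> omega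
      · rw [List.mem_filter, decide_eq_true_eq, G'.mem_rot] at ha hc
        obtain ⟨h5, h6⟩ := S.ar.inside i hi c hc.1.1 (hc.1.2.trans ha.1.2.symm) h3 h4
        rcases hc.2 with h7 | ⟨q, hq, rfl⟩ | ⟨q, hq, rfl⟩
        · exact absurd h7 h5
        · exfalso
          have h9 := S.pos_le (Nat.zero_le q) hq
          have h10 := S.pos_le (i := q) (j := L - 1) (by omega) (by omega)
          rcases S.ar.side i hi ha.1.2 with h11 | h11 <;> omega
        · exact ⟨_, Or.inr ⟨q, hq, rfl, rfl⟩, h6 q hq rfl⟩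
  · have hl2 : ((G'.rot x).filter (fun a => a ∈ U ∨ (∃ i < L, a = u i) ∨
        ∃ i < L, a = G'.opp (u i))).filter (fun a => decide (∀ b, ¬ Bot a b)) =
        (G'.rot x).filter (fun h => h ∈ U ∧ pos G' h < lo) ++
          ((List.range R).map u ++ (G'.rot x).filter (fun h => h ∈ U ∧ lo ≤ pos G' h)) := by
      rw [List.filter_filter]
      have hfe : (G'.rot x).filter (fun a => decide (∀ b, ¬ Bot a b) &&
          decide (a ∈ U ∨ (∃ i < L, a = u i) ∨ ∃ i < L, a = G'.opp (u i))) =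
          (G'.rot x).filter (fun a => decide (a ∈ U ∨ ∃ i < R, a = u i)) := by
        refine List.filter_congr fun a ha => ?_
        rw [Bool.eq_iff_iff, Bool.and_eq_true, decide_eq_true_eq, decide_eq_true_eq,
          decide_eq_true_eq]
        constructor
        · rintro ⟨h1, h2 | ⟨i, hi, rfl⟩ | ⟨i, hi, rfl⟩⟩
          · exact Or.inl h2
          · refine Or.inr ⟨i, ?_, rfl⟩
            by_contra h3
            exact h1 _ (Or.inl ⟨i, not_lt.1 h3, hi, rfl, rfl⟩)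
          · exact absurd (Or.inr ⟨i, hi, rfl, rfl⟩) (h1 (G'.opp (u (τ i))))
        · rintro (h1 | ⟨i, hi, rfl⟩)
          · refine ⟨?_, Or.inl h1⟩
            rintro b (⟨p, hp, hp', rfl, -⟩ | ⟨i, hi, rfl, -⟩)
            · exact (S.ar.disj p hp').1 h1
            · exact (S.ar.disj i hi).2 h1
          · refine ⟨?_, Or.inr (Or.inl ⟨i, by omega, rfl⟩)⟩
            rintro b (⟨p, hp, hp', h3, -⟩ | ⟨j, hj, h3, -⟩)
            · have := S.u_inj (by omega) hp' h3
              omega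
            · exact S.u_ne_ou (by omega) hj h3
      rw [hfe]
      refine filter_rot_eq G' x _ ?_ _ ?_
      · rw [List.pairwise_append, List.pairwise_append]
        refine ⟨(rot_sorted G' x).filter _, ⟨?_, (rot_sorted G' x).filter _, ?_⟩, ?_⟩
        · have := S.range_sorted 0 R (by omega)
          simpa using this
        · intro a ha b hb
          obtain ⟨i, hi, rfl⟩ := List.mem_map.1 ha
          have hi' := List.mem_range.1 hi
          rw [List.mem_filter, decide_eq_true_eq, G'.mem_rot] at hb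
          have h1 := S.ar.free_right b hb.2.1 hb.1.2 hb.2.2
          have h2 := S.pos_le (i := i) (j := L - 1) (by omega) (by omega)
          omega
        · intro a ha b hb
          rw [List.mem_filter, decide_eq_true_eq, G'.mem_rot] at ha
          rcases List.mem_append.1 hb with h | h
          · obtain ⟨i, hi, rfl⟩ := List.mem_map.1 h
            have hi' := List.mem_range.1 hi
            have h1 := S.ar.free_left a ha.2.1 ha.1.2 ha.2.2
            have h2 := S.pos_le (Nat.zero_le i) (by omega)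
            omega
          · rw [List.mem_filter, decide_eq_true_eq, G'.mem_rot] at h
            omega
      · intro h
        rw [List.mem_append, List.mem_append, List.mem_filter, List.mem_filter, List.mem_map,
          decide_eq_true_eq, decide_eq_true_eq, G'.mem_rot]
        constructor
        · rintro (⟨h1, h2, -⟩ | ⟨i, hi, rfl⟩ | ⟨h1, h2, -⟩)
          · exact ⟨h1, Or.inl h2⟩
          · have hi' := List.mem_range.1 hi
            have h3 := S.ar.mem i (by omega)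
            exact ⟨⟨h3.1, h3.2.1⟩, Or.inr ⟨i, hi', rfl⟩⟩
          · exact ⟨h1, Or.inl h2⟩
        · rintro ⟨h1, h2 | ⟨i, hi, rfl⟩⟩
          · rcases lt_or_ge (pos G' h) lo with h3 | h3
            · exact Or.inl ⟨h1, h2, h3⟩
            · exact Or.inr (Or.inr ⟨h1, h2, h3⟩)
          · exact Or.inr (Or.inl ⟨i, List.mem_range.2 hi, rfl⟩)
    rw [hl2]
    have hrot : ((List.range m).map u ++ ((List.range (t x)).map (fun i => u (m + i)) ++
        P.reverse)) ~r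
        ((G'.rot x).filter (fun h => h ∈ U ∧ pos G' h < lo) ++
          ((List.range R).map u ++ (G'.rot x).filter (fun h => h ∈ U ∧ lo ≤ pos G' h))) := by
      have h1 : (List.range R).map u = (List.range m).map u ++
          (List.range (t x)).map (fun i => u (m + i)) := by
        rw [hR, List.range_add, List.map_append, List.map_map]
        rfl
      rw [h1, S.hP]
      have h2 := List.isRotated_append
        (l := (List.range m).map u ++ ((List.range (t x)).map (fun i => u (m + i)) ++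
          (G'.rot x).filter (fun h => h ∈ U ∧ lo ≤ pos G' h)))
        (l' := (G'.rot x).filter (fun h => h ∈ U ∧ pos G' h < lo))
      simpa [List.append_assoc] using h2
    have hM₁s : ∀ a b, M₁ a b → M₁ b a := by
      rintro a b (h | ⟨j, hj, h | h⟩)
      · exact Or.inl (S.fl.M_symm _ _ h)
      · exact Or.inr ⟨j, hj, Or.inr h⟩
      · exact Or.inr ⟨j, hj, Or.inl h⟩
    refine NC.of_isRotated (nc_link hM₁s _ ?_ _ _ ?_ ?_) hrot
    · intro a ha b hab
      obtain ⟨i, hi, rfl⟩ := List.mem_map.1 ha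
      have hi' := List.mem_range.1 hi
      rcases hab with h | ⟨j, hj, ⟨h, -⟩ | ⟨-, h⟩⟩
      · exact (S.ar.disj (m + i) (by omega)).1 (S.fl.M_mem _ _ h).1
      · have := S.u_inj (i := m + i) (j := j) (by omega) (by omega) h
        omega
      · exact (S.ar.disj (m + i) (by omega)).1 (S.P_mem h).2.1
    · rw [List.length_map, List.length_range, S.hPl]
    · intro p hp
      obtain ⟨j, hj, rfl⟩ := List.getElem_of_mem hp
      rw [List.length_zip, List.length_map, List.length_range, S.hPl, min_self] at hj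
      have h2 : j < P.length := by rw [S.hPl]; exact hj
      refine Or.inr ⟨j, hj, Or.inl ⟨?_, ?_⟩⟩
      · simp
      · simp [h2]

/-! ### Runs -/

lemma AsmX.run_area {p q : ℕ} (h : Wk τ bot R p q) : p < L →
    q < R ∧ Run G'.opp (MM G' MF u τ bot R L m P) (u p) (G'.opp (u q)) := by
  induction h with
  | done p h1 =>
    intro hp
    exact ⟨h1, Run.step _ _ _ (Or.inr (Or.inl ⟨p, hp, rfl, rfl⟩)) (Run.refl _)⟩
  | step p q h1 _ ih =>
    intro hp
    obtain ⟨h2, h3, -⟩ := S.τ1 p hp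
    obtain ⟨h4, h5, h6, -⟩ := S.b1 _ h1 h2
    obtain ⟨h7, h8⟩ := ih h5
    refine ⟨h7, Run.step _ (G'.opp (u (τ p))) _ (Or.inr (Or.inl ⟨p, hp, rfl, rfl⟩))
      (Run.step _ (u (bot (τ p))) _ ?_ h8)⟩
    rw [G'.opp_opp _ (S.ar.mem _ h2).1]
    exact Or.inr (Or.inr (Or.inl ⟨τ p, h1, h2, rfl, rfl⟩))

lemma AsmX.run_in {h : H} (hh : h ∈ dts G A) :
    Run G'.opp (MM G' MF u τ bot R L m P) (φ h) (u (sT h)) := by
  by_cases hx : f (G.base h) = x
  · rw [← (S.sTx h hh hx).2]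
    exact Run.refl _
  · obtain ⟨h1, p, h2, h3⟩ := S.sTT h hh hx
    have h4 := S.P_mem h2
    have h5 := (S.fl.run p h4.2.1 h4.2.2).1
    have h6 := h5.reverse S.fl.M_symm (fun a b hab => G'.opp_opp _
      (S.fl.U_mem _ (S.fl.M_mem _ _ hab).1).1)
    rw [h3] at h6
    refine (h6.mono fun a b hab => Or.inl hab).snoc ?_
    rw [G'.opp_opp _ (S.fl.U_mem _ h4.2.1).1]
    exact Or.inr (Or.inr (Or.inr ⟨sT h, h1, Or.inr ⟨rfl, h2⟩⟩))

lemma AsmX.run_outT {h : H} (hh : h ∈ dts G A) {z : H'}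
    (hz : Run G'.opp (MM G' MF u τ bot R L m P) z (G'.opp (u (sT h)))) :
    ∃ y, Run G'.opp (MM G' MF u τ bot R L m P) z y ∧ G'.opp y = φ h := by
  have hRL := S.hRL
  have hmR := S.hm
  by_cases hx : f (G.base h) = x
  · obtain ⟨h1, h2⟩ := S.sTx h hh hx
    exact ⟨_, hz, by rw [G'.opp_opp _ (S.ar.mem _ (by omega)).1, h2]⟩
  · obtain ⟨h1, p, h2, h3⟩ := S.sTT h hh hx
    have h4 := S.P_mem h2
    have h5 := (S.fl.run p h4.2.1 h4.2.2).1
    have h6 : Run G'.opp (MM G' MF u τ bot R L m P) z p := by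
      refine hz.snoc ?_
      rw [G'.opp_opp _ (S.ar.mem _ (by omega)).1]
      exact Or.inr (Or.inr (Or.inr ⟨sT h, h1, Or.inl ⟨rfl, h2⟩⟩))
    exact ⟨en p, h6.trans (h5.mono fun a b hab => Or.inl hab), h3⟩

lemma AsmX.run_outB {h : H} (hh : h ∈ bd G A) {z : H'}
    (hz : Run G'.opp (MM G' MF u τ bot R L m P) z (G'.opp (u (sB h)))) :
    Run G'.opp (MM G' MF u τ bot R L m P) z (β h) := by
  have hRL := S.hRL
  have hmR := S.hm
  obtain ⟨h1, p, h2, h3⟩ := S.sBB h hh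
  have h4 := S.P_mem h2
  have h5 := (S.fl.run p h4.2.1 h4.2.2).1
  have h6 : Run G'.opp (MM G' MF u τ bot R L m P) z p := by
    refine hz.snoc ?_
    rw [G'.opp_opp _ (S.ar.mem _ (by omega)).1]
    exact Or.inr (Or.inr (Or.inr ⟨sB h, h1, Or.inl ⟨rfl, h2⟩⟩))
  rw [← h3]
  exact h6.trans (h5.mono fun a b hab => Or.inl hab)

lemma AsmX.sT_lt {h : H} (hh : h ∈ dts G A) : sT h < R := by
  have hmR := S.hm
  by_cases hx : f (G.base h) = x
  · exact (S.sTx h hh hx).1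
  · exact (S.sTT h hh hx).1.trans_le hmR

/-- The embedding. -/
theorem AsmX.pe (hR0 : 0 < R) (r : V → V' → Prop) (hr : ∀ v ∈ A, r v (f v)) :
    PE r G A G' A' β := by
  have hRL := S.hRL
  have hmR := S.hm
  have hmd : ∀ h, h ∈ G.darts → G.base h ∈ A → h ∈ dts G A := fun h h1 h2 => by
    simp [dts, h1, h2]
  refine ⟨f, φ, MM G' MF u τ bot R L m P, ?_⟩
  refine ⟨fun v hv => Finset.mem_coe.1 (S.hf.mapsTo (Finset.mem_coe.2 hv)), hr, S.hf.injOn,
    S.MM_symm, S.MM_fun, S.MM_mem, S.MM_base, S.MM_ker, ?_, ?_, ?_, ?_, ?_, ?_, ?_, S.β_bij⟩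
  · intro h hh hA
    rcases S.map_mem hA hh rfl with ⟨-, i, hi, h1⟩ | ⟨-, h1, -⟩
    · rw [h1]
      have := S.hR
      exact (S.ar.mem _ (by omega)).1
    · exact (S.fl.U_mem _ (S.fl.T_sub h1)).1
  · intro h hh hA
    rcases S.map_mem hA hh rfl with ⟨h0, i, hi, h1⟩ | ⟨-, -, h1⟩
    · rw [h1, h0]
      have := S.hR
      exact (S.ar.mem _ (by omega)).2.1
    · exact h1
  · intro h hh h' hh' hA hA' hφ
    have hb : G.base h = G.base h' := by
      refine S.hf.injOn (Finset.mem_coe.2 hA) (Finset.mem_coe.2 hA') ?_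
      rcases S.map_mem hA hh rfl with ⟨h0, i, hi, h1⟩ | ⟨-, -, h1⟩
      · rcases S.map_mem hA' hh' rfl with ⟨k0, j, hj, k1⟩ | ⟨k, k0, k1⟩
        · rw [h0, k0]
        · rw [hφ] at h1
          have := S.hR
          rw [h1] at k0
          exact absurd (S.fl.T_sub k0) (S.ar.disj _ (by omega)).1
      · rcases S.map_mem hA' hh' rfl with ⟨k0, j, hj, k1⟩ | ⟨-, -, k1⟩
        · rw [← hφ] at k1
          have := S.hR
          rw [k1, (S.ar.mem _ (by omega)).2.1] at h1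
          rw [← h1, k0]
        · rw [← h1, ← k1, hφ]
    have h1 : ((G.rot (G.base h)).map φ).Nodup := by
      rw [← S.rot_eq _ hA]
      exact (G'.nodup _).filter _
    refine List.inj_on_of_nodup_map h1 ((G.mem_rot _ _).2 ⟨hh, rfl⟩)
      ((G.mem_rot _ _).2 ⟨hh', hb.symm⟩) hφ
  · intro v hv
    rw [S.rot_eq v hv]
  · intro v hv
    by_cases hx : v = x
    · subst hx
      exact S.nc_x hR0
    · exact S.nc_ne v hv hx
  · intro h hh hA hA'
    have hd := hmd h hh hA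
    have hd' := hmd _ (G.opp_mem h hh) hA'
    have hlt := S.sT_lt hd
    obtain ⟨h1, h2⟩ := S.run_area (S.wk _ hlt) (by omega)
    rw [S.μT h hd hA'] at h2
    exact S.run_outT hd' ((S.run_in hd).trans h2)
  · intro h hh
    have h0 := mem_bd.1 hh
    have hd := hmd h h0.1 h0.2.1
    have hlt := S.sT_lt hd
    obtain ⟨h1, h2⟩ := S.run_area (S.wk _ hlt) (by omega)
    rw [S.μB h hh] at h2
    exact S.run_outB hh ((S.run_in hd).trans h2)

end

end RotWqo.Hk.Uni33
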